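import Mathlib

/-! Abstract perturbation theorem for sets of idempotent matrices. -/

namespace H62.EC

attribute [local instance] Matrix.normedAddCommGroup Matrix.normedSpace

abbrev M4 := Matrix (Fin 4) (Fin 4) ℝ

theorem norm_mul4 (A B : M4) : ‖A * B‖ ≤ 4 * ‖A‖ * ‖B‖ := by
  rw [Matrix.norm_le_iff (by positivity)]
  intro i j
  rw [Matrix.mul_apply]
  calc ‖∑ k, A i k * B k j‖ ≤ ∑ k : Fin 4, ‖A i k * B k j‖ := norm_sum_le _ _
    _ ≤ ∑ _k : Fin 4, ‖A‖ * ‖B‖ := by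
        refine Finset.sum_le_sum fun k _ => ?_
        rw [norm_mul]
        exact mul_le_mul (Matrix.norm_entry_le_entrywise_sup_norm A)
          (Matrix.norm_entry_le_entrywise_sup_norm B) (norm_nonneg _) (norm_nonneg _)
    _ = 4 * ‖A‖ * ‖B‖ := by simp; ring

theorem abs_trace4 (A : M4) : |A.trace| ≤ 4 * ‖A‖ := by
  rw [Matrix.trace, ← Real.norm_eq_abs]
  calc ‖∑ i, A.diag i‖ ≤ ∑ i : Fin 4, ‖A.diag i‖ := norm_sum_le _ _
    _ ≤ ∑ _i : Fin 4, ‖A‖ := Finset.sum_le_sum fun k _ => Matrix.norm_entry_le_entrywise_sup_norm A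
    _ = 4 * ‖A‖ := by simp

theorem abs_trace_mul (A B : M4) : |(A * B).trace| ≤ 16 * ‖A‖ * ‖B‖ := by
  calc |(A * B).trace| ≤ 4 * ‖A * B‖ := abs_trace4 _
    _ ≤ 4 * (4 * ‖A‖ * ‖B‖) := by gcongr; exact norm_mul4 A B
    _ = 16 * ‖A‖ * ‖B‖ := by ring

/-- the defect -/
def Dd (P Q : M4) : ℝ := 2 - (P * Q).trace

/-- the functional `tr (N (1-P) Q (1-P))` -/
def ff (N P Q : M4) : ℝ := (N * ((1 - P) * Q * (1 - P))).trace

theorem Dd_sub_left (P P' Q : M4) : |Dd P Q - Dd P' Q| ≤ 16 * ‖P - P'‖ * ‖Q‖ := by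
  have : Dd P Q - Dd P' Q = -((P - P') * Q).trace := by
    simp only [Dd, Matrix.sub_mul, Matrix.trace_sub]; ring
  rw [this, abs_neg]
  exact abs_trace_mul _ _

theorem Dd_sub_right (P Q Q' : M4) : |Dd P Q - Dd P Q'| ≤ 16 * ‖P‖ * ‖Q - Q'‖ := by
  have : Dd P Q - Dd P Q' = -(P * (Q - Q')).trace := by
    simp only [Dd, Matrix.mul_sub, Matrix.trace_sub]; ring
  rw [this, abs_neg]
  exact abs_trace_mul _ _

theorem ff_one (P Q : M4) (hP : P * P = P) (hQ : Q.trace = 2) : ff 1 P Q = Dd P Q := by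
  unfold ff Dd
  rw [Matrix.one_mul, Matrix.trace_mul_comm, ← Matrix.mul_assoc]
  have : (1 - P) * (1 - P) = 1 - P := by
    rw [Matrix.sub_mul, Matrix.one_mul, Matrix.mul_sub, Matrix.mul_one, hP]; simp
  rw [this, Matrix.sub_mul, Matrix.one_mul, Matrix.trace_sub, hQ]

theorem ff_add (s : ℝ) (N P Q : M4) : ff (1 + s • N) P Q = ff 1 P Q + s * ff N P Q := by
  simp only [ff, Matrix.add_mul, Matrix.smul_mul, Matrix.trace_add, Matrix.trace_smul, smul_eq_mul]

theorem ff_sq (P Q : M4) (hP : P * P = P) (hQ : Q * Q = Q) :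
    (1 - P) * Q * (1 - P) = (1 - P) * ((Q - P) * (Q - P)) * (1 - P) := by
  have e1 : (1 - P) * (Q - P) = (1 - P) * Q := by
    rw [Matrix.mul_sub]
    have : (1 - P) * P = 0 := by rw [Matrix.sub_mul, Matrix.one_mul, hP]; simp
    rw [this, sub_zero]
  have e2 : (Q - P) * (1 - P) = Q * (1 - P) := by
    rw [Matrix.sub_mul]
    have : P * (1 - P) = 0 := by rw [Matrix.mul_sub, Matrix.mul_one, hP]; simp
    rw [this, sub_zero]
  calc (1 - P) * Q * (1 - P) = (1 - P) * (Q * Q) * (1 - P) := by rw [hQ]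
    _ = ((1 - P) * Q) * (Q * (1 - P)) := by simp only [Matrix.mul_assoc]
    _ = ((1 - P) * (Q - P)) * ((Q - P) * (1 - P)) := by rw [e1, e2]
    _ = _ := by simp only [Matrix.mul_assoc]

theorem ff_quad (N : M4) (R : ℝ) : ∃ c : ℝ, 0 ≤ c ∧ ∀ P Q : M4, P * P = P → Q * Q = Q → ‖P‖ ≤ R →
    |ff N P Q| ≤ c * ‖P - Q‖ ^ 2 := by
  refine ⟨16 * ‖N‖ * (4 * (4 * (‖(1:M4)‖ + |R|) * 4) * (‖(1:M4)‖ + |R|)), by positivity, ?_⟩
  intro P Q hP hQ hR
  unfold ff
  rw [ff_sq P Q hP hQ]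
  have h1 : ‖(1:M4) - P‖ ≤ ‖(1:M4)‖ + |R| :=
    (norm_sub_le _ _).trans (by gcongr; exact hR.trans (le_abs_self R))
  have h2 : ‖Q - P‖ = ‖P - Q‖ := norm_sub_rev _ _
  have h3 : ‖(Q - P) * (Q - P)‖ ≤ 4 * ‖P - Q‖ * ‖P - Q‖ := by
    have := norm_mul4 (Q - P) (Q - P); rwa [h2] at this
  have h4 : ‖(1 - P) * ((Q - P) * (Q - P))‖ ≤ 4 * (‖(1:M4)‖ + |R|) * (4 * ‖P - Q‖ * ‖P - Q‖) :=
    (norm_mul4 _ _).trans (by gcongr)
  have h5 : ‖(1 - P) * ((Q - P) * (Q - P)) * (1 - P)‖ ≤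
      4 * (4 * (‖(1:M4)‖ + |R|) * (4 * ‖P - Q‖ * ‖P - Q‖)) * (‖(1:M4)‖ + |R|) :=
    (norm_mul4 _ _).trans (by gcongr)
  calc _ ≤ 16 * ‖N‖ * ‖(1 - P) * ((Q - P) * (Q - P)) * (1 - P)‖ := abs_trace_mul _ _
    _ ≤ 16 * ‖N‖ * (4 * (4 * (‖(1:M4)‖ + |R|) * (4 * ‖P - Q‖ * ‖P - Q‖)) * (‖(1:M4)‖ + |R|)) := by
        gcongr
    _ = _ := by ring

theorem ff_bound (N : M4) (R : ℝ) : ∃ c : ℝ, 0 ≤ c ∧ ∀ P Q : M4, ‖P‖ ≤ R → ‖Q‖ ≤ R → |ff N P Q| ≤ c := by
  refine ⟨16 * ‖N‖ * (4 * (4 * (‖(1:M4)‖ + |R|) * |R|) * (‖(1:M4)‖ + |R|)), by positivity, ?_⟩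
  intro P Q hP hQ
  unfold ff
  have h1 : ‖(1:M4) - P‖ ≤ ‖(1:M4)‖ + |R| :=
    (norm_sub_le _ _).trans (by gcongr; exact hP.trans (le_abs_self R))
  have h2 : ‖Q‖ ≤ |R| := hQ.trans (le_abs_self R)
  have h4 : ‖(1 - P) * Q‖ ≤ 4 * (‖(1:M4)‖ + |R|) * |R| :=
    (norm_mul4 _ _).trans (by gcongr)
  have h5 : ‖(1 - P) * Q * (1 - P)‖ ≤ 4 * (4 * (‖(1:M4)‖ + |R|) * |R|) * (‖(1:M4)‖ + |R|) :=
    (norm_mul4 _ _).trans (by gcongr)
  exact (abs_trace_mul _ _).trans (by gcongr)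

theorem ff_cont (N : M4) : Continuous (fun x : M4 × M4 => ff N x.1 x.2) := by
  unfold ff
  have h1 : Continuous (fun x : M4 × M4 => (1 - x.1) * x.2 * (1 - x.1)) :=
    ((continuous_const.sub continuous_fst).matrix_mul continuous_snd).matrix_mul
      (continuous_const.sub continuous_fst)
  exact ((continuous_const : Continuous fun _ : M4 × M4 => N).matrix_mul h1).matrix_trace

theorem Dd_cont_right (P : M4) : Continuous (fun Q : M4 => Dd P Q) := by
  unfold Dd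
  exact continuous_const.sub (((continuous_const : Continuous fun _ : M4 => P).matrix_mul
    continuous_id).matrix_trace)

theorem Dd_cont_left (P : M4) : Continuous (fun Q : M4 => Dd Q P) := by
  unfold Dd
  exact continuous_const.sub ((continuous_id.matrix_mul
    (continuous_const : Continuous fun _ : M4 => P)).matrix_trace)

/-- minimum of a positive continuous function on a compact set -/
theorem compact_min (S : Set M4) (hS : IsCompact S) (f : M4 → ℝ) (hf : Continuous f)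
    (hpos : ∀ x ∈ S, 0 < f x) : ∃ m : ℝ, 0 < m ∧ ∀ x ∈ S, m ≤ f x := by
  rcases S.eq_empty_or_nonempty with h | h
  · exact ⟨1, one_pos, fun x hx => by rw [h] at hx; exact absurd hx (Set.notMem_empty x)⟩
  · obtain ⟨x, hx, hm⟩ := hS.exists_isMinOn h hf.continuousOn
    exact ⟨f x, hpos x hx, fun y hy => hm hy⟩

theorem ff_near (N P0 P1 : M4) (h : 0 < ff N P0 P1) : ∃ ε : ℝ, 0 < ε ∧ ∀ P Q : M4,
    ‖P - P0‖ < ε → ‖Q - P1‖ < ε → ff N P0 P1 / 2 ≤ ff N P Q := by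
  have hc := (ff_cont N).continuousAt (x := (P0, P1))
  have hev : ∀ᶠ x in nhds (P0, P1), ff N P0 P1 / 2 < ff N x.1 x.2 :=
    hc.eventually_const_lt (by linarith)
  obtain ⟨ε, hε, hh⟩ := Metric.eventually_nhds_iff.1 hev
  refine ⟨ε, hε, fun P Q h1 h2 => (hh (y := (P, Q)) ?_).le⟩
  rw [Prod.dist_eq, max_lt_iff, dist_eq_norm, dist_eq_norm]
  exact ⟨h1, h2⟩

theorem perturb (G : Set M4) (hG : IsCompact G) (σ : M4 → M4) (P0 P1 N0 : M4)
    (hP0 : P0 ∈ G) (hP1 : P1 ∈ G) (hne : P0 ≠ P1)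
    (h1 : ∀ P ∈ G, ∀ Q ∈ G, 0 ≤ Dd P Q ∧ (Dd P Q = 0 → Q = P ∨ Q = σ P))
    (hσ0 : σ P0 = P1) (hσ1 : σ P1 = P0) (hσ : ∀ P ∈ G, P0 = σ P → P = P1)
    (h2 : ∃ ρ κ : ℝ, 0 < ρ ∧ 0 < κ ∧ ∀ P ∈ G, ∀ Q ∈ G, ‖P - P1‖ < ρ → ‖Q - P1‖ < ρ →
      κ * ‖P - Q‖ ^ 2 ≤ Dd P Q)
    (h3 : 0 < ff N0 P0 P1) (h4 : 0 < ff N0 P1 P0) :
    ∃ Cs : ℝ, 0 < Cs ∧ ∀ ρ : ℝ, 0 < ρ → ∃ r : ℝ, 0 < r ∧ ∀ G' : Set M4,
      (∀ P ∈ G', P * P = P ∧ P.trace = 2) →
      (∀ P ∈ G', P ∈ G ∨ ‖P - P0‖ < r) →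
      (∀ P ∈ G', ∀ Q ∈ G', ‖P - P0‖ < ρ → ‖Q - P0‖ < ρ →
        Cs * ‖P - P0‖ * ‖P - Q‖ ^ 2 ≤ Dd P Q ∧ (P ≠ Q → 0 < Dd P Q)) →
      ∀ P ∈ G', ∃ N Q1 : M4, ∀ Q ∈ G', 0 ≤ ff N P Q ∧ (ff N P Q = 0 → Q = P ∨ Q = Q1) := by
  obtain ⟨ρ1, κ, hρ1, hκ, h2⟩ := h2
  obtain ⟨R0, hR0⟩ := hG.isBounded.exists_norm_le
  set R := |R0| + 1 with hR
  have hRpos : 0 < R := by positivity
  obtain ⟨c2, hc2, hc2'⟩ := ff_quad N0 (R + 1)
  obtain ⟨c3, hc3, hc3'⟩ := ff_bound N0 (R + 1)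
  obtain ⟨ε2, hε2, hf1⟩ := ff_near N0 P0 P1 h3
  obtain ⟨ε3, hε3, hf2⟩ := ff_near N0 P1 P0 h4
  set ν := min (ff N0 P0 P1) (ff N0 P1 P0) with hν
  have hνpos : 0 < ν := lt_min h3 h4
  set d := ‖P0 - P1‖ with hd
  have hdpos : 0 < d := norm_pos_iff.2 (sub_ne_zero.2 hne)
  set ε0 := min (min ε2 ε3) (d / 4) with hε0
  have hε0pos : 0 < ε0 := lt_min (lt_min hε2 hε3) (by positivity)
  set L := 16 * (R + 1) with hL
  have hLpos : 0 < L := by positivity
  set K := 2 * (L + 1) / ν with hK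
  have hKpos : 0 < K := by positivity
  have hKν : K * (ν / 2) = L + 1 := by rw [hK]; field_simp
  refine ⟨K * c2 + 1, by positivity, ?_⟩
  intro ρ hρ
  -- compactness constants
  have cl1 : ∀ (A : M4) (e : ℝ), IsClosed {Q : M4 | e ≤ ‖Q - A‖} := fun A e =>
    isClosed_le continuous_const (continuous_id.sub continuous_const).norm
  obtain ⟨m0, hm0, hm0'⟩ := compact_min (G ∩ {Q | ρ ≤ ‖Q - P0‖} ∩ {Q | ε0 ≤ ‖Q - P1‖})
    ((hG.inter_right (cl1 P0 ρ)).inter_right (cl1 P1 ε0)) (fun Q => Dd P0 Q) (Dd_cont_right P0) (by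
      rintro Q ⟨⟨hQ, hq1⟩, hq2⟩
      obtain ⟨a, b⟩ := h1 P0 hP0 Q hQ
      rcases eq_or_lt_of_le a with h | h
      · exfalso
        rcases b h.symm with h' | h'
        · rw [h'] at hq1; simp only [Set.mem_ofPred_eq, sub_self, norm_zero] at hq1; linarith
        · rw [hσ0] at h'
          rw [h'] at hq2; simp only [Set.mem_ofPred_eq, sub_self, norm_zero] at hq2; linarith
      · exact h)
  obtain ⟨m1, hm1, hm1'⟩ := compact_min (G ∩ {Q | ε0 ≤ ‖Q - P0‖} ∩ {Q | ρ1 ≤ ‖Q - P1‖})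
    ((hG.inter_right (cl1 P0 ε0)).inter_right (cl1 P1 ρ1)) (fun Q => Dd P1 Q) (Dd_cont_right P1) (by
      rintro Q ⟨⟨hQ, hq1⟩, hq2⟩
      obtain ⟨a, b⟩ := h1 P1 hP1 Q hQ
      rcases eq_or_lt_of_le a with h | h
      · exfalso
        rcases b h.symm with h' | h'
        · rw [h'] at hq2; simp only [Set.mem_ofPred_eq, sub_self, norm_zero] at hq2; linarith
        · rw [hσ1] at h'
          rw [h'] at hq1; simp only [Set.mem_ofPred_eq, sub_self, norm_zero] at hq1; linarith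
      · exact h)
  set ε1 := min (min ε0 ρ1) (m1 / (2 * L)) with hε1
  have hε1pos : 0 < ε1 := lt_min (lt_min hε0pos hρ1) (by positivity)
  obtain ⟨m2, hm2, hm2'⟩ := compact_min (G ∩ {Q | ρ ≤ ‖Q - P0‖} ∩ {Q | ε1 ≤ ‖Q - P1‖})
    ((hG.inter_right (cl1 P0 ρ)).inter_right (cl1 P1 ε1)) (fun Q => Dd Q P0) (Dd_cont_left P0) (by
      rintro Q ⟨⟨hQ, hq1⟩, hq2⟩
      obtain ⟨a, b⟩ := h1 Q hQ P0 hP0
      rcases eq_or_lt_of_le a with h | h
      · exfalso
        rcases b h.symm with h' | h'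
        · rw [← h'] at hq1; simp only [Set.mem_ofPred_eq, sub_self, norm_zero] at hq1; linarith
        · rw [hσ Q hQ h'] at hq2
          simp only [Set.mem_ofPred_eq, sub_self, norm_zero] at hq2; linarith
      · exact h)
  -- choice of r
  obtain ⟨r, hr, r1, r2, r3, r4, r5, r6, r7⟩ : ∃ r : ℝ, 0 < r ∧ r ≤ 1 ∧ r ≤ ρ ∧ r ≤ ε0 ∧
      (L + K * c3) * r ≤ m0 / 2 ∧ K * r * c2 ≤ κ / 2 ∧ K * r * c3 ≤ m1 / 4 ∧ L * r ≤ m2 / 2 := by
    have key : ∀ a b : ℝ, 0 ≤ a → 0 < b → ∀ r, r ≤ b / (a + 1) → 0 < r → a * r ≤ b := by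
      intro a b ha hb r hr hr0
      rw [le_div_iff₀ (by positivity)] at hr
      nlinarith
    set r := min (min (min 1 ρ) (min ε0 ((m0/2) / ((L + K * c3) + 1))))
      (min (min ((κ/2) / (K * c2 + 1)) ((m1/4) / (K * c3 + 1))) ((m2/2) / (L + 1))) with hr
    have hpos : 0 < r := by
      apply lt_min (lt_min (lt_min one_pos hρ) (lt_min hε0pos (by positivity)))
        (lt_min (lt_min (by positivity) (by positivity)) (by positivity))
    refine ⟨r, hpos, ?_, ?_, ?_, ?_, ?_, ?_, ?_⟩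
    · exact (min_le_left _ _).trans ((min_le_left _ _).trans (min_le_left _ _))
    · exact (min_le_left _ _).trans ((min_le_left _ _).trans (min_le_right _ _))
    · exact (min_le_left _ _).trans ((min_le_right _ _).trans (min_le_left _ _))
    · exact key _ _ (by positivity) (by positivity) r
        ((min_le_left _ _).trans ((min_le_right _ _).trans (min_le_right _ _))) hpos
    · have := key (K * c2) (κ/2) (by positivity) (by positivity) r
        ((min_le_right _ _).trans ((min_le_left _ _).trans (min_le_left _ _))) hpos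
      linarith
    · have := key (K * c3) (m1/4) (by positivity) (by positivity) r
        ((min_le_right _ _).trans ((min_le_left _ _).trans (min_le_right _ _))) hpos
      linarith
    · exact key _ _ (by positivity) (by positivity) r ((min_le_right _ _).trans (min_le_right _ _)) hpos
  refine ⟨r, hr, ?_⟩
  intro G' hi hii hiii P hP
  -- bounds
  have hRG : ∀ P ∈ G, ‖P‖ ≤ R := fun P hP => (hR0 P hP).trans (by rw [hR]; linarith [le_abs_self R0])
  have hRG' : ∀ P ∈ G', ‖P‖ ≤ R + 1 := by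
    intro P hP
    rcases hii P hP with h | h
    · linarith [hRG P h]
    · have : ‖P‖ ≤ ‖P0‖ + ‖P - P0‖ := by
        have := norm_add_le P0 (P - P0); simpa using this
      linarith [hRG P0 hP0]
  have hDl : ∀ P P' Q : M4, ‖Q‖ ≤ R + 1 → Dd P' Q - L * ‖P - P'‖ ≤ Dd P Q := by
    intro P P' Q hQ
    have := (abs_le.1 (Dd_sub_left P P' Q)).1
    have h5 : 16 * ‖P - P'‖ * ‖Q‖ ≤ L * ‖P - P'‖ := by
      rw [hL]; nlinarith [norm_nonneg (P - P')]
    linarith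
  have hDr : ∀ P Q Q' : M4, ‖P‖ ≤ R + 1 → Dd P Q' - L * ‖Q - Q'‖ ≤ Dd P Q := by
    intro P Q Q' hP
    have := (abs_le.1 (Dd_sub_right P Q Q')).1
    have h5 : 16 * ‖P‖ * ‖Q - Q'‖ ≤ L * ‖Q - Q'‖ := by
      rw [hL]; nlinarith [norm_nonneg (Q - Q')]
    linarith
  have hDN : ∀ (s : ℝ) (P Q : M4), P ∈ G' → Q ∈ G' → ff (1 + s • N0) P Q = Dd P Q + s * ff N0 P Q := by
    intro s P Q hP hQ
    rw [ff_add, ff_one P Q (hi P hP).1 (hi Q hQ).2]
  have hν1 : ν / 2 ≤ ff N0 P0 P1 / 2 := by have := min_le_left (ff N0 P0 P1) (ff N0 P1 P0); linarith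
  have hν2 : ν / 2 ≤ ff N0 P1 P0 / 2 := by have := min_le_right (ff N0 P0 P1) (ff N0 P1 P0); linarith
  have hε02 : ε0 ≤ ε2 := (min_le_left _ _).trans (min_le_left _ _)
  have hε03 : ε0 ≤ ε3 := (min_le_left _ _).trans (min_le_right _ _)
  have hε0d : ε0 ≤ d / 4 := min_le_right _ _
  have hε10 : ε1 ≤ ε0 := (min_le_left _ _).trans (min_le_left _ _)
  have hε1ρ : ε1 ≤ ρ1 := (min_le_left _ _).trans (min_le_right _ _)
  have hε1m : L * ε1 ≤ m1 / 2 := by
    have : ε1 ≤ m1 / (2 * L) := min_le_right _ _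
    rw [le_div_iff₀ (by positivity)] at this
    linarith
  by_cases hC : ‖P - P0‖ < r
  · -- case (C)
    refine ⟨1 + (K * ‖P - P0‖) • N0, P1, ?_⟩
    intro Q hQ
    rw [hDN _ P Q hP hQ]
    have hx0 := norm_nonneg (P - P0)
    by_cases hq0 : ‖Q - P0‖ < ρ
    · obtain ⟨a, b⟩ := hiii P hP Q hQ (lt_of_lt_of_le hC r2) hq0
      have c := (abs_le.1 (hc2' P Q (hi P hP).1 (hi Q hQ).1 (hRG' P hP))).1
      have e : K * ‖P - P0‖ * ff N0 P Q ≥ - (K * c2 * ‖P - P0‖ * ‖P - Q‖^2) := by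
        have : K * ‖P - P0‖ * (-(c2 * ‖P - Q‖ ^ 2)) ≤ K * ‖P - P0‖ * ff N0 P Q :=
          mul_le_mul_of_nonneg_left c (by positivity)
        linarith
      have e2 : 0 ≤ ‖P - P0‖ * ‖P - Q‖^2 := by positivity
      refine ⟨by linarith, fun h0 => ?_⟩
      left
      by_contra hne'
      have hne2 : P ≠ Q := fun h => hne' h.symm
      have hpq : 0 < ‖P - Q‖ := norm_pos_iff.2 (sub_ne_zero.2 hne2)
      rcases eq_or_lt_of_le hx0 with h | h
      · rw [← h] at h0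
        have := b hne2
        simp at h0
        linarith
      · have : 0 < ‖P - P0‖ * ‖P - Q‖^2 := by positivity
        linarith
    · push Not at hq0
      have hQG : Q ∈ G := by
        rcases hii Q hQ with h | h
        · exact h
        · exfalso; linarith
      obtain ⟨a, b⟩ := h1 P0 hP0 Q hQG
      have hD := hDl P P0 Q (hRG' Q hQ)
      by_cases hq1 : ‖Q - P1‖ < ε0
      · have f1 := hf1 P Q (by linarith) (by linarith)
        have f2 : K * ‖P - P0‖ * (ν/2) ≤ K * ‖P - P0‖ * ff N0 P Q :=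
          mul_le_mul_of_nonneg_left (by linarith) (by positivity)
        have f3 : K * ‖P - P0‖ * (ν/2) = (L + 1) * ‖P - P0‖ := by rw [← hKν]; ring
        refine ⟨by linarith, fun h0 => ?_⟩
        right
        have : ‖P - P0‖ = 0 := by linarith
        rw [this] at h0 hD
        have : Dd P0 Q = 0 := by simp at h0; linarith
        rcases b this with h' | h'
        · exfalso; rw [h'] at hq0; simp at hq0; linarith
        · rw [h', hσ0]
      · push Not at hq1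
        have m := hm0' Q ⟨⟨hQG, hq0⟩, hq1⟩
        have c := (abs_le.1 (hc3' P Q (hRG' P hP) (hRG' Q hQ))).1
        have e : K * ‖P - P0‖ * (-c3) ≤ K * ‖P - P0‖ * ff N0 P Q :=
          mul_le_mul_of_nonneg_left c (by positivity)
        have e2 : (L + K * c3) * ‖P - P0‖ ≤ (L + K * c3) * r :=
          mul_le_mul_of_nonneg_left hC.le (by positivity)
        have : 0 < Dd P Q + K * ‖P - P0‖ * ff N0 P Q := by linarith
        exact ⟨this.le, fun h0 => absurd h0 this.ne'⟩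
  · push Not at hC
    have hPG : P ∈ G := by
      rcases hii P hP with h | h
      · exact h
      · exfalso; linarith
    by_cases hB : ‖P - P1‖ < ε1
    · -- case (B)
      refine ⟨1 + (K * r) • N0, P, ?_⟩
      intro Q hQ
      rw [hDN _ P Q hP hQ]
      by_cases hq0 : ‖Q - P0‖ < ε0
      · have f1 := hf2 P Q (by linarith) (by linarith)
        have f2 : K * r * (ν/2) ≤ K * r * ff N0 P Q :=
          mul_le_mul_of_nonneg_left (by linarith) (by positivity)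
        have f3 : K * r * (ν/2) = (L + 1) * r := by rw [← hKν]; ring
        have : 0 < Dd P Q + K * r * ff N0 P Q := by
          rcases hii Q hQ with h | h
          · have := (h1 P hPG Q h).1
            nlinarith
          · have a := (h1 P hPG P0 hP0).1
            have b := hDr P Q P0 (hRG' P hP)
            nlinarith
        exact ⟨this.le, fun h0 => absurd h0 this.ne'⟩
      · push Not at hq0
        have hQG : Q ∈ G := by
          rcases hii Q hQ with h | h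
          · exact h
          · exfalso; linarith
        by_cases hq1 : ‖Q - P1‖ < ρ1
        · have a := h2 P hPG Q hQG (by linarith) hq1
          have c := (abs_le.1 (hc2' P Q (hi P hP).1 (hi Q hQ).1 (hRG' P hP))).1
          have e : K * r * (-(c2 * ‖P - Q‖ ^ 2)) ≤ K * r * ff N0 P Q :=
            mul_le_mul_of_nonneg_left c (by positivity)
          have e2 : K * r * c2 * ‖P - Q‖^2 ≤ κ / 2 * ‖P - Q‖^2 :=
            mul_le_mul_of_nonneg_right r5 (by positivity)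
          have e3 : 0 ≤ κ / 2 * ‖P - Q‖^2 := by positivity
          refine ⟨by linarith, fun h0 => ?_⟩
          left
          by_contra hne'
          have hne2 : P ≠ Q := fun h => hne' h.symm
          have hpq : 0 < ‖P - Q‖ := norm_pos_iff.2 (sub_ne_zero.2 hne2)
          have : 0 < κ / 2 * ‖P - Q‖^2 := by positivity
          linarith
        · push Not at hq1
          have m := hm1' Q ⟨⟨hQG, hq0⟩, hq1⟩
          have a := hDl P P1 Q (hRG' Q hQ)
          have c := (abs_le.1 (hc3' P Q (hRG' P hP) (hRG' Q hQ))).1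
          have e : K * r * (-c3) ≤ K * r * ff N0 P Q :=
            mul_le_mul_of_nonneg_left c (by positivity)
          have e2 : L * ‖P - P1‖ ≤ L * ε1 := mul_le_mul_of_nonneg_left hB.le hLpos.le
          have : 0 < Dd P Q + K * r * ff N0 P Q := by linarith
          exact ⟨this.le, fun h0 => absurd h0 this.ne'⟩
    · push Not at hB
      refine ⟨1, σ P, ?_⟩
      intro Q hQ
      rw [ff_one P Q (hi P hP).1 (hi Q hQ).2]
      rcases hii Q hQ with h | h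
      · exact h1 P hPG Q h
      · by_cases hp : ‖P - P0‖ < ρ
        · obtain ⟨_, b⟩ := hiii P hP Q hQ hp (by linarith)
          by_cases hpq : P = Q
          · rw [← hpq]
            exact ⟨(h1 P hPG P hPG).1, fun _ => Or.inl rfl⟩
          · have := b hpq
            exact ⟨this.le, fun h0 => absurd h0 this.ne'⟩
        · push Not at hp
          have m := hm2' P ⟨⟨hPG, hp⟩, hB⟩
          have a := hDr P Q P0 (hRG' P hP)
          have e2 : L * ‖Q - P0‖ ≤ L * r := mul_le_mul_of_nonneg_left h.le hLpos.le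
          have : 0 < Dd P Q := by linarith
          exact ⟨this.le, fun h0 => absurd h0 this.ne'⟩

end H62.EC
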