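import Pool.Agent.H62.EC.Newen

/-! The atomic condition for the modified energy. -/

namespace H62.EC

open H62.GI

attribute [local instance] Matrix.normedAddCommGroup Matrix.normedSpace

theorem BB00 : BB 0 0 = Pz := by
  rw [← BK_tz, ← tn_V0, ← Bm_Lens (V_LI 0), Bm_BB Lens_isEnergy, Gv_Lens0]

def SS : Set (X4 × X4) := {p | ‖p.1‖ ≤ 1 ∧ ‖p.2‖ ≤ 1}

theorem BL_fst (i : Fin 4) : BL SS (fun p => p.1 i) := by
  refine ⟨1, zero_le_one, fun p hp => ?_, fun p _ q _ => ?_⟩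
  · have := PiLp.norm_apply_le p.1 i
    rw [Real.norm_eq_abs] at this
    exact this.trans hp.1
  · have h1 : |(p.1 - q.1) i| ≤ ‖p.1 - q.1‖ := by
      rw [← Real.norm_eq_abs]; exact PiLp.norm_apply_le (p.1 - q.1) i
    have h2 : dist p.1 q.1 ≤ dist p q := le_max_left _ _
    rw [dist_eq_norm] at h2
    rw [one_mul]; exact h1.trans h2

theorem BL_snd (i : Fin 4) : BL SS (fun p => p.2 i) := by
  refine ⟨1, zero_le_one, fun p hp => ?_, fun p _ q _ => ?_⟩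
  · have := PiLp.norm_apply_le p.2 i
    rw [Real.norm_eq_abs] at this
    exact this.trans hp.2
  · have h1 : |(p.2 - q.2) i| ≤ ‖p.2 - q.2‖ := by
      rw [← Real.norm_eq_abs]; exact PiLp.norm_apply_le (p.2 - q.2) i
    have h2 : dist p.2 q.2 ≤ dist p q := le_max_right _ _
    rw [dist_eq_norm] at h2
    rw [one_mul]; exact h1.trans h2

theorem BL_z00 (i : Fin 4) : BL SS (fun p => z00 p.1 p.2 i) := by
  have K := fun c : ℝ => BL.const (S := SS) c
  have h1 := (((BL_snd 0).mul (K (![-7/169, 0, 0, 17/169] i))).add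
    ((BL_snd 1).mul (K (![0, 1/169, -1/169, 0] i)))).add
    ((((K 1).sub ((BL_fst 0).mul (BL_snd 0))).sub ((BL_fst 1).mul (BL_snd 1))).mul (K (![12/169, 0, 0, -5/169] i)))
  exact h1.sub ((((BL_fst 2).mul (BL_snd 0)).add ((BL_fst 3).mul (BL_snd 1))).mul (K (![0, 85/169, 84/169, 0] i)))

theorem BL_z11 (i : Fin 4) : BL SS (fun p => z11 p.1 p.2 i) := by
  have K := fun c : ℝ => BL.const (S := SS) c
  have h1 := (((BL_snd 2).mul (K (![-7/169, 0, 0, 17/169] i))).add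
    ((BL_snd 3).mul (K (![0, 1/169, -1/169, 0] i)))).sub
    ((((BL_fst 0).mul (BL_snd 2)).add ((BL_fst 1).mul (BL_snd 3))).mul (K (![12/169, 0, 0, -5/169] i)))
  exact h1.add ((((K 1).sub ((BL_fst 2).mul (BL_snd 2))).sub ((BL_fst 3).mul (BL_snd 3))).mul
    (K (![0, 85/169, 84/169, 0] i)))

theorem BL_v0 (j : Fin 4) : BL SS (fun p => (![17 + 5 * p.1 0, 84 * p.1 1, -85 * p.1 1, 7 + 12 * p.1 0] : Fin 4 → ℝ) j) := by
  have K := fun c : ℝ => BL.const (S := SS) c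
  fin_cases j
  · exact (K 17).add ((K 5).mul (BL_fst 0))
  · exact (K 84).mul (BL_fst 1)
  · exact (K (-85)).mul (BL_fst 1)
  · exact (K 7).add ((K 12).mul (BL_fst 0))

theorem BL_v1 (j : Fin 4) : BL SS (fun p => (![5 * p.1 2, 1 + 84 * p.1 3, 1 - 85 * p.1 3, 12 * p.1 2] : Fin 4 → ℝ) j) := by
  have K := fun c : ℝ => BL.const (S := SS) c
  fin_cases j
  · exact (K 5).mul (BL_fst 2)
  · exact (K 1).add ((K 84).mul (BL_fst 3))
  · exact (K 1).sub ((K 85).mul (BL_fst 3))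
  · exact (K 12).mul (BL_fst 2)

theorem BL_BB (i j : Fin 4) : BL SS (fun p => BB p.1 p.2 i j) :=
  ((BL_z00 i).mul (BL_v0 j)).add ((BL_z11 i).mul (BL_v1 j))

theorem BB_lip : ∃ M : ℝ, 0 < M ∧ ∀ x G y H : X4, ‖x‖ ≤ 1 → ‖G‖ ≤ 1 → ‖y‖ ≤ 1 → ‖H‖ ≤ 1 →
    ‖BB x G - BB y H‖ ≤ M * (‖x - y‖ + ‖G - H‖) := by
  choose M hM hb hl using BL_BB
  refine ⟨(∑ i, ∑ j, M i j) + 1, ?_, ?_⟩
  · have : 0 ≤ ∑ i, ∑ j, M i j := Finset.sum_nonneg fun i _ => Finset.sum_nonneg fun j _ => hM i j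
    linarith
  · intro x G y H hx hG hy hH
    have hS : 0 ≤ ∑ i, ∑ j, M i j := Finset.sum_nonneg fun i _ => Finset.sum_nonneg fun j _ => hM i j
    rw [Matrix.norm_le_iff (by positivity)]
    intro i j
    rw [Matrix.sub_apply, Real.norm_eq_abs]
    refine (hl i j (x, G) ⟨hx, hG⟩ (y, H) ⟨hy, hH⟩).trans ?_
    have hd : dist (x, G) (y, H) ≤ ‖x - y‖ + ‖G - H‖ := by
      rw [Prod.dist_eq, dist_eq_norm, dist_eq_norm]
      exact max_le (by linarith [norm_nonneg (G - H)]) (by linarith [norm_nonneg (x - y)])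
    have h1 : M i j ≤ ∑ j, M i j := Finset.single_le_sum (fun j _ => hM i j) (Finset.mem_univ j)
    have h2 : ∑ j, M i j ≤ ∑ i, ∑ j, M i j :=
      Finset.single_le_sum (f := fun i => ∑ j, M i j) (fun i _ => Finset.sum_nonneg fun j _ => hM i j) (Finset.mem_univ i)
    exact mul_le_mul (by linarith) hd dist_nonneg (by linarith)

theorem far_lemma (R : ℝ) (hR : 0 < R) : ∃ ρ : ℝ, 0 < ρ ∧ ∀ v ∈ LI, ¬ (l0 v ≠ 0 ∧ ‖xc v‖ < R) →
    ρ ≤ ‖BK (tn v) - Pz‖ := by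
  have hev : ∀ᶠ t in nhds tz, L0 t ≠ 0 ∧ ‖xt t‖ < R := by
    apply Filter.Eventually.and
    · exact L0_cd.continuous.continuousAt.eventually_ne (by rw [L0_tz]; norm_num)
    · have hc : ContinuousAt (fun t => ‖xt t‖) tz :=
        ((xt_cdAt (t := tz) (by rw [L0_tz]; norm_num)).continuousAt).norm
      apply hc.eventually_lt_const
      show ‖xt tz‖ < R
      rw [xt_tz, norm_zero]; exact hR
  obtain ⟨ε, hε, hh⟩ := Metric.eventually_nhds_iff.1 hev
  obtain ⟨ρ, hρ, hi⟩ := inj_near ε hε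
  refine ⟨ρ, hρ, fun v hv hn => ?_⟩
  by_contra hcon
  push Not at hcon
  apply hn
  rw [l0_tn hv, xc_tn hv]
  have hp := (LI_iff_vol v).1 hv
  rcases hi _ (tn_KK hv) hcon with h | h
  · obtain ⟨h1, h2⟩ := hh (y := tn v) (by rwa [dist_eq_norm])
    exact ⟨mul_ne_zero hp.ne' h1, h2⟩
  · obtain ⟨h1, h2⟩ := hh (y := (-1 : ℝ) • tn v) (by
      rw [dist_eq_norm, show (-1 : ℝ) • tn v - tz = -(tn v + tz) by rw [neg_one_smul]; abel, norm_neg]; exact h)
    rw [L0_smul] at h1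
    rw [xt_smul _ (by norm_num)] at h2
    exact ⟨mul_ne_zero hp.ne' (right_ne_zero_of_mul h1), h2⟩

theorem exists_AC (e : X4) (he : ‖e‖ = 1) : ∃ L κ R c a : ℝ, Base phL (Gv Lens) L κ R ∧ 0 < c ∧ c * R ≤ 1 ∧
    c * R ≤ κ / 4 ∧ 0 < a ∧ 6 * a / κ < R^2 ∧ R ≤ 1 ∧ AC 4 2 (FE (En κ c a R e)) := by
  obtain ⟨L, κ, R0, hR01, B0⟩ := Base_Lens
  obtain ⟨Cs, hCs, hpert⟩ := perturb_lens
  obtain ⟨MB, hMB, hBB⟩ := BB_lip
  have hL := B0.hL
  have hκ := B0.hκ
  obtain ⟨L3, hL3⟩ : ∃ L3, L3 = L + κ + 6 := ⟨_, rfl⟩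
  have hL3p : 0 < L3 := by rw [hL3]; positivity
  obtain ⟨L4, hL4⟩ : ∃ L4, L4 = 2 * L3 + 12 * L3^2 / κ := ⟨_, rfl⟩
  have hL4p : 0 < L4 := by rw [hL4]; positivity
  obtain ⟨c, hc⟩ : ∃ c, c = 16 * (Cs * (MB * (1 + L3)) * (MB * (1 + L4))^2 + 1) := ⟨_, rfl⟩
  have hcp : 0 < c := by rw [hc]; positivity
  obtain ⟨R, hR, hRR, hcR1, hcR2, hLR, hLc⟩ : ∃ R : ℝ, 0 < R ∧ R ≤ R0 ∧ c * R ≤ 1 ∧ c * R ≤ κ / 4 ∧ L3 * R ≤ 1 ∧
      L3^2 * R ≤ c / 8 := by
    refine ⟨min (min (min R0 (1/c)) (κ/4/c)) (min (1/L3) (c/8/L3^2)), ?_, ?_, ?_, ?_, ?_, ?_⟩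
    · exact lt_min (lt_min (lt_min B0.hR (by positivity)) (by positivity)) (lt_min (by positivity) (by positivity))
    · exact (min_le_left _ _).trans ((min_le_left _ _).trans (min_le_left _ _))
    · have : min (min (min R0 (1/c)) (κ/4/c)) (min (1/L3) (c/8/L3^2)) ≤ 1/c :=
        (min_le_left _ _).trans ((min_le_left _ _).trans (min_le_right _ _))
      rw [le_div_iff₀ hcp] at this
      linarith
    · have : min (min (min R0 (1/c)) (κ/4/c)) (min (1/L3) (c/8/L3^2)) ≤ κ/4/c :=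
        (min_le_left _ _).trans (min_le_right _ _)
      rw [le_div_iff₀ hcp] at this
      linarith
    · have : min (min (min R0 (1/c)) (κ/4/c)) (min (1/L3) (c/8/L3^2)) ≤ 1/L3 :=
        (min_le_right _ _).trans (min_le_left _ _)
      rw [le_div_iff₀ hL3p] at this
      linarith
    · have : min (min (min R0 (1/c)) (κ/4/c)) (min (1/L3) (c/8/L3^2)) ≤ c/8/L3^2 :=
        (min_le_right _ _).trans (min_le_right _ _)
      rw [le_div_iff₀ (by positivity)] at this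
      linarith
  have B : Base phL (Gv Lens) L κ R := B0.mono hR hRR
  obtain ⟨ρ, hρ, hfar⟩ := far_lemma R hR
  obtain ⟨r, hr, hmain⟩ := hpert ρ hρ
  obtain ⟨s, hs, hsR, hsr⟩ : ∃ s : ℝ, 0 < s ∧ s < R ∧ MB * (1 + L3) * s ≤ r := by
    refine ⟨min (R/2) (r / (MB * (1 + L3))), lt_min (by linarith) (by positivity), ?_, ?_⟩
    · exact lt_of_le_of_lt (min_le_left _ _) (by linarith)
    · have : min (R/2) (r / (MB * (1 + L3))) ≤ r / (MB * (1 + L3)) := min_le_right _ _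
      rw [le_div_iff₀ (by positivity)] at this
      linarith
  obtain ⟨a, ha⟩ : ∃ a, a = κ * s^2 / 6 := ⟨_, rfl⟩
  have hap : 0 < a := by rw [ha]; positivity
  have hsa : 6 * a / κ = s^2 := by rw [ha]; field_simp
  have haR : 6 * a / κ < R^2 := by rw [hsa]; exact pow_lt_pow_left₀ hsR hs.le two_ne_zero
  have hE := En_isEnergy B he hcp hcR1 hcR2 hap haR
  refine ⟨L, κ, R, c, a, B, hcp, hcR1, hcR2, hap, haR, hRR.trans hR01, AC_of_crit hE ?_⟩
  have hR1 : R ≤ 1 := hRR.trans hR01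
  have hsz : ∀ x : X4, ‖x‖ < R → ‖Gn phL (Gv Lens) κ c a e x‖ ≤ L3 * ‖x‖ := by
    intro x hx
    rw [hL3]; exact md_Gsize B he hcp hcR1 hcR2 hap x hx
  have hsz1 : ∀ x : X4, ‖x‖ < R → ‖Gn phL (Gv Lens) κ c a e x‖ ≤ 1 := by
    intro x hx
    refine (hsz x hx).trans (le_trans ?_ hLR)
    exact mul_le_mul_of_nonneg_left hx.le hL3p.le
  have hP0 : ∀ x : X4, ‖x‖ < R → ‖BB x (Gn phL (Gv Lens) κ c a e x) - Pz‖ ≤ MB * (1 + L3) * ‖x‖ := by
    intro x hx
    rw [← BB00]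
    have := hBB x (Gn phL (Gv Lens) κ c a e x) 0 0 (by linarith) (hsz1 x hx) (by simp) (by simp)
    rw [sub_zero, sub_zero] at this
    refine this.trans ?_
    rw [mul_assoc]
    apply mul_le_mul_of_nonneg_left _ hMB.le
    linarith [hsz x hx]
  apply hmain
  · rintro P ⟨v, hv, rfl⟩
    exact ⟨Bm_idem hE hv, Bm_tr hE hv⟩
  · rintro P ⟨v, hv, rfl⟩
    by_cases h : l0 v ≠ 0 ∧ ‖xc v‖ < R
    · rw [Bm_En_on B he hcp hcR1 hcR2 hap haR hv h]
      by_cases h2 : ‖xc v‖ < s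
      · right
        refine lt_of_le_of_lt (hP0 _ h.2) (lt_of_lt_of_le ?_ hsr)
        exact mul_lt_mul_of_pos_left h2 (by positivity)
      · left
        push Not at h2
        have h3 : 6 * a / κ ≤ ‖xc v‖^2 := by
          rw [hsa]; exact pow_le_pow_left₀ hs.le h2 2
        have h4 : Gn phL (Gv Lens) κ c a e (xc v) = Gv Lens (xc v) := by
          unfold Gn
          rw [mu_zero (by linarith) (md_off B he hcp hcR1 hcR2 hap _ h.2 h3), zero_smul, add_zero]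
        rw [h4, ← Bm_BB Lens_isEnergy, Bm_Lens (V_LI _)]
        exact ⟨_, tn_KK (V_LI _), rfl⟩
    · left
      rw [Bm_En_off B he hcp hcR1 hcR2 hap haR hv h]
      exact ⟨_, tn_KK hv, rfl⟩
  · rintro P ⟨v, hv, rfl⟩ Q ⟨w, hw, rfl⟩ hpP hpQ
    have hon : ∀ v ∈ LI, ‖Bm (En κ c a R e) v - Pz‖ < ρ → l0 v ≠ 0 ∧ ‖xc v‖ < R := by
      intro v hv hlt
      by_contra hcon
      rw [Bm_En_off B he hcp hcR1 hcR2 hap haR hv hcon] at hlt
      have := hfar v hv hcon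
      linarith
    have h1 := hon v hv hpP
    have h2 := hon w hw hpQ
    rw [Bm_En_on B he hcp hcR1 hcR2 hap haR hv h1, Bm_En_on B he hcp hcR1 hcR2 hap haR hw h2]
    obtain ⟨x, hx⟩ : ∃ x, x = xc v := ⟨_, rfl⟩
    obtain ⟨y, hy⟩ : ∃ y, y = xc w := ⟨_, rfl⟩
    have hxR : ‖x‖ < R := by rw [hx]; exact h1.2
    have hyR : ‖y‖ < R := by rw [hy]; exact h2.2
    rw [← hx, ← hy]
    have m1 := md_lb B he hcp hcR1 hcR2 hap x y hxR hyR
    have m2 := md_lb B he hcp hcR1 hcR2 hap y x hyR hxR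
    have e1 : inner ℝ (Gn phL (Gv Lens) κ c a e y - Gn phL (Gv Lens) κ c a e x) (y - x) =
        - inner ℝ (Gn phL (Gv Lens) κ c a e x) (y - x) - inner ℝ (Gn phL (Gv Lens) κ c a e y) (x - y) := by
      rw [inner_sub_left, ← neg_sub y x, inner_neg_right]; ring
    have e2 : ‖x - y‖ = ‖y - x‖ := norm_sub_rev x y
    rw [e2] at m2
    have hnx := norm_nonneg x
    have hny := norm_nonneg y
    have hq := QQ_bound (y - x) (Gn phL (Gv Lens) κ c a e x) (Gn phL (Gv Lens) κ c a e y)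
    have hq1 := neg_abs_le (QQ (y - x) (Gn phL (Gv Lens) κ c a e x) (Gn phL (Gv Lens) κ c a e y))
    have hq2 : ‖y - x‖^2 * ‖Gn phL (Gv Lens) κ c a e x‖ * ‖Gn phL (Gv Lens) κ c a e y‖ ≤
        ‖y - x‖^2 * ((c/16) * (‖x‖ + ‖y‖)) := by
      rw [mul_assoc]
      apply mul_le_mul_of_nonneg_left _ (by positivity)
      calc _ ≤ (L3 * ‖x‖) * (L3 * ‖y‖) := mul_le_mul (hsz x hxR) (hsz y hyR) (norm_nonneg _) (by positivity)
        _ = L3^2 * (‖x‖ * ‖y‖) := by ring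
        _ ≤ L3^2 * (R * (‖x‖ + ‖y‖) / 2) := by
          apply mul_le_mul_of_nonneg_left _ (by positivity)
          nlinarith
        _ = (L3^2 * R) * ((‖x‖ + ‖y‖) / 2) := by ring
        _ ≤ (c/8) * ((‖x‖ + ‖y‖) / 2) := mul_le_mul_of_nonneg_right hLc (by positivity)
        _ = _ := by ring
    have hD : (c/16) * (‖x‖ + ‖y‖) * ‖y - x‖^2 ≤
        Dd (BB x (Gn phL (Gv Lens) κ c a e x)) (BB y (Gn phL (Gv Lens) κ c a e y)) := by
      rw [D_BB, e1]
      linarith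
    constructor
    · refine le_trans ?_ hD
      have b1 := hP0 x hxR
      have b2 : ‖BB x (Gn phL (Gv Lens) κ c a e x) - BB y (Gn phL (Gv Lens) κ c a e y)‖ ≤ MB * (1 + L4) * ‖x - y‖ := by
        have := hBB x (Gn phL (Gv Lens) κ c a e x) y (Gn phL (Gv Lens) κ c a e y) (by linarith) (hsz1 x hxR)
          (by linarith) (hsz1 y hyR)
        refine this.trans ?_
        rw [mul_assoc]
        apply mul_le_mul_of_nonneg_left _ hMB.le
        have := md_Glip B he hcp hcR1 hcR2 hap x y hxR hyR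
        rw [← hL3, ← hL4] at this
        linarith
      rw [e2] at b2
      have b3 := pow_le_pow_left₀ (norm_nonneg _) b2 2
      calc _ ≤ Cs * (MB * (1 + L3) * ‖x‖) * (MB * (1 + L4) * ‖y - x‖)^2 := by
            apply mul_le_mul _ b3 (by positivity) (by positivity)
            exact mul_le_mul_of_nonneg_left b1 hCs.le
        _ = (Cs * (MB * (1 + L3)) * (MB * (1 + L4))^2) * (‖x‖ * ‖y - x‖^2) := by ring
        _ ≤ (c/16) * ((‖x‖ + ‖y‖) * ‖y - x‖^2) := by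
            apply mul_le_mul
            · rw [hc]; linarith
            · exact mul_le_mul_of_nonneg_right (by linarith) (by positivity)
            · positivity
            · positivity
        _ = _ := by ring
    · intro hne
      have hxy : x ≠ y := by
        intro h; apply hne; rw [h]
      have h3 : 0 < ‖y - x‖ := norm_pos_iff.2 (sub_ne_zero.2 hxy.symm)
      have h4 : 0 < ‖x‖ + ‖y‖ := by
        have := norm_sub_le y x
        linarith
      refine lt_of_lt_of_le ?_ hD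
      positivity

end H62.EC
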