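import Pool.Agent.H62.EC.Modif

/-! The modification lemma. -/

namespace H62.EC

structure Base (φ : X4' → ℝ) (G : X4' → X4') (L κ R : ℝ) : Prop where
  hL : 0 ≤ L
  hκ : 0 < κ
  hR : 0 < R
  d : ∀ x, ‖x‖ < R → HasFDerivAt φ (innerSL ℝ (G x)) x
  φ0 : φ 0 = 0
  G0 : G 0 = 0
  lip : ∀ x y, ‖x‖ < R → ‖y‖ < R → ‖G x - G y‖ ≤ L * ‖x - y‖
  lb : ∀ x y, ‖x‖ < R → ‖y‖ < R → φ x + inner ℝ (G x) (y - x) + κ * ‖y - x‖^2 ≤ φ y

section
variable {φ : X4' → ℝ} {G : X4' → X4'} {L κ R c a : ℝ} {e : X4'}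
  (B : Base φ G L κ R) (he : ‖e‖ = 1) (hc : 0 < c) (hc1 : c * R ≤ 1) (hc2 : c * R ≤ κ / 4)
  (ha : 0 < a)

/-- the switching argument -/
noncomputable def sw (φ : X4' → ℝ) (κ c a : ℝ) (e x : X4') : ℝ := a + psi κ c e x - φ x
/-- the correction -/
noncomputable def Zc (φ : X4' → ℝ) (κ c a : ℝ) (e x : X4') : ℝ := mm (a/2) (sw φ κ c a e x)
/-- the new gradient -/
noncomputable def Gn (φ : X4' → ℝ) (G : X4' → X4') (κ c a : ℝ) (e x : X4') : X4' :=
  G x + mu (a/2) (sw φ κ c a e x) • (gpsi κ c e x - G x)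

include B he hc hc1 hc2 ha

theorem md_gap (x : X4') (hx : ‖x‖ < R) : κ / 4 * ‖x‖^2 ≤ φ x - psi κ c e x := by
  have h1 := B.lb 0 x (by simpa using B.hR) hx
  rw [B.φ0, B.G0] at h1
  simp at h1
  have h2 : psi κ c e x ≤ κ / 2 * ‖x‖^2 + κ / 4 * ‖x‖^2 := by
    unfold psi
    have h3 : inner ℝ e x ^ 2 ≤ ‖x‖^2 := by
      have := abs_real_inner_le_norm e x
      rw [he, one_mul] at this
      rw [← sq_abs]
      exact pow_le_pow_left₀ (abs_nonneg _) this 2
    have h4 : c * ‖x‖^3 ≤ κ / 4 * ‖x‖^2 := by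
      have : c * ‖x‖ ≤ κ / 4 := by
        have : c * ‖x‖ ≤ c * R := mul_le_mul_of_nonneg_left hx.le hc.le
        linarith
      nlinarith [sq_nonneg ‖x‖]
    have := mul_le_mul_of_nonneg_left h3 (show 0 ≤ κ / 2 by have := B.hκ; linarith)
    linarith
  linarith

theorem md_off (x : X4') (hx : ‖x‖ < R) (hr : 6 * a / κ ≤ ‖x‖^2) : sw φ κ c a e x ≤ -(a/2) := by
  have h1 := md_gap B he hc hc1 hc2 ha x hx
  have hκ := B.hκ
  rw [div_le_iff₀ hκ] at hr
  unfold sw; linarith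

theorem md_deriv (x : X4') (hx : ‖x‖ < R) :
    HasFDerivAt (fun x => φ x + Zc φ κ c a e x) (innerSL ℝ (Gn φ G κ c a e x)) x := by
  have h1 := B.d x hx
  have h2 : HasFDerivAt (fun x => sw φ κ c a e x) (innerSL ℝ (gpsi κ c e x - G x)) x := by
    have := ((psi_hasFDerivAt κ c e x).const_add a).sub h1
    refine this.congr_fderiv ?_
    rw [map_sub]
  have h3 : HasFDerivAt (fun x => Zc φ κ c a e x)
      (mu (a/2) (sw φ κ c a e x) • innerSL ℝ (gpsi κ c e x - G x)) x :=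
    (mm_hasDerivAt (show 0 < a/2 by linarith) (sw φ κ c a e x)).comp_hasFDerivAt x h2
  refine (h1.add h3).congr_fderiv ?_
  unfold Gn
  rw [map_add, map_smul]

theorem md_lb (x y : X4') (hx : ‖x‖ < R) (hy : ‖y‖ < R) :
    φ x + Zc φ κ c a e x + inner ℝ (Gn φ G κ c a e x) (y - x) + (c/16) * (‖x‖ + ‖y‖) * ‖y - x‖^2 ≤
      φ y + Zc φ κ c a e y := by
  have hδ : 0 < a/2 := by linarith
  have h1 := B.lb x y hx hy
  have h2 := psi_lower κ c B.hκ.le hc.le e x y
  have h3 := mm_convex hδ (sw φ κ c a e x) (sw φ κ c a e y)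
  obtain ⟨m0, m1⟩ := mu_mem hδ (sw φ κ c a e x)
  have e1 : inner ℝ (Gn φ G κ c a e x) (y - x) = (1 - mu (a/2) (sw φ κ c a e x)) * inner ℝ (G x) (y - x)
      + mu (a/2) (sw φ κ c a e x) * inner ℝ (gpsi κ c e x) (y - x) := by
    unfold Gn
    rw [inner_add_left, inner_smul_left, inner_sub_left]
    simp; ring
  have e2 : sw φ κ c a e y - sw φ κ c a e x = (psi κ c e y - psi κ c e x) - (φ y - φ x) := by
    unfold sw; ring
  rw [e1]
  unfold Zc
  rw [e2] at h3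
  generalize mu (a/2) (sw φ κ c a e x) = μ at *
  have hmod : (c/16) * (‖x‖ + ‖y‖) * ‖y - x‖^2 ≤ κ * ‖y - x‖^2 := by
    apply mul_le_mul_of_nonneg_right _ (sq_nonneg _)
    have : (c/16) * (‖x‖ + ‖y‖) ≤ (c/16) * (R + R) := mul_le_mul_of_nonneg_left (by linarith) (by linarith)
    have hκ := B.hκ
    linarith
  have k1 := mul_le_mul_of_nonneg_left (h1.trans' (add_le_add_right hmod _)) (show 0 ≤ 1 - μ by linarith)
  have k2 := mul_le_mul_of_nonneg_left h2 m0
  nlinarith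

theorem md_size (x : X4') (hx : ‖x‖ < R) : ‖gpsi κ c e x‖ ≤ (κ + 3) * ‖x‖ := by
  unfold gpsi
  have hκ := B.hκ
  have h1 : ‖(κ * inner ℝ e x) • e‖ ≤ κ * ‖x‖ := by
    rw [norm_smul, he, mul_one, Real.norm_eq_abs, abs_mul, abs_of_pos hκ]
    apply mul_le_mul_of_nonneg_left _ hκ.le
    have := abs_real_inner_le_norm e x
    rwa [he, one_mul] at this
  have h2 : ‖(3 * c * ‖x‖) • x‖ ≤ 3 * ‖x‖ := by
    rw [norm_smul, Real.norm_eq_abs, abs_of_nonneg (by positivity)]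
    apply mul_le_mul_of_nonneg_right _ (norm_nonneg _)
    have : c * ‖x‖ ≤ c * R := mul_le_mul_of_nonneg_left hx.le hc.le
    linarith
  calc _ ≤ ‖(κ * inner ℝ e x) • e‖ + ‖(3 * c * ‖x‖) • x‖ := norm_add_le _ _
    _ ≤ κ * ‖x‖ + 3 * ‖x‖ := add_le_add h1 h2
    _ = _ := by ring

theorem md_psilip (x y : X4') (hx : ‖x‖ < R) (hy : ‖y‖ < R) :
    ‖gpsi κ c e x - gpsi κ c e y‖ ≤ (κ + 6) * ‖x - y‖ := by
  have hκ := B.hκ
  have e1 : gpsi κ c e x - gpsi κ c e y = (κ * inner ℝ e (x - y)) • e +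
      (3 * c) • (‖x‖ • (x - y) + (‖x‖ - ‖y‖) • y) := by
    unfold gpsi
    rw [inner_sub_right]
    module
  rw [e1]
  have h1 : ‖(κ * inner ℝ e (x - y)) • e‖ ≤ κ * ‖x - y‖ := by
    rw [norm_smul, he, mul_one, Real.norm_eq_abs, abs_mul, abs_of_pos hκ]
    apply mul_le_mul_of_nonneg_left _ hκ.le
    have := abs_real_inner_le_norm e (x - y)
    rwa [he, one_mul] at this
  have h2 : ‖‖x‖ • (x - y) + (‖x‖ - ‖y‖) • y‖ ≤ 2 * R * ‖x - y‖ := by
    calc _ ≤ ‖‖x‖ • (x - y)‖ + ‖(‖x‖ - ‖y‖) • y‖ := norm_add_le _ _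
      _ ≤ R * ‖x - y‖ + ‖x - y‖ * R := by
        apply add_le_add
        · rw [norm_smul, norm_norm]
          exact mul_le_mul_of_nonneg_right hx.le (norm_nonneg _)
        · rw [norm_smul, Real.norm_eq_abs]
          exact mul_le_mul (abs_norm_sub_norm_le x y) hy.le (norm_nonneg _) (norm_nonneg _)
      _ = _ := by ring
  calc _ ≤ ‖(κ * inner ℝ e (x - y)) • e‖ + ‖(3 * c) • (‖x‖ • (x - y) + (‖x‖ - ‖y‖) • y)‖ := norm_add_le _ _
    _ ≤ κ * ‖x - y‖ + (3 * c) * (2 * R * ‖x - y‖) := by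
      apply add_le_add h1
      rw [norm_smul, Real.norm_eq_abs, abs_of_pos (by positivity)]
      exact mul_le_mul_of_nonneg_left h2 (by positivity)
    _ ≤ (κ + 6) * ‖x - y‖ := by
      have : c * R * ‖x - y‖ ≤ 1 * ‖x - y‖ := mul_le_mul_of_nonneg_right hc1 (norm_nonneg _)
      nlinarith

theorem md_Gsize (x : X4') (hx : ‖x‖ < R) : ‖Gn φ G κ c a e x‖ ≤ (L + κ + 6) * ‖x‖ := by
  have hδ : 0 < a/2 := by linarith
  obtain ⟨m0, m1⟩ := mu_mem hδ (sw φ κ c a e x)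
  have h1 : ‖G x‖ ≤ L * ‖x‖ := by
    have := B.lip x 0 hx (by simpa using B.hR)
    rwa [B.G0, sub_zero, sub_zero] at this
  have h2 := md_size B he hc hc1 hc2 ha x hx
  have e1 : Gn φ G κ c a e x = (1 - mu (a/2) (sw φ κ c a e x)) • G x + mu (a/2) (sw φ κ c a e x) • gpsi κ c e x := by
    unfold Gn; module
  rw [e1]
  generalize mu (a/2) (sw φ κ c a e x) = μ at *
  have hn := norm_nonneg x
  have hκ := B.hκ
  have hL := B.hL
  calc _ ≤ ‖(1 - μ) • G x‖ + ‖μ • gpsi κ c e x‖ := norm_add_le _ _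
    _ ≤ (1 - μ) * (L * ‖x‖) + μ * ((κ + 3) * ‖x‖) := by
      rw [norm_smul, norm_smul, Real.norm_eq_abs, Real.norm_eq_abs, abs_of_nonneg m0, abs_of_nonneg (by linarith)]
      exact add_le_add (mul_le_mul_of_nonneg_left h1 (by linarith)) (mul_le_mul_of_nonneg_left h2 m0)
    _ ≤ 1 * (L * ‖x‖) + 1 * ((κ + 3) * ‖x‖) := by
      apply add_le_add
      · exact mul_le_mul_of_nonneg_right (by linarith) (by positivity)
      · exact mul_le_mul_of_nonneg_right (by linarith) (by positivity)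
    _ ≤ _ := by nlinarith

theorem md_swlip (x y : X4') (hx : ‖x‖ < R) (hy : ‖y‖ < R) (r : ℝ) (hxr : ‖x‖ ≤ r) (hyr : ‖y‖ ≤ r) :
    |sw φ κ c a e x - sw φ κ c a e y| ≤ (L + κ + 6) * r * ‖x - y‖ := by
  have hL := B.hL
  have hκ := B.hκ
  have hn := norm_nonneg (x - y)
  have hr0 : 0 ≤ r := (norm_nonneg x).trans hxr
  have hG : ∀ z : X4', ‖z‖ < R → ‖z‖ ≤ r → ‖G z‖ ≤ L * r := by
    intro z hz hzr
    have := B.lip z 0 hz (by simpa using B.hR)
    rw [B.G0, sub_zero, sub_zero] at this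
    exact this.trans (mul_le_mul_of_nonneg_left hzr hL)
  have hg : ∀ z : X4', ‖z‖ < R → ‖z‖ ≤ r → ‖gpsi κ c e z‖ ≤ (κ + 3) * r := by
    intro z hz hzr
    exact (md_size B he hc hc1 hc2 ha z hz).trans (mul_le_mul_of_nonneg_left hzr (by linarith))
  have hφ : ∀ z w : X4', ‖z‖ < R → ‖w‖ < R → ‖z‖ ≤ r → φ z - φ w ≤ L * r * ‖z - w‖ := by
    intro z w hz hw hzr
    have h1 := B.lb z w hz hw
    have h2 : - inner ℝ (G z) (w - z) ≤ L * r * ‖z - w‖ := by
      have := abs_real_inner_le_norm (G z) (w - z)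
      have h3 := neg_abs_le (inner ℝ (G z) (w - z))
      rw [norm_sub_rev w z] at this
      have h4 : ‖G z‖ * ‖z - w‖ ≤ L * r * ‖z - w‖ := mul_le_mul_of_nonneg_right (hG z hz hzr) (norm_nonneg _)
      linarith
    have : 0 ≤ κ * ‖w - z‖^2 := by positivity
    linarith
  have hψ : ∀ z w : X4', ‖z‖ < R → ‖w‖ < R → ‖z‖ ≤ r → psi κ c e z - psi κ c e w ≤ (κ + 3) * r * ‖z - w‖ := by
    intro z w hz hw hzr
    have h1 := psi_lower κ c hκ.le hc.le e z w
    have h2 : - inner ℝ (gpsi κ c e z) (w - z) ≤ (κ + 3) * r * ‖z - w‖ := by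
      have := abs_real_inner_le_norm (gpsi κ c e z) (w - z)
      have h3 := neg_abs_le (inner ℝ (gpsi κ c e z) (w - z))
      rw [norm_sub_rev w z] at this
      have h4 : ‖gpsi κ c e z‖ * ‖z - w‖ ≤ (κ + 3) * r * ‖z - w‖ := mul_le_mul_of_nonneg_right (hg z hz hzr) (norm_nonneg _)
      linarith
    have : 0 ≤ (c/16) * (‖z‖ + ‖w‖) * ‖w - z‖^2 := by positivity
    linarith
  have a1 := hφ x y hx hy hxr
  have a2 := hφ y x hy hx hyr
  have a3 := hψ x y hx hy hxr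
  have a4 := hψ y x hy hx hyr
  rw [norm_sub_rev y x] at a2 a4
  have h6 : 0 ≤ r * ‖x - y‖ := mul_nonneg hr0 hn
  unfold sw
  rw [abs_le]
  constructor <;> nlinarith

theorem md_Glip (x y : X4') (hx : ‖x‖ < R) (hy : ‖y‖ < R) :
    ‖Gn φ G κ c a e x - Gn φ G κ c a e y‖ ≤ (2 * (L + κ + 6) + 12 * (L + κ + 6)^2 / κ) * ‖x - y‖ := by
  have hδ : 0 < a/2 := by linarith
  have hL := B.hL
  have hκ := B.hκ
  -- wlog ‖y‖ ≤ ‖x‖
  have key : ∀ x y : X4', ‖x‖ < R → ‖y‖ < R → ‖y‖ ≤ ‖x‖ →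
      ‖Gn φ G κ c a e x - Gn φ G κ c a e y‖ ≤ (2 * (L + κ + 6) + 12 * (L + κ + 6)^2 / κ) * ‖x - y‖ := by
    intro x y hx hy hyx
    obtain ⟨m0, m1⟩ := mu_mem hδ (sw φ κ c a e x)
    obtain ⟨n0, n1⟩ := mu_mem hδ (sw φ κ c a e y)
    have hn := norm_nonneg (x - y)
    set L3 := L + κ + 6 with hL3
    have hL3p : 0 < L3 := by linarith
    have e1 : Gn φ G κ c a e x - Gn φ G κ c a e y =
        ((1 - mu (a/2) (sw φ κ c a e x)) • (G x - G y) + mu (a/2) (sw φ κ c a e x) • (gpsi κ c e x - gpsi κ c e y)) +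
        (mu (a/2) (sw φ κ c a e x) - mu (a/2) (sw φ κ c a e y)) • (gpsi κ c e y - G y) := by
      unfold Gn; module
    have t1 : ‖(1 - mu (a/2) (sw φ κ c a e x)) • (G x - G y) + mu (a/2) (sw φ κ c a e x) • (gpsi κ c e x - gpsi κ c e y)‖
        ≤ L3 * ‖x - y‖ := by
      have h1 := B.lip x y hx hy
      have h2 := md_psilip B he hc hc1 hc2 ha x y hx hy
      calc _ ≤ ‖(1 - mu (a/2) (sw φ κ c a e x)) • (G x - G y)‖ + ‖mu (a/2) (sw φ κ c a e x) • (gpsi κ c e x - gpsi κ c e y)‖ :=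
            norm_add_le _ _
        _ ≤ (1 - mu (a/2) (sw φ κ c a e x)) * (L * ‖x - y‖) + mu (a/2) (sw φ κ c a e x) * ((κ + 6) * ‖x - y‖) := by
          rw [norm_smul, norm_smul, Real.norm_eq_abs, Real.norm_eq_abs, abs_of_nonneg m0, abs_of_nonneg (by linarith)]
          exact add_le_add (mul_le_mul_of_nonneg_left h1 (by linarith)) (mul_le_mul_of_nonneg_left h2 m0)
        _ ≤ 1 * (L * ‖x - y‖) + 1 * ((κ + 6) * ‖x - y‖) := by
          apply add_le_add
          · exact mul_le_mul_of_nonneg_right (by linarith) (by positivity)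
          · exact mul_le_mul_of_nonneg_right (by linarith) (by positivity)
        _ = L3 * ‖x - y‖ := by rw [hL3]; ring
    have t3 : ‖gpsi κ c e y - G y‖ ≤ L3 * ‖y‖ := by
      have h1 := md_size B he hc hc1 hc2 ha y hy
      have h2 := B.lip y 0 hy (by simpa using B.hR)
      rw [B.G0, sub_zero, sub_zero] at h2
      have := norm_sub_le (gpsi κ c e y) (G y)
      have hy0 := norm_nonneg y
      rw [hL3]; nlinarith
    have t2 : ‖(mu (a/2) (sw φ κ c a e x) - mu (a/2) (sw φ κ c a e y)) • (gpsi κ c e y - G y)‖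
        ≤ (L3 + 12 * L3^2 / κ) * ‖x - y‖ := by
      rw [norm_smul, Real.norm_eq_abs]
      by_cases heq : mu (a/2) (sw φ κ c a e x) = mu (a/2) (sw φ κ c a e y)
      · rw [heq, sub_self, abs_zero, zero_mul]; positivity
      · have hr0 : 0 ≤ 6 * a / κ := by positivity
        set r := √(6 * a / κ) with hr
        have hrsq : r^2 = 6 * a / κ := Real.sq_sqrt hr0
        have hrp : 0 < r := Real.sqrt_pos.2 (by positivity)
        -- ‖y‖ < r
        have hoff : ∀ z : X4', ‖z‖ < R → r ≤ ‖z‖ → mu (a/2) (sw φ κ c a e z) = 0 := by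
          intro z hz hrz
          apply mu_zero hδ
          apply md_off B he hc hc1 hc2 ha z hz
          rw [← hrsq]; exact pow_le_pow_left₀ hrp.le hrz 2
        have hyr : ‖y‖ < r := by
          by_contra hcon
          push Not at hcon
          exact heq (by rw [hoff y hy hcon, hoff x hx (hcon.trans hyx)])
        have t4 : ‖gpsi κ c e y - G y‖ ≤ L3 * r := t3.trans (mul_le_mul_of_nonneg_left hyr.le hL3p.le)
        rcases le_total (2*r) ‖x‖ with h2r | h2r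
        · have hmx := hoff x hx (by linarith)
          have hxy : r ≤ ‖x - y‖ := by
            have := norm_sub_norm_le x y; linarith
          rw [hmx, zero_sub, abs_neg, abs_of_nonneg n0]
          calc _ ≤ 1 * (L3 * r) := mul_le_mul n1 t4 (norm_nonneg _) zero_le_one
            _ ≤ L3 * ‖x - y‖ := by rw [one_mul]; exact mul_le_mul_of_nonneg_left hxy hL3p.le
            _ ≤ _ := by
              apply mul_le_mul_of_nonneg_right _ hn
              have : 0 ≤ 12 * L3^2 / κ := by positivity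
              linarith
        · have t5 := mu_lip hδ (sw φ κ c a e x) (sw φ κ c a e y)
          have t6 := md_swlip B he hc hc1 hc2 ha x y hx hy (2*r) h2r (by linarith)
          have t7 : |mu (a/2) (sw φ κ c a e x) - mu (a/2) (sw φ κ c a e y)| ≤ (L3 * (2*r) * ‖x - y‖) / (2 * (a/2)) :=
            t5.trans (div_le_div_of_nonneg_right t6 (by linarith))
          calc _ ≤ ((L3 * (2*r) * ‖x - y‖) / (2 * (a/2))) * (L3 * r) :=
                mul_le_mul t7 t4 (norm_nonneg _) (by positivity)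
            _ = 2 * L3^2 * r^2 / a * ‖x - y‖ := by field_simp
            _ = 12 * L3^2 / κ * ‖x - y‖ := by rw [hrsq]; field_simp; ring
            _ ≤ _ := by
              apply mul_le_mul_of_nonneg_right _ hn
              linarith
    rw [e1]
    calc _ ≤ L3 * ‖x - y‖ + (L3 + 12 * L3^2 / κ) * ‖x - y‖ := (norm_add_le _ _).trans (add_le_add t1 t2)
      _ = _ := by ring
  rcases le_total ‖y‖ ‖x‖ with h | h
  · exact key x y hx hy h
  · have := key y x hy hx h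
    rwa [norm_sub_rev, norm_sub_rev y x] at this

theorem md_near : ∃ r0 : ℝ, 0 < r0 ∧ r0 ≤ R ∧ ∀ x : X4', ‖x‖ < r0 → Gn φ G κ c a e x = gpsi κ c e x := by
  have hc0 : ContinuousAt (fun x => sw φ κ c a e x) 0 := by
    unfold sw
    have h1 := (B.d 0 (by simpa using B.hR)).continuousAt
    exact ((continuous_const.add (psi_contDiff κ c e).continuous).continuousAt).sub h1
  have h0 : sw φ κ c a e 0 = a := by simp [sw, psi, B.φ0]
  have hev : ∀ᶠ x in nhds (0 : X4'), a/2 < sw φ κ c a e x := by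
    apply hc0.eventually_const_lt
    show a/2 < sw φ κ c a e 0
    rw [h0]; linarith
  obtain ⟨ε, hε, hh⟩ := Metric.eventually_nhds_iff.1 hev
  refine ⟨min ε R, lt_min hε B.hR, min_le_right _ _, fun x hx => ?_⟩
  have := hh (y := x) (by rw [dist_zero_right]; exact lt_of_lt_of_le hx (min_le_left _ _))
  unfold Gn
  rw [mu_one (by linarith) this.le]
  module

end

end H62.EC
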