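import Pool.Agent.H62.EC.Near2
import Pool.Agent.H62.EC.Modif2

/-! Chart facts for the lens energy near the contact plane. -/

namespace H62.EC

open H62.GI

attribute [local instance] Matrix.normedAddCommGroup Matrix.normedSpace

/-! ### quadratic remainder -/

theorem norm4 (x : X4) : ‖x‖^2 = x 0 ^2 + x 1 ^2 + x 2 ^2 + x 3 ^2 := by
  rw [← real_inner_self_eq_norm_sq, inner4]; ring

theorem cs22 (a b c d : ℝ) : (a*c+b*d)^2 ≤ (a^2+b^2)*(c^2+d^2) := by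
  nlinarith [sq_nonneg (a*d-b*c)]

theorem cs4 (a0 a1 a2 a3 b0 b1 b2 b3 : ℝ) : (a0*b0+a1*b1+a2*b2+a3*b3)^2 ≤
    (a0^2+a1^2+a2^2+a3^2)*(b0^2+b1^2+b2^2+b3^2) := by
  linarith [sq_nonneg (a0*b1-a1*b0), sq_nonneg (a0*b2-a2*b0), sq_nonneg (a0*b3-a3*b0),
    sq_nonneg (a1*b2-a2*b1), sq_nonneg (a1*b3-a3*b1), sq_nonneg (a2*b3-a3*b2)]

theorem QQ_bound (z G H : X4) : |QQ z G H| ≤ ‖z‖^2 * ‖G‖ * ‖H‖ := by
  apply abs_le_of_sq_le_sq _ (by positivity)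
  have e : (‖z‖^2 * ‖G‖ * ‖H‖)^2 = ((z 0 ^2+z 1 ^2+z 2 ^2+z 3 ^2) * (H 0 ^2 + H 1 ^2 + H 2 ^2+H 3 ^2)) *
      ((z 0 ^2+z 1 ^2+z 2 ^2+z 3 ^2) * (G 0 ^2 + G 1 ^2 + G 2 ^2+G 3 ^2)) := by
    have hz := norm4 z
    have hG := norm4 G
    have hH := norm4 H
    rw [← hz, ← hG, ← hH]; ring
  rw [e]
  have h1 := cs4 (z 0 * H 0 + z 1 * H 1) (z 0 * H 2 + z 1 * H 3) (z 2 * H 0 + z 3 * H 1) (z 2 * H 2 + z 3 * H 3)
    (z 0 * G 0 + z 1 * G 1) (z 2 * G 0 + z 3 * G 1) (z 0 * G 2 + z 1 * G 3) (z 2 * G 2 + z 3 * G 3)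
  have hA : (z 0 * H 0 + z 1 * H 1)^2 + (z 0 * H 2 + z 1 * H 3)^2 + (z 2 * H 0 + z 3 * H 1)^2 + (z 2 * H 2 + z 3 * H 3)^2 ≤
      (z 0 ^2+z 1 ^2+z 2 ^2+z 3 ^2) * (H 0 ^2 + H 1 ^2 + H 2 ^2+H 3 ^2) := by
    have i1 := cs22 (z 0) (z 1) (H 0) (H 1)
    have i2 := cs22 (z 0) (z 1) (H 2) (H 3)
    have i3 := cs22 (z 2) (z 3) (H 0) (H 1)
    have i4 := cs22 (z 2) (z 3) (H 2) (H 3)
    linarith
  have hB : (z 0 * G 0 + z 1 * G 1)^2 + (z 2 * G 0 + z 3 * G 1)^2 + (z 0 * G 2 + z 1 * G 3)^2 + (z 2 * G 2 + z 3 * G 3)^2 ≤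
      (z 0 ^2+z 1 ^2+z 2 ^2+z 3 ^2) * (G 0 ^2 + G 1 ^2 + G 2 ^2+G 3 ^2) := by
    have i1 := cs22 (z 0) (z 1) (G 0) (G 1)
    have i2 := cs22 (z 0) (z 1) (G 2) (G 3)
    have i3 := cs22 (z 2) (z 3) (G 0) (G 1)
    have i4 := cs22 (z 2) (z 3) (G 2) (G 3)
    linarith
  exact (show QQ z G H ^2 ≤ _ from h1).trans (mul_le_mul hA hB (by positivity) (by positivity))

/-! ### `G` as a linear function of the Gauss matrix -/

noncomputable def GBl : M4 →ₗ[ℝ] X4 where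
  toFun B := !₂[
    (5/169) * (B 0 0 * 12 - B 0 3 * 5) + (12/169) * (B 3 0 * 12 - B 3 3 * 5),
    (84/169) * (B 1 0 * 12 - B 1 3 * 5) - (85/169) * (B 2 0 * 12 - B 2 3 * 5),
    (5/169) * (B 0 1 * 85 + B 0 2 * 84) + (12/169) * (B 3 1 * 85 + B 3 2 * 84),
    (84/169) * (B 1 1 * 85 + B 1 2 * 84) - (85/169) * (B 2 1 * 85 + B 2 2 * 84)]
  map_add' A B := by
    ext i; fin_cases i <;> simp [Matrix.add_apply] <;> ring
  map_smul' c B := by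
    ext i; fin_cases i <;> simp [Matrix.smul_apply] <;> ring

theorem Gv_eq (E : Fr → ℝ) (x : X4) : Gv E x = GBl (Bm E (V x)) := by
  ext i
  fin_cases i <;> simp [Gv, GBl, Bm_xi, V0, V1, bk1, bk2] <;> ring

theorem GBl_bound : ∃ C : ℝ, 0 < C ∧ ∀ B : M4, ‖GBl B‖ ≤ C * ‖B‖ :=
  (LinearMap.toContinuousLinearMap GBl).bound

/-! ### `tn ∘ V` -/

theorem V_cd : ContDiff ℝ 1 V := by
  have : V = fun x => ![bu1, bu2] + VL x := funext V_affine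
  rw [this]
  exact contDiff_const.add VL.contDiff

theorem tnV_cd : ContDiff ℝ 1 (fun x : X4 => tn (V x)) := by
  rw [contDiff_pi]
  intro i
  have h1 : ContDiff ℝ 1 (fun x : X4 => pl (V x 0) (V x 1) i) := (pl_contDiff i).comp V_cd
  have h2 : ContDiff ℝ 1 (fun x : X4 => vol (V x)) := by
    rw [contDiff_iff_contDiffAt]
    intro x
    have := (vol_contDiffOn.contDiffAt (LI_open.mem_nhds (V_LI x)))
    exact this.comp x V_cd.contDiffAt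
  exact h1.div h2 (fun x => ((LI_iff_vol _).1 (V_LI x)).ne')

theorem tn_V0 : tn (V 0) = tz := by
  have hvol : vol (V 0) = 26 := by
    have h := vol_sq_p (V 0)
    simp only [pl, V0, V1] at h
    simp at h
    have h0 : 0 ≤ vol (V 0) := Real.sqrt_nonneg _
    have : vol (V 0)^2 = 26^2 := by rw [h]; norm_num
    exact (pow_left_inj₀ h0 (by norm_num) two_ne_zero).1 this
  ext i
  simp only [tn, hvol, pl, V0, V1]
  fin_cases i <;> simp [tz] <;> norm_num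

/-! ### the inverse chart map -/

noncomputable def wl (f g : Fin 4 → ℝ) (t : Fin 6 → ℝ) : ℝ :=
  (f 0 * g 1 - f 1 * g 0) * ((t 2 + t 5)/2) + (f 0 * g 2 - f 2 * g 0) * ((t 0 + t 3)/2) +
  (f 0 * g 3 - f 3 * g 0) * ((t 1 + t 4)/2) + (f 1 * g 2 - f 2 * g 1) * ((t 1 - t 4)/2) +
  (f 1 * g 3 - f 3 * g 1) * ((t 3 - t 0)/2) + (f 2 * g 3 - f 3 * g 2) * ((t 2 - t 5)/2)

noncomputable def L0 (t : Fin 6 → ℝ) : ℝ := wl ![12/169, 0, 0, -5/169] ![0, 85/169, 84/169, 0] t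
noncomputable def LL (t : Fin 6 → ℝ) : X4 :=
  !₂[wl ![-7/169, 0, 0, 17/169] ![0, 85/169, 84/169, 0] t, wl ![0, 1/169, -1/169, 0] ![0, 85/169, 84/169, 0] t,
     wl ![12/169, 0, 0, -5/169] ![-7/169, 0, 0, 17/169] t, wl ![12/169, 0, 0, -5/169] ![0, 1/169, -1/169, 0] t]
noncomputable def xt (t : Fin 6 → ℝ) : X4 := (L0 t)⁻¹ • LL t

theorem l0_eq (v : Fr) : l0 v = L0 (pl (v 0) (v 1)) := by
  simp [l0, wd, du1, du2, L0, wl, pl]; ring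
theorem ll_eq (v : Fr) : ll v = LL (pl (v 0) (v 1)) := by
  ext i
  fin_cases i <;> simp [ll, LL, wd, du1, du2, dk1, dk2, wl, pl] <;> ring

theorem L0_smul (c : ℝ) (t : Fin 6 → ℝ) : L0 (c • t) = c * L0 t := by
  simp [L0, wl]; ring
theorem LL_smul (c : ℝ) (t : Fin 6 → ℝ) : LL (c • t) = c • LL t := by
  ext i
  fin_cases i <;> simp [LL, wl] <;> ring

theorem xt_smul (c : ℝ) (hc : c ≠ 0) (t : Fin 6 → ℝ) : xt (c • t) = xt t := by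
  rw [xt, xt, L0_smul, LL_smul, smul_smul, mul_inv]
  congr 1; field_simp

theorem pl_tn {v : Fr} (hv : v ∈ LI) : pl (v 0) (v 1) = vol v • tn v := by
  have hp := ((LI_iff_vol v).1 hv).ne'
  ext i; simp only [tn, Pi.smul_apply, smul_eq_mul]; field_simp

theorem xc_tn {v : Fr} (hv : v ∈ LI) : xc v = xt (tn v) := by
  have hp := ((LI_iff_vol v).1 hv).ne'
  rw [xc, l0_eq, ll_eq, ← xt, pl_tn hv, xt_smul _ hp]

theorem l0_tn {v : Fr} (hv : v ∈ LI) : l0 v = vol v * L0 (tn v) := by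
  rw [l0_eq, pl_tn hv, L0_smul]

theorem L0_tz : L0 tz = 1/26 := by
  simp [L0, wl, tz]; norm_num

theorem xt_tz : xt tz = 0 := by
  rw [← tn_V0, ← xc_tn (V_LI 0), xc_V]

theorem L0_cd : ContDiff ℝ 1 L0 := by
  unfold L0 wl
  fun_prop

theorem LL_cd : ContDiff ℝ 1 LL := by
  rw [contDiff_euclidean]
  intro i
  fin_cases i <;> simp [LL, wl] <;> fun_prop

theorem xt_cdAt {t : Fin 6 → ℝ} (h : L0 t ≠ 0) : ContDiffAt ℝ 1 xt t :=
  (L0_cd.contDiffAt.inv h).smul LL_cd.contDiffAt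

end H62.EC
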