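import Pool.Agent.H62.EC.Base1

/-! The lens energy satisfies the hypotheses of the modification lemma. -/

namespace H62.EC

open H62.GI

attribute [local instance] Matrix.normedAddCommGroup Matrix.normedSpace

noncomputable def phL (x : X4) : ℝ := Real.log (Lens (V x)) - Real.log (Lens (V 0))

theorem Gv_Lens (x : X4) : Gv Lens x = GBl (BK (tn (V x))) := by
  rw [Gv_eq, Bm_Lens (V_LI x)]

theorem Gv_Lens0 : Gv Lens 0 = 0 := by
  rw [Gv_Lens, tn_V0, BK_tz]
  ext i
  fin_cases i <;> simp [GBl, Pz] <;> norm_num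

theorem near_chart : ∃ r L κ : ℝ, 0 < r ∧ 0 ≤ L ∧ 0 < κ ∧
    (∀ x y : X4, ‖x‖ < r → ‖y‖ < r → ‖Gv Lens x - Gv Lens y‖ ≤ L * ‖x - y‖) ∧
    (∀ x y : X4, ‖x‖ < r → ‖y‖ < r → κ * ‖x - y‖^2 ≤ Dd (BK (tn (V x))) (BK (tn (V y)))) := by
  obtain ⟨K1, s1, hs1, hl1⟩ := (tnV_cd.contDiffAt (x := (0 : X4))).exists_lipschitzOnWith
  obtain ⟨K2, s2, hs2, hl2⟩ := (xt_cdAt (t := tz) (by rw [L0_tz]; norm_num)).exists_lipschitzOnWith
  obtain ⟨C, hC, hCb⟩ := GBl_bound
  obtain ⟨M, hM, hMl⟩ := BK_lip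
  obtain ⟨κ, hκ, hκl⟩ := near_lb
  have hcont : ContinuousAt (fun x : X4 => tn (V x)) 0 := tnV_cd.continuous.continuousAt
  have hev : ∀ᶠ x : X4 in nhds 0, x ∈ s1 ∧ tn (V x) ∈ s2 ∧ ‖tn (V x) - tz‖ < 1/100 := by
    refine Filter.Eventually.and hs1 (Filter.Eventually.and ?_ ?_)
    · apply hcont.eventually_mem
      rw [tn_V0]; exact hs2
    · have hb : Metric.ball tz (1/100) ∈ nhds (tn (V (0 : X4))) := by
        rw [tn_V0]; exact Metric.ball_mem_nhds _ (by norm_num)
      filter_upwards [hcont.eventually_mem hb] with x hx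
      rwa [Metric.mem_ball, dist_eq_norm] at hx
  obtain ⟨r, hr, hh⟩ := Metric.eventually_nhds_iff.1 hev
  refine ⟨r, C * (M * K1), κ / (K2 + 1)^2, hr, by positivity, by positivity, ?_, ?_⟩
  · intro x y hx hy
    obtain ⟨a1, a2, a3⟩ := hh (y := x) (by rwa [dist_zero_right])
    obtain ⟨b1, b2, b3⟩ := hh (y := y) (by rwa [dist_zero_right])
    rw [Gv_Lens, Gv_Lens, ← map_sub]
    have h1 := hCb (BK (tn (V x)) - BK (tn (V y)))
    have h2 := hMl _ (tn_KK (V_LI x)) _ (tn_KK (V_LI y))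
    have h3 : ‖tn (V x) - tn (V y)‖ ≤ K1 * ‖x - y‖ := by
      have := hl1.dist_le_mul x a1 y b1
      rwa [dist_eq_norm, dist_eq_norm] at this
    calc _ ≤ C * ‖BK (tn (V x)) - BK (tn (V y))‖ := h1
      _ ≤ C * (M * (K1 * ‖x - y‖)) := by
        apply mul_le_mul_of_nonneg_left _ hC.le
        exact h2.trans (mul_le_mul_of_nonneg_left h3 hM.le)
      _ = _ := by ring
  · intro x y hx hy
    obtain ⟨a1, a2, a3⟩ := hh (y := x) (by rwa [dist_zero_right])
    obtain ⟨b1, b2, b3⟩ := hh (y := y) (by rwa [dist_zero_right])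
    have h1 := hκl _ (tn_KK (V_LI x)) _ (tn_KK (V_LI y)) a3 b3
    have h3 : ‖x - y‖ ≤ (K2 + 1) * ‖tn (V x) - tn (V y)‖ := by
      have := hl2.dist_le_mul _ a2 _ b2
      rw [dist_eq_norm, dist_eq_norm, ← xc_tn (V_LI x), ← xc_tn (V_LI y), xc_V, xc_V] at this
      have hn := norm_nonneg (tn (V x) - tn (V y))
      linarith
    refine le_trans ?_ h1
    rw [div_mul_eq_mul_div, div_le_iff₀ (by positivity)]
    have h4 := pow_le_pow_left₀ (norm_nonneg _) h3 2
    rw [mul_pow] at h4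
    calc κ * ‖x - y‖^2 ≤ κ * ((K2 + 1 : ℝ)^2 * ‖tn (V x) - tn (V y)‖^2) := mul_le_mul_of_nonneg_left h4 hκ.le
      _ = _ := by ring

theorem D_chart (x y : X4) : Dd (BK (tn (V x))) (BK (tn (V y))) =
    inner ℝ (Gv Lens y - Gv Lens x) (y - x) + QQ (y - x) (Gv Lens x) (Gv Lens y) := by
  rw [← Bm_Lens (V_LI x), ← Bm_Lens (V_LI y), Bm_BB Lens_isEnergy, Bm_BB Lens_isEnergy, D_BB]

theorem phL_deriv (x : X4) : HasFDerivAt phL (innerSL ℝ (Gv Lens x)) x :=
  (logE_hasFDerivAt Lens_isEnergy x).sub_const _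

theorem Base_Lens : ∃ L κ R : ℝ, R ≤ 1 ∧ Base phL (Gv Lens) L κ R := by
  obtain ⟨r, L, κ, hr, hL, hκ, hlip, hlow⟩ := near_chart
  -- radius
  obtain ⟨R, hR, hR1, hRr, hRL⟩ : ∃ R : ℝ, 0 < R ∧ R ≤ 1 ∧ R ≤ r ∧ (L * R)^2 ≤ κ / 2 := by
    have hs : 0 < √(κ/2) := Real.sqrt_pos.2 (by positivity)
    refine ⟨min (min 1 r) (√(κ/2) / (L + 1)), lt_min (lt_min one_pos hr) (by positivity),
      (min_le_left _ _).trans (min_le_left _ _), (min_le_left _ _).trans (min_le_right _ _), ?_⟩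
    have h1 : min (min 1 r) (√(κ/2) / (L + 1)) ≤ √(κ/2) / (L + 1) := min_le_right _ _
    have h0 : 0 ≤ min (min 1 r) (√(κ/2) / (L + 1)) := (lt_min (lt_min one_pos hr) (by positivity)).le
    rw [le_div_iff₀ (by positivity)] at h1
    have h2 : L * min (min 1 r) (√(κ/2) / (L + 1)) ≤ √(κ/2) := by nlinarith
    calc _ ≤ √(κ/2)^2 := pow_le_pow_left₀ (by positivity) h2 2
      _ = κ/2 := Real.sq_sqrt (by positivity)
  refine ⟨L, κ/4, R, hR1, hL, by positivity, hR, fun x _ => phL_deriv x, by simp [phL], Gv_Lens0,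
    fun x y hx hy => hlip x y (by linarith) (by linarith), ?_⟩
  intro x y hx hy
  -- gradient size
  have hG : ∀ z : X4, ‖z‖ < R → ‖Gv Lens z‖ ≤ L * R := by
    intro z hz
    have := hlip z 0 (by linarith) (by simpa using hr)
    rw [Gv_Lens0, sub_zero, sub_zero] at this
    exact this.trans (mul_le_mul_of_nonneg_left hz.le hL)
  -- monotonicity along the segment
  have hseg : ∀ s : ℝ, 0 ≤ s → s ≤ 1 → ‖x + s • (y - x)‖ < R := by
    intro s h0 h1
    have e : x + s • (y - x) = (1 - s) • x + s • y := by module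
    rw [e]
    calc _ ≤ ‖(1 - s) • x‖ + ‖s • y‖ := norm_add_le _ _
      _ = (1 - s) * ‖x‖ + s * ‖y‖ := by
        rw [norm_smul, norm_smul, Real.norm_eq_abs, Real.norm_eq_abs, abs_of_nonneg h0, abs_of_nonneg (by linarith)]
      _ < R := by
        rcases eq_or_lt_of_le h0 with h | h
        · rw [← h]; simpa using hx
        · nlinarith
  have hmono : ∀ s : ℝ, 0 ≤ s → s ≤ 1 → κ / 2 * s * ‖y - x‖^2 ≤
      inner ℝ (Gv Lens (x + s • (y - x)) - Gv Lens x) (y - x) := by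
    intro s h0 h1
    rcases eq_or_lt_of_le h0 with h | h
    · rw [← h]; simp
    · have hz := hseg s h0 h1
      have a1 := hlow x (x + s • (y - x)) (by linarith) (by linarith)
      rw [D_chart] at a1
      have e1 : x + s • (y - x) - x = s • (y - x) := by abel
      have e2 : ‖x - (x + s • (y - x))‖^2 = s^2 * ‖y - x‖^2 := by
        rw [show x - (x + s • (y - x)) = -(s • (y - x)) by abel, norm_neg, norm_smul, mul_pow, Real.norm_eq_abs, sq_abs]
      rw [e1, e2, inner_smul_right] at a1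
      have a2 := QQ_bound (s • (y - x)) (Gv Lens x) (Gv Lens (x + s • (y - x)))
      have a3 := (le_abs_self _).trans a2
      have a4 : ‖s • (y - x)‖^2 * ‖Gv Lens x‖ * ‖Gv Lens (x + s • (y - x))‖ ≤ (s^2 * ‖y - x‖^2) * (κ/2) := by
        rw [norm_smul, mul_pow, Real.norm_eq_abs, sq_abs, mul_assoc]
        apply mul_le_mul_of_nonneg_left _ (by positivity)
        calc _ ≤ (L * R) * (L * R) := mul_le_mul (hG x hx) (hG _ hz) (norm_nonneg _) (by positivity)
          _ ≤ κ / 2 := by rw [← sq]; exact hRL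
      have a5 : s * (κ / 2 * s * ‖y - x‖^2) ≤ s * inner ℝ (Gv Lens (x + s • (y - x)) - Gv Lens x) (y - x) := by
        nlinarith
      exact le_of_mul_le_mul_left a5 h
  let h : ℝ → ℝ := fun s => phL (x + s • (y - x)) - s * inner ℝ (Gv Lens x) (y - x) - κ / 4 * s^2 * ‖y - x‖^2
  have hd : ∀ s : ℝ, HasDerivAt h (inner ℝ (Gv Lens (x + s • (y - x)) - Gv Lens x) (y - x) - κ / 2 * s * ‖y - x‖^2) s := by
    intro s
    have p1 : HasDerivAt (fun s : ℝ => x + s • (y - x)) (y - x) s := by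
      simpa using ((hasDerivAt_id s).smul_const (y - x)).const_add x
    have p2 := (phL_deriv (x + s • (y - x))).comp_hasDerivAt s p1
    have p3 : HasDerivAt (fun s : ℝ => s * inner ℝ (Gv Lens x) (y - x)) (inner ℝ (Gv Lens x) (y - x)) s := by
      simpa using (hasDerivAt_id s).mul_const (inner ℝ (Gv Lens x) (y - x))
    have p4 : HasDerivAt (fun s : ℝ => κ / 4 * s^2 * ‖y - x‖^2) (κ / 2 * s * ‖y - x‖^2) s := by
      have := ((hasDerivAt_pow 2 s).const_mul (κ/4)).mul_const (‖y - x‖^2)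
      refine this.congr_deriv ?_
      rw [show (2 - 1 : ℕ) = 1 from rfl, pow_one]; push_cast; ring
    refine ((p2.sub p3).sub p4).congr_deriv ?_
    rw [innerSL_apply_apply, inner_sub_left]
  have hm : MonotoneOn h (Set.Icc 0 1) := by
    apply monotoneOn_of_deriv_nonneg (convex_Icc 0 1)
    · exact fun s _ => (hd s).continuousAt.continuousWithinAt
    · exact fun s _ => (hd s).differentiableAt.differentiableWithinAt
    · intro s hs
      rw [interior_Icc] at hs
      rw [(hd s).deriv]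
      have := hmono s hs.1.le hs.2.le
      linarith
  have hfin := hm (Set.left_mem_Icc.2 zero_le_one) (Set.right_mem_Icc.2 zero_le_one) zero_le_one
  simp only [h] at hfin
  simp at hfin
  linarith

theorem Base.mono {φ : X4' → ℝ} {G : X4' → X4'} {L κ R R' : ℝ} (B : Base φ G L κ R) (h0 : 0 < R') (h : R' ≤ R) :
    Base φ G L κ R' where
  hL := B.hL
  hκ := B.hκ
  hR := h0
  d := fun x hx => B.d x (by linarith)
  φ0 := B.φ0
  G0 := B.G0
  lip := fun x y hx hy => B.lip x y (by linarith) (by linarith)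
  lb := fun x y hx hy => B.lb x y (by linarith) (by linarith)

end H62.EC
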