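import Pool.Agent.H62.EC.Frame

/-! The graph chart adapted to the contact plane and its calibrating complement. -/

namespace H62.EC

open H62.GI

abbrev X4 := EuclideanSpace ℝ (Fin 4)

noncomputable def bu1 : X4 := !₂[17, 0, 0, 7]
noncomputable def bk1 : X4 := !₂[5, 0, 0, 12]
noncomputable def bu2 : X4 := !₂[0, 1, 1, 0]
noncomputable def bk2 : X4 := !₂[0, 84, -85, 0]

/-- dual basis -/
noncomputable def du1 (y : X4) : ℝ := (12 * y 0 - 5 * y 3) / 169
noncomputable def dk1 (y : X4) : ℝ := (-7 * y 0 + 17 * y 3) / 169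
noncomputable def du2 (y : X4) : ℝ := (85 * y 1 + 84 * y 2) / 169
noncomputable def dk2 (y : X4) : ℝ := (y 1 - y 2) / 169

/-- the graph frame -/
noncomputable def V (x : X4) : Fr := ![bu1 + x 0 • bk1 + x 1 • bk2, bu2 + x 2 • bk1 + x 3 • bk2]

theorem V0 (x : X4) (i : Fin 4) : V x 0 i = ![17 + 5 * x 0, 84 * x 1, -85 * x 1, 7 + 12 * x 0] i := by
  fin_cases i <;> simp [V, bu1, bk1, bk2] <;> ring
theorem V1 (x : X4) (i : Fin 4) : V x 1 i = ![5 * x 2, 1 + 84 * x 3, 1 - 85 * x 3, 12 * x 2] i := by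
  fin_cases i <;> simp [V, bu2, bk1, bk2] <;> ring

theorem basis_expand (y : X4) : y = du1 y • bu1 + du2 y • bu2 + dk1 y • bk1 + dk2 y • bk2 := by
  ext i
  fin_cases i <;> simp [du1, du2, dk1, dk2, bu1, bu2, bk1, bk2] <;> ring

/-- wedge of two functionals on Plücker coordinates -/
noncomputable def wd (f g : X4 → ℝ) (v : Fr) : ℝ := f (v 0) * g (v 1) - f (v 1) * g (v 0)

noncomputable def l0 (v : Fr) : ℝ := wd du1 du2 v
noncomputable def ll (v : Fr) : X4 := !₂[wd dk1 du2 v, wd dk2 du2 v, wd du1 dk1 v, wd du1 dk2 v]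
/-- chart coordinates -/
noncomputable def xc (v : Fr) : X4 := (l0 v)⁻¹ • ll v

theorem l0_V (x : X4) : l0 (V x) = 1 := by
  simp only [l0, wd, du1, du2, V0, V1]
  simp
  ring

theorem ll_V (x : X4) : ll (V x) = x := by
  ext i
  fin_cases i <;> simp [ll, wd, du1, du2, dk1, dk2, V0, V1] <;> ring

theorem xc_V (x : X4) : xc (V x) = x := by
  rw [xc, l0_V, ll_V]; simp

theorem V_LI (x : X4) : V x ∈ LI := by
  rw [LI_iff]
  intro s t h
  have e : ∀ i, s * V x 0 i + t * V x 1 i = 0 := by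
    intro i
    have := congrArg (fun w : X4 => w i) h
    simpa using this
  have h1 : s * du1 (V x 0) + t * du1 (V x 1) = 0 := by
    simp only [du1]; linear_combination (12/169) * e 0 - (5/169) * e 3
  have h2 : s * du2 (V x 0) + t * du2 (V x 1) = 0 := by
    simp only [du2]; linear_combination (85/169) * e 1 + (84/169) * e 2
  have a1 : du1 (V x 0) = 1 := by simp only [du1, V0]; simp; ring
  have a2 : du1 (V x 1) = 0 := by simp only [du1, V1]; simp; ring
  have a3 : du2 (V x 0) = 0 := by simp only [du2, V0]; simp; ring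
  have a4 : du2 (V x 1) = 1 := by simp only [du2, V1]; simp; ring
  rw [a1, a2] at h1
  rw [a3, a4] at h2
  constructor <;> linarith

/-- every frame with `l0 ≠ 0` is equivalent to a graph frame -/
theorem exists_graph (v : Fr) (h : l0 v ≠ 0) :
    ∃ g : Matrix (Fin 2) (Fin 2) ℝ, g.det = l0 v ∧ v = gact g (V (xc v)) := by
  refine ⟨!![du1 (v 0), du2 (v 0); du1 (v 1), du2 (v 1)], ?_, ?_⟩
  · rw [Matrix.det_fin_two]; simp [l0, wd]; ring
  · have hx : ∀ i, l0 v * xc v i = ll v i := by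
      intro i; simp only [xc, PiLp.smul_apply, smul_eq_mul]; field_simp
    have h0 := hx 0
    have h1 := hx 1
    have h2 := hx 2
    have h3 := hx 3
    simp only [ll, PiLp.toLp_apply, Matrix.cons_val_zero, Matrix.cons_val_one, Matrix.cons_val] at h0 h1 h2 h3
    -- components
    have c0 : dk1 (v 0) = du1 (v 0) * xc v 0 + du2 (v 0) * xc v 2 := by
      apply mul_left_cancel₀ h
      have : l0 v * (du1 (v 0) * xc v 0 + du2 (v 0) * xc v 2) =
        du1 (v 0) * (l0 v * xc v 0) + du2 (v 0) * (l0 v * xc v 2) := by ring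
      rw [this, h0, h2]; simp only [l0, wd]; ring
    have c1 : dk2 (v 0) = du1 (v 0) * xc v 1 + du2 (v 0) * xc v 3 := by
      apply mul_left_cancel₀ h
      have : l0 v * (du1 (v 0) * xc v 1 + du2 (v 0) * xc v 3) =
        du1 (v 0) * (l0 v * xc v 1) + du2 (v 0) * (l0 v * xc v 3) := by ring
      rw [this, h1, h3]; simp only [l0, wd]; ring
    have c2 : dk1 (v 1) = du1 (v 1) * xc v 0 + du2 (v 1) * xc v 2 := by
      apply mul_left_cancel₀ h
      have : l0 v * (du1 (v 1) * xc v 0 + du2 (v 1) * xc v 2) =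
        du1 (v 1) * (l0 v * xc v 0) + du2 (v 1) * (l0 v * xc v 2) := by ring
      rw [this, h0, h2]; simp only [l0, wd]; ring
    have c3 : dk2 (v 1) = du1 (v 1) * xc v 1 + du2 (v 1) * xc v 3 := by
      apply mul_left_cancel₀ h
      have : l0 v * (du1 (v 1) * xc v 1 + du2 (v 1) * xc v 3) =
        du1 (v 1) * (l0 v * xc v 1) + du2 (v 1) * (l0 v * xc v 3) := by ring
      rw [this, h1, h3]; simp only [l0, wd]; ring
    ext1 α
    fin_cases α
    · conv_lhs => rw [Fin.zero_eta, basis_expand (v 0), c0, c1]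
      simp only [gact, Fin.sum_univ_two, V, Fin.zero_eta]
      simp
      module
    · conv_lhs => rw [Fin.mk_one, basis_expand (v 1), c2, c3]
      simp only [gact, Fin.sum_univ_two, V, Fin.mk_one]
      simp
      module

theorem l0_gact (g : Matrix (Fin 2) (Fin 2) ℝ) (v : Fr) : l0 (gact g v) = g.det * l0 v := by
  simp [l0, wd, du1, du2, gact, Matrix.det_fin_two, Fin.sum_univ_two]; ring

theorem ll_gact (g : Matrix (Fin 2) (Fin 2) ℝ) (v : Fr) : ll (gact g v) = g.det • ll v := by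
  ext i
  fin_cases i <;>
    simp [ll, wd, du1, du2, dk1, dk2, gact, Matrix.det_fin_two, Fin.sum_univ_two] <;> ring

theorem xc_gact (g : Matrix (Fin 2) (Fin 2) ℝ) (hg : g.det ≠ 0) (v : Fr) : xc (gact g v) = xc v := by
  rw [xc, xc, l0_gact, ll_gact, smul_smul, mul_inv]
  congr 1; field_simp

/-- gradient of `log E` in the chart -/
noncomputable def Gv (E : Fr → ℝ) (x : X4) : X4 :=
  !₂[xi E (V x) 0 0 * bk1 0 + xi E (V x) 0 1 * bk1 1 + xi E (V x) 0 2 * bk1 2 + xi E (V x) 0 3 * bk1 3,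
     xi E (V x) 0 0 * bk2 0 + xi E (V x) 0 1 * bk2 1 + xi E (V x) 0 2 * bk2 2 + xi E (V x) 0 3 * bk2 3,
     xi E (V x) 1 0 * bk1 0 + xi E (V x) 1 1 * bk1 1 + xi E (V x) 1 2 * bk1 2 + xi E (V x) 1 3 * bk1 3,
     xi E (V x) 1 0 * bk2 0 + xi E (V x) 1 1 * bk2 1 + xi E (V x) 1 2 * bk2 2 + xi E (V x) 1 3 * bk2 3]

/-- linear part of the chart -/
noncomputable def VL : X4 →L[ℝ] Fr :=
  ContinuousLinearMap.pi ![
    (EuclideanSpace.proj 0 : X4 →L[ℝ] ℝ).smulRight bk1 + (EuclideanSpace.proj 1 : X4 →L[ℝ] ℝ).smulRight bk2,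
    (EuclideanSpace.proj 2 : X4 →L[ℝ] ℝ).smulRight bk1 + (EuclideanSpace.proj 3 : X4 →L[ℝ] ℝ).smulRight bk2]

theorem V_affine (x : X4) : V x = ![bu1, bu2] + VL x := by
  ext α i
  fin_cases α <;> simp [V, VL] <;> ring

theorem V_hasFDerivAt (x : X4) : HasFDerivAt V VL x := by
  have : V = fun x => ![bu1, bu2] + VL x := funext V_affine
  rw [this]
  exact VL.hasFDerivAt.const_add _

theorem VL_apply (h : X4) : VL h = (h 0) • (Pi.single 0 bk1 : Fr) + (h 1) • (Pi.single 0 bk2 : Fr) +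
    (h 2) • (Pi.single 1 bk1 : Fr) + (h 3) • (Pi.single 1 bk2 : Fr) := by
  ext α i
  fin_cases α <;> simp [VL]

theorem logE_hasFDerivAt {E : Fr → ℝ} (hE : IsEnergy E) (x : X4) :
    HasFDerivAt (fun x => Real.log (E (V x))) (innerSL ℝ (Gv E x)) x := by
  have hpos := hE.pos _ (V_LI x)
  have h1 : HasFDerivAt (fun x => E (V x)) ((fderiv ℝ E (V x)).comp VL) x :=
    (diffAt hE (V_LI x)).hasFDerivAt.comp x (V_hasFDerivAt x)
  have h2 := h1.log hpos.ne'
  refine h2.congr_fderiv ?_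
  ext h
  rw [ContinuousLinearMap.smul_apply, ContinuousLinearMap.comp_apply, VL_apply]
  simp only [map_add, map_smul, smul_eq_mul]
  have e : ∀ α (y : X4), fderiv ℝ E (V x) (Pi.single α y) =
      E (V x) * (xi E (V x) α 0 * y 0 + xi E (V x) α 1 * y 1 + xi E (V x) α 2 * y 2 + xi E (V x) α 3 * y 3) := by
    intro α y; rw [xi_dot]; field_simp
  rw [e, e, e, e, innerSL_apply_apply, inner4]
  simp only [Gv, PiLp.toLp_apply, Matrix.cons_val_zero, Matrix.cons_val_one, Matrix.cons_val]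
  field_simp

end H62.EC
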