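import Pool.Agent.H62.EC.Frame
import Pool.Agent.H62.EC.Abstract

/-! The criterion for the atomic condition. -/

open Module

namespace H62.EC

open H62.GI

theorem ff_lin (N P X Y : M4) (a b : ℝ) : ff N P (a • X + b • Y) = a * ff N P X + b * ff N P Y := by
  simp only [ff, Matrix.mul_add, Matrix.add_mul, Matrix.mul_smul, Matrix.smul_mul,
    Matrix.trace_add, Matrix.trace_smul, smul_eq_mul]

theorem face (G : Set M4) (N P : M4) (h : ∀ Q ∈ G, 0 ≤ ff N P Q) (X : M4)
    (hX : X ∈ convexHull ℝ G) :
    0 ≤ ff N P X ∧ (ff N P X = 0 → X ∈ convexHull ℝ (G ∩ {Q | ff N P Q = 0})) := by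
  have key : convexHull ℝ G ⊆ {X | 0 ≤ ff N P X ∧
      (ff N P X = 0 → X ∈ convexHull ℝ (G ∩ {Q | ff N P Q = 0}))} := by
    apply convexHull_min
    · intro Q hQ
      exact ⟨h Q hQ, fun h0 => subset_convexHull ℝ _ ⟨hQ, h0⟩⟩
    · intro X hX Y hY a b ha hb hab
      simp only [Set.mem_ofPred_eq] at hX hY ⊢
      rw [ff_lin]
      refine ⟨add_nonneg (mul_nonneg ha hX.1) (mul_nonneg hb hY.1), fun h0 => ?_⟩
      have h1 : a * ff N P X = 0 := by
        have := mul_nonneg ha hX.1; have := mul_nonneg hb hY.1; linarith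
      have h2 : b * ff N P Y = 0 := by
        have := mul_nonneg ha hX.1; have := mul_nonneg hb hY.1; linarith
      rcases mul_eq_zero.1 h1 with h3 | h3
      · rw [h3, zero_smul, zero_add]
        have : b = 1 := by linarith
        rw [this] at h2 ⊢
        rw [one_smul]
        exact hY.2 (by linarith)
      · rcases mul_eq_zero.1 h2 with h4 | h4
        · rw [h4, zero_smul, add_zero]
          have : a = 1 := by linarith
          rw [this, one_smul]
          exact hX.2 h3
        · exact (convex_convexHull ℝ _) (hX.2 h3) (hY.2 h4) ha hb hab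
  exact key hX

theorem ff_self (N P : M4) (hP : P * P = P) : ff N P P = 0 := by
  have : (1 - P) * P = 0 := by rw [Matrix.sub_mul, Matrix.one_mul, hP]; simp
  unfold ff; rw [this]; simp

/-- a matrix of rank at most two is absorbed by some Gauss matrix -/
theorem rank_absorb {E : Fr → ℝ} (hE : IsEnergy E) (A : M4) (hA : A.rank ≤ 2) :
    ∃ v ∈ LI, A * Bm E v = A := by
  have hker : 2 ≤ finrank ℝ (LinearMap.ker A.mulVecLin) := by
    have h1 := LinearMap.finrank_range_add_finrank_ker A.mulVecLin
    have h2 : finrank ℝ (Fin 4 → ℝ) = 4 := by simp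
    rw [h2] at h1
    have h3 : finrank ℝ (LinearMap.range A.mulVecLin) ≤ 2 := hA
    omega
  obtain ⟨f, hf⟩ := exists_linearIndependent_of_le_finrank hker
  let e := (WithLp.linearEquiv 2 ℝ (Fin 4 → ℝ)).symm
  let k : Fin 2 → EuclideanSpace ℝ (Fin 4) := fun i => e (f i : Fin 4 → ℝ)
  have hk : LinearIndependent ℝ k := by
    have h1 : LinearIndependent ℝ (fun i => ((f i : LinearMap.ker A.mulVecLin) : Fin 4 → ℝ)) :=
      hf.map' (LinearMap.ker A.mulVecLin).subtype (Submodule.ker_subtype _)
    exact h1.map' e.toLinearMap (LinearEquiv.ker e)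
  let S : Submodule ℝ (EuclideanSpace ℝ (Fin 4)) := Submodule.span ℝ (Set.range k)
  have hS : finrank ℝ S = 2 := by
    have := finrank_span_eq_card hk
    simpa using this
  have hSker : ∀ y ∈ S, A.mulVec y.ofLp = 0 := by
    intro y hy
    induction hy using Submodule.span_induction with
    | mem x hx =>
      obtain ⟨i, rfl⟩ := hx
      have := (f i).2
      rw [LinearMap.mem_ker, Matrix.mulVecLin_apply] at this
      exact this
    | zero => simp
    | add x y _ _ hx hy => rw [WithLp.ofLp_add, Matrix.mulVec_add, hx, hy, add_zero]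
    | smul a x _ hx => rw [WithLp.ofLp_smul, Matrix.mulVec_smul, hx, smul_zero]
  have hT : finrank ℝ (Sᗮ : Submodule ℝ (EuclideanSpace ℝ (Fin 4))) = 2 := by
    have h1 := Submodule.finrank_add_finrank_orthogonal S
    have h2 : finrank ℝ (EuclideanSpace ℝ (Fin 4)) = 4 := by simp
    rw [h2] at h1; omega
  obtain ⟨v, hv, hspan⟩ := exists_frame _ hT
  refine ⟨v, hv, ?_⟩
  -- for every y, y - P y ∈ S
  have hy : ∀ j, A.mulVec (fun i => (1 - Bm E v) i j) = 0 := by
    intro j
    have hmem : WithLp.toLp 2 (fun i => (1 - Bm E v) i j) ∈ S := by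
      rw [← Submodule.orthogonal_orthogonal S, ← hspan, Submodule.mem_orthogonal]
      intro u hu
      induction hu using Submodule.span_induction with
      | mem x hx =>
        obtain ⟨γ, rfl⟩ := hx
        rw [inner4]
        have b0 := xi_v hE hv 0 γ
        have b1 := xi_v hE hv 1 γ
        simp only [Matrix.sub_apply, Bm_xi]
        fin_cases γ <;> fin_cases j <;> simp only [Fin.isValue, Fin.mk_one, Fin.zero_eta, Fin.reduceFinMk, if_true, zero_ne_one, one_ne_zero, if_false, Matrix.one_apply, Fin.reduceEq] at b0 b1 ⊢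
        · linear_combination -(v 0 0) * b0 - (v 1 0) * b1
        · linear_combination -(v 0 1) * b0 - (v 1 1) * b1
        · linear_combination -(v 0 2) * b0 - (v 1 2) * b1
        · linear_combination -(v 0 3) * b0 - (v 1 3) * b1
        · linear_combination -(v 0 0) * b0 - (v 1 0) * b1
        · linear_combination -(v 0 1) * b0 - (v 1 1) * b1
        · linear_combination -(v 0 2) * b0 - (v 1 2) * b1
        · linear_combination -(v 0 3) * b0 - (v 1 3) * b1
      | zero => simp
      | add x y _ _ hx hy => rw [inner_add_left, hx, hy, add_zero]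
      | smul a x _ hx => rw [inner_smul_left, hx, mul_zero]
    exact hSker _ hmem
  have h0 : A * (1 - Bm E v) = 0 := by
    ext i j
    have := congrFun (hy j) i
    simpa [Matrix.mul_apply, Matrix.mulVec, dotProduct] using this
  rw [Matrix.mul_sub, Matrix.mul_one, sub_eq_zero] at h0
  exact h0.symm

theorem Bm_rank (E : Fr → ℝ) (v : Fr) : (Bm E v).rank ≤ 2 := by
  have h : Bm E v = (Matrix.of fun (i : Fin 4) (α : Fin 2) => xi E v α i) *
      (Matrix.of fun (α : Fin 2) (j : Fin 4) => v α j) := by
    ext i j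
    rw [Matrix.mul_apply, Bm_xi]; simp [Fin.sum_univ_two]
  rw [h]
  exact (Matrix.rank_mul_le_left _ _).trans ((Matrix.rank_le_card_width _).trans (by simp))

/-- the Gauss set of an energy -/
def GS (E : Fr → ℝ) : Set M4 := {B | ∃ v ∈ LI, B = Bm E v}

theorem conv_pair {G : Set M4} {P Q1 X : M4} (hP : P ∈ G)
    (hsub : ∀ Q ∈ G, Q ∈ G ∩ {Q | Q = P ∨ Q = Q1} → Q = P ∨ Q = Q1)
    (hX : X ∈ convexHull ℝ (G ∩ {Q | Q = P ∨ Q = Q1})) :
    X = P ∨ (Q1 ∈ G ∧ ∃ a b : ℝ, 0 ≤ a ∧ 0 ≤ b ∧ a + b = 1 ∧ X = a • P + b • Q1) := by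
  by_cases hQ : Q1 ∈ G
  · right
    refine ⟨hQ, ?_⟩
    have : convexHull ℝ (G ∩ {Q | Q = P ∨ Q = Q1}) ⊆ segment ℝ P Q1 := by
      apply convexHull_min _ (convex_segment P Q1)
      rintro Q ⟨_, hq | hq⟩
      · rw [hq]; exact left_mem_segment ℝ P Q1
      · rw [hq]; exact right_mem_segment ℝ P Q1
    obtain ⟨a, b, ha, hb, hab, h⟩ := this hX
    exact ⟨a, b, ha, hb, hab, h.symm⟩
  · left
    have : convexHull ℝ (G ∩ {Q | Q = P ∨ Q = Q1}) ⊆ {P} := by
      apply convexHull_min _ (convex_singleton P)
      rintro Q ⟨hq0, hq | hq⟩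
      · exact hq
      · rw [hq] at hq0; exact absurd hq0 hQ
    exact this hX

theorem AC_of_crit {E : Fr → ℝ} (hE : IsEnergy E)
    (hc : ∀ P ∈ GS E, ∃ N Q1 : M4, ∀ Q ∈ GS E, 0 ≤ ff N P Q ∧ (ff N P Q = 0 → Q = P ∨ Q = Q1)) :
    AC 4 2 (FE E) := by
  have hidem : ∀ P ∈ GS E, P * P = P := by rintro P ⟨v, hv, rfl⟩; exact Bm_idem hE hv
  -- points of the hull with zero functional
  have hz : ∀ P ∈ GS E, ∀ N Q1 : M4, (∀ Q ∈ GS E, 0 ≤ ff N P Q ∧ (ff N P Q = 0 → Q = P ∨ Q = Q1)) →
      ∀ X ∈ convexHull ℝ (GS E), ff N P X = 0 →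
      X = P ∨ (Q1 ∈ GS E ∧ ∃ a b : ℝ, 0 ≤ a ∧ 0 ≤ b ∧ a + b = 1 ∧ X = a • P + b • Q1) := by
    intro P hP N Q1 hN X hX h0
    have h1 := (face (GS E) N P (fun Q hQ => (hN Q hQ).1) X hX).2 h0
    have h2 : GS E ∩ {Q | ff N P Q = 0} ⊆ GS E ∩ {Q | Q = P ∨ Q = Q1} := by
      rintro Q ⟨hQ, hq⟩
      exact ⟨hQ, (hN Q hQ).2 hq⟩
    exact conv_pair hP (fun Q _ h => h.2) (convexHull_mono h2 h1)
  unfold AC
  rw [gauss_eq hE]
  change convexHull ℝ (GS E) ∩ {A | A.rank ≤ 2} = GS E ∧ GS E = (convexHull ℝ (GS E)).extremePoints ℝ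
  constructor
  · apply Set.Subset.antisymm
    · rintro A ⟨hA, hr⟩
      obtain ⟨v, hv, hAv⟩ := rank_absorb hE A hr
      have hP : Bm E v ∈ GS E := ⟨v, hv, rfl⟩
      obtain ⟨N, Q1, hN⟩ := hc _ hP
      have h0 : ff N (Bm E v) A = 0 := by
        unfold ff
        have : (1 - Bm E v) * A * (1 - Bm E v) = 0 := by
          rw [Matrix.mul_assoc]
          have : A * (1 - Bm E v) = 0 := by
            rw [Matrix.mul_sub, Matrix.mul_one, hAv, sub_self]
          rw [this, Matrix.mul_zero]
        rw [this]; simp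
      rcases hz _ hP N Q1 hN A hA h0 with h | ⟨⟨w, hw, hQ1⟩, a, b, ha, hb, hab, hX⟩
      · rw [h]; exact hP
      · have h1 : b • (Q1 * Bm E v - Q1) = 0 := by
          have h2 := hAv
          rw [hX, Matrix.add_mul, Matrix.smul_mul, Matrix.smul_mul, hidem _ hP] at h2
          rw [smul_sub, sub_eq_zero]
          exact add_left_cancel h2
        rcases smul_eq_zero.1 h1 with h2 | h2
        · have : a = 1 := by linarith
          rw [hX, h2, this, one_smul, zero_smul, add_zero]; exact hP
        · rw [sub_eq_zero, hQ1] at h2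
          have := Bm_absorb hE hv hw h2
          rw [hX, hQ1, this, ← add_smul, hab, one_smul]; exact hP
    · intro P hP
      refine ⟨subset_convexHull ℝ _ hP, ?_⟩
      obtain ⟨v, hv, rfl⟩ := hP
      exact Bm_rank E v
  · apply Set.Subset.antisymm
    · intro P hP
      obtain ⟨N, Q1, hN⟩ := hc _ hP
      rw [mem_extremePoints]
      refine ⟨subset_convexHull ℝ _ hP, ?_⟩
      intro X hX Y hY hseg
      obtain ⟨a, b, ha, hb, hab, hPe⟩ := hseg
      have hl := ff_lin N P X Y a b
      rw [hPe, ff_self N P (hidem P hP)] at hl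
      have fX := (face (GS E) N P (fun Q hQ => (hN Q hQ).1) X hX).1
      have fY := (face (GS E) N P (fun Q hQ => (hN Q hQ).1) Y hY).1
      have gX : ff N P X = 0 := by
        have h1 := mul_nonneg ha.le fX
        have h2 := mul_nonneg hb.le fY
        have : a * ff N P X = 0 := by linarith
        rcases mul_eq_zero.1 this with h | h
        · exact absurd h ha.ne'
        · exact h
      have gY : ff N P Y = 0 := by
        have h1 := mul_nonneg ha.le fX
        have h2 := mul_nonneg hb.le fY
        have : b * ff N P Y = 0 := by linarith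
        rcases mul_eq_zero.1 this with h | h
        · exact absurd h hb.ne'
        · exact h
      -- both are combinations of P and Q1
      have rep : ∀ Z ∈ convexHull ℝ (GS E), ff N P Z = 0 → ∃ c : ℝ, 0 ≤ c ∧ Z = P + c • (Q1 - P) := by
        intro Z hZ h0
        rcases hz _ hP N Q1 hN Z hZ h0 with h | ⟨_, a', b', _, hb', hab', hZ'⟩
        · exact ⟨0, le_refl _, by rw [h]; simp⟩
        · refine ⟨b', hb', ?_⟩
          rw [hZ', smul_sub]
          have : a' = 1 - b' := by linarith
          rw [this, sub_smul, one_smul]; abel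
      obtain ⟨c, hc0, hXc⟩ := rep X hX gX
      obtain ⟨d, hd0, hYd⟩ := rep Y hY gY
      by_cases hQP : Q1 - P = 0
      · rw [hQP] at hXc hYd
        simp at hXc hYd
        exact ⟨hXc, hYd⟩
      · have e : (a * c + b * d) • (Q1 - P) = 0 := by
          rw [hXc, hYd] at hPe
          have : a • (P + c • (Q1 - P)) + b • (P + d • (Q1 - P)) = (a + b) • P + (a * c + b * d) • (Q1 - P) := by
            simp only [smul_add, smul_smul, add_smul]; abel
          rw [this, hab, one_smul] at hPe
          exact add_eq_left.1 hPe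
        have e2 : a * c + b * d = 0 := by
          rcases smul_eq_zero.1 e with h | h
          · exact h
          · exact absurd h hQP
        have ec : c = 0 := by
          have h1 := mul_nonneg ha.le hc0
          have h2 := mul_nonneg hb.le hd0
          have : a * c = 0 := by linarith
          rcases mul_eq_zero.1 this with h | h
          · exact absurd h ha.ne'
          · exact h
        have ed : d = 0 := by
          have h1 := mul_nonneg ha.le hc0
          have h2 := mul_nonneg hb.le hd0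
          have : b * d = 0 := by linarith
          rcases mul_eq_zero.1 this with h | h
          · exact absurd h hb.ne'
          · exact h
        rw [ec] at hXc; rw [ed] at hYd
        simp at hXc hYd
        exact ⟨hXc, hYd⟩
    · exact extremePoints_convexHull_subset

end H62.EC
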