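import Pool.Agent.H62.EC.Defs

/-! Energies on 2-frames of `ℝ⁴`, the associated integrand and its Gauss image. -/

open Module

namespace H62.EC

open H62.GI

abbrev Fr := Fin 2 → EuclideanSpace ℝ (Fin 4)

def LI : Set Fr := {v | LinearIndependent ℝ v}

theorem LI_open : IsOpen LI := isOpen_setOfPred_linearIndependent

/-- the frame `g • v` -/
noncomputable def gact (g : Matrix (Fin 2) (Fin 2) ℝ) (v : Fr) : Fr := fun i => ∑ j, g i j • v j

structure IsEnergy (E : Fr → ℝ) : Prop where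
  pos : ∀ v ∈ LI, 0 < E v
  equiv : ∀ v ∈ LI, ∀ g : Matrix (Fin 2) (Fin 2) ℝ, g.det ≠ 0 → E (gact g v) = |g.det| * E v
  diff : ContDiffOn ℝ 1 E LI

theorem gram2 (v : Fr) : (Matrix.of fun i j => inner ℝ (v i) (v j) : Matrix (Fin 2) (Fin 2) ℝ).det =
    inner ℝ (v 0) (v 0) * inner ℝ (v 1) (v 1) - inner ℝ (v 0) (v 1) * inner ℝ (v 0) (v 1) := by
  rw [Matrix.det_fin_two]
  simp only [Matrix.of_apply]
  rw [real_inner_comm (v 0) (v 1)]

/-- Plücker coordinates `(p, q)` of a frame -/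
noncomputable def pl (x y : EuclideanSpace ℝ (Fin 4)) : Fin 6 → ℝ :=
  ![(x 0 * y 2 - x 2 * y 0) - (x 1 * y 3 - x 3 * y 1),
    (x 0 * y 3 - x 3 * y 0) + (x 1 * y 2 - x 2 * y 1),
    (x 0 * y 1 - x 1 * y 0) + (x 2 * y 3 - x 3 * y 2),
    (x 0 * y 2 - x 2 * y 0) + (x 1 * y 3 - x 3 * y 1),
    (x 0 * y 3 - x 3 * y 0) - (x 1 * y 2 - x 2 * y 1),
    (x 0 * y 1 - x 1 * y 0) - (x 2 * y 3 - x 3 * y 2)]

theorem inner4 (x y : EuclideanSpace ℝ (Fin 4)) :
    inner ℝ x y = x 0 * y 0 + x 1 * y 1 + x 2 * y 2 + x 3 * y 3 := by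
  simp [PiLp.inner_apply, Fin.sum_univ_four, mul_comm]

theorem gram_p (v : Fr) : (Matrix.of fun i j => inner ℝ (v i) (v j) : Matrix (Fin 2) (Fin 2) ℝ).det =
    pl (v 0) (v 1) 0 ^ 2 + pl (v 0) (v 1) 1 ^ 2 + pl (v 0) (v 1) 2 ^ 2 := by
  rw [gram2]; simp only [inner4, pl, Matrix.cons_val_zero, Matrix.cons_val_one, Matrix.cons_val]; ring

theorem gram_q (v : Fr) : (Matrix.of fun i j => inner ℝ (v i) (v j) : Matrix (Fin 2) (Fin 2) ℝ).det =
    pl (v 0) (v 1) 3 ^ 2 + pl (v 0) (v 1) 4 ^ 2 + pl (v 0) (v 1) 5 ^ 2 := by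
  rw [gram2]; simp only [inner4, pl, Matrix.cons_val_zero, Matrix.cons_val_one, Matrix.cons_val]; ring

theorem gram_nonneg (v : Fr) :
    0 ≤ (Matrix.of fun i j => inner ℝ (v i) (v j) : Matrix (Fin 2) (Fin 2) ℝ).det := by
  rw [gram_p]; positivity

theorem vol_sq_p (v : Fr) : vol v ^ 2 = pl (v 0) (v 1) 0 ^ 2 + pl (v 0) (v 1) 1 ^ 2 + pl (v 0) (v 1) 2 ^ 2 := by
  rw [vol, Real.sq_sqrt (gram_nonneg v), gram_p]

theorem vol_sq_q (v : Fr) : vol v ^ 2 = pl (v 0) (v 1) 3 ^ 2 + pl (v 0) (v 1) 4 ^ 2 + pl (v 0) (v 1) 5 ^ 2 := by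
  rw [vol, Real.sq_sqrt (gram_nonneg v), gram_q]

theorem LI_iff (v : Fr) : v ∈ LI ↔ ∀ s t : ℝ, s • v 0 + t • v 1 = 0 → s = 0 ∧ t = 0 := by
  have : v = ![v 0, v 1] := by ext i; fin_cases i <;> rfl
  unfold LI
  rw [Set.mem_ofPred_eq, this, LinearIndependent.pair_iff]
  rfl

theorem LI_iff_vol (v : Fr) : v ∈ LI ↔ 0 < vol v := by
  constructor
  · intro h
    have hn : 0 ≤ vol v := Real.sqrt_nonneg _
    rcases eq_or_lt_of_le hn with h0 | h0
    · exfalso
      have hp := vol_sq_p v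
      have hq := vol_sq_q v
      rw [← h0] at hp hq
      have z : ∀ a b c : ℝ, (0:ℝ)^2 = a^2+b^2+c^2 → a = 0 ∧ b = 0 ∧ c = 0 := by
        intro a b c h
        refine ⟨?_, ?_, ?_⟩ <;> (apply pow_eq_zero_iff (two_ne_zero) |>.1; nlinarith [sq_nonneg a, sq_nonneg b, sq_nonneg c])
      obtain ⟨e0, e1, e2⟩ := z _ _ _ hp
      obtain ⟨e3, e4, e5⟩ := z _ _ _ hq
      simp only [pl, Matrix.cons_val_zero, Matrix.cons_val_one, Matrix.cons_val] at e0 e1 e2 e3 e4 e5
      rw [LI_iff] at h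
      have key : ∀ i, v 0 i = 0 := by
        intro i
        have := h (v 1 i) (-(v 0 i)) (by
          ext j
          simp only [PiLp.add_apply, PiLp.smul_apply, smul_eq_mul, PiLp.zero_apply]
          fin_cases i <;> fin_cases j <;> simp <;> linarith)
        linarith [this.2]
      have := h 1 0 (by ext j; simp [key j])
      exact one_ne_zero this.1
    · exact h0
  · intro h
    rw [LI_iff]
    intro s t hst
    have e : ∀ i, s * v 0 i + t * v 1 i = 0 := by
      intro i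
      have := congrArg (fun w : EuclideanSpace ℝ (Fin 4) => w i) hst
      simpa using this
    have hne : vol v ^ 2 ≠ 0 := by positivity
    rw [vol_sq_p] at hne
    have a0 := e 0
    have a1 := e 1
    have a2 := e 2
    have a3 := e 3
    have hs : ∀ i, s * pl (v 0) (v 1) i = 0 := by
      intro i
      fin_cases i <;> simp only [pl, Matrix.cons_val_zero, Matrix.cons_val_one, Matrix.cons_val, Fin.mk_one, Fin.zero_eta, Fin.reduceFinMk]
      · linear_combination (v 1 2) * a0 - (v 1 0) * a2 - (v 1 3) * a1 + (v 1 1) * a3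
      · linear_combination (v 1 3) * a0 - (v 1 0) * a3 + (v 1 2) * a1 - (v 1 1) * a2
      · linear_combination (v 1 1) * a0 - (v 1 0) * a1 + (v 1 3) * a2 - (v 1 2) * a3
      · linear_combination (v 1 2) * a0 - (v 1 0) * a2 + (v 1 3) * a1 - (v 1 1) * a3
      · linear_combination (v 1 3) * a0 - (v 1 0) * a3 - (v 1 2) * a1 + (v 1 1) * a2
      · linear_combination (v 1 1) * a0 - (v 1 0) * a1 - (v 1 3) * a2 + (v 1 2) * a3
    have ht : ∀ i, t * pl (v 0) (v 1) i = 0 := by
      intro i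
      fin_cases i <;> simp only [pl, Matrix.cons_val_zero, Matrix.cons_val_one, Matrix.cons_val, Fin.mk_one, Fin.zero_eta, Fin.reduceFinMk]
      · linear_combination -(v 0 2) * a0 + (v 0 0) * a2 + (v 0 3) * a1 - (v 0 1) * a3
      · linear_combination -(v 0 3) * a0 + (v 0 0) * a3 - (v 0 2) * a1 + (v 0 1) * a2
      · linear_combination -(v 0 1) * a0 + (v 0 0) * a1 - (v 0 3) * a2 + (v 0 2) * a3
      · linear_combination -(v 0 2) * a0 + (v 0 0) * a2 - (v 0 3) * a1 + (v 0 1) * a3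
      · linear_combination -(v 0 3) * a0 + (v 0 0) * a3 + (v 0 2) * a1 - (v 0 1) * a2
      · linear_combination -(v 0 1) * a0 + (v 0 0) * a1 + (v 0 3) * a2 - (v 0 2) * a3
    constructor
    · by_contra hs0
      apply hne
      have : ∀ i, pl (v 0) (v 1) i = 0 := fun i => by
        rcases mul_eq_zero.1 (hs i) with h | h
        · exact absurd h hs0
        · exact h
      rw [this 0, this 1, this 2]; ring
    · by_contra ht0
      apply hne
      have : ∀ i, pl (v 0) (v 1) i = 0 := fun i => by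
        rcases mul_eq_zero.1 (ht i) with h | h
        · exact absurd h ht0
        · exact h
      rw [this 0, this 1, this 2]; ring

theorem pl_gact (g : Matrix (Fin 2) (Fin 2) ℝ) (v : Fr) (i : Fin 6) :
    pl (gact g v 0) (gact g v 1) i = g.det * pl (v 0) (v 1) i := by
  fin_cases i <;> simp [pl, gact, Matrix.det_fin_two, Fin.sum_univ_two] <;> ring

theorem vol_gact (g : Matrix (Fin 2) (Fin 2) ℝ) (v : Fr) : vol (gact g v) = |g.det| * vol v := by
  have h : vol (gact g v) ^ 2 = (|g.det| * vol v)^2 := by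
    rw [vol_sq_p, pl_gact, pl_gact, pl_gact, mul_pow (|g.det|), sq_abs, vol_sq_p]; ring
  have h1 : 0 ≤ vol (gact g v) := Real.sqrt_nonneg _
  have h2 : 0 ≤ |g.det| * vol v := mul_nonneg (abs_nonneg _) (Real.sqrt_nonneg _)
  exact (pow_left_inj₀ h1 h2 two_ne_zero).1 h

theorem LI_gact (g : Matrix (Fin 2) (Fin 2) ℝ) (hg : g.det ≠ 0) (v : Fr) (hv : v ∈ LI) :
    gact g v ∈ LI := by
  rw [LI_iff_vol] at *
  rw [vol_gact]
  exact mul_pos (abs_pos.2 hg) hv

theorem span_eq_exists (v w : Fr) (hv : v ∈ LI) (hw : w ∈ LI)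
    (h : Submodule.span ℝ (Set.range v) = Submodule.span ℝ (Set.range w)) :
    ∃ g : Matrix (Fin 2) (Fin 2) ℝ, g.det ≠ 0 ∧ w = gact g v := by
  have hm : ∀ i, w i ∈ Submodule.span ℝ (Set.range v) := by
    intro i; rw [h]; exact Submodule.subset_span ⟨i, rfl⟩
  have hex : ∀ i, ∃ c : Fin 2 → ℝ, ∑ j, c j • v j = w i := by
    intro i
    exact (Submodule.mem_span_range_iff_exists_fun ℝ).1 (hm i)
  choose c hc using hex
  refine ⟨Matrix.of c, ?_, ?_⟩
  · intro h0
    have hw' : w = gact (Matrix.of c) v := by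
      ext1 i; simp [gact, hc]
    rw [hw', LI_iff_vol, vol_gact, h0] at hw
    simp at hw
  · ext1 i; simp [gact, hc]

/-- the function on planes of an energy -/
noncomputable def FE (E : Fr → ℝ) (T : Submodule ℝ (EuclideanSpace ℝ (Fin 4))) : ℝ :=
  open Classical in
  if h : ∃ v : Fr, v ∈ LI ∧ Submodule.span ℝ (Set.range v) = T then E h.choose / vol h.choose else 1

theorem FE_span {E : Fr → ℝ} (hE : IsEnergy E) (v : Fr) (hv : v ∈ LI) :
    FE E (Submodule.span ℝ (Set.range v)) = E v / vol v := by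
  have h : ∃ w : Fr, w ∈ LI ∧ Submodule.span ℝ (Set.range w) = Submodule.span ℝ (Set.range v) :=
    ⟨v, hv, rfl⟩
  unfold FE
  rw [dif_pos h]
  obtain ⟨h1, h2⟩ := h.choose_spec
  obtain ⟨g, hg, hgw⟩ := span_eq_exists v h.choose hv h1 h2.symm
  rw [hgw, hE.equiv v hv g hg, vol_gact]
  have := abs_pos.2 hg
  field_simp

theorem exists_frame (T : Submodule ℝ (EuclideanSpace ℝ (Fin 4))) (hT : finrank ℝ T = 2) :
    ∃ v ∈ LI, Submodule.span ℝ (Set.range v) = T := by
  let b := finBasisOfFinrankEq ℝ T hT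
  refine ⟨fun i => (b i : EuclideanSpace ℝ (Fin 4)), ?_, ?_⟩
  · have h1 := b.linearIndependent
    exact h1.map' T.subtype (Submodule.ker_subtype T)
  · have h2 := b.span_eq
    have : Set.range (fun i => (b i : EuclideanSpace ℝ (Fin 4))) = T.subtype '' Set.range b := by
      rw [← Set.range_comp]; rfl
    rw [this, Submodule.span_image, h2, Submodule.map_top, Submodule.range_subtype]

theorem gram_contDiff : ContDiff ℝ 1 (fun v : Fr =>
    pl (v 0) (v 1) 0 ^ 2 + pl (v 0) (v 1) 1 ^ 2 + pl (v 0) (v 1) 2 ^ 2) := by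
  have c : ∀ (α : Fin 2) (i : Fin 4), ContDiff ℝ 1 (fun v : Fr => v α i) := by
    intro α i
    have h1 : ContDiff ℝ 1 (fun v : Fr => v α) := contDiff_apply ℝ (EuclideanSpace ℝ (Fin 4)) α
    exact (contDiff_euclidean.1 h1) i
  simp only [pl, Matrix.cons_val_zero, Matrix.cons_val_one, Matrix.cons_val]
  have c00 := c 0 0
  have c01 := c 0 1
  have c02 := c 0 2
  have c03 := c 0 3
  have c10 := c 1 0
  have c11 := c 1 1
  have c12 := c 1 2
  have c13 := c 1 3
  fun_prop

theorem vol_contDiffOn : ContDiffOn ℝ 1 (vol : Fr → ℝ) LI := by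
  have h : ∀ v : Fr, vol v = √(pl (v 0) (v 1) 0 ^ 2 + pl (v 0) (v 1) 1 ^ 2 + pl (v 0) (v 1) 2 ^ 2) := by
    intro v; rw [← vol_sq_p]; exact (Real.sqrt_sq (Real.sqrt_nonneg _)).symm
  have h' : (vol : Fr → ℝ) = fun v => √(pl (v 0) (v 1) 0 ^ 2 + pl (v 0) (v 1) 1 ^ 2 + pl (v 0) (v 1) 2 ^ 2) :=
    funext h
  rw [h']
  apply ContDiffOn.sqrt gram_contDiff.contDiffOn
  intro v hv
  rw [← vol_sq_p]
  have := (LI_iff_vol v).1 hv
  positivity

theorem FE_isIntegrand {E : Fr → ℝ} (hE : IsEnergy E) : IsIntegrand 4 2 (FE E) := by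
  constructor
  · intro T hT
    obtain ⟨v, hv, rfl⟩ := exists_frame T hT
    rw [FE_span hE v hv]
    exact div_pos (hE.pos v hv) ((LI_iff_vol v).1 hv)
  · have : ContDiffOn ℝ 1 (fun v : Fr => E v / vol v) LI :=
      hE.diff.div vol_contDiffOn (fun v hv => ((LI_iff_vol v).1 hv).ne')
    exact this.congr (fun v hv => FE_span hE v hv)

/-- the frame `L v` -/
noncomputable def Lfr (L : Matrix (Fin 4) (Fin 4) ℝ) (v : Fr) : Fr := fun i => Matrix.toEuclideanLin L (v i)

/-- the normalized Gauss matrix of an energy at a frame -/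
noncomputable def Bm (E : Fr → ℝ) (v : Fr) : Matrix (Fin 4) (Fin 4) ℝ := fun i j =>
  fderiv ℝ E v (fun α => v α j • EuclideanSpace.single i 1) / E v

theorem Bm_trace (E : Fr → ℝ) (v : Fr) (L : Matrix (Fin 4) (Fin 4) ℝ) :
    ((Bm E v).transpose * L).trace = fderiv ℝ E v (Lfr L v) / E v := by
  have h : Lfr L v = ∑ i, ∑ j, L i j • (fun α => v α j • EuclideanSpace.single i (1:ℝ)) := by
    ext α k
    simp only [Lfr, Matrix.toEuclideanLin, Finset.sum_apply, Pi.smul_apply]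
    simp [Matrix.toLpLin_apply, Matrix.mulVec, dotProduct, Fin.sum_univ_four]
    fin_cases k <;> simp
  rw [h]
  simp only [map_sum, map_smul, smul_eq_mul, Matrix.trace, Matrix.diag, Matrix.mul_apply,
    Matrix.transpose_apply, Bm]
  rw [Finset.sum_comm, Finset.sum_div]
  refine Finset.sum_congr rfl fun i _ => ?_
  rw [Finset.sum_div]
  refine Finset.sum_congr rfl fun j _ => ?_
  ring

theorem deriv_move {E : Fr → ℝ} (hE : IsEnergy E) (v : Fr) (hv : v ∈ LI) (L : Matrix (Fin 4) (Fin 4) ℝ) :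
    deriv (fun t : ℝ => FE E (Submodule.span ℝ (Set.range (move L t v))) *
        (vol (move L t v) / vol v)) 0 / FE E (Submodule.span ℝ (Set.range v)) =
      fderiv ℝ E v (Lfr L v) / E v := by
  have hd : DifferentiableAt ℝ E v := (hE.diff.contDiffAt (LI_open.mem_nhds hv)).differentiableAt (by norm_num)
  have hm : HasDerivAt (fun t : ℝ => move L t v) (Lfr L v) 0 := by
    have : (fun t : ℝ => move L t v) = fun t : ℝ => v + t • Lfr L v := by
      ext t α k; simp [move, Lfr]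
    rw [this]
    simpa using ((hasDerivAt_id (0:ℝ)).smul_const (Lfr L v)).const_add v
  have h0 : move L 0 v = v := by ext α k; simp [move]
  have hcomp : HasDerivAt (fun t : ℝ => E (move L t v)) (fderiv ℝ E v (Lfr L v)) 0 := by
    have h1 : HasFDerivAt E (fderiv ℝ E v) (move L 0 v) := by rw [h0]; exact hd.hasFDerivAt
    exact h1.comp_hasDerivAt 0 hm
  have hev : (fun t : ℝ => FE E (Submodule.span ℝ (Set.range (move L t v))) *
        (vol (move L t v) / vol v)) =ᶠ[nhds 0] fun t => E (move L t v) / vol v := by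
    have hc : ContinuousAt (fun t : ℝ => move L t v) 0 := hm.continuousAt
    have : ∀ᶠ t in nhds (0:ℝ), move L t v ∈ LI :=
      hc.eventually_mem (by rw [h0]; exact LI_open.mem_nhds hv)
    filter_upwards [this] with t ht
    rw [FE_span hE _ ht]
    have h1 := ((LI_iff_vol _).1 ht).ne'
    have h2 := ((LI_iff_vol _).1 hv).ne'
    field_simp
  rw [hev.deriv_eq, FE_span hE v hv, (hcomp.div_const _).deriv]
  have h2 := ((LI_iff_vol _).1 hv).ne'
  have h3 := (hE.pos v hv).ne'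
  field_simp

theorem gauss_eq {E : Fr → ℝ} (hE : IsEnergy E) :
    gaussImage 4 2 (FE E) = {B | ∃ v ∈ LI, B = Bm E v} := by
  ext B
  constructor
  · rintro ⟨v, hv, h⟩
    refine ⟨v, hv, ?_⟩
    have key : ∀ L, (B.transpose * L).trace = ((Bm E v).transpose * L).trace := by
      intro L; rw [h L, deriv_move hE v hv, Bm_trace]
    ext i j
    have := key (Matrix.single i j 1)
    simpa [Matrix.trace_mul_single] using this
  · rintro ⟨v, hv, rfl⟩
    exact ⟨v, hv, fun L => by rw [deriv_move hE v hv, Bm_trace]⟩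

end H62.EC
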