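import Pool.Agent.H62.EC.NotEC

/-! The final theorem : an integrand in the atomic class but not in the exposed class. -/

namespace H62.EC

open H62.GI

theorem ll_one : l0 (![!₂[17, 0, 0, -7], !₂[0, 1, -1, 0]] : Fr) = 239/28561 := by
  simp [l0, wd, du1, du2]; norm_num

theorem vo_LI : (![!₂[17, 0, 0, -7], !₂[0, 1, -1, 0]] : Fr) ∈ LI := by
  rw [LI_iff]
  intro s t h
  have e0 := congrArg (fun w : X4 => w 0) h
  have e1 := congrArg (fun w : X4 => w 1) h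
  simp at e0 e1
  exact ⟨e0, e1⟩

theorem vo_xc : ¬ ‖xc (![!₂[17, 0, 0, -7], !₂[0, 1, -1, 0]] : Fr)‖ < 1 := by
  intro h
  have h1 := PiLp.norm_apply_le (xc (![!₂[17, 0, 0, -7], !₂[0, 1, -1, 0]] : Fr)) 3
  have h2 : xc (![!₂[17, 0, 0, -7], !₂[0, 1, -1, 0]] : Fr) 3 = 2 := by
    rw [xc, ll_one]
    simp [ll, wd, du1, dk2]; norm_num
  rw [h2] at h1
  norm_num at h1
  linarith

theorem vo_tn : tn (![!₂[17, 0, 0, -7], !₂[0, 1, -1, 0]] : Fr) = hv tz := by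
  have hvol : vol (![!₂[17, 0, 0, -7], !₂[0, 1, -1, 0]] : Fr) = 26 := by
    have h := vol_sq_p (![!₂[17, 0, 0, -7], !₂[0, 1, -1, 0]] : Fr)
    simp only [pl] at h
    simp at h
    have h0 : 0 ≤ vol (![!₂[17, 0, 0, -7], !₂[0, 1, -1, 0]] : Fr) := Real.sqrt_nonneg _
    have : vol (![!₂[17, 0, 0, -7], !₂[0, 1, -1, 0]] : Fr)^2 = 26^2 := by
      refine Eq.trans ?_ (show (-24 : ℝ)^2 + 10^2 = 26^2 by norm_num)
      rw [h]; norm_num
    exact (pow_left_inj₀ h0 (by norm_num) two_ne_zero).1 this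
  ext i
  simp only [tn, hvol, pl]
  fin_cases i <;> simp [hv, tz] <;> norm_num

theorem exists_counterexample : ∃ F : Submodule ℝ (EuclideanSpace ℝ (Fin 4)) → ℝ,
    IsIntegrand 4 2 F ∧ AC 4 2 F ∧ ¬ EC 4 2 F := by
  obtain ⟨L, κ, R, c, a, B, hc, hc1, hc2, ha, haR, hR1, hAC⟩ := exists_AC ez ez_norm
  have hE := En_isEnergy B ez_norm hc hc1 hc2 ha haR
  refine ⟨FE (En κ c a R ez), FE_isIntegrand hE, hAC, ?_⟩
  rintro ⟨_, h2⟩
  obtain ⟨r0, hr0, hr0R, hnear⟩ := md_near B ez_norm hc hc1 hc2 ha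
  have hmem : ∀ x : X4, ‖x‖ < R → BB x (Gn phL (Gv Lens) κ c a ez x) ∈ gaussImage 4 2 (FE (En κ c a R ez)) := by
    intro x hx
    rw [gauss_eq hE]
    refine ⟨V x, V_LI x, ?_⟩
    rw [Bm_En_on B ez_norm hc hc1 hc2 ha haR (V_LI x) (by rw [l0_V, xc_V]; exact ⟨one_ne_zero, hx⟩), xc_V]
  have hG0 : Gn phL (Gv Lens) κ c a ez 0 = 0 := by
    have := md_Gsize B ez_norm hc hc1 hc2 ha 0 (by simpa using B.hR)
    rw [norm_zero, mul_zero] at this
    exact norm_le_zero_iff.1 this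
  have hPz : Pz ∈ gaussImage 4 2 (FE (En κ c a R ez)) := by
    have := hmem 0 (by simpa using B.hR)
    rwa [hG0, BB00] at this
  have hPo : Po ∈ gaussImage 4 2 (FE (En κ c a R ez)) := by
    rw [gauss_eq hE]
    refine ⟨![!₂[17, 0, 0, -7], !₂[0, 1, -1, 0]], vo_LI, ?_⟩
    rw [Bm_En_off B ez_norm hc hc1 hc2 ha haR vo_LI (fun h => vo_xc (lt_of_lt_of_le h.2 hR1)), vo_tn, BK_hv,
      BK_tz, Po_eq]
  have hexp := hPz
  rw [h2] at hexp
  obtain ⟨_, l, hl⟩ := hexp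
  have hsub := subset_convexHull ℝ (gaussImage 4 2 (FE (En κ c a R ez)))
  have heq : l Po = l Pz := by
    refine functional_core (κ := κ) (c := c) B.hκ hc hr0 (l : M4 →ₗ[ℝ] ℝ) ?_
    intro x hx
    have := (hl _ (hsub (hmem x (by linarith)))).1
    rwa [hnear x hx] at this
  exact Pz_ne_Po ((hl Po (hsub hPo)).2 heq.ge).symm

end H62.EC
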