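import Pool.Agent.H62.EC.Energy

/-! Frame calculus for energies; the criterion for the atomic condition. -/

open Module

namespace H62.EC

open H62.GI

/-- dual vectors `ξ_α` of an energy at a frame (coordinates) -/
noncomputable def xi (E : Fr → ℝ) (v : Fr) (α : Fin 2) (i : Fin 4) : ℝ :=
  fderiv ℝ E v (Pi.single α (EuclideanSpace.single i 1)) / E v

theorem Bm_xi (E : Fr → ℝ) (v : Fr) (i j : Fin 4) :
    Bm E v i j = xi E v 0 i * v 0 j + xi E v 1 i * v 1 j := by
  have h : (fun α => v α j • EuclideanSpace.single i (1:ℝ) : Fr) =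
      v 0 j • (Pi.single 0 (EuclideanSpace.single i (1:ℝ)) : Fr) +
      v 1 j • (Pi.single 1 (EuclideanSpace.single i (1:ℝ)) : Fr) := by
    ext α k
    fin_cases α <;> simp
  simp only [Bm, xi, h, map_add, map_smul, smul_eq_mul]
  ring

theorem diffAt {E : Fr → ℝ} (hE : IsEnergy E) {v : Fr} (hv : v ∈ LI) : DifferentiableAt ℝ E v :=
  (hE.diff.contDiffAt (LI_open.mem_nhds hv)).differentiableAt (by norm_num)

/-- derivative in the direction of the frame itself -/
theorem fderiv_single {E : Fr → ℝ} (hE : IsEnergy E) {v : Fr} (hv : v ∈ LI) (α γ : Fin 2) :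
    fderiv ℝ E v (Pi.single α (v γ)) = if α = γ then E v else 0 := by
  have hd := (diffAt hE hv).hasFDerivAt
  -- path
  have hp : HasDerivAt (fun t : ℝ => v + t • (Pi.single α (v γ) : Fr)) (Pi.single α (v γ)) 0 := by
    simpa using ((hasDerivAt_id (0:ℝ)).smul_const (Pi.single α (v γ) : Fr)).const_add v
  have h1 : HasDerivAt (fun t : ℝ => E (v + t • (Pi.single α (v γ) : Fr)))
      (fderiv ℝ E v (Pi.single α (v γ))) 0 := by
    have h1 : HasFDerivAt E (fderiv ℝ E v) (v + (0:ℝ) • (Pi.single α (v γ) : Fr)) := by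
      simpa using hd
    exact h1.comp_hasDerivAt 0 hp
  -- group action
  let g : ℝ → Matrix (Fin 2) (Fin 2) ℝ := fun t => 1 + t • Matrix.single α γ 1
  have hg : ∀ t, gact (g t) v = v + t • (Pi.single α (v γ) : Fr) := by
    intro t
    ext δ k
    fin_cases α <;> fin_cases γ <;> fin_cases δ <;>
      simp [g, gact, Fin.sum_univ_two, Matrix.single, add_mul] <;> ring
  have hdet : ∀ t, (g t).det = if α = γ then 1 + t else 1 := by
    intro t
    fin_cases α <;> fin_cases γ <;> simp [g, Matrix.det_fin_two, Matrix.single]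
  have hev : (fun t : ℝ => E (v + t • (Pi.single α (v γ) : Fr))) =ᶠ[nhds 0]
      fun t => (if α = γ then 1 + t else 1) * E v := by
    have : ∀ᶠ t in nhds (0:ℝ), -1 < t := lt_mem_nhds (by norm_num)
    filter_upwards [this] with t ht
    have hne : (if α = γ then 1 + t else (1:ℝ)) > 0 := by
      split_ifs
      · linarith
      · exact one_pos
    rw [← hg t, hE.equiv v hv (g t) (by rw [hdet]; exact hne.ne'), hdet, abs_of_pos hne]
  have h2 : HasDerivAt (fun t : ℝ => (if α = γ then 1 + t else 1) * E v)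
      (if α = γ then E v else 0) 0 := by
    split_ifs
    · simpa using ((hasDerivAt_id (0:ℝ)).const_add 1).mul_const (E v)
    · simpa using hasDerivAt_const (0:ℝ) (1 * E v)
  exact (h1.congr_of_eventuallyEq hev.symm).unique h2

theorem single_expand (α : Fin 2) (y : EuclideanSpace ℝ (Fin 4)) :
    (Pi.single α y : Fr) = ∑ i, y i • (Pi.single α (EuclideanSpace.single i (1:ℝ)) : Fr) := by
  ext δ k
  simp only [Finset.sum_apply, Pi.smul_apply]
  fin_cases α <;> fin_cases δ <;> fin_cases k <;> simp [Fin.sum_univ_four]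

theorem xi_dot (E : Fr → ℝ) (v : Fr) (α : Fin 2) (y : EuclideanSpace ℝ (Fin 4)) :
    xi E v α 0 * y 0 + xi E v α 1 * y 1 + xi E v α 2 * y 2 + xi E v α 3 * y 3 =
      fderiv ℝ E v (Pi.single α y) / E v := by
  rw [single_expand α y, map_sum, Fin.sum_univ_four]
  simp only [map_smul, smul_eq_mul, xi]
  ring

theorem xi_v {E : Fr → ℝ} (hE : IsEnergy E) {v : Fr} (hv : v ∈ LI) (α γ : Fin 2) :
    xi E v α 0 * v γ 0 + xi E v α 1 * v γ 1 + xi E v α 2 * v γ 2 + xi E v α 3 * v γ 3 =
      if α = γ then 1 else 0 := by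
  rw [xi_dot, fderiv_single hE hv]
  have := (hE.pos v hv).ne'
  split_ifs
  · field_simp
  · simp

theorem Bm_idem {E : Fr → ℝ} (hE : IsEnergy E) {v : Fr} (hv : v ∈ LI) :
    Bm E v * Bm E v = Bm E v := by
  have a00 := xi_v hE hv 0 0
  have a01 := xi_v hE hv 0 1
  have a10 := xi_v hE hv 1 0
  have a11 := xi_v hE hv 1 1
  simp only [Fin.isValue, if_true, zero_ne_one, one_ne_zero, if_false] at a00 a01 a10 a11
  ext i j
  rw [Matrix.mul_apply]
  simp only [Bm_xi, Fin.sum_univ_four]
  linear_combination (xi E v 0 i * v 0 j) * a00 + (xi E v 0 i * v 1 j) * a10 +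
    (xi E v 1 i * v 0 j) * a01 + (xi E v 1 i * v 1 j) * a11

theorem Bm_tr {E : Fr → ℝ} (hE : IsEnergy E) {v : Fr} (hv : v ∈ LI) : (Bm E v).trace = 2 := by
  have a00 := xi_v hE hv 0 0
  have a11 := xi_v hE hv 1 1
  simp only [Fin.isValue, if_true] at a00 a11
  simp only [Matrix.trace, Matrix.diag, Fin.sum_univ_four, Bm_xi]
  linarith

theorem Bm_gact {E : Fr → ℝ} (hE : IsEnergy E) {v : Fr} (hv : v ∈ LI)
    (g : Matrix (Fin 2) (Fin 2) ℝ) (hg : g.det ≠ 0) : Bm E (gact g v) = Bm E v := by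
  -- linear map
  let A : Fr →L[ℝ] Fr := ContinuousLinearMap.pi fun i => ∑ j, g i j • ContinuousLinearMap.proj j
  have hA : ∀ u, A u = gact g u := by
    intro u; ext1 i
    simp [A, gact]
  have hev : (fun u => E (A u)) =ᶠ[nhds v] fun u => |g.det| * E u := by
    filter_upwards [LI_open.mem_nhds hv] with u hu
    rw [hA, hE.equiv u hu g hg]
  have h1 : HasFDerivAt (fun u => E (A u)) ((fderiv ℝ E (A v)).comp A) v := by
    have : HasFDerivAt E (fderiv ℝ E (A v)) (A v) :=
      (diffAt hE (by rw [hA]; exact LI_gact g hg v hv)).hasFDerivAt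
    exact this.comp v A.hasFDerivAt
  have h2 : HasFDerivAt (fun u => |g.det| * E u) (|g.det| • fderiv ℝ E v) v :=
    (diffAt hE hv).hasFDerivAt.const_mul _
  have h3 := (h1.congr_of_eventuallyEq hev.symm).unique h2
  ext i j
  simp only [Bm]
  have hh : (fun α => gact g v α j • EuclideanSpace.single i (1:ℝ) : Fr) =
      A (fun α => v α j • EuclideanSpace.single i (1:ℝ)) := by
    rw [hA]; ext α k
    simp [gact, Fin.sum_univ_two]
    split_ifs <;> simp
  have h4 := congrArg (fun f : Fr →L[ℝ] ℝ => f (fun α => v α j • EuclideanSpace.single i (1:ℝ))) h3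
  simp only [ContinuousLinearMap.comp_apply, ContinuousLinearMap.smul_apply, smul_eq_mul] at h4
  rw [hh, ← hA, h4, hA, hE.equiv v hv g hg]
  have := abs_pos.2 hg
  have := (hE.pos v hv).ne'
  field_simp

/-- if `Q P = Q` then `Q = P` for Gauss matrices -/
theorem Bm_absorb {E : Fr → ℝ} (hE : IsEnergy E) {v w : Fr} (hv : v ∈ LI) (hw : w ∈ LI)
    (h : Bm E w * Bm E v = Bm E w) : Bm E w = Bm E v := by
  -- w_γ = Σ_α (ξ^v_α · w_γ) v_α
  have hwg : ∀ γ j, w γ j = ∑ i, w γ i * Bm E w i j := by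
    intro γ j
    have b0 := xi_v hE hw 0 γ
    have b1 := xi_v hE hw 1 γ
    simp only [Bm_xi, Fin.sum_univ_four]
    fin_cases γ <;> simp only [Fin.isValue, Fin.mk_one, Fin.zero_eta, if_true, zero_ne_one, one_ne_zero, if_false] at b0 b1 ⊢ <;>
      linear_combination -(w 0 j) * b0 - (w 1 j) * b1
  have hwv : ∀ γ j, w γ j = ∑ i, w γ i * Bm E v i j := by
    intro γ j
    rw [hwg γ j]
    have e : ∀ i, Bm E w i j = ∑ k, Bm E w i k * Bm E v k j := by
      intro i; rw [← Matrix.mul_apply, h]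
    have e2 : ∑ i, w γ i * Bm E w i j = ∑ k, (∑ i, w γ i * Bm E w i k) * Bm E v k j := by
      simp only [Finset.sum_mul]
      rw [Finset.sum_comm]
      refine Finset.sum_congr rfl fun i _ => ?_
      rw [e i, Finset.mul_sum]
      refine Finset.sum_congr rfl fun k _ => ?_
      ring
    rw [e2]
    refine Finset.sum_congr rfl fun k _ => ?_
    rw [← hwg γ k]
  let g : Matrix (Fin 2) (Fin 2) ℝ := Matrix.of fun γ α =>
    xi E v α 0 * w γ 0 + xi E v α 1 * w γ 1 + xi E v α 2 * w γ 2 + xi E v α 3 * w γ 3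
  have hg : w = gact g v := by
    ext γ j
    rw [hwv γ j]
    simp only [gact, g, Matrix.of_apply, Fin.sum_univ_two, Fin.sum_univ_four, Bm_xi,
      PiLp.add_apply, PiLp.smul_apply, smul_eq_mul]
    ring
  have hdet : g.det ≠ 0 := by
    intro h0
    rw [hg, LI_iff_vol, vol_gact, h0] at hw
    simp at hw
  rw [hg]
  exact Bm_gact hE hv g hdet

end H62.EC
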