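import Pool.Agent.H62.EC.Main1

/-! The Gauss map of the lens integrand on `S² × S²`. -/

namespace H62.EC

/-- antisymmetric matrix of a vector in `ℝ⁶` -/
def Om (g : Fin 6 → ℝ) : Matrix (Fin 4) (Fin 4) ℝ :=
  !![0, g 2 + g 5, g 0 + g 3, g 1 + g 4;
     -(g 2 + g 5), 0, g 1 - g 4, g 3 - g 0;
     -(g 0 + g 3), -(g 1 - g 4), 0, g 2 - g 5;
     -(g 1 + g 4), -(g 3 - g 0), -(g 2 - g 5), 0]

theorem trace_Om (g t g' t' : Fin 6 → ℝ) :
    ((Om g * Om t) * (Om g' * Om t')).trace =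
      4 * ((g 0 * t 0 + g 1 * t 1 + g 2 * t 2 + g 3 * t 3 + g 4 * t 4 + g 5 * t 5) *
        (g' 0 * t' 0 + g' 1 * t' 1 + g' 2 * t' 2 + g' 3 * t' 3 + g' 4 * t' 4 + g' 5 * t' 5) +
       (g 0 * t' 0 + g 1 * t' 1 + g 2 * t' 2 + g 3 * t' 3 + g 4 * t' 4 + g 5 * t' 5) *
        (g' 0 * t 0 + g' 1 * t 1 + g' 2 * t 2 + g' 3 * t 3 + g' 4 * t 4 + g' 5 * t 5) -
       ((g 0 * g' 0 + g 1 * g' 1 + g 2 * g' 2) - (g 3 * g' 3 + g 4 * g' 4 + g 5 * g' 5)) *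
       ((t 0 * t' 0 + t 1 * t' 1 + t 2 * t' 2) - (t 3 * t' 3 + t 4 * t' 4 + t 5 * t' 5))) := by
  simp only [Matrix.trace, Matrix.diag, Matrix.mul_apply, Fin.sum_univ_four, Om, Matrix.of_apply,
    Matrix.cons_val', Matrix.cons_val_zero, Matrix.cons_val_one, Matrix.cons_val]
  ring

noncomputable def Ac (z ζ : ℝ) : ℝ := 1 + PaF z + QaF ζ
noncomputable def Fc (z ζ : ℝ) : ℝ := 1 + (PaF z + z * PmF z) + (QaF ζ + ζ * QmF ζ)
noncomputable def gr (t : Fin 6 → ℝ) : Fin 6 → ℝ :=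
  ![Ac (t 2) (t 5) / 2 * t 0, Ac (t 2) (t 5) / 2 * t 1, Ac (t 2) (t 5) / 2 * t 2 + PmF (t 2),
    Ac (t 2) (t 5) / 2 * t 3, Ac (t 2) (t 5) / 2 * t 4, Ac (t 2) (t 5) / 2 * t 5 + QmF (t 5)]
noncomputable def BK (t : Fin 6 → ℝ) : Matrix (Fin 4) (Fin 4) ℝ :=
  (-1 / (2 * Fc (t 2) (t 5))) • (Om (gr t) * Om t)

/-- pairs of unit vectors -/
def KK : Set (Fin 6 → ℝ) := {t | t 0 ^ 2 + t 1 ^ 2 + t 2 ^ 2 = 1 ∧ t 3 ^ 2 + t 4 ^ 2 + t 5 ^ 2 = 1}

theorem cl_mem (s z : ℝ) (hs : 0 ≤ s) : -s ≤ cl s z ∧ cl s z ≤ s :=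
  ⟨le_max_left _ _, max_le (by linarith) (min_le_right _ _)⟩

theorem cl_continuous (s : ℝ) : Continuous (cl s) := by
  unfold cl; fun_prop

theorem one_sub_cl_pos (s z : ℝ) (hs : 0 ≤ s) (hs1 : s < 1) : 0 < 1 - cl s z ^ 2 := by
  obtain ⟨h1, h2⟩ := cl_mem s z hs
  nlinarith

theorem sqrt_cl_pos (s z : ℝ) (hs : 0 ≤ s) (hs1 : s < 1) : 0 < √(1 - cl s z ^ 2) :=
  Real.sqrt_pos.2 (one_sub_cl_pos s z hs hs1)

theorem PaF_cont : Continuous PaF := by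
  unfold PaF
  exact continuous_const.div (by have := cl_continuous (5/13); fun_prop)
    (fun z => (sqrt_cl_pos _ z (by norm_num) (by norm_num)).ne')
theorem PmF_cont : Continuous PmF := by
  unfold PmF
  exact (continuous_const.mul (cl_continuous _)).div (by have := cl_continuous (5/13); fun_prop)
    (fun z => (sqrt_cl_pos _ z (by norm_num) (by norm_num)).ne')
theorem QaF_cont : Continuous QaF := by
  unfold QaF
  exact continuous_const.div (by have := cl_continuous (12/13); fun_prop)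
    (fun z => (sqrt_cl_pos _ z (by norm_num) (by norm_num)).ne')
theorem QmF_cont : Continuous QmF := by
  unfold QmF
  exact (continuous_const.mul (cl_continuous _)).div (by have := cl_continuous (12/13); fun_prop)
    (fun z => (sqrt_cl_pos _ z (by norm_num) (by norm_num)).ne')

/-- `z * cl z` is at least `(cl z)²` -/
theorem cl_mul (s z : ℝ) (hs : 0 ≤ s) : cl s z ^ 2 ≤ cl s z * z := by
  rcases le_total z s with h1 | h1
  · rcases le_total (-s) z with h2 | h2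
    · rw [cl_of_le h2 h1]; linarith [sq z]
    · rw [cl_of_le_neg h2 hs]; nlinarith
  · rw [cl_of_ge h1 hs]; nlinarith

theorem Pa_bound (z : ℝ) (hz : z^2 ≤ 1) : -(17/26) ≤ PaF z + z * PmF z := by
  have hp := sqrt_cl_pos (5/13) z (by norm_num) (by norm_num)
  have hsq : √(1 - cl (5/13) z ^ 2)^2 = 1 - cl (5/13) z ^ 2 :=
    Real.sq_sqrt (one_sub_cl_pos _ z (by norm_num) (by norm_num)).le
  have h1 : √(1 - cl (5/13) z ^ 2) ≤ 1 := by
    exact Real.sqrt_le_iff.2 ⟨by norm_num, by nlinarith [sq_nonneg (cl (5/13) z)]⟩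
  have h2 := cl_mul (5/13) z (by norm_num)
  have : PaF z + z * PmF z = -(17/26) * ((1 - cl (5/13) z * z) / √(1 - cl (5/13) z ^ 2)) := by
    simp only [PaF, PmF]; field_simp; ring
  rw [this]
  have h3 : (1 - cl (5/13) z * z) / √(1 - cl (5/13) z ^ 2) ≤ 1 := by
    rw [div_le_one hp]
    nlinarith
  nlinarith

theorem Qa_bound (z : ℝ) (hz : z^2 ≤ 1) : 0 ≤ QaF z + z * QmF z := by
  have hp := sqrt_cl_pos (12/13) z (by norm_num) (by norm_num)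
  obtain ⟨m1, m2⟩ := cl_mem (12/13) z (by norm_num)
  have : QaF z + z * QmF z = (7/26) * ((1 - cl (12/13) z * z) / √(1 - cl (12/13) z ^ 2)) := by
    simp only [QaF, QmF]; field_simp; ring
  rw [this]
  have h3 : 0 ≤ (1 - cl (12/13) z * z) / √(1 - cl (12/13) z ^ 2) := by
    apply div_nonneg _ hp.le
    nlinarith [sq_nonneg (cl (12/13) z - z)]
  linarith

theorem Fc_pos (z ζ : ℝ) (hz : z^2 ≤ 1) (hζ : ζ^2 ≤ 1) : 9/26 ≤ Fc z ζ := by
  have := Pa_bound z hz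
  have := Qa_bound ζ hζ
  unfold Fc; linarith

theorem KK_sq {t : Fin 6 → ℝ} (h : t ∈ KK) : t 2 ^ 2 ≤ 1 ∧ t 5 ^ 2 ≤ 1 := by
  obtain ⟨h1, h2⟩ := h
  constructor <;> nlinarith [sq_nonneg (t 0), sq_nonneg (t 1), sq_nonneg (t 3), sq_nonneg (t 4)]

theorem KK_F {t : Fin 6 → ℝ} (h : t ∈ KK) : 0 < Fc (t 2) (t 5) := by
  have := Fc_pos _ _ (KK_sq h).1 (KK_sq h).2
  linarith

theorem gr_dot {t : Fin 6 → ℝ} (h : t ∈ KK) :
    gr t 0 * t 0 + gr t 1 * t 1 + gr t 2 * t 2 + gr t 3 * t 3 + gr t 4 * t 4 + gr t 5 * t 5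
      = Fc (t 2) (t 5) := by
  obtain ⟨h1, h2⟩ := h
  simp only [gr, Fc, Ac, Matrix.cons_val_zero, Matrix.cons_val_one, Matrix.cons_val]
  linear_combination (1 + PaF (t 2) + QaF (t 5)) / 2 * h1 + (1 + PaF (t 2) + QaF (t 5)) / 2 * h2

/-- the quantity `D` on `S² × S²` -/
theorem D_BK {t t' : Fin 6 → ℝ} (h : t ∈ KK) (h' : t' ∈ KK) :
    2 - (BK t * BK t').trace =
      Ev (t 0 * t' 0 + t 1 * t' 1 + t 2 * t' 2) (t 3 * t' 3 + t 4 * t' 4 + t 5 * t' 5)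
        (t 2) (t 5) (t' 2) (t' 5) / (Fc (t 2) (t 5) * Fc (t' 2) (t' 5)) := by
  have f1 := (KK_F h).ne'
  have f2 := (KK_F h').ne'
  have e : (BK t * BK t').trace = (1 / (4 * (Fc (t 2) (t 5) * Fc (t' 2) (t' 5)))) *
      ((Om (gr t) * Om t) * (Om (gr t') * Om t')).trace := by
    simp only [BK, Matrix.smul_mul, Matrix.mul_smul, Matrix.trace_smul, smul_eq_mul]
    field_simp; ring
  rw [e, trace_Om, gr_dot h, gr_dot h']
  rw [eq_div_iff (mul_ne_zero f1 f2)]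
  field_simp
  simp only [Ev, Es, gr, Ac, Fc, Matrix.cons_val_zero, Matrix.cons_val_one, Matrix.cons_val]
  ring

/-- the symmetry `h` -/
def hm : Matrix (Fin 4) (Fin 4) ℝ := Matrix.diagonal ![1, 1, -1, -1]

theorem Om_neg (g : Fin 6 → ℝ) : Om (-g) = - Om g := by
  ext i j; fin_cases i <;> fin_cases j <;> simp [Om] <;> ring

theorem gr_neg (t : Fin 6 → ℝ) : gr (-t) = - gr t := by
  ext i
  fin_cases i <;> simp only [gr, Ac, Pi.neg_apply, PaF_neg, PmF_neg, QaF_neg, QmF_neg, Matrix.cons_val_zero, Matrix.cons_val_one, Matrix.cons_val, Fin.mk_one, Fin.zero_eta, Fin.reduceFinMk] <;> ring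

theorem Fc_neg (z ζ : ℝ) : Fc (-z) (-ζ) = Fc z ζ := by
  simp only [Fc, PaF_neg, PmF_neg, QaF_neg, QmF_neg]; ring

theorem BK_neg (t : Fin 6 → ℝ) : BK (-t) = BK t := by
  simp only [BK, gr_neg, Om_neg, Pi.neg_apply, Fc_neg, Matrix.neg_mul, Matrix.mul_neg, neg_neg]

/-- action of `h` on `ℝ⁶` -/
def hv (t : Fin 6 → ℝ) : Fin 6 → ℝ := ![-t 0, -t 1, t 2, -t 3, -t 4, t 5]

theorem Om_hv (t : Fin 6 → ℝ) : Om (hv t) = hm * Om t * hm := by
  ext i j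
  simp only [hm, Matrix.mul_diagonal, Matrix.diagonal_mul]
  fin_cases i <;> fin_cases j <;> simp [Om, hv] <;> ring

theorem gr_hv (t : Fin 6 → ℝ) : gr (hv t) = hv (gr t) := by
  ext i
  fin_cases i <;> simp [gr, hv]

theorem hm_sq : hm * hm = 1 := by
  rw [hm, Matrix.diagonal_mul_diagonal, ← Matrix.diagonal_one]
  congr 1; ext i; fin_cases i <;> simp

theorem BK_hv (t : Fin 6 → ℝ) : BK (hv t) = hm * BK t * hm := by
  have e2 : hv t 2 = t 2 := by simp [hv]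
  have e5 : hv t 5 = t 5 := by simp [hv]
  simp only [BK, gr_hv, Om_hv, e2, e5, Matrix.mul_smul, Matrix.smul_mul]
  congr 1
  calc hm * Om (gr t) * hm * (hm * Om t * hm) = hm * Om (gr t) * (hm * hm) * Om t * hm := by
        simp only [Matrix.mul_assoc]
    _ = hm * (Om (gr t) * Om t) * hm := by rw [hm_sq, Matrix.mul_one]; simp only [Matrix.mul_assoc]

theorem eq_of_dot3 {a b c a' b' c' : ℝ} (h : a^2+b^2+c^2 = 1) (h' : a'^2+b'^2+c'^2 = 1)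
    (hd : a*a'+b*b'+c*c' = 1) : a' = a ∧ b' = b ∧ c' = c := by
  have : (a-a')^2 + (b-b')^2+(c-c')^2 = 0 := by linear_combination h + h' - 2 * hd
  have h1 : a - a' = 0 := by
    apply pow_eq_zero_iff (two_ne_zero) |>.1; nlinarith [sq_nonneg (a-a'), sq_nonneg (b-b'), sq_nonneg (c-c')]
  have h2 : b - b' = 0 := by
    apply pow_eq_zero_iff (two_ne_zero) |>.1; nlinarith [sq_nonneg (a-a'), sq_nonneg (b-b'), sq_nonneg (c-c')]
  have h3 : c - c' = 0 := by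
    apply pow_eq_zero_iff (two_ne_zero) |>.1; nlinarith [sq_nonneg (a-a'), sq_nonneg (b-b'), sq_nonneg (c-c')]
  exact ⟨by linarith, by linarith, by linarith⟩

theorem abs_dot2_le {a b a' b' : ℝ} : |a*a'+b*b'| ≤ √(a^2+b^2) * √(a'^2+b'^2) := by
  rw [← Real.sqrt_mul (by positivity)]
  apply Real.abs_le_sqrt
  nlinarith [sq_nonneg (a*b'-b*a')]

theorem KK_main {t t' : Fin 6 → ℝ} (h : t ∈ KK) (h' : t' ∈ KK) :
    0 ≤ 2 - (BK t * BK t').trace ∧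
    (2 - (BK t * BK t').trace = 0 → BK t' = BK t ∨ BK t' = hm * BK t * hm) := by
  have f1 := KK_F h
  have f2 := KK_F h'
  obtain ⟨h1, h2⟩ := h
  obtain ⟨h3, h4⟩ := h'
  have s1 : √(t 0 ^2 + t 1 ^2)^2 = t 0 ^2 + t 1 ^2 := Real.sq_sqrt (by positivity)
  have s2 : √(t 3 ^2 + t 4 ^2)^2 = t 3 ^2 + t 4 ^2 := Real.sq_sqrt (by positivity)
  have s3 : √(t' 0 ^2 + t' 1 ^2)^2 = t' 0 ^2 + t' 1 ^2 := Real.sq_sqrt (by positivity)
  have s4 : √(t' 3 ^2 + t' 4 ^2)^2 = t' 3 ^2 + t' 4 ^2 := Real.sq_sqrt (by positivity)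
  have key := Ev_main (√(t 0 ^2 + t 1 ^2)) (t 2) (√(t 3 ^2 + t 4 ^2)) (t 5)
    (√(t' 0 ^2 + t' 1 ^2)) (t' 2) (√(t' 3 ^2 + t' 4 ^2)) (t' 5) (Real.sqrt_nonneg _)
    (Real.sqrt_nonneg _) (Real.sqrt_nonneg _) (Real.sqrt_nonneg _)
    (by rw [s1]; exact h1) (by rw [s2]; exact h2) (by rw [s3]; exact h3) (by rw [s4]; exact h4)
    (t 0 * t' 0 + t 1 * t' 1 + t 2 * t' 2) (t 3 * t' 3 + t 4 * t' 4 + t 5 * t' 5)
    (by rw [show t 0 * t' 0 + t 1 * t' 1 + t 2 * t' 2 - t 2 * t' 2 = t 0 * t' 0 + t 1 * t' 1 by ring]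
        exact abs_dot2_le)
    (by rw [show t 3 * t' 3 + t 4 * t' 4 + t 5 * t' 5 - t 5 * t' 5 = t 3 * t' 3 + t 4 * t' 4 by ring]
        exact abs_dot2_le)
  rw [D_BK ⟨h1, h2⟩ ⟨h3, h4⟩]
  refine ⟨div_nonneg key.1 (mul_pos f1 f2).le, fun h0 => ?_⟩
  have hE : Ev (t 0 * t' 0 + t 1 * t' 1 + t 2 * t' 2) (t 3 * t' 3 + t 4 * t' 4 + t 5 * t' 5)
        (t 2) (t 5) (t' 2) (t' 5) = 0 := by
    rcases div_eq_zero_iff.1 h0 with h | h
    · exact h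
    · exact absurd h (mul_pos f1 f2).ne'
  rcases key.2 hE with ⟨c1, c2⟩ | ⟨c1, c2⟩ | ⟨c1, c2⟩ | ⟨c1, c2⟩
  · left
    obtain ⟨a1, a2, a3⟩ := eq_of_dot3 h1 h3 c1
    obtain ⟨b1, b2, b3⟩ := eq_of_dot3 h2 h4 c2
    congr 1; ext i; fin_cases i <;> simp [a1, a2, a3, b1, b2, b3]
  · left
    obtain ⟨a1, a2, a3⟩ := eq_of_dot3 h1 (a' := -t' 0) (b' := -t' 1) (c' := -t' 2)
      (by linear_combination h3) (by linear_combination -c1)
    obtain ⟨b1, b2, b3⟩ := eq_of_dot3 h2 (a' := -t' 3) (b' := -t' 4) (c' := -t' 5)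
      (by linear_combination h4) (by linear_combination -c2)
    rw [← BK_neg]
    congr 1; ext i; fin_cases i <;> simp [a1, a2, a3, b1, b2, b3]
  · right
    obtain ⟨a1, a2, a3⟩ := eq_of_dot3 h1 (a' := -t' 0) (b' := -t' 1) (c' := t' 2)
      (by linear_combination h3) (by linear_combination c1)
    obtain ⟨b1, b2, b3⟩ := eq_of_dot3 h2 (a' := -t' 3) (b' := -t' 4) (c' := t' 5)
      (by linear_combination h4) (by linear_combination c2)
    rw [← BK_hv]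
    congr 1; ext i; fin_cases i <;> simp [hv, ← a1, ← a2, a3, ← b1, ← b2, b3]
  · right
    obtain ⟨a1, a2, a3⟩ := eq_of_dot3 h1 (a' := t' 0) (b' := t' 1) (c' := -t' 2)
      (by linear_combination h3) (by linear_combination -c1)
    obtain ⟨b1, b2, b3⟩ := eq_of_dot3 h2 (a' := t' 3) (b' := t' 4) (c' := -t' 5)
      (by linear_combination h4) (by linear_combination -c2)
    rw [← BK_hv, ← BK_neg]
    congr 1; ext i; fin_cases i <;> simp [hv, a1, a2, ← a3, b1, b2, ← b3]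

end H62.EC
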