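import Pool.Agent.H62.EC.KSide
import Pool.Agent.H62.EC.Frame

/-! The lens energy. -/

namespace H62.EC

open H62.GI

/-- profile function -/
noncomputable def et (s z : ℝ) : ℝ := (1 - cl s z * z) / √(1 - cl s z ^ 2)
noncomputable def ek (s z : ℝ) : ℝ := -cl s z / √(1 - cl s z ^ 2)

theorem ek_cont (s : ℝ) (hs : 0 ≤ s) (hs1 : s < 1) : Continuous (ek s) := by
  unfold ek
  exact (cl_continuous s).neg.div (by have := cl_continuous s; fun_prop)
    (fun z => (sqrt_cl_pos _ z hs hs1).ne')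

theorem cs_aux {a w : ℝ} (ha : a^2 < 1) (hw : w^2 ≤ 1) : √(1 - w^2) ≤ (1 - a * w) / √(1 - a^2) := by
  have h1 : 0 < √(1 - a^2) := Real.sqrt_pos.2 (by linarith)
  rw [le_div_iff₀ h1, ← Real.sqrt_mul (by linarith)]
  apply Real.sqrt_le_iff.2
  constructor
  · nlinarith [sq_nonneg (a - w)]
  · nlinarith [sq_nonneg (a - w)]

theorem mono_aux {a s : ℝ} (ha : a ≤ s) (hs : 0 ≤ s) (hs1 : s^2 < 1) (ha1 : a^2 ≤ s^2) :
    a / √(1 - a^2) ≤ s / √(1 - s^2) := by
  have h1 : 0 < √(1 - a^2) := Real.sqrt_pos.2 (by linarith)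
  have h2 : 0 < √(1 - s^2) := Real.sqrt_pos.2 (by linarith)
  rw [div_le_div_iff₀ h1 h2]
  rcases le_total a 0 with h | h
  · nlinarith
  · have e1 : a * √(1 - s^2) = √(a^2 * (1 - s^2)) := by
      rw [Real.sqrt_mul (sq_nonneg a), Real.sqrt_sq h]
    have e2 : s * √(1 - a^2) = √(s^2 * (1 - a^2)) := by
      rw [Real.sqrt_mul (sq_nonneg s), Real.sqrt_sq hs]
    rw [e1, e2]
    exact Real.sqrt_le_sqrt (by nlinarith)

theorem cl_sq_le (s z : ℝ) (hs : 0 ≤ s) : cl s z ^ 2 ≤ s ^ 2 := by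
  obtain ⟨h1, h2⟩ := cl_mem s z hs
  nlinarith

theorem et_super (s : ℝ) (hs : 0 ≤ s) (hs1 : s < 1) (z w : ℝ) :
    et s w ≤ et s z + ek s z * (w - z) := by
  have hz : et s z + ek s z * (w - z) = (1 - cl s z * w) / √(1 - cl s z ^ 2) := by
    have := (sqrt_cl_pos s z hs hs1).ne'
    unfold et ek; field_simp; ring
  rw [hz]
  have hss : s^2 < 1 := by nlinarith
  obtain ⟨m1, m2⟩ := cl_mem s z hs
  have m3 := cl_sq_le s z hs
  generalize cl s z = a at *
  unfold et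
  have key : ∀ a : ℝ, a ≤ s → a^2 ≤ s^2 → ∀ w, s ≤ w → (1 - s * w) / √(1 - s^2) ≤ (1 - a*w) / √(1 - a^2) := by
    intro a m2 m3 w h1
    have e1 := cs_aux (a := a) (w := s) (by linarith) hss.le
    have e2 := mono_aux m2 hs hss m3
    have p1 : 0 < √(1 - s^2) := Real.sqrt_pos.2 (by linarith)
    have p2 : 0 < √(1 - a^2) := Real.sqrt_pos.2 (by linarith)
    have e3 : (1 - s * w) / √(1 - s^2) = √(1 - s^2) - (w - s) * (s / √(1 - s^2)) := by
      have : √(1 - s^2) * √(1 - s^2) = 1 - s^2 := Real.mul_self_sqrt (by linarith)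
      field_simp
      nlinarith
    have e4 : (1 - a * w) / √(1 - a^2) = (1 - a * s) / √(1 - a^2) - (w - s) * (a / √(1 - a^2)) := by
      field_simp; ring
    rw [e3, e4]
    have := mul_le_mul_of_nonneg_left e2 (sub_nonneg.2 h1)
    linarith
  rcases le_total w s with h1 | h1
  · rcases le_total (-s) w with h2 | h2
    · rw [cl_of_le h2 h1]
      have hw : w^2 ≤ 1 := by nlinarith
      have e := cs_aux (a := a) (w := w) (by linarith) hw
      have : (1 - w * w) / √(1 - w^2) = √(1 - w^2) := by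
        rw [← sq, Real.div_sqrt]
      rw [this]; exact e
    · rw [cl_of_le_neg h2 hs]
      have := key (-a) (by linarith) (by rw [neg_sq]; exact m3) (-w) (by linarith)
      rw [neg_sq] at this ⊢
      have e5 : 1 - s * -w = 1 - -s * w := by ring
      have e6 : 1 - -a * -w = 1 - a * w := by ring
      rw [e5, e6] at this
      exact this
  · rw [cl_of_ge h1 hs]
    exact key a m2 m3 w h1

theorem hasDerivAt_of_super {f k : ℝ → ℝ} (h : ∀ z w, f w ≤ f z + k z * (w - z)) (hk : Continuous k)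
    (z : ℝ) : HasDerivAt f (k z) z := by
  rw [hasDerivAt_iff_isLittleO, Asymptotics.isLittleO_iff]
  intro c hc
  have hev : ∀ᶠ w in nhds z, |k w - k z| < c := by
    have := (hk.continuousAt (x := z)).eventually (Metric.ball_mem_nhds (k z) hc)
    filter_upwards [this] with w hw
    rwa [← Real.dist_eq]
  filter_upwards [hev] with w hw
  rw [Real.norm_eq_abs, Real.norm_eq_abs, smul_eq_mul]
  have a1 := h z w
  have a2 := h w z
  have a3 : |f w - f z - (w - z) * k z| ≤ |k w - k z| * |w - z| := by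
    rw [← abs_mul, abs_le]
    constructor
    · have := neg_abs_le ((k w - k z) * (w - z))
      have a4 : (k w - k z) * (w - z) ≤ 0 ∨ 0 ≤ (k w - k z) * (w - z) := le_total _ _
      rcases a4 with h5 | h5
      · rw [abs_of_nonpos h5]; nlinarith
      · have : f w - f z - (w - z) * k z ≥ (k w - k z) * (w - z) := by nlinarith
        rw [abs_of_nonneg h5]; linarith
    · have : f w - f z - (w - z) * k z ≤ 0 := by nlinarith
      exact this.trans (abs_nonneg _)
  calc |f w - f z - (w - z) * k z| ≤ |k w - k z| * |w - z| := a3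
    _ ≤ c * |w - z| := mul_le_mul_of_nonneg_right hw.le (abs_nonneg _)

theorem et_hasDerivAt (s : ℝ) (hs : 0 ≤ s) (hs1 : s < 1) (z : ℝ) : HasDerivAt (et s) (ek s z) z :=
  hasDerivAt_of_super (et_super s hs hs1) (ek_cont s hs hs1) z

theorem et_contDiff (s : ℝ) (hs : 0 ≤ s) (hs1 : s < 1) : ContDiff ℝ 1 (et s) := by
  rw [contDiff_one_iff_deriv]
  refine ⟨fun z => (et_hasDerivAt s hs hs1 z).differentiableAt, ?_⟩
  have : deriv (et s) = ek s := funext fun z => (et_hasDerivAt s hs hs1 z).deriv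
  rw [this]; exact ek_cont s hs hs1

theorem et_neg (s z : ℝ) (hs : 0 ≤ s) : et s (-z) = et s z := by
  unfold et; rw [cl_neg s z hs, neg_sq]; ring_nf

theorem Fc_eq (z ζ : ℝ) : Fc z ζ = 1 - (17/26) * et (5/13) z + (7/26) * et (12/13) ζ := by
  have h1 := (sqrt_cl_pos (5/13) z (by norm_num) (by norm_num)).ne'
  have h2 := (sqrt_cl_pos (12/13) ζ (by norm_num) (by norm_num)).ne'
  simp only [Fc, PaF, PmF, QaF, QmF, et]; field_simp; ring

theorem PmF_eq (z : ℝ) : PmF z = -(17/26) * ek (5/13) z := by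
  simp only [PmF, ek]; ring
theorem QmF_eq (z : ℝ) : QmF z = (7/26) * ek (12/13) z := by
  simp only [QmF, ek]; ring

/-- the lens energy -/
noncomputable def Lens (v : Fr) : ℝ :=
  vol v * Fc (pl (v 0) (v 1) 2 / vol v) (pl (v 0) (v 1) 5 / vol v)

/-- normalized Plücker vector -/
noncomputable def tn (v : Fr) : Fin 6 → ℝ := fun i => pl (v 0) (v 1) i / vol v

theorem tn_KK {v : Fr} (hv : v ∈ LI) : tn v ∈ KK := by
  have hp := (LI_iff_vol v).1 hv
  constructor
  · have := vol_sq_p v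
    simp only [tn]; field_simp; linarith
  · have := vol_sq_q v
    simp only [tn]; field_simp; linarith

theorem pl_contDiff (i : Fin 6) : ContDiff ℝ 1 (fun v : Fr => pl (v 0) (v 1) i) := by
  have c : ∀ (α : Fin 2) (i : Fin 4), ContDiff ℝ 1 (fun v : Fr => v α i) := by
    intro α i
    have h1 : ContDiff ℝ 1 (fun v : Fr => v α) := contDiff_apply ℝ (EuclideanSpace ℝ (Fin 4)) α
    exact (contDiff_euclidean.1 h1) i
  have c00 := c 0 0
  have c01 := c 0 1
  have c02 := c 0 2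
  have c03 := c 0 3
  have c10 := c 1 0
  have c11 := c 1 1
  have c12 := c 1 2
  have c13 := c 1 3
  fin_cases i <;> simp only [pl, Matrix.cons_val_zero, Matrix.cons_val_one, Matrix.cons_val, Fin.mk_one, Fin.zero_eta, Fin.reduceFinMk] <;> fun_prop

theorem Lens_isEnergy : IsEnergy Lens := by
  constructor
  · intro v hv
    have hp := (LI_iff_vol v).1 hv
    have := KK_F (tn_KK hv)
    exact mul_pos hp this
  · intro v hv g hg
    unfold Lens
    rw [vol_gact, pl_gact, pl_gact, mul_assoc]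
    have hp := ((LI_iff_vol v).1 hv).ne'
    rcases lt_or_gt_of_ne hg with h | h
    · rw [abs_of_neg h]
      have e1 : g.det * pl (v 0) (v 1) 2 / (-g.det * vol v) = -(pl (v 0) (v 1) 2 / vol v) := by
        field_simp
      have e2 : g.det * pl (v 0) (v 1) 5 / (-g.det * vol v) = -(pl (v 0) (v 1) 5 / vol v) := by
        field_simp
      rw [e1, e2, Fc_neg]
    · rw [abs_of_pos h]
      have e1 : g.det * pl (v 0) (v 1) 2 / (g.det * vol v) = (pl (v 0) (v 1) 2 / vol v) := by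
        field_simp
      have e2 : g.det * pl (v 0) (v 1) 5 / (g.det * vol v) = (pl (v 0) (v 1) 5 / vol v) := by
        field_simp
      rw [e1, e2]
  · have h : Lens = fun v => vol v * (1 - (17/26) * et (5/13) (pl (v 0) (v 1) 2 / vol v)
        + (7/26) * et (12/13) (pl (v 0) (v 1) 5 / vol v)) := by
      funext v; rw [Lens, Fc_eq]
    rw [h]
    have hne : ∀ v ∈ LI, (vol v : ℝ) ≠ 0 := fun v hv => ((LI_iff_vol v).1 hv).ne'
    have c1 : ContDiffOn ℝ 1 (fun v : Fr => pl (v 0) (v 1) 2 / vol v) LI :=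
      (pl_contDiff 2).contDiffOn.div vol_contDiffOn hne
    have c2 : ContDiffOn ℝ 1 (fun v : Fr => pl (v 0) (v 1) 5 / vol v) LI :=
      (pl_contDiff 5).contDiffOn.div vol_contDiffOn hne
    have d1 := (et_contDiff (5/13) (by norm_num) (by norm_num)).comp_contDiffOn c1
    have d2 := (et_contDiff (12/13) (by norm_num) (by norm_num)).comp_contDiffOn c2
    exact vol_contDiffOn.mul ((contDiffOn_const.sub (contDiffOn_const.mul d1)).add (contDiffOn_const.mul d2))

/-- polarization of `pl` -/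
noncomputable def dpl (v h : Fr) (i : Fin 6) : ℝ := pl (h 0) (v 1) i + pl (v 0) (h 1) i

theorem pl_path (v h : Fr) (i : Fin 6) (t : ℝ) :
    pl ((v + t • h) 0) ((v + t • h) 1) i = pl (v 0) (v 1) i + t * dpl v h i + t^2 * pl (h 0) (h 1) i := by
  fin_cases i <;> simp [pl, dpl] <;> ring

theorem poly_deriv (p d e : ℝ) : HasDerivAt (fun t : ℝ => p + t * d + t^2 * e) d 0 := by
  have a1 := ((hasDerivAt_id (0:ℝ)).mul_const d).const_add p
  have a2 := (hasDerivAt_pow 2 (0:ℝ)).mul_const e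
  exact (a1.fun_add a2).congr_deriv (by simp)

theorem scalar_deriv (p0 p1 p2 q2 d0 d1 d2 d5 e0 e1 e2 e5 w : ℝ) (hw : 0 < w)
    (hw2 : w^2 = p0^2 + p1^2 + p2^2) :
    HasDerivAt (fun t : ℝ => √((p0 + t * d0 + t^2 * e0)^2 + (p1 + t * d1 + t^2 * e1)^2 + (p2 + t * d2 + t^2 * e2)^2) *
      (1 - (17/26) * et (5/13) ((p2 + t * d2 + t^2 * e2) / √((p0 + t * d0 + t^2 * e0)^2 + (p1 + t * d1 + t^2 * e1)^2 + (p2 + t * d2 + t^2 * e2)^2))
        + (7/26) * et (12/13) ((q2 + t * d5 + t^2 * e5) / √((p0 + t * d0 + t^2 * e0)^2 + (p1 + t * d1 + t^2 * e1)^2 + (p2 + t * d2 + t^2 * e2)^2))))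
      ((p0*d0+p1*d1+p2*d2)/w * (1 - (17/26) * et (5/13) (p2/w) + (7/26) * et (12/13) (q2/w)) +
        w * (-((17/26) * (ek (5/13) (p2/w) * ((d2 * w - p2 * ((p0*d0+p1*d1+p2*d2)/w))/w^2))) +
          (7/26) * (ek (12/13) (q2/w) * ((d5 * w - q2 * ((p0*d0+p1*d1+p2*d2)/w))/w^2)))) 0 := by
  have hs : √(p0^2+p1^2+p2^2) = w := by rw [← hw2]; exact Real.sqrt_sq hw.le
  have hW : HasDerivAt (fun t : ℝ => √((p0 + t * d0 + t^2 * e0)^2 + (p1 + t * d1 + t^2 * e1)^2 + (p2 + t * d2 + t^2 * e2)^2))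
      ((p0*d0+p1*d1+p2*d2)/w) 0 := by
    have s := (((poly_deriv p0 d0 e0).fun_pow 2).fun_add ((poly_deriv p1 d1 e1).fun_pow 2)).fun_add
      ((poly_deriv p2 d2 e2).fun_pow 2)
    have s2 := s.sqrt (by simp; rw [← hw2]; positivity)
    convert s2 using 1
    simp
    rw [hs]
    field_simp
  have h0 : √((p0 + 0 * d0 + 0^2 * e0)^2 + (p1 + 0 * d1 + 0^2 * e1)^2 + (p2 + 0 * d2 + 0^2 * e2)^2) = w := by
    simpa using hs
  have hz := (poly_deriv p2 d2 e2).fun_div hW (by rw [h0]; exact hw.ne')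
  have hζ := (poly_deriv q2 d5 e5).fun_div hW (by rw [h0]; exact hw.ne')
  have hez := (et_hasDerivAt (5/13) (by norm_num) (by norm_num) _).comp (0:ℝ) hz
  have heζ := (et_hasDerivAt (12/13) (by norm_num) (by norm_num) _).comp (0:ℝ) hζ
  have h2 := hW.fun_mul (((hez.const_mul (17/26)).const_sub 1).fun_add (heζ.const_mul (7/26)))
  have z1 : ∀ p d e : ℝ, p + 0 * d + 0^2 * e = p := by intros; ring
  simp only [Function.comp_apply, z1, hs] at h2
  convert h2 using 1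

theorem Lens_fderiv {v : Fr} (hv : v ∈ LI) (h : Fr) :
    fderiv ℝ Lens v h = gr (tn v) 0 * dpl v h 0 + gr (tn v) 1 * dpl v h 1 + gr (tn v) 2 * dpl v h 2 +
      gr (tn v) 3 * dpl v h 3 + gr (tn v) 4 * dpl v h 4 + gr (tn v) 5 * dpl v h 5 := by
  have hd := (diffAt Lens_isEnergy hv).hasFDerivAt
  have hp : HasDerivAt (fun t : ℝ => v + t • h) h 0 := by
    simpa using ((hasDerivAt_id (0:ℝ)).smul_const h).const_add v
  have h1 : HasDerivAt (fun t : ℝ => Lens (v + t • h)) (fderiv ℝ Lens v h) 0 := by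
    have h1 : HasFDerivAt Lens (fderiv ℝ Lens v) (v + (0:ℝ) • h) := by simpa using hd
    exact h1.comp_hasDerivAt 0 hp
  have hw := (LI_iff_vol v).1 hv
  have hvol : ∀ t : ℝ, vol (v + t • h) = √((pl (v 0) (v 1) 0 + t * dpl v h 0 + t^2 * pl (h 0) (h 1) 0) ^ 2 +
      (pl (v 0) (v 1) 1 + t * dpl v h 1 + t^2 * pl (h 0) (h 1) 1) ^ 2 +
      (pl (v 0) (v 1) 2 + t * dpl v h 2 + t^2 * pl (h 0) (h 1) 2) ^ 2) := by
    intro t
    rw [← pl_path, ← pl_path, ← pl_path, ← vol_sq_p]; exact (Real.sqrt_sq (Real.sqrt_nonneg _)).symm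
  have hL : (fun t : ℝ => Lens (v + t • h)) = fun t => vol (v + t • h) *
      (1 - (17/26) * et (5/13) (pl ((v + t • h) 0) ((v + t • h) 1) 2 / vol (v + t • h))
        + (7/26) * et (12/13) (pl ((v + t • h) 0) ((v + t • h) 1) 5 / vol (v + t • h))) := by
    funext t; rw [Lens, Fc_eq]
  rw [hL] at h1
  simp only [hvol, pl_path] at h1
  have h2 := scalar_deriv (pl (v 0) (v 1) 0) (pl (v 0) (v 1) 1) (pl (v 0) (v 1) 2) (pl (v 0) (v 1) 5)
    (dpl v h 0) (dpl v h 1) (dpl v h 2) (dpl v h 5) (pl (h 0) (h 1) 0) (pl (h 0) (h 1) 1)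
    (pl (h 0) (h 1) 2) (pl (h 0) (h 1) 5) (vol v) hw (vol_sq_p v)
  have h3 := h1.unique h2
  rw [h3]
  have hpq : pl (v 0) (v 1) 0 * dpl v h 0 + pl (v 0) (v 1) 1 * dpl v h 1 + pl (v 0) (v 1) 2 * dpl v h 2 =
      pl (v 0) (v 1) 3 * dpl v h 3 + pl (v 0) (v 1) 4 * dpl v h 4 + pl (v 0) (v 1) 5 * dpl v h 5 := by
    simp only [pl, dpl, Matrix.cons_val_zero, Matrix.cons_val_one, Matrix.cons_val]; ring
  have hF := Fc_eq (pl (v 0) (v 1) 2 / vol v) (pl (v 0) (v 1) 5 / vol v)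
  have hF' : Fc (pl (v 0) (v 1) 2 / vol v) (pl (v 0) (v 1) 5 / vol v) =
    Ac (pl (v 0) (v 1) 2 / vol v) (pl (v 0) (v 1) 5 / vol v) +
    (pl (v 0) (v 1) 2 / vol v) * PmF (pl (v 0) (v 1) 2 / vol v) +
    (pl (v 0) (v 1) 5 / vol v) * QmF (pl (v 0) (v 1) 5 / vol v) := by
    unfold Fc Ac; ring
  rw [← hF, hF']
  simp only [gr, tn, Matrix.cons_val_zero, Matrix.cons_val_one, Matrix.cons_val]
  rw [PmF_eq, QmF_eq]
  generalize ek (5/13) (pl (v 0) (v 1) 2 / vol v) = k1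
  generalize ek (12/13) (pl (v 0) (v 1) 5 / vol v) = k2
  generalize Ac (pl (v 0) (v 1) 2 / vol v) (pl (v 0) (v 1) 5 / vol v) = A
  clear h3 h2 h1 hL hvol hF hF'
  generalize dpl v h 0 = d0 at *
  generalize dpl v h 1 = d1 at *
  generalize dpl v h 2 = d2 at *
  generalize dpl v h 3 = d3 at *
  generalize dpl v h 4 = d4 at *
  generalize dpl v h 5 = d5 at *
  generalize pl (v 0) (v 1) 0 = p0 at *
  generalize pl (v 0) (v 1) 1 = p1 at *
  generalize pl (v 0) (v 1) 2 = p2 at *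
  generalize pl (v 0) (v 1) 3 = q0 at *
  generalize pl (v 0) (v 1) 4 = q1 at *
  generalize pl (v 0) (v 1) 5 = q2 at *
  generalize vol v = w at *
  have hw' := hw.ne'
  field_simp
  linear_combination (26 * A * w) * hpq

theorem Bm_Lens {v : Fr} (hv : v ∈ LI) : Bm Lens v = BK (tn v) := by
  have hw := (LI_iff_vol v).1 hv
  have hF := KK_F (tn_KK hv)
  have hw' := hw.ne'
  have hF' := hF.ne'
  ext i j
  have e1 : Lens v = vol v * Fc (tn v 2) (tn v 5) := rfl
  simp only [Bm]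
  rw [Lens_fderiv hv, e1]
  have e2 : ∀ i, dpl v (fun α => v α j • EuclideanSpace.single i (1:ℝ)) = fun k =>
    v 0 j * pl (EuclideanSpace.single i (1:ℝ)) (v 1) k + v 1 j * pl (v 0) (EuclideanSpace.single i (1:ℝ)) k := by
    intro i; funext k
    fin_cases k <;> fin_cases i <;> simp [dpl, pl] <;> ring
  rw [e2]
  have e3 : ∀ k, pl (v 0) (v 1) k = vol v * tn v k := by
    intro k; unfold tn; field_simp
  have key : ∀ g : Fin 6 → ℝ,
      g 0 * (v 0 j * pl (EuclideanSpace.single i (1:ℝ)) (v 1) 0 + v 1 j * pl (v 0) (EuclideanSpace.single i (1:ℝ)) 0) +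
      g 1 * (v 0 j * pl (EuclideanSpace.single i (1:ℝ)) (v 1) 1 + v 1 j * pl (v 0) (EuclideanSpace.single i (1:ℝ)) 1) +
      g 2 * (v 0 j * pl (EuclideanSpace.single i (1:ℝ)) (v 1) 2 + v 1 j * pl (v 0) (EuclideanSpace.single i (1:ℝ)) 2) +
      g 3 * (v 0 j * pl (EuclideanSpace.single i (1:ℝ)) (v 1) 3 + v 1 j * pl (v 0) (EuclideanSpace.single i (1:ℝ)) 3) +
      g 4 * (v 0 j * pl (EuclideanSpace.single i (1:ℝ)) (v 1) 4 + v 1 j * pl (v 0) (EuclideanSpace.single i (1:ℝ)) 4) +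
      g 5 * (v 0 j * pl (EuclideanSpace.single i (1:ℝ)) (v 1) 5 + v 1 j * pl (v 0) (EuclideanSpace.single i (1:ℝ)) 5)
      = -(1/2) * (Om g * Om (pl (v 0) (v 1))) i j := by
    intro g
    rw [Matrix.mul_apply]
    fin_cases i <;> fin_cases j <;> simp [Om, pl, Fin.sum_univ_four] <;> ring
  rw [key (gr (tn v))]
  have e4 : Om (pl (v 0) (v 1)) = vol v • Om (tn v) := by
    ext a b
    fin_cases a <;> fin_cases b <;> simp [Om, e3] <;> ring
  rw [e4, Matrix.mul_smul, Matrix.smul_apply, BK, Matrix.smul_apply, smul_eq_mul, smul_eq_mul]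
  field_simp

end H62.EC
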