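import Pool.Agent.H62.EC.KSide
import Pool.Agent.H62.EC.Abstract

/-! Lipschitz estimates for `BK` on `S² × S²`. -/

namespace H62.EC

attribute [local instance] Matrix.normedAddCommGroup Matrix.normedSpace

section BL
variable {α : Type*} [PseudoMetricSpace α]

/-- bounded and Lipschitz on a set -/
def BL (S : Set α) (f : α → ℝ) : Prop :=
  ∃ M : ℝ, 0 ≤ M ∧ (∀ x ∈ S, |f x| ≤ M) ∧ ∀ x ∈ S, ∀ y ∈ S, |f x - f y| ≤ M * dist x y

variable {S : Set α} {f g : α → ℝ}

theorem BL.const (c : ℝ) : BL S (fun _ => c) :=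
  ⟨|c|, abs_nonneg c, fun _ _ => le_rfl, fun x _ y _ => by
    simp only [sub_self, abs_zero]; positivity⟩

theorem BL.add (hf : BL S f) (hg : BL S g) : BL S (fun x => f x + g x) := by
  obtain ⟨M, hM, a, b⟩ := hf
  obtain ⟨N, hN, c, d⟩ := hg
  refine ⟨M + N, by positivity, fun x hx => (abs_add_le _ _).trans (add_le_add (a x hx) (c x hx)),
    fun x hx y hy => ?_⟩
  have e : f x + g x - (f y + g y) = (f x - f y) + (g x - g y) := by ring
  rw [e, add_mul]
  exact (abs_add_le _ _).trans (add_le_add (b x hx y hy) (d x hx y hy))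

theorem BL.mul (hf : BL S f) (hg : BL S g) : BL S (fun x => f x * g x) := by
  obtain ⟨M, hM, a, b⟩ := hf
  obtain ⟨N, hN, c, d⟩ := hg
  refine ⟨2 * (M * N), by positivity, fun x hx => ?_, fun x hx y hy => ?_⟩
  · rw [abs_mul]
    have := mul_le_mul (a x hx) (c x hx) (abs_nonneg _) hM
    have h2 : 0 ≤ M * N := by positivity
    linarith
  · have e : f x * g x - f y * g y = (f x - f y) * g x + f y * (g x - g y) := by ring
    rw [e]
    have hd : 0 ≤ dist x y := dist_nonneg
    calc _ ≤ |(f x - f y) * g x| + |f y * (g x - g y)| := abs_add_le _ _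
      _ ≤ (M * dist x y) * N + M * (N * dist x y) := by
        rw [abs_mul, abs_mul]
        exact add_le_add (mul_le_mul (b x hx y hy) (c x hx) (abs_nonneg _) (by positivity))
          (mul_le_mul (a y hy) (d x hx y hy) (abs_nonneg _) hM)
      _ = _ := by ring

theorem BL.neg (hf : BL S f) : BL S (fun x => - f x) := by
  have := (BL.const (S := S) (-1)).mul hf
  simpa using this

theorem BL.sub (hf : BL S f) (hg : BL S g) : BL S (fun x => f x - g x) := by
  have := hf.add hg.neg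
  simpa [sub_eq_add_neg] using this

theorem BL.inv (hf : BL S f) {m : ℝ} (hm : 0 < m) (h : ∀ x ∈ S, m ≤ f x) : BL S (fun x => (f x)⁻¹) := by
  obtain ⟨M, hM, a, b⟩ := hf
  refine ⟨m⁻¹ + M * m⁻¹ * m⁻¹, by positivity, fun x hx => ?_, fun x hx y hy => ?_⟩
  · have h1 := h x hx
    rw [abs_inv, abs_of_pos (by linarith)]
    have : (f x)⁻¹ ≤ m⁻¹ := inv_anti₀ hm h1
    have h2 : 0 ≤ M * m⁻¹ * m⁻¹ := by positivity
    linarith
  · have h1 := h x hx
    have h2 := h y hy
    have p1 : 0 < f x := by linarith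
    have p2 : 0 < f y := by linarith
    have e : (f x)⁻¹ - (f y)⁻¹ = (f y - f x) * (f x)⁻¹ * (f y)⁻¹ := by field_simp
    rw [e, abs_mul, abs_mul, abs_inv, abs_inv, abs_of_pos p1, abs_of_pos p2, abs_sub_comm]
    have i1 : (f x)⁻¹ ≤ m⁻¹ := inv_anti₀ hm h1
    have i2 : (f y)⁻¹ ≤ m⁻¹ := inv_anti₀ hm h2
    have hd : 0 ≤ dist x y := dist_nonneg
    calc _ ≤ (M * dist x y) * m⁻¹ * m⁻¹ := by
          apply mul_le_mul _ i2 (by positivity) (by positivity)
          exact mul_le_mul (b x hx y hy) i1 (by positivity) (by positivity)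
      _ = (M * m⁻¹ * m⁻¹) * dist x y := by ring
      _ ≤ _ := by
        apply mul_le_mul_of_nonneg_right _ hd
        have : 0 ≤ m⁻¹ := by positivity
        linarith

theorem BL.sqrt (hf : BL S f) {m : ℝ} (hm : 0 < m) (h : ∀ x ∈ S, m ≤ f x) : BL S (fun x => √(f x)) := by
  obtain ⟨M, hM, a, b⟩ := hf
  refine ⟨√M + M / √m, by positivity, fun x hx => ?_, fun x hx y hy => ?_⟩
  · rw [abs_of_nonneg (Real.sqrt_nonneg _)]
    have : √(f x) ≤ √M := Real.sqrt_le_sqrt ((le_abs_self _).trans (a x hx))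
    have h2 : 0 ≤ M / √m := by positivity
    linarith
  · have h1 := h x hx
    have h2 := h y hy
    have q0 : 0 < √m := Real.sqrt_pos.2 hm
    have q1 : √m ≤ √(f x) := Real.sqrt_le_sqrt h1
    have q2 : 0 ≤ √(f y) := Real.sqrt_nonneg _
    have s1 : √(f x) * √(f x) = f x := Real.mul_self_sqrt (by linarith)
    have s2 : √(f y) * √(f y) = f y := Real.mul_self_sqrt (by linarith)
    have e : (√(f x) - √(f y)) * (√(f x) + √(f y)) = f x - f y := by linear_combination s1 - s2
    have hd : 0 ≤ dist x y := dist_nonneg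
    have e2 : |√(f x) - √(f y)| * √m ≤ M * dist x y := by
      calc _ ≤ |√(f x) - √(f y)| * (√(f x) + √(f y)) :=
            mul_le_mul_of_nonneg_left (by linarith) (abs_nonneg _)
        _ = |f x - f y| := by
          rw [← e, abs_mul, abs_of_nonneg (show 0 ≤ √(f x) + √(f y) by linarith)]
        _ ≤ _ := b x hx y hy
    rw [add_mul]
    have : M / √m * dist x y = M * dist x y / √m := by ring
    rw [this]
    have e3 : |√(f x) - √(f y)| ≤ M * dist x y / √m := by rwa [le_div_iff₀ q0]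
    have : 0 ≤ √M * dist x y := by positivity
    linarith

theorem BL.cl (hf : BL S f) (s : ℝ) (hs : 0 ≤ s) : BL S (fun x => cl s (f x)) := by
  obtain ⟨M, hM, a, b⟩ := hf
  refine ⟨s + M, by positivity, fun x hx => ?_, fun x hx y hy => ?_⟩
  · obtain ⟨h1, h2⟩ := cl_mem s (f x) hs
    rw [abs_le]; constructor <;> linarith
  · have hd : 0 ≤ dist x y := dist_nonneg
    have h1 : |H62.EC.cl s (f x) - H62.EC.cl s (f y)| ≤ |f x - f y| := by
      unfold H62.EC.cl
      calc _ ≤ max |(-s) - (-s)| |min (f x) s - min (f y) s| := abs_max_sub_max_le_max _ _ _ _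
        _ ≤ |f x - f y| := by
          apply max_le
          · simp
          · calc _ ≤ max |f x - f y| |s - s| := abs_min_sub_min_le_max _ _ _ _
              _ ≤ |f x - f y| := by simp
    have h2 := b x hx y hy
    nlinarith

end BL

theorem KK_abs {t : Fin 6 → ℝ} (ht : t ∈ KK) (i : Fin 6) : |t i| ≤ 1 := by
  obtain ⟨h1, h2⟩ := ht
  have a0 := sq_nonneg (t 0)
  have a1 := sq_nonneg (t 1)
  have a2 := sq_nonneg (t 2)
  have a3 := sq_nonneg (t 3)
  have a4 := sq_nonneg (t 4)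
  have a5 := sq_nonneg (t 5)
  rw [← sq_le_one_iff_abs_le_one]
  fin_cases i
  · show t 0 ^ 2 ≤ 1; linarith
  · show t 1 ^ 2 ≤ 1; linarith
  · show t 2 ^ 2 ≤ 1; linarith
  · show t 3 ^ 2 ≤ 1; linarith
  · show t 4 ^ 2 ≤ 1; linarith
  · show t 5 ^ 2 ≤ 1; linarith

theorem BL_coord (i : Fin 6) : BL KK (fun t : Fin 6 → ℝ => t i) := by
  refine ⟨1, zero_le_one, fun t ht => KK_abs ht i, fun t _ t' _ => ?_⟩
  · rw [one_mul, ← Real.dist_eq]; exact dist_le_pi_dist t t' i

theorem BL_rs {f : (Fin 6 → ℝ) → ℝ} (hf : BL KK f) (s : ℝ) (hs : 0 ≤ s) (hs1 : s < 1) :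
    BL KK (fun t => (√(1 - cl s (f t) ^ 2))⁻¹) := by
  have h1 : BL KK (fun t => 1 - cl s (f t) ^ 2) := by
    have := (BL.const (S := KK) 1).sub ((hf.cl s hs).mul (hf.cl s hs))
    simpa [sq] using this
  have hlow : ∀ t ∈ KK, 1 - s^2 ≤ 1 - cl s (f t) ^ 2 := by
    intro t _
    obtain ⟨h1, h2⟩ := cl_mem s (f t) hs
    nlinarith
  have hp : 0 < 1 - s^2 := by nlinarith
  exact (h1.sqrt hp hlow).inv (Real.sqrt_pos.2 hp) (fun t ht => Real.sqrt_le_sqrt (hlow t ht))

theorem BL_PaF : BL KK (fun t => PaF (t 2)) := by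
  have := (BL.const (S := KK) (-(17/26))).mul (BL_rs (BL_coord 2) (5/13) (by norm_num) (by norm_num))
  refine (show (fun t : Fin 6 → ℝ => PaF (t 2)) = _ from ?_) ▸ this
  funext t; simp only [PaF]; ring
theorem BL_PmF : BL KK (fun t => PmF (t 2)) := by
  have := ((BL.const (S := KK) (17/26)).mul ((BL_coord 2).cl (5/13) (by norm_num))).mul
    (BL_rs (BL_coord 2) (5/13) (by norm_num) (by norm_num))
  refine (show (fun t : Fin 6 → ℝ => PmF (t 2)) = _ from ?_) ▸ this
  funext t; simp only [PmF]; ring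
theorem BL_QaF : BL KK (fun t => QaF (t 5)) := by
  have := (BL.const (S := KK) (7/26)).mul (BL_rs (BL_coord 5) (12/13) (by norm_num) (by norm_num))
  refine (show (fun t : Fin 6 → ℝ => QaF (t 5)) = _ from ?_) ▸ this
  funext t; simp only [QaF]; ring
theorem BL_QmF : BL KK (fun t => QmF (t 5)) := by
  have := ((BL.const (S := KK) (-(7/26))).mul ((BL_coord 5).cl (12/13) (by norm_num))).mul
    (BL_rs (BL_coord 5) (12/13) (by norm_num) (by norm_num))
  refine (show (fun t : Fin 6 → ℝ => QmF (t 5)) = _ from ?_) ▸ this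
  funext t; simp only [QmF]; ring

theorem BL_Ac : BL KK (fun t => Ac (t 2) (t 5)) :=
  ((BL.const 1).add BL_PaF).add BL_QaF

theorem BL_Fc : BL KK (fun t => Fc (t 2) (t 5)) :=
  ((BL.const 1).add (BL_PaF.add ((BL_coord 2).mul BL_PmF))).add
    (BL_QaF.add ((BL_coord 5).mul BL_QmF))

theorem BL_gr (i : Fin 6) : BL KK (fun t => gr t i) := by
  have hA : BL KK (fun t => Ac (t 2) (t 5) / 2) := by
    have := BL_Ac.mul (BL.const (1/2))
    refine (show (fun t : Fin 6 → ℝ => Ac (t 2) (t 5) / 2) = _ from ?_) ▸ this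
    funext t; ring
  fin_cases i
  · exact hA.mul (BL_coord 0)
  · exact hA.mul (BL_coord 1)
  · exact (hA.mul (BL_coord 2)).add BL_PmF
  · exact hA.mul (BL_coord 3)
  · exact hA.mul (BL_coord 4)
  · exact (hA.mul (BL_coord 5)).add BL_QmF

theorem BL_Om {g : (Fin 6 → ℝ) → (Fin 6 → ℝ)} (hg : ∀ i, BL KK (fun t => g t i)) (i j : Fin 4) :
    BL KK (fun t => Om (g t) i j) := by
  have g0 := hg 0
  have g1 := hg 1
  have g2 := hg 2
  have g3 := hg 3
  have g4 := hg 4
  have g5 := hg 5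
  fin_cases i <;> fin_cases j
  · exact BL.const 0
  · exact g2.add g5
  · exact g0.add g3
  · exact g1.add g4
  · exact (g2.add g5).neg
  · exact BL.const 0
  · exact g1.sub g4
  · exact g3.sub g0
  · exact (g0.add g3).neg
  · exact (g1.sub g4).neg
  · exact BL.const 0
  · exact g2.sub g5
  · exact (g1.add g4).neg
  · exact (g3.sub g0).neg
  · exact (g2.sub g5).neg
  · exact BL.const 0

theorem BL_BK (i j : Fin 4) : BL KK (fun t => BK t i j) := by
  have hF : BL KK (fun t => (Fc (t 2) (t 5))⁻¹) :=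
    BL_Fc.inv (m := 9/26) (by norm_num) (fun t ht => Fc_pos _ _ (KK_sq ht).1 (KK_sq ht).2)
  have h1 := fun k => (BL_Om BL_gr i k).mul (BL_Om (g := fun t => t) BL_coord k j)
  have := ((BL.const (S := KK) (-(1/2))).mul hF).mul ((((h1 0).add (h1 1)).add (h1 2)).add (h1 3))
  refine (show (fun t : Fin 6 → ℝ => BK t i j) = _ from ?_) ▸ this
  funext t
  simp only [BK, Matrix.smul_apply, Matrix.mul_apply, Fin.sum_univ_four, smul_eq_mul]
  ring

/-- `BK` is Lipschitz on `KK` -/
theorem BK_lip : ∃ M : ℝ, 0 < M ∧ ∀ t ∈ KK, ∀ t' ∈ KK, ‖BK t - BK t'‖ ≤ M * ‖t - t'‖ := by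
  choose M hM hb hl using BL_BK
  refine ⟨(∑ i, ∑ j, M i j) + 1, ?_, ?_⟩
  · have : 0 ≤ ∑ i, ∑ j, M i j := Finset.sum_nonneg fun i _ => Finset.sum_nonneg fun j _ => hM i j
    linarith
  · intro t ht t' ht'
    have hS : 0 ≤ ∑ i, ∑ j, M i j := Finset.sum_nonneg fun i _ => Finset.sum_nonneg fun j _ => hM i j
    rw [Matrix.norm_le_iff (by positivity)]
    intro i j
    rw [Matrix.sub_apply, Real.norm_eq_abs]
    refine (hl i j t ht t' ht').trans ?_
    rw [dist_eq_norm]
    apply mul_le_mul_of_nonneg_right _ (norm_nonneg _)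
    have h1 : M i j ≤ ∑ j, M i j := Finset.single_le_sum (fun j _ => hM i j) (Finset.mem_univ j)
    have h2 : ∑ j, M i j ≤ ∑ i, ∑ j, M i j :=
      Finset.single_le_sum (f := fun i => ∑ j, M i j) (fun i _ => Finset.sum_nonneg fun j _ => hM i j) (Finset.mem_univ i)
    linarith

theorem KK_compact : IsCompact KK := by
  apply Metric.isCompact_of_isClosed_isBounded
  · have c : ∀ i : Fin 6, Continuous (fun t : Fin 6 → ℝ => t i) := fun i => continuous_apply i
    exact (isClosed_eq ((((c 0).pow 2).add ((c 1).pow 2)).add ((c 2).pow 2)) continuous_const).inter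
      (isClosed_eq ((((c 3).pow 2).add ((c 4).pow 2)).add ((c 5).pow 2)) continuous_const)
  · rw [isBounded_iff_forall_norm_le]
    refine ⟨1, fun t ht => ?_⟩
    rw [pi_norm_le_iff_of_nonneg zero_le_one]
    intro i
    exact KK_abs ht i

theorem BK_contOn : ContinuousOn BK KK := by
  obtain ⟨M, hM, h⟩ := BK_lip
  have : LipschitzOnWith ⟨M, hM.le⟩ BK KK := by
    apply LipschitzOnWith.of_dist_le_mul
    intro t ht t' ht'
    rw [dist_eq_norm, dist_eq_norm]; exact h t ht t' ht'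
  exact this.continuousOn

end H62.EC
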