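import Pool.Agent.H62.EC.Chart
import Pool.Agent.H62.EC.Abstract

/-! Local formulas in the chart. -/

namespace H62.EC

open H62.GI

noncomputable def z00 (x G : X4) (i : Fin 4) : ℝ :=
  G 0 * ![-7/169, 0, 0, 17/169] i + G 1 * ![0, 1/169, -1/169, 0] i +
  (1 - x 0 * G 0 - x 1 * G 1) * ![12/169, 0, 0, -5/169] i - (x 2 * G 0 + x 3 * G 1) * ![0, 85/169, 84/169, 0] i
noncomputable def z11 (x G : X4) (i : Fin 4) : ℝ :=
  G 2 * ![-7/169, 0, 0, 17/169] i + G 3 * ![0, 1/169, -1/169, 0] i -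
  (x 0 * G 2 + x 1 * G 3) * ![12/169, 0, 0, -5/169] i + (1 - x 2 * G 2 - x 3 * G 3) * ![0, 85/169, 84/169, 0] i

/-- the Gauss matrix in terms of chart data -/
noncomputable def BB (x G : X4) : M4 := fun i j =>
  z00 x G i * ![17 + 5 * x 0, 84 * x 1, -85 * x 1, 7 + 12 * x 0] j +
  z11 x G i * ![5 * x 2, 1 + 84 * x 3, 1 - 85 * x 3, 12 * x 2] j

theorem Bm_BB {E : Fr → ℝ} (hE : IsEnergy E) (x : X4) : Bm E (V x) = BB x (Gv E x) := by
  have a00 := xi_v hE (V_LI x) 0 0
  have a01 := xi_v hE (V_LI x) 0 1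
  have a10 := xi_v hE (V_LI x) 1 0
  have a11 := xi_v hE (V_LI x) 1 1
  simp only [Fin.isValue, if_true, zero_ne_one, one_ne_zero, if_false, V0, V1,
    Matrix.cons_val_zero, Matrix.cons_val_one, Matrix.cons_val] at a00 a01 a10 a11
  have k0 : ∀ i, xi E (V x) 0 i = z00 x (Gv E x) i := by
    intro i
    fin_cases i <;> simp [z00, Gv, bk1, bk2]
    · linear_combination (12/169) * a00
    · linear_combination (85/169) * a01
    · linear_combination (84/169) * a01
    · linear_combination (-5/169) * a00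
  have k1 : ∀ i, xi E (V x) 1 i = z11 x (Gv E x) i := by
    intro i
    fin_cases i <;> simp [z11, Gv, bk1, bk2]
    · linear_combination (12/169) * a10
    · linear_combination (85/169) * a11
    · linear_combination (84/169) * a11
    · linear_combination (-5/169) * a10
  ext i j
  rw [Bm_xi, k0, k1, V0, V1]; rfl

/-- quadratic remainder -/
noncomputable def QQ (z G H : X4) : ℝ :=
  (z 0 * H 0 + z 1 * H 1) * (z 0 * G 0 + z 1 * G 1) + (z 0 * H 2 + z 1 * H 3) * (z 2 * G 0 + z 3 * G 1) +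
  (z 2 * H 0 + z 3 * H 1) * (z 0 * G 2 + z 1 * G 3) + (z 2 * H 2 + z 3 * H 3) * (z 2 * G 2 + z 3 * G 3)

theorem D_BB (x G y H : X4) : Dd (BB x G) (BB y H) = inner ℝ (H - G) (y - x) + QQ (y - x) G H := by
  rw [inner4]
  simp only [Dd, QQ, Matrix.trace, Matrix.diag, Matrix.mul_apply, Fin.sum_univ_four, BB, z00, z11,
    Matrix.cons_val_zero, Matrix.cons_val_one, Matrix.cons_val, PiLp.sub_apply]
  ring

end H62.EC
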