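import Pool.Agent.H62.EC.T2

/-! Nonnegativity of `Ev` with equality cases. -/

namespace H62.EC

/-- the equality cases -/
def Bad (C H z ζ z' ζ' : ℝ) : Prop :=
  (C = 1 ∧ H = 1) ∨ (C = -1 ∧ H = -1) ∨ (2*(z*z') - C = 1 ∧ 2*(ζ*ζ') - H = 1) ∨
    (2*(z*z') - C = -1 ∧ 2*(ζ*ζ') - H = -1)

theorem Bad_sym1 {C H z ζ z' ζ' : ℝ} (h : Bad C H (-z) ζ (-z') ζ') : Bad C H z ζ z' ζ' := by
  unfold Bad at *; simpa using h
theorem Bad_sym2 {C H z ζ z' ζ' : ℝ} (h : Bad C H z (-ζ) z' (-ζ')) : Bad C H z ζ z' ζ' := by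
  unfold Bad at *; simpa using h
theorem Bad_sym3 {C H z ζ z' ζ' : ℝ} (h : Bad (-C) (-H) z ζ (-z') (-ζ')) : Bad C H z ζ z' ζ' := by
  unfold Bad at *
  rcases h with ⟨h1, h2⟩ | ⟨h1, h2⟩ | ⟨h1, h2⟩ | ⟨h1, h2⟩
  · right; left; constructor <;> linarith
  · left; constructor <;> linarith
  · right; right; right; constructor <;> linarith
  · right; right; left; constructor <;> linarith

theorem exists_param (C u a : ℝ) (ha : 0 ≤ a) (h : |C - u| ≤ a) :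
    ∃ t : ℝ, -1 ≤ t ∧ t ≤ 1 ∧ C = u + t * a ∧ (a = 0 → t = 1) := by
  rcases eq_or_lt_of_le ha with h0 | h0
  · refine ⟨1, by norm_num, le_refl _, ?_, fun _ => rfl⟩
    rw [← h0] at h ⊢
    have := abs_nonpos_iff.1 h
    linarith
  · obtain ⟨h1, h2⟩ := abs_le.1 h
    refine ⟨(C - u)/a, ?_, ?_, ?_, fun h3 => absurd h3 h0.ne'⟩
    · rw [le_div_iff₀ h0]; linarith
    · rw [div_le_iff₀ h0]; linarith
    · field_simp; ring

theorem mul_eq_one_cases {a b : ℝ} (ha : a^2 ≤ 1) (hb : b^2 ≤ 1) (h : a * b = 1) :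
    (a = 1 ∧ b = 1) ∨ (a = -1 ∧ b = -1) := by
  have h1 : (a - b)^2 ≤ 0 := by nlinarith
  have h2 : a = b := by nlinarith [sq_nonneg (a-b), pow_eq_zero_iff (two_ne_zero) |>.1 (le_antisymm h1 (sq_nonneg _))]
  subst h2
  have : (a - 1) * (a + 1) = 0 := by nlinarith
  rcases mul_eq_zero.1 this with h | h
  · left; constructor <;> linarith
  · right; constructor <;> linarith

theorem cs1 {r z r' z' : ℝ} (h1 : r^2+z^2 = 1) (h3 : r'^2+z'^2 = 1) : (z*z'+r*r')^2 ≤ 1 := by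
  have : (z*z'+r*r')^2 + (z*r'-r*z')^2 = (r^2+z^2)*(r'^2+z'^2) := by ring
  rw [h1, h3] at this
  linarith [sq_nonneg (z*r'-r*z')]

theorem cs2 {r z r' z' : ℝ} (h1 : r^2+z^2 = 1) (h3 : r'^2+z'^2 = 1) : (z*z'-r*r')^2 ≤ 1 := by
  have : (z*z'-r*r')^2 + (z*r'+r*z')^2 = (r^2+z^2)*(r'^2+z'^2) := by ring
  rw [h1, h3] at this
  linarith [sq_nonneg (z*r'+r*z')]

theorem le_one_of_sq {a : ℝ} (h : a^2 ≤ 1) : a ≤ 1 := by nlinarith

theorem ta_aux {t a C u : ℝ} (hup : u + a ≤ 1) (hC : C = u + t * a) (h : 1 - C ≤ 1/40) :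
    (1 - t) * a ≤ 1/40 := by
  have : (1 - t) * a = u + a - C := by rw [hC]; ring
  linarith

theorem tb_aux {t a : ℝ} (h : (1 - t) * a ≤ 1/40) (ha : 1/2 ≤ a) (ht : t ≤ 1) :
    (1 - t)/2 ≤ 1/40 := by nlinarith

theorem q2_aux {u a v b : ℝ} (h1 : u + a ≤ 1) (h2 : v + b ≤ 1) (h3 : b ≤ v)
    (h4 : 1/10 ≤ b) : 1/5 ≤ 1 - (u+a)*(v-b) := by
  have : (u+a)*(v-b) ≤ 1*(v-b) := mul_le_mul_of_nonneg_right h1 (by linarith)
  linarith

theorem q4_aux {x y : ℝ} (hx : x^2 ≤ 1) (hy : y^2 ≤ 1) : 1 - x*y ≤ 2 := by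
  nlinarith [sq_nonneg (x+y)]

theorem main_pos (r z ρ ζ r' z' ρ' ζ' : ℝ) (hr : 0 ≤ r) (hz : 0 ≤ z) (hρ : 0 ≤ ρ) (hζ : 0 ≤ ζ)
    (hr' : 0 ≤ r') (hz' : 0 ≤ z') (hρ' : 0 ≤ ρ')
    (h1 : r^2+z^2 = 1) (h2 : ρ^2+ζ^2 = 1) (h3 : r'^2+z'^2 = 1) (h4 : ρ'^2+ζ'^2 = 1)
    (C H : ℝ) (hC : |C - z*z'| ≤ r*r') (hH : |H - ζ*ζ'| ≤ ρ*ρ') :
    0 ≤ Ev C H z ζ z' ζ' ∧ (Ev C H z ζ z' ζ' = 0 → Bad C H z ζ z' ζ') := by
  obtain ⟨t, ht, ht', hCt, ht0⟩ := exists_param C (z*z') (r*r') (mul_nonneg hr hr') hC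
  obtain ⟨s, hs, hs', hHs, hs0⟩ := exists_param H (ζ*ζ') (ρ*ρ') (mul_nonneg hρ hρ') hH
  obtain ⟨X, hX, hX1, hX2, hm⟩ := T2a r z ρ ζ r' z' ρ' ζ' hr hz hρ hζ hr' hz' hρ' h1 h2 h3 h4
    t s ht ht' hs hs'
  rw [← hCt, ← hHs] at hm
  have w1 : 0 ≤ (1+t)/2 * ((1+s)/2) := by apply mul_nonneg <;> linarith
  have w2 : 0 ≤ (1+t)/2 * ((1-s)/2) := by apply mul_nonneg <;> linarith
  have w3 : 0 ≤ (1-t)/2 * ((1+s)/2) := by apply mul_nonneg <;> linarith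
  have w4 : 0 ≤ (1-t)/2 * ((1-s)/2) := by apply mul_nonneg <;> linarith
  have hCp : (z*z'+r*r')^2 ≤ 1 := cs1 h1 h3
  have hHp : (ζ*ζ'+ρ*ρ')^2 ≤ 1 := cs1 h2 h4
  have hCm : (z*z'-r*r')^2 ≤ 1 := cs2 h1 h3
  have hHm : (ζ*ζ'-ρ*ρ')^2 ≤ 1 := cs2 h2 h4
  have k1 := one_sub_mul_nonneg' hCp hHp
  have k2 := one_sub_mul_nonneg' hCp hHm
  have k3 := one_sub_mul_nonneg' hCm hHp
  have hzz : 0 ≤ z*z' := mul_nonneg hz hz'
  have hrr : 0 ≤ r*r' := mul_nonneg hr hr'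
  have hρρ : 0 ≤ ρ*ρ' := mul_nonneg hρ hρ'
  have hζ2 : 0 < ζ' → 0 ≤ ζ*ζ' := fun h => mul_nonneg hζ h.le
  have hζ3 : ζ' ≤ 0 → ζ*ζ' ≤ 0 := fun h => mul_nonpos_of_nonneg_of_nonpos hζ h
  unfold Bad
  generalize z*z' = u at *
  generalize r*r' = a at *
  generalize ζ*ζ' = v at *
  generalize ρ*ρ' = b at *
  have m1 := mul_nonneg w1 k1
  have m2 := mul_nonneg w2 k2
  have m3 := mul_nonneg w3 k3
  have m4 := mul_nonneg w4 hX
  refine ⟨by linarith, fun h0 => ?_⟩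
  rw [h0] at hm
  have z1 : (1+t)/2 * ((1+s)/2) * (1 - (u+a)*(v+b)) = 0 := by linarith
  have z2 : (1+t)/2 * ((1-s)/2) * (1 - (u+a)*(v-b)) = 0 := by linarith
  have z3 : (1-t)/2 * ((1+s)/2) * (1 - (u-a)*(v+b)) = 0 := by linarith
  have z4 : (1-t)/2 * ((1-s)/2) * X = 0 := by linarith
  clear m1 m2 m3 m4 w1 w2 w3 w4 hm
  rcases eq_or_lt_of_le ht' with h | h
  · -- t = 1
    subst h
    have z1' : (1+s)/2 * (1 - (u+a)*(v+b)) = 0 := by linarith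
    have z2' : (1-s)/2 * (1 - (u+a)*(v-b)) = 0 := by linarith
    rcases eq_or_lt_of_le hs' with h | h
    · subst h
      have : (u+a)*(v+b) = 1 := by linarith
      rcases mul_eq_one_cases hCp hHp this with ⟨e1, e2⟩ | ⟨e1, e2⟩
      · left; constructor <;> linarith
      · exfalso; linarith
    · have : (u+a)*(v-b) = 1 := by
        rcases mul_eq_zero.1 z2' with h' | h'
        · linarith
        · linarith
      rcases mul_eq_one_cases hCp hHm this with ⟨e1, e2⟩ | ⟨e1, e2⟩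
      · exfalso
        have hvp : v + b ≤ 1 := le_one_of_sq hHp
        have : b = 0 := by linarith
        have := hs0 this
        linarith
      · exfalso; linarith
  · have ha : 0 < a := by
      rcases eq_or_lt_of_le hrr with h' | h'
      · have := ht0 h'.symm; linarith
      · exact h'
    have z3' : (1+s)/2 * (1 - (u-a)*(v+b)) = 0 := by
      have : (1-t)/2 ≠ 0 := by linarith
      rcases mul_eq_zero.1 z3 with h' | h'
      · rcases mul_eq_zero.1 h' with h'' | h''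
        · exact absurd h'' this
        · rw [h'', zero_mul]
      · rw [h', mul_zero]
    have z4' : (1-s)/2 * X = 0 := by
      have : (1-t)/2 ≠ 0 := by linarith
      rcases mul_eq_zero.1 z4 with h' | h'
      · rcases mul_eq_zero.1 h' with h'' | h''
        · exact absurd h'' this
        · rw [h'', zero_mul]
      · rw [h', mul_zero]
    rcases eq_or_lt_of_le hs' with h' | h'
    · subst h'
      have : (u-a)*(v+b) = 1 := by linarith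
      rcases mul_eq_one_cases hCm hHp this with ⟨e1, e2⟩ | ⟨e1, e2⟩
      · exfalso
        have := le_one_of_sq hCp
        linarith
      · right; left
        have e3 : a ≤ 1 := by have := le_one_of_sq hCp; linarith
        have e4 : u = 0 := by linarith
        have e5 : a = 1 := by linarith
        rw [e2, e4, e5] at z1
        constructor
        · rw [hCt, e4, e5]; linarith
        · linarith
    · have hb : 0 < b := by
        rcases eq_or_lt_of_le hρρ with h'' | h''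
        · have := hs0 h''.symm; linarith
        · exact h''
      have hX0 : X = 0 := by
        rcases mul_eq_zero.1 z4' with h'' | h''
        · linarith
        · exact h''
      have z2' : (1+t)/2 * (1 - (u+a)*(v-b)) = 0 := by
        have : (1-s)/2 ≠ 0 := by linarith
        rcases mul_eq_zero.1 z2 with h'' | h''
        · rcases mul_eq_zero.1 h'' with h3 | h3
          · rw [h3, zero_mul]
          · exact absurd h3 this
        · rw [h'', mul_zero]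
      rcases le_or_gt ζ' 0 with hle | hgt
      · have := hX1 hle
        rw [hX0] at this
        have : (u-a)*(v-b) = 1 := by linarith
        rcases mul_eq_one_cases hCm hHm this with ⟨e1, e2⟩ | ⟨e1, e2⟩
        · exfalso
          have := le_one_of_sq hCp
          linarith
        · right; left
          have e3 : a ≤ 1 := by have := le_one_of_sq hCp; linarith
          have e4 : u = 0 := by linarith
          have e5 : a = 1 := by linarith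
          rw [e4, e5] at z2' z3'
          rw [e2] at z2'
          have e6 : t = -1 := by linarith
          have e7 : (1+s)/2 * (1 + (v+b)) = 0 := by linarith
          have e8 : s = -1 := by
            rcases mul_eq_zero.1 e7 with h3 | h3
            · linarith
            · exfalso; linarith
          constructor
          · rw [hCt, e4, e5, e6]; ring
          · rw [hHs, e8]; linarith
      · have := hX2 hgt
        rw [hX0] at this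
        have : (u+a)*(v+b) = 1 := by linarith
        rcases mul_eq_one_cases hCp hHp this with ⟨e1, e2⟩ | ⟨e1, e2⟩
        · right; right; left
          rw [e1] at z2'
          rw [e2] at z3'
          have e6 : t = -1 := by
            rcases mul_eq_zero.1 z2' with h3 | h3
            · linarith
            · exfalso; linarith
          have e7 : s = -1 := by
            rcases mul_eq_zero.1 z3' with h3 | h3
            · linarith
            · exfalso; linarith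
          constructor
          · rw [hCt, e6]; linarith
          · rw [hHs, e7]; linarith
        · exfalso; linarith

theorem abs_aux1 {C z z' r : ℝ} (h : |C - z*z'| ≤ r) : |C - (-z)*(-z')| ≤ r := by
  rwa [neg_mul_neg]
theorem abs_aux2 {C z z' r : ℝ} (h : |C - z*z'| ≤ r) : |(-C) - z*(-z')| ≤ r := by
  rw [show -C - z * -z' = -(C - z*z') by ring, abs_neg]; exact h

/-- nonnegativity with equality cases, no sign condition -/
theorem Ev_main (r z ρ ζ r' z' ρ' ζ' : ℝ) (hr : 0 ≤ r) (hρ : 0 ≤ ρ)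
    (hr' : 0 ≤ r') (hρ' : 0 ≤ ρ')
    (h1 : r^2+z^2 = 1) (h2 : ρ^2+ζ^2 = 1) (h3 : r'^2+z'^2 = 1) (h4 : ρ'^2+ζ'^2 = 1)
    (C H : ℝ) (hC : |C - z*z'| ≤ r*r') (hH : |H - ζ*ζ'| ≤ ρ*ρ') :
    0 ≤ Ev C H z ζ z' ζ' ∧ (Ev C H z ζ z' ζ' = 0 → Bad C H z ζ z' ζ') := by
  -- step 1 : z ≥ 0, ζ ≥ 0
  have st1 : ∀ (z ζ z' ζ' C H : ℝ), 0 ≤ z → 0 ≤ ζ → r^2+z^2 = 1 → ρ^2+ζ^2 = 1 → r'^2+z'^2 = 1 →
      ρ'^2+ζ'^2 = 1 → |C - z*z'| ≤ r*r' → |H - ζ*ζ'| ≤ ρ*ρ' →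
      0 ≤ Ev C H z ζ z' ζ' ∧ (Ev C H z ζ z' ζ' = 0 → Bad C H z ζ z' ζ') := by
    intro z ζ z' ζ' C H hz hζ h1 h2 h3 h4 hC hH
    rcases le_total 0 z' with h | h
    · exact main_pos r z ρ ζ r' z' ρ' ζ' hr hz hρ hζ hr' h hρ' h1 h2 h3 h4 C H hC hH
    · have := main_pos r z ρ ζ r' (-z') ρ' (-ζ') hr hz hρ hζ hr' (by linarith) hρ' h1 h2
        (by rw [neg_sq]; exact h3) (by rw [neg_sq]; exact h4) (-C) (-H) (abs_aux2 hC) (abs_aux2 hH)
      rw [Ev_sym3] at this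
      exact ⟨this.1, fun h => Bad_sym3 (this.2 h)⟩
  have st2 : ∀ (z ζ z' ζ' C H : ℝ), 0 ≤ z → r^2+z^2 = 1 → ρ^2+ζ^2 = 1 → r'^2+z'^2 = 1 →
      ρ'^2+ζ'^2 = 1 → |C - z*z'| ≤ r*r' → |H - ζ*ζ'| ≤ ρ*ρ' →
      0 ≤ Ev C H z ζ z' ζ' ∧ (Ev C H z ζ z' ζ' = 0 → Bad C H z ζ z' ζ') := by
    intro z ζ z' ζ' C H hz h1 h2 h3 h4 hC hH
    rcases le_total 0 ζ with h | h
    · exact st1 z ζ z' ζ' C H hz h h1 h2 h3 h4 hC hH
    · have := st1 z (-ζ) z' (-ζ') C H hz (by linarith) h1 (by rw [neg_sq]; exact h2) h3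
        (by rw [neg_sq]; exact h4) hC (abs_aux1 hH)
      rw [Ev_sym2] at this
      exact ⟨this.1, fun h => Bad_sym2 (this.2 h)⟩
  rcases le_total 0 z with h | h
  · exact st2 z ζ z' ζ' C H h h1 h2 h3 h4 hC hH
  · have := st2 (-z) ζ (-z') ζ' C H (by linarith) (by rw [neg_sq]; exact h1) h2
      (by rw [neg_sq]; exact h3) h4 (abs_aux1 hC) hH
    rw [Ev_sym1] at this
    exact ⟨this.1, fun h => Bad_sym1 (this.2 h)⟩

/-- quantitative version near the diagonal -/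
theorem Ev_local (r z ρ ζ r' z' ρ' ζ' : ℝ) (hr : 0 ≤ r) (hz : 0 ≤ z) (hρ : 0 ≤ ρ) (hζ : 0 ≤ ζ)
    (hr' : 0 ≤ r') (hz' : 0 ≤ z') (hρ' : 0 ≤ ρ')
    (h1 : r^2+z^2 = 1) (h2 : ρ^2+ζ^2 = 1) (h3 : r'^2+z'^2 = 1) (h4 : ρ'^2+ζ'^2 = 1)
    (C H : ℝ) (hC : |C - z*z'| ≤ r*r') (hH : |H - ζ*ζ'| ≤ ρ*ρ')
    (n1 : 1/10 ≤ ρ*ρ') (n2 : 1/2 ≤ r*r') (n3 : 1 - C ≤ 1/40) (n4 : ρ*ρ' ≤ ζ*ζ') :
    1 - C*H ≤ 320 * Ev C H z ζ z' ζ' := by
  obtain ⟨t, ht, ht', hCt, ht0⟩ := exists_param C (z*z') (r*r') (mul_nonneg hr hr') hC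
  obtain ⟨s, hs, hs', hHs, hs0⟩ := exists_param H (ζ*ζ') (ρ*ρ') (mul_nonneg hρ hρ') hH
  obtain ⟨X, hX, hX1, hX2, hm⟩ := T2a r z ρ ζ r' z' ρ' ζ' hr hz hρ hζ hr' hz' hρ' h1 h2 h3 h4
    t s ht ht' hs hs'
  rw [← hCt, ← hHs] at hm
  have hCp : (z*z'+r*r')^2 ≤ 1 := cs1 h1 h3
  have hHp : (ζ*ζ'+ρ*ρ')^2 ≤ 1 := cs1 h2 h4
  have hCm : (z*z'-r*r')^2 ≤ 1 := cs2 h1 h3
  have hHm : (ζ*ζ'-ρ*ρ')^2 ≤ 1 := cs2 h2 h4
  have k1 := one_sub_mul_nonneg' hCp hHp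
  have k2 := one_sub_mul_nonneg' hCp hHm
  have k3 := one_sub_mul_nonneg' hCm hHp
  have hzz : 0 ≤ z*z' := mul_nonneg hz hz'
  generalize z*z' = u at *
  generalize r*r' = a at *
  generalize ζ*ζ' = v at *
  generalize ρ*ρ' = b at *
  have hup : u + a ≤ 1 := le_one_of_sq hCp
  have hvp : v + b ≤ 1 := le_one_of_sq hHp
  -- (1 - t) a ≤ 1 - C
  have hta : (1 - t) * a ≤ 1/40 := ta_aux hup hCt n3
  have ht1 : (1 - t)/2 ≤ 1/40 := tb_aux hta n2 ht'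
  have id : 1 - C*H = (1+t)/2 * ((1+s)/2) * (1 - (u+a)*(v+b)) +
     (1+t)/2 * ((1-s)/2) * (1 - (u+a)*(v-b)) +
     (1-t)/2 * ((1+s)/2) * (1 - (u-a)*(v+b)) +
     (1-t)/2 * ((1-s)/2) * (1 - (u-a)*(v-b)) := by rw [hCt, hHs]; ring
  have w1 : 0 ≤ (1+t)/2 * ((1+s)/2) := by apply mul_nonneg <;> linarith
  have w2 : 0 ≤ (1+t)/2 * ((1-s)/2) := by apply mul_nonneg <;> linarith
  have w3 : 0 ≤ (1-t)/2 * ((1+s)/2) := by apply mul_nonneg <;> linarith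
  have w4 : 0 ≤ (1-t)/2 * ((1-s)/2) := by apply mul_nonneg <;> linarith
  have m1 := mul_nonneg w1 k1
  have m3 := mul_nonneg w3 k3
  have m4 := mul_nonneg w4 hX
  -- 1 - (u+a)(v-b) ≥ 2b ≥ 1/5
  have q2 : 1/5 ≤ 1 - (u+a)*(v-b) := q2_aux hup hvp n4 n1
  have q4 : 1 - (u-a)*(v-b) ≤ 2 := q4_aux hCm hHm
  have ws : 0 ≤ (1-s)/2 := by linarith
  have p2 : (1+t)/2 * ((1-s)/2) * (1/5) ≤ (1+t)/2 * ((1-s)/2) * (1 - (u+a)*(v-b)) :=
    mul_le_mul_of_nonneg_left q2 w2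
  have p4 : (1-t)/2 * ((1-s)/2) * (1 - (u-a)*(v-b)) ≤ (1-t)/2 * ((1-s)/2) * 2 :=
    mul_le_mul_of_nonneg_left q4 w4
  have p5 : (1-t)/2 * ((1-s)/2) ≤ 1/40 * ((1-s)/2) := mul_le_mul_of_nonneg_right ht1 ws
  have p6 : (39/40) * ((1-s)/2) ≤ (1+t)/2 * ((1-s)/2) :=
    mul_le_mul_of_nonneg_right (by linarith) ws
  linarith

end H62.EC
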