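import Mathlib

/-! Local modification of a strongly convex function into a degenerate one. -/

namespace H62.EC

abbrev X4' := EuclideanSpace ℝ (Fin 4)

/-- regularized positive part -/
noncomputable def mm (δ s : ℝ) : ℝ := (max (s + δ) 0 ^ 2 - max (s - δ) 0 ^ 2) / (4 * δ)
noncomputable def mu (δ s : ℝ) : ℝ := (max (s + δ) 0 - max (s - δ) 0) / (2 * δ)

theorem mu_mem {δ : ℝ} (hδ : 0 < δ) (s : ℝ) : 0 ≤ mu δ s ∧ mu δ s ≤ 1 := by
  unfold mu
  constructor
  · apply div_nonneg _ (by linarith)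
    have : max (s - δ) 0 ≤ max (s + δ) 0 := max_le_max_right 0 (by linarith)
    linarith
  · rw [div_le_one (by linarith)]
    have : max (s + δ) 0 ≤ max (s - δ) 0 + 2 * δ := by
      apply max_le
      · have := le_max_left (s - δ) 0; linarith
      · have := le_max_right (s - δ) 0; linarith
    linarith

theorem mm_zero {δ s : ℝ} (hδ : 0 < δ) (h : s ≤ -δ) : mm δ s = 0 := by
  unfold mm
  rw [max_eq_right (by linarith), max_eq_right (by linarith)]; simp

theorem mu_zero {δ s : ℝ} (hδ : 0 < δ) (h : s ≤ -δ) : mu δ s = 0 := by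
  unfold mu
  rw [max_eq_right (by linarith), max_eq_right (by linarith)]; simp

theorem mm_id {δ s : ℝ} (hδ : 0 < δ) (h : δ ≤ s) : mm δ s = s := by
  unfold mm
  rw [max_eq_left (by linarith), max_eq_left (by linarith)]
  field_simp; ring

theorem mu_one {δ s : ℝ} (hδ : 0 < δ) (h : δ ≤ s) : mu δ s = 1 := by
  unfold mu
  rw [max_eq_left (by linarith), max_eq_left (by linarith)]
  field_simp; ring

theorem pos_convex (x y : ℝ) : max x 0 ^ 2 + 2 * max x 0 * (y - x) ≤ max y 0 ^ 2 ∧
    max y 0 ^ 2 ≤ max x 0 ^ 2 + 2 * max x 0 * (y - x) + (y - x)^2 := by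
  rcases le_total x 0 with hx | hx <;> rcases le_total y 0 with hy | hy
  · rw [max_eq_right hx, max_eq_right hy]; constructor <;> nlinarith [sq_nonneg (y-x)]
  · rw [max_eq_right hx, max_eq_left hy]; constructor <;> nlinarith [sq_nonneg (y-x)]
  · rw [max_eq_left hx, max_eq_right hy]; constructor <;> nlinarith [sq_nonneg (y-x)]
  · rw [max_eq_left hx, max_eq_left hy]; constructor <;> nlinarith [sq_nonneg (y-x)]

theorem mm_convex {δ : ℝ} (hδ : 0 < δ) (s t : ℝ) : mm δ s + mu δ s * (t - s) ≤ mm δ t := by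
  have key : max (s + δ) 0 ^ 2 - max (s - δ) 0 ^ 2 + 2 * (max (s + δ) 0 - max (s - δ) 0) * (t - s) ≤
      max (t + δ) 0 ^ 2 - max (t - δ) 0 ^ 2 := by
    rcases le_total s (-δ) with h1 | h1
    · rw [max_eq_right (show s + δ ≤ 0 by linarith), max_eq_right (show s - δ ≤ 0 by linarith)]
      have : max (t - δ) 0 ≤ max (t + δ) 0 := max_le_max_right 0 (by linarith)
      have h0 : 0 ≤ max (t - δ) 0 := le_max_right _ _
      nlinarith
    · rcases le_total s δ with h2 | h2
      · rw [max_eq_left (show 0 ≤ s + δ by linarith), max_eq_right (show s - δ ≤ 0 by linarith)]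
        rcases le_total t (-δ) with h3 | h3
        · rw [max_eq_right (show t + δ ≤ 0 by linarith), max_eq_right (show t - δ ≤ 0 by linarith)]
          nlinarith
        · rcases le_total t δ with h4 | h4
          · rw [max_eq_left (show 0 ≤ t + δ by linarith), max_eq_right (show t - δ ≤ 0 by linarith)]
            nlinarith [sq_nonneg (t - s)]
          · rw [max_eq_left (show 0 ≤ t + δ by linarith), max_eq_left (show 0 ≤ t - δ by linarith)]
            nlinarith [sq_nonneg (s - δ), mul_nonneg (sub_nonneg.2 h2) (sub_nonneg.2 h4)]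
      · rw [max_eq_left (show 0 ≤ s + δ by linarith), max_eq_left (show 0 ≤ s - δ by linarith)]
        rcases le_total t (-δ) with h3 | h3
        · rw [max_eq_right (show t + δ ≤ 0 by linarith), max_eq_right (show t - δ ≤ 0 by linarith)]
          nlinarith
        · rcases le_total t δ with h4 | h4
          · rw [max_eq_left (show 0 ≤ t + δ by linarith), max_eq_right (show t - δ ≤ 0 by linarith)]
            nlinarith [sq_nonneg (t - δ)]
          · rw [max_eq_left (show 0 ≤ t + δ by linarith), max_eq_left (show 0 ≤ t - δ by linarith)]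
            nlinarith
  have e1 : mm δ s + mu δ s * (t - s) = (max (s + δ) 0 ^ 2 - max (s - δ) 0 ^ 2 +
      2 * (max (s + δ) 0 - max (s - δ) 0) * (t - s)) / (4 * δ) := by
    unfold mm mu; field_simp; ring
  rw [e1]; unfold mm
  exact div_le_div_of_nonneg_right key (by linarith)

theorem mu_lip {δ : ℝ} (hδ : 0 < δ) (s t : ℝ) : |mu δ s - mu δ t| ≤ |s - t| / (2 * δ) := by
  have key : |(max (s + δ) 0 - max (s - δ) 0) - (max (t + δ) 0 - max (t - δ) 0)| ≤ |s - t| := by
    have f : ∀ s : ℝ, max (s + δ) 0 - max (s - δ) 0 = min (max (s + δ) 0) (2 * δ) := by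
      intro s
      rcases le_total s (-δ) with h1 | h1
      · rw [max_eq_right (show s + δ ≤ 0 by linarith), max_eq_right (show s - δ ≤ 0 by linarith),
          min_eq_left (by linarith)]; ring
      · rcases le_total s δ with h2 | h2
        · rw [max_eq_left (show 0 ≤ s + δ by linarith), max_eq_right (show s - δ ≤ 0 by linarith),
            min_eq_left (by linarith)]; ring
        · rw [max_eq_left (show 0 ≤ s + δ by linarith), max_eq_left (show 0 ≤ s - δ by linarith),
            min_eq_right (by linarith)]; ring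
    rw [f, f]
    calc |min (max (s + δ) 0) (2 * δ) - min (max (t + δ) 0) (2 * δ)|
        ≤ max |max (s + δ) 0 - max (t + δ) 0| |2 * δ - 2 * δ| := abs_min_sub_min_le_max _ _ _ _
      _ ≤ |s - t| := by
          apply max_le
          · calc |max (s + δ) 0 - max (t + δ) 0| ≤ max |(s + δ) - (t + δ)| |(0:ℝ) - 0| :=
                abs_max_sub_max_le_max _ _ _ _
              _ ≤ |s - t| := by
                apply max_le
                · rw [show (s + δ) - (t + δ) = s - t by ring]
                · simp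
          · simp
  have e : mu δ s - mu δ t = ((max (s + δ) 0 - max (s - δ) 0) - (max (t + δ) 0 - max (t - δ) 0)) / (2 * δ) := by
    unfold mu; ring
  rw [e, abs_div, abs_of_pos (show 0 < 2 * δ by linarith)]
  exact div_le_div_of_nonneg_right key (by linarith)

theorem hasDerivAt_of_quad {f k : ℝ → ℝ} {C z : ℝ} (h : ∀ w, |f w - f z - k z * (w - z)| ≤ C * (w - z)^2) :
    HasDerivAt f (k z) z := by
  have hC : 0 ≤ C := by
    have := (abs_nonneg _).trans (h (z + 1)); simpa using this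
  rw [hasDerivAt_iff_isLittleO, Asymptotics.isLittleO_iff]
  intro c hc
  have hev : ∀ᶠ w in nhds z, |w - z| < c / (C + 1) := by
    have := Metric.ball_mem_nhds z (show 0 < c / (C + 1) by positivity)
    filter_upwards [this] with w hw
    rwa [← Real.dist_eq]
  filter_upwards [hev] with w hw
  rw [Real.norm_eq_abs, Real.norm_eq_abs, smul_eq_mul]
  have a1 := h w
  rw [mul_comm (k z)] at a1
  refine a1.trans ?_
  rw [← sq_abs, sq, ← mul_assoc]
  apply mul_le_mul_of_nonneg_right _ (abs_nonneg _)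
  rw [lt_div_iff₀ (by positivity)] at hw
  nlinarith [abs_nonneg (w - z)]

theorem mm_hasDerivAt {δ : ℝ} (hδ : 0 < δ) (s : ℝ) : HasDerivAt (mm δ) (mu δ s) s := by
  have h1 : ∀ z : ℝ, HasDerivAt (fun x : ℝ => max x 0 ^ 2) (2 * max z 0) z := by
    intro z
    refine hasDerivAt_of_quad (k := fun z => 2 * max z 0) (C := 1) ?_
    intro w
    obtain ⟨a, b⟩ := pos_convex z w
    rw [abs_le]; constructor <;> nlinarith [sq_nonneg (w - z)]
  have h2 : HasDerivAt (fun s : ℝ => max (s + δ) 0 ^ 2) (2 * max (s + δ) 0) s := by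
    exact (h1 (s + δ)).comp_add_const s δ
  have h3 : HasDerivAt (fun s : ℝ => max (s - δ) 0 ^ 2) (2 * max (s - δ) 0) s := by
    exact (h1 (s - δ)).comp_sub_const s δ
  have := (h2.sub h3).div_const (4 * δ)
  refine this.congr_deriv ?_
  unfold mu; field_simp; ring

theorem mu_cont {δ : ℝ} : Continuous (mu δ) := by
  unfold mu; fun_prop

theorem mm_contDiff {δ : ℝ} (hδ : 0 < δ) : ContDiff ℝ 1 (mm δ) := by
  rw [contDiff_one_iff_deriv]
  refine ⟨fun z => (mm_hasDerivAt hδ z).differentiableAt, ?_⟩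
  have : deriv (mm δ) = mu δ := funext fun z => (mm_hasDerivAt hδ z).deriv
  rw [this]; exact mu_cont

/-! the cubic function -/

theorem cube_id (x y : X4') : ‖y‖^3 - ‖x‖^3 - 3 * ‖x‖ * inner ℝ x (y - x) =
    (‖y‖ - ‖x‖)^2 * (2 * ‖y‖ + ‖x‖) / 2 + 3/2 * ‖x‖ * ‖y - x‖^2 := by
  have h1 : ‖y - x‖^2 = ‖y‖^2 - 2 * inner ℝ y x + ‖x‖^2 := norm_sub_sq_real y x
  have h2 : inner ℝ x (y - x) = inner ℝ y x - ‖x‖^2 := by
    rw [inner_sub_right, real_inner_self_eq_norm_sq, real_inner_comm]
  rw [h1, h2]; ring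

theorem cube_lower (x y : X4') : ‖x‖^3 + 3 * ‖x‖ * inner ℝ x (y - x) + (1/16) * (‖x‖ + ‖y‖) * ‖y - x‖^2 ≤ ‖y‖^3 := by
  have h := cube_id x y
  have hx := norm_nonneg x
  have hy := norm_nonneg y
  have hd := norm_nonneg (y - x)
  have htri : ‖y - x‖ ≤ ‖y‖ + ‖x‖ := norm_sub_le y x
  generalize ‖x‖ = s at *
  generalize ‖y‖ = t at *
  generalize ‖y - x‖ = d at *
  have key : (1/16) * (s + t) * d^2 ≤ (t - s)^2 * (2 * t + s) / 2 + 3/2 * s * d^2 := by
    rcases le_total t (2*s) with h2 | h2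
    · have : (1/16) * (s + t) * d^2 ≤ 3/2 * s * d^2 := by
        apply mul_le_mul_of_nonneg_right _ (sq_nonneg d); linarith
      have : 0 ≤ (t - s)^2 * (2 * t + s) / 2 := by positivity
      linarith
    · have hd2 : d^2 ≤ (3/2*t)^2 := by
        apply pow_le_pow_left₀ hd; linarith
      have e1 : (1/16) * (s + t) * d^2 ≤ (1/16) * (3/2*t) * (3/2*t)^2 := by
        apply mul_le_mul _ hd2 (sq_nonneg d) (by positivity)
        linarith
      have e2 : (t/2)^2 * (2*t) / 2 ≤ (t - s)^2 * (2 * t + s) / 2 := by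
        have : (t/2)^2 ≤ (t-s)^2 := pow_le_pow_left₀ (by linarith) (by linarith) 2
        have : (t/2)^2 * (2*t) ≤ (t-s)^2 * (2*t+s) := mul_le_mul this (by linarith) (by linarith) (sq_nonneg _)
        linarith
      have e3 : 0 ≤ 3/2 * s * d^2 := by positivity
      have e4 : 0 ≤ t^3 := by positivity
      nlinarith
  linarith

theorem cube_upper (x y : X4') : |‖y‖^3 - ‖x‖^3 - 3 * ‖x‖ * inner ℝ x (y - x)| ≤ (‖y‖ + 2*‖x‖) * ‖y - x‖^2 := by
  have h := cube_id x y
  rw [h]
  have hx := norm_nonneg x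
  have hy := norm_nonneg y
  have hd := norm_nonneg (y - x)
  have h1 : (‖y‖ - ‖x‖)^2 ≤ ‖y - x‖^2 := by
    have := abs_norm_sub_norm_le y x
    rw [← sq_abs]
    exact pow_le_pow_left₀ (abs_nonneg _) this 2
  rw [abs_of_nonneg (by positivity)]
  have : (‖y‖ - ‖x‖)^2 * (2 * ‖y‖ + ‖x‖) ≤ ‖y - x‖^2 * (2 * ‖y‖ + ‖x‖) :=
    mul_le_mul_of_nonneg_right h1 (by positivity)
  nlinarith

theorem hasFDerivAt_of_quad {f : X4' → ℝ} {x g : X4'} {C r : ℝ} (hC : 0 ≤ C) (hr : 0 < r)
    (h : ∀ y, ‖y - x‖ < r → |f y - f x - inner ℝ g (y - x)| ≤ C * ‖y - x‖^2) :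
    HasFDerivAt f (innerSL ℝ g) x := by
  rw [hasFDerivAt_iff_isLittleO, Asymptotics.isLittleO_iff]
  intro c hc
  have hev : ∀ᶠ w in nhds x, ‖w - x‖ < min r (c / (C + 1)) := by
    have := Metric.ball_mem_nhds x (show 0 < min r (c / (C + 1)) by positivity)
    filter_upwards [this] with w hw
    rwa [← dist_eq_norm]
  filter_upwards [hev] with w hw
  rw [innerSL_apply_apply, Real.norm_eq_abs]
  refine (h w (lt_of_lt_of_le hw (min_le_left _ _))).trans ?_
  rw [sq, ← mul_assoc]
  apply mul_le_mul_of_nonneg_right _ (norm_nonneg _)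
  have := lt_of_lt_of_le hw (min_le_right _ _)
  rw [lt_div_iff₀ (by positivity)] at this
  nlinarith [norm_nonneg (w - x)]

theorem cube_hasFDerivAt (x : X4') : HasFDerivAt (fun x : X4' => ‖x‖^3) (innerSL ℝ ((3 * ‖x‖) • x)) x := by
  refine hasFDerivAt_of_quad (C := 3 * ‖x‖ + 1) (r := 1) (by positivity) one_pos ?_
  intro y hy
  rw [inner_smul_left]
  have := cube_upper x y
  refine this.trans ?_
  apply mul_le_mul_of_nonneg_right _ (sq_nonneg _)
  have : ‖y‖ ≤ ‖x‖ + ‖y - x‖ := by
    have := norm_add_le x (y - x); simpa using this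
  linarith

/-- the degenerate model -/
noncomputable def psi (h c : ℝ) (e x : X4') : ℝ := h / 2 * inner ℝ e x ^ 2 + c * ‖x‖^3
noncomputable def gpsi (h c : ℝ) (e x : X4') : X4' := (h * inner ℝ e x) • e + (3 * c * ‖x‖) • x

theorem psi_hasFDerivAt (h c : ℝ) (e x : X4') :
    HasFDerivAt (psi h c e) (innerSL ℝ (gpsi h c e x)) x := by
  have h1 : HasFDerivAt (fun x : X4' => inner ℝ e x) (innerSL ℝ e) x := (innerSL ℝ e).hasFDerivAt
  have h2 : HasFDerivAt (fun x : X4' => h / 2 * inner ℝ e x ^ 2) ((h / 2) • ((2 * inner ℝ e x) • innerSL ℝ e)) x := by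
    have := (h1.pow 2).const_mul (h/2)
    simpa using this
  have h3 := (cube_hasFDerivAt x).const_mul c
  refine (h2.add h3).congr_fderiv ?_
  ext y
  simp [gpsi, inner_add_left, inner_smul_left]
  ring

theorem gpsi_cont (h c : ℝ) (e : X4') : Continuous (gpsi h c e) := by
  unfold gpsi; fun_prop

theorem psi_contDiff (h c : ℝ) (e : X4') : ContDiff ℝ 1 (psi h c e) := by
  rw [contDiff_one_iff_hasFDerivAt]
  exact ⟨fun x => innerSL ℝ (gpsi h c e x), (innerSL ℝ).continuous.comp (gpsi_cont h c e),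
    psi_hasFDerivAt h c e⟩

theorem psi_lower (h c : ℝ) (hh : 0 ≤ h) (hc : 0 ≤ c) (e x y : X4') :
    psi h c e x + inner ℝ (gpsi h c e x) (y - x) + (c/16) * (‖x‖ + ‖y‖) * ‖y - x‖^2 ≤ psi h c e y := by
  have h1 := mul_le_mul_of_nonneg_left (cube_lower x y) hc
  have e1 : inner ℝ (gpsi h c e x) (y - x) = h * inner ℝ e x * inner ℝ e (y - x) + 3 * c * ‖x‖ * inner ℝ x (y - x) := by
    simp [gpsi, inner_add_left, inner_smul_left]
  have e2 : inner ℝ e y = inner ℝ e x + inner ℝ e (y - x) := by rw [← inner_add_right]; simp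
  rw [e1]; unfold psi; rw [e2]
  nlinarith [mul_nonneg hh (sq_nonneg (inner ℝ e (y - x)))]

end H62.EC
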