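import Pool.Agent.H62.EC.Lip
import Pool.Agent.H62.EC.Lens
import Pool.Agent.H62.EC.Local

/-! Facts about `BK` near the contact point. -/

namespace H62.EC

open H62.GI

attribute [local instance] Matrix.normedAddCommGroup Matrix.normedSpace

noncomputable def tz : Fin 6 → ℝ := ![12/13, 0, 5/13, 5/13, 0, 12/13]

theorem tz_KK : tz ∈ KK := by
  constructor <;> simp [tz] <;> norm_num

theorem KK_cases {t t' : Fin 6 → ℝ} (h : t ∈ KK) (h' : t' ∈ KK) (h0 : Dd (BK t) (BK t') = 0) :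
    t' = t ∨ t' = -t ∨ t' = hv t ∨ t' = -hv t := by
  have f1 := KK_F h
  have f2 := KK_F h'
  obtain ⟨h1, h2⟩ := h
  obtain ⟨h3, h4⟩ := h'
  have s1 : √(t 0 ^2 + t 1 ^2)^2 = t 0 ^2 + t 1 ^2 := Real.sq_sqrt (by positivity)
  have s2 : √(t 3 ^2 + t 4 ^2)^2 = t 3 ^2 + t 4 ^2 := Real.sq_sqrt (by positivity)
  have s3 : √(t' 0 ^2 + t' 1 ^2)^2 = t' 0 ^2 + t' 1 ^2 := Real.sq_sqrt (by positivity)
  have s4 : √(t' 3 ^2 + t' 4 ^2)^2 = t' 3 ^2 + t' 4 ^2 := Real.sq_sqrt (by positivity)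
  have key := Ev_main (√(t 0 ^2 + t 1 ^2)) (t 2) (√(t 3 ^2 + t 4 ^2)) (t 5)
    (√(t' 0 ^2 + t' 1 ^2)) (t' 2) (√(t' 3 ^2 + t' 4 ^2)) (t' 5) (Real.sqrt_nonneg _)
    (Real.sqrt_nonneg _) (Real.sqrt_nonneg _) (Real.sqrt_nonneg _)
    (by rw [s1]; exact h1) (by rw [s2]; exact h2) (by rw [s3]; exact h3) (by rw [s4]; exact h4)
    (t 0 * t' 0 + t 1 * t' 1 + t 2 * t' 2) (t 3 * t' 3 + t 4 * t' 4 + t 5 * t' 5)
    (by rw [show t 0 * t' 0 + t 1 * t' 1 + t 2 * t' 2 - t 2 * t' 2 = t 0 * t' 0 + t 1 * t' 1 by ring]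
        exact abs_dot2_le)
    (by rw [show t 3 * t' 3 + t 4 * t' 4 + t 5 * t' 5 - t 5 * t' 5 = t 3 * t' 3 + t 4 * t' 4 by ring]
        exact abs_dot2_le)
  unfold Dd at h0
  rw [D_BK ⟨h1, h2⟩ ⟨h3, h4⟩] at h0
  have hE : Ev (t 0 * t' 0 + t 1 * t' 1 + t 2 * t' 2) (t 3 * t' 3 + t 4 * t' 4 + t 5 * t' 5)
        (t 2) (t 5) (t' 2) (t' 5) = 0 := by
    rcases div_eq_zero_iff.1 h0 with h | h
    · exact h
    · exact absurd h (mul_pos f1 f2).ne'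
  rcases key.2 hE with ⟨c1, c2⟩ | ⟨c1, c2⟩ | ⟨c1, c2⟩ | ⟨c1, c2⟩
  · left
    obtain ⟨a1, a2, a3⟩ := eq_of_dot3 h1 h3 c1
    obtain ⟨b1, b2, b3⟩ := eq_of_dot3 h2 h4 c2
    ext i; fin_cases i <;> simp [a1, a2, a3, b1, b2, b3]
  · right; left
    obtain ⟨a1, a2, a3⟩ := eq_of_dot3 h1 (a' := -t' 0) (b' := -t' 1) (c' := -t' 2)
      (by linear_combination h3) (by linear_combination -c1)
    obtain ⟨b1, b2, b3⟩ := eq_of_dot3 h2 (a' := -t' 3) (b' := -t' 4) (c' := -t' 5)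
      (by linear_combination h4) (by linear_combination -c2)
    ext i; fin_cases i <;> simp [← a1, ← a2, ← a3, ← b1, ← b2, ← b3]
  · right; right; left
    obtain ⟨a1, a2, a3⟩ := eq_of_dot3 h1 (a' := -t' 0) (b' := -t' 1) (c' := t' 2)
      (by linear_combination h3) (by linear_combination c1)
    obtain ⟨b1, b2, b3⟩ := eq_of_dot3 h2 (a' := -t' 3) (b' := -t' 4) (c' := t' 5)
      (by linear_combination h4) (by linear_combination c2)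
    ext i; fin_cases i <;> simp [hv, ← a1, ← a2, a3, ← b1, ← b2, b3]
  · right; right; right
    obtain ⟨a1, a2, a3⟩ := eq_of_dot3 h1 (a' := t' 0) (b' := t' 1) (c' := -t' 2)
      (by linear_combination h3) (by linear_combination -c1)
    obtain ⟨b1, b2, b3⟩ := eq_of_dot3 h2 (a' := t' 3) (b' := t' 4) (c' := -t' 5)
      (by linear_combination h4) (by linear_combination -c2)
    ext i; fin_cases i <;> simp [hv, a1, a2, ← a3, b1, b2, ← b3]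

theorem mul_low {a b x y : ℝ} (ha : 0 ≤ a) (hb : 0 ≤ b) (hx : a ≤ x) (hy : b ≤ y) : a * b ≤ x * y :=
  mul_le_mul hx hy hb (ha.trans hx)

theorem sqrt_low {a x y : ℝ} (ha : 0 ≤ a) (hx : a ≤ x) : a ≤ √(x^2 + y^2) := by
  apply Real.le_sqrt_of_sq_le
  have := pow_le_pow_left₀ ha hx 2
  nlinarith [sq_nonneg y]

theorem sqrt_up {a b x y z : ℝ} (h : x^2 + y^2 + z^2 = 1) (hb : 0 ≤ b) (ha : 0 ≤ a) (hz : a ≤ z)
    (hab : 1 - a^2 ≤ b^2) : √(x^2 + y^2) ≤ b := by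
  apply Real.sqrt_le_iff.2
  have := pow_le_pow_left₀ ha hz 2
  exact ⟨hb, by linarith⟩

theorem low_aux {A B : ℝ} (hA0 : 0 ≤ A) (hB0 : 0 ≤ B) (hA : A ≤ 1) (hB : B ≤ 1) :
    (A + B) / 4 ≤ 1 - (1 - A/2) * (1 - B/2) := by
  nlinarith [mul_nonneg hA0 (sub_nonneg.2 hB), mul_nonneg hB0 (sub_nonneg.2 hA)]

theorem sq_small {x c d : ℝ} (h1 : -(1/100) < x - c ∧ x - c < 1/100) (h2 : -(1/100) < d - c ∧ d - c < 1/100) :
    (x - d)^2 ≤ (2/100)^2 := by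
  apply sq_le_sq'
  · linarith [h1.1, h2.2]
  · linarith [h1.2, h2.1]

theorem sup_sq (t t' : Fin 6 → ℝ) : ‖t - t'‖^2 ≤ ((t 0 - t' 0)^2 + (t 1 - t' 1)^2 + (t 2 - t' 2)^2) +
    ((t 3 - t' 3)^2 + (t 4 - t' 4)^2 + (t 5 - t' 5)^2) := by
  have hn0 := norm_nonneg (t - t')
  have : ‖t - t'‖ ≤ √(((t 0 - t' 0)^2 + (t 1 - t' 1)^2 + (t 2 - t' 2)^2) + ((t 3 - t' 3)^2 + (t 4 - t' 4)^2 + (t 5 - t' 5)^2)) := by
    rw [pi_norm_le_iff_of_nonneg (Real.sqrt_nonneg _)]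
    intro i
    have a0 := sq_nonneg (t 0 - t' 0)
    have a1 := sq_nonneg (t 1 - t' 1)
    have a2 := sq_nonneg (t 2 - t' 2)
    have a3 := sq_nonneg (t 3 - t' 3)
    have a4 := sq_nonneg (t 4 - t' 4)
    have a5 := sq_nonneg (t 5 - t' 5)
    apply Real.abs_le_sqrt
    fin_cases i
    · show (t 0 - t' 0)^2 ≤ _; linarith
    · show (t 1 - t' 1)^2 ≤ _; linarith
    · show (t 2 - t' 2)^2 ≤ _; linarith
    · show (t 3 - t' 3)^2 ≤ _; linarith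
    · show (t 4 - t' 4)^2 ≤ _; linarith
    · show (t 5 - t' 5)^2 ≤ _; linarith
  calc _ ≤ √(((t 0 - t' 0)^2 + (t 1 - t' 1)^2 + (t 2 - t' 2)^2) + ((t 3 - t' 3)^2 + (t 4 - t' 4)^2 + (t 5 - t' 5)^2))^2 :=
        pow_le_pow_left₀ hn0 this 2
    _ = _ := Real.sq_sqrt (by positivity)

/-- the local estimate for `Ev` -/
theorem Ev_near {t t' : Fin 6 → ℝ} (ht : t ∈ KK) (ht' : t' ∈ KK) (hn : ‖t - tz‖ < 1/100)
    (hn' : ‖t' - tz‖ < 1/100) :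
    ‖t - t'‖^2 ≤ 4 * 320 * Ev (t 0 * t' 0 + t 1 * t' 1 + t 2 * t' 2) (t 3 * t' 3 + t 4 * t' 4 + t 5 * t' 5)
        (t 2) (t 5) (t' 2) (t' 5) := by
  have hS' := sup_sq t t'
  have hc : ∀ i, |t i - tz i| < 1/100 := fun i => lt_of_le_of_lt (norm_le_pi_norm (t - tz) i) hn
  have hc' : ∀ i, |t' i - tz i| < 1/100 := fun i => lt_of_le_of_lt (norm_le_pi_norm (t' - tz) i) hn'
  have c0 : -(1/100) < t 0 - 12/13 ∧ t 0 - 12/13 < 1/100 := abs_lt.1 (hc 0)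
  have c1 : -(1/100) < t 1 - 0 ∧ t 1 - 0 < 1/100 := abs_lt.1 (hc 1)
  have c2 : -(1/100) < t 2 - 5/13 ∧ t 2 - 5/13 < 1/100 := abs_lt.1 (hc 2)
  have c3 : -(1/100) < t 3 - 5/13 ∧ t 3 - 5/13 < 1/100 := abs_lt.1 (hc 3)
  have c4 : -(1/100) < t 4 - 0 ∧ t 4 - 0 < 1/100 := abs_lt.1 (hc 4)
  have c5 : -(1/100) < t 5 - 12/13 ∧ t 5 - 12/13 < 1/100 := abs_lt.1 (hc 5)
  have d0 : -(1/100) < t' 0 - 12/13 ∧ t' 0 - 12/13 < 1/100 := abs_lt.1 (hc' 0)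
  have d1 : -(1/100) < t' 1 - 0 ∧ t' 1 - 0 < 1/100 := abs_lt.1 (hc' 1)
  have d2 : -(1/100) < t' 2 - 5/13 ∧ t' 2 - 5/13 < 1/100 := abs_lt.1 (hc' 2)
  have d3 : -(1/100) < t' 3 - 5/13 ∧ t' 3 - 5/13 < 1/100 := abs_lt.1 (hc' 3)
  have d4 : -(1/100) < t' 4 - 0 ∧ t' 4 - 0 < 1/100 := abs_lt.1 (hc' 4)
  have d5 : -(1/100) < t' 5 - 12/13 ∧ t' 5 - 12/13 < 1/100 := abs_lt.1 (hc' 5)
  have e0 := sq_small c0 d0
  have e1 := sq_small c1 d1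
  have e2 := sq_small c2 d2
  have e3 := sq_small c3 d3
  have e4 := sq_small c4 d4
  have e5 := sq_small c5 d5
  clear hn hn' hc hc' c1 d1 c4 d4
  obtain ⟨c0, -⟩ := c0
  obtain ⟨c2, -⟩ := c2
  obtain ⟨c3, -⟩ := c3
  obtain ⟨c5, -⟩ := c5
  obtain ⟨d0, -⟩ := d0
  obtain ⟨d2, -⟩ := d2
  obtain ⟨d3, -⟩ := d3
  obtain ⟨d5, -⟩ := d5
  obtain ⟨h1, h2⟩ := ht
  obtain ⟨h3, h4⟩ := ht'
  have s1 : √(t 0 ^2 + t 1 ^2)^2 = t 0 ^2 + t 1 ^2 := Real.sq_sqrt (by positivity)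
  have s2 : √(t 3 ^2 + t 4 ^2)^2 = t 3 ^2 + t 4 ^2 := Real.sq_sqrt (by positivity)
  have s3 : √(t' 0 ^2 + t' 1 ^2)^2 = t' 0 ^2 + t' 1 ^2 := Real.sq_sqrt (by positivity)
  have s4 : √(t' 3 ^2 + t' 4 ^2)^2 = t' 3 ^2 + t' 4 ^2 := Real.sq_sqrt (by positivity)
  have r1 : 9/10 ≤ √(t 0 ^2 + t 1 ^2) := sqrt_low (by norm_num) (by linarith)
  have r2 : 9/10 ≤ √(t' 0 ^2 + t' 1 ^2) := sqrt_low (by norm_num) (by linarith)
  have r3 : 37/100 ≤ √(t 3 ^2 + t 4 ^2) := sqrt_low (by norm_num) (by linarith)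
  have r4 : 37/100 ≤ √(t' 3 ^2 + t' 4 ^2) := sqrt_low (by norm_num) (by linarith)
  have r5 : √(t 3 ^2 + t 4 ^2) ≤ 1/2 := sqrt_up (a := 9/10) h2 (by norm_num) (by norm_num) (by linarith) (by norm_num)
  have r6 : √(t' 3 ^2 + t' 4 ^2) ≤ 1/2 := sqrt_up (a := 9/10) h4 (by norm_num) (by norm_num) (by linarith) (by norm_num)
  have m1 : (37/100) * (37/100) ≤ √(t 3 ^2 + t 4 ^2) * √(t' 3 ^2 + t' 4 ^2) := mul_low (by norm_num) (by norm_num) r3 r4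
  have m2 : (9/10) * (9/10) ≤ √(t 0 ^2 + t 1 ^2) * √(t' 0 ^2 + t' 1 ^2) := mul_low (by norm_num) (by norm_num) r1 r2
  have m3 : √(t 3 ^2 + t 4 ^2) * √(t' 3 ^2 + t' 4 ^2) ≤ (1/2) * (1/2) :=
    mul_low (Real.sqrt_nonneg _) (Real.sqrt_nonneg _) r5 r6
  have m4 : (9/10) * (9/10) ≤ t 5 * t' 5 := mul_low (by norm_num) (by norm_num) (by linarith) (by linarith)
  have eC' : t 0 * t' 0 + t 1 * t' 1 + t 2 * t' 2 = 1 - ((t 0 - t' 0)^2 + (t 1 - t' 1)^2 + (t 2 - t' 2)^2)/2 := by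
    linear_combination (1/2) * h1 + (1/2) * h3
  have eH' : t 3 * t' 3 + t 4 * t' 4 + t 5 * t' 5 = 1 - ((t 3 - t' 3)^2 + (t 4 - t' 4)^2 + (t 5 - t' 5)^2)/2 := by
    linear_combination (1/2) * h2 + (1/2) * h4
  have key := Ev_local (√(t 0 ^2 + t 1 ^2)) (t 2) (√(t 3 ^2 + t 4 ^2)) (t 5)
    (√(t' 0 ^2 + t' 1 ^2)) (t' 2) (√(t' 3 ^2 + t' 4 ^2)) (t' 5) (Real.sqrt_nonneg _) (by linarith)
    (Real.sqrt_nonneg _) (by linarith) (Real.sqrt_nonneg _) (by linarith) (Real.sqrt_nonneg _)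
    (by rw [s1]; exact h1) (by rw [s2]; exact h2) (by rw [s3]; exact h3) (by rw [s4]; exact h4)
    (t 0 * t' 0 + t 1 * t' 1 + t 2 * t' 2) (t 3 * t' 3 + t 4 * t' 4 + t 5 * t' 5)
    (by rw [show t 0 * t' 0 + t 1 * t' 1 + t 2 * t' 2 - t 2 * t' 2 = t 0 * t' 0 + t 1 * t' 1 by ring]
        exact abs_dot2_le)
    (by rw [show t 3 * t' 3 + t 4 * t' 4 + t 5 * t' 5 - t 5 * t' 5 = t 3 * t' 3 + t 4 * t' 4 by ring]
        exact abs_dot2_le)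
    (by linarith) (by linarith) (by rw [eC']; linarith) (by linarith)
  have hA0 : 0 ≤ (t 0 - t' 0)^2 + (t 1 - t' 1)^2 + (t 2 - t' 2)^2 := by positivity
  have hB0 : 0 ≤ (t 3 - t' 3)^2 + (t 4 - t' 4)^2 + (t 5 - t' 5)^2 := by positivity
  have hA1 : (t 0 - t' 0)^2 + (t 1 - t' 1)^2 + (t 2 - t' 2)^2 ≤ 1 := by linarith
  have hB1 : (t 3 - t' 3)^2 + (t 4 - t' 4)^2 + (t 5 - t' 5)^2 ≤ 1 := by linarith
  have hl := low_aux hA0 hB0 hA1 hB1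
  rw [← eC', ← eH'] at hl
  linarith

theorem near_lb : ∃ κ : ℝ, 0 < κ ∧ ∀ t ∈ KK, ∀ t' ∈ KK, ‖t - tz‖ < 1/100 → ‖t' - tz‖ < 1/100 →
    κ * ‖t - t'‖^2 ≤ Dd (BK t) (BK t') := by
  obtain ⟨M, hM, hb, _⟩ := BL_Fc
  refine ⟨1/(4*320*(M+1)^2), by positivity, ?_⟩
  intro t ht t' ht' hn hn'
  have F1 := KK_F ht
  have F2 := KK_F ht'
  have M1 : Fc (t 2) (t 5) ≤ M + 1 := by have := (le_abs_self _).trans (hb t ht); linarith
  have M2 : Fc (t' 2) (t' 5) ≤ M + 1 := by have := (le_abs_self _).trans (hb t' ht'); linarith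
  have hE := Ev_near ht ht' hn hn'
  unfold Dd
  rw [D_BK ht ht']
  generalize Ev (t 0 * t' 0 + t 1 * t' 1 + t 2 * t' 2) (t 3 * t' 3 + t 4 * t' 4 + t 5 * t' 5) (t 2) (t 5) (t' 2) (t' 5) = EE at *
  generalize Fc (t 2) (t 5) = F at *
  generalize Fc (t' 2) (t' 5) = F' at *
  have hE0 : 0 ≤ EE := by
    have := sq_nonneg ‖t - t'‖
    linarith
  rw [le_div_iff₀ (mul_pos F1 F2), div_mul_eq_mul_div, div_mul_eq_mul_div, div_le_iff₀ (by positivity), one_mul]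
  have hFF : F * F' ≤ (M+1)^2 := by
    rw [sq]; exact mul_le_mul M1 M2 F2.le (by linarith)
  calc ‖t - t'‖^2 * (F * F') ≤ (4 * 320 * EE) * (M+1)^2 :=
        mul_le_mul hE hFF (mul_pos F1 F2).le (by positivity)
    _ = EE * (4 * 320 * (M+1)^2) := by ring

end H62.EC
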