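import Pool.Agent.H62.EC.Near

/-! The contact pair and the hypotheses of the perturbation theorem. -/

namespace H62.EC

open H62.GI

attribute [local instance] Matrix.normedAddCommGroup Matrix.normedSpace

noncomputable def Pz : M4 := !![204/169, 0, 0, 84/169; 0, 85/169, 85/169, 0; 0, 84/169, 84/169, 0; -85/169, 0, 0, -35/169]
noncomputable def Po : M4 := !![204/169, 0, 0, -84/169; 0, 85/169, -85/169, 0; 0, -84/169, 84/169, 0; 85/169, 0, 0, -35/169]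

theorem BK_tz : BK tz = Pz := by
  have e2 : tz 2 = 5/13 := rfl
  have e5 : tz 5 = 12/13 := rfl
  have e0 : tz 0 = 12/13 := rfl
  have e1 : tz 1 = 0 := rfl
  have e3 : tz 3 = 5/13 := rfl
  have e4 : tz 4 = 0 := rfl
  have c1 : cl (5/13) (5/13) = 5/13 := cl_of_ge le_rfl (by norm_num)
  have c2 : cl (12/13) (12/13) = 12/13 := cl_of_ge le_rfl (by norm_num)
  have a1 : PaF (5/13) = -17/24 := by rw [PaF, c1, sqrt_513]; norm_num
  have a2 : PmF (5/13) = 85/312 := by rw [PmF, c1, sqrt_513]; norm_num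
  have a3 : QaF (12/13) = 7/10 := by rw [QaF, c2, sqrt_1213]; norm_num
  have a4 : QmF (12/13) = -42/65 := by rw [QmF, c2, sqrt_1213]; norm_num
  have hA : Ac (tz 2) (tz 5) = 119/120 := by rw [Ac, e2, e5, a1, a3]; norm_num
  have hF : Fc (tz 2) (tz 5) = 1/2 := by rw [Fc, e2, e5, a1, a2, a3, a4]; norm_num
  have hg : gr tz = ![119/260, 0, 119/624 + 85/312, 119/624, 0, 119/260 - 42/65] := by
    ext i
    simp only [gr, hA]
    simp only [e0, e1, e2, e3, e4, e5, a2, a4]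
    fin_cases i <;> simp <;> norm_num
  rw [BK, hF, hg]
  ext i j
  simp only [Matrix.smul_apply, Matrix.mul_apply, Fin.sum_univ_four, Om, e0, e1, e2, e3, e4, e5, Pz]
  fin_cases i <;> fin_cases j <;> simp <;> norm_num

theorem Po_eq : hm * Pz * hm = Po := by
  ext i j
  simp only [hm, Matrix.mul_diagonal, Matrix.diagonal_mul]
  fin_cases i <;> fin_cases j <;> simp [Pz, Po] <;> norm_num

theorem hm_conj_conj (P : M4) : hm * (hm * P * hm) * hm = P := by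
  calc hm * (hm * P * hm) * hm = (hm * hm) * P * (hm * hm) := by simp only [Matrix.mul_assoc]
    _ = P := by rw [hm_sq, Matrix.one_mul, Matrix.mul_one]

theorem Pz_eq : hm * Po * hm = Pz := by
  rw [← Po_eq, hm_conj_conj]

theorem Pz_ne_Po : Pz ≠ Po := by
  intro h
  have := congrFun (congrFun h 0) 3
  simp [Pz, Po] at this
  norm_num at this

theorem Dd_Pz_Po : Dd Pz Po = 0 := by
  simp only [Dd, Matrix.trace, Matrix.diag, Matrix.mul_apply, Fin.sum_univ_four, Pz, Po, Matrix.of_apply,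
    Matrix.cons_val', Matrix.cons_val_zero, Matrix.cons_val_one, Matrix.cons_val]
  norm_num

theorem Dd_Pz_Pz : Dd Pz Pz = 0 := by
  simp only [Dd, Matrix.trace, Matrix.diag, Matrix.mul_apply, Fin.sum_univ_four, Pz, Matrix.of_apply,
    Matrix.cons_val', Matrix.cons_val_zero, Matrix.cons_val_one, Matrix.cons_val]
  norm_num

noncomputable def Nz : M4 := Matrix.diagonal ![-1, 1, 1, -1]

theorem trace_diag_mul (d : Fin 4 → ℝ) (A : M4) :
    (Matrix.diagonal d * A).trace = d 0 * A 0 0 + d 1 * A 1 1 + d 2 * A 2 2 + d 3 * A 3 3 := by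
  simp only [Matrix.trace, Matrix.diag, Matrix.diagonal_mul, Fin.sum_univ_four]

theorem ff_z1 : 0 < ff Nz Pz Po := by
  rw [ff, Nz, trace_diag_mul]
  simp only [Matrix.mul_apply, Fin.sum_univ_four, Matrix.sub_apply, Matrix.one_apply, Pz, Po, Matrix.of_apply,
    Matrix.cons_val', Matrix.cons_val_zero, Matrix.cons_val_one, Matrix.cons_val, Fin.isValue, Fin.reduceEq, reduceIte,
    zero_ne_one, one_ne_zero, if_false]
  norm_num
theorem ff_z2 : 0 < ff Nz Po Pz := by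
  rw [ff, Nz, trace_diag_mul]
  simp only [Matrix.mul_apply, Fin.sum_univ_four, Matrix.sub_apply, Matrix.one_apply, Pz, Po, Matrix.of_apply,
    Matrix.cons_val', Matrix.cons_val_zero, Matrix.cons_val_one, Matrix.cons_val, Fin.isValue, Fin.reduceEq, reduceIte,
    zero_ne_one, one_ne_zero, if_false]
  norm_num

theorem inj_near (ε : ℝ) (hε : 0 < ε) : ∃ ρ : ℝ, 0 < ρ ∧ ∀ t ∈ KK, ‖BK t - Pz‖ < ρ →
    ‖t - tz‖ < ε ∨ ‖t + tz‖ < ε := by
  let S : Set (Fin 6 → ℝ) := KK ∩ ({t | ε ≤ ‖t - tz‖} ∩ {t | ε ≤ ‖t + tz‖})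
  have hS : IsCompact S := by
    apply KK_compact.inter_right
    exact (isClosed_le continuous_const (by fun_prop)).inter (isClosed_le continuous_const (by fun_prop))
  have hcont : ContinuousOn (fun t => ‖BK t - Pz‖) S :=
    ((BK_contOn.mono Set.inter_subset_left).sub continuousOn_const).norm
  rcases S.eq_empty_or_nonempty with h | h
  · refine ⟨1, one_pos, fun t ht _ => ?_⟩
    by_contra hcon
    push Not at hcon
    have : t ∈ S := ⟨ht, hcon.1, hcon.2⟩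
    rw [h] at this; exact this
  · obtain ⟨x, hx, hm'⟩ := hS.exists_isMinOn h hcont
    refine ⟨‖BK x - Pz‖, ?_, ?_⟩
    · rw [norm_pos_iff, sub_ne_zero]
      intro heq
      obtain ⟨hxK, h1, h2⟩ := hx
      have h1' : ε ≤ ‖x - tz‖ := h1
      have h2' : ε ≤ ‖x + tz‖ := h2
      have hD : Dd (BK tz) (BK x) = 0 := by rw [heq, BK_tz]; exact Dd_Pz_Pz
      rcases KK_cases tz_KK hxK hD with h | h | h | h
      · rw [h] at h1'; simp at h1'; linarith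
      · rw [h] at h2'; simp at h2'; linarith
      · rw [h, BK_hv, BK_tz, Po_eq] at heq
        exact Pz_ne_Po heq.symm
      · rw [h, BK_neg, BK_hv, BK_tz, Po_eq] at heq
        exact Pz_ne_Po heq.symm
    · intro t ht hlt
      by_contra hcon
      push Not at hcon
      have : t ∈ S := ⟨ht, hcon.1, hcon.2⟩
      have := hm' this
      simp only [Set.mem_ofPred_eq] at this
      linarith

theorem KK_neg {t : Fin 6 → ℝ} (h : t ∈ KK) : -t ∈ KK := by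
  obtain ⟨h1, h2⟩ := h
  constructor <;> simp [h1, h2]

theorem rep_near (ε : ℝ) (hε : 0 < ε) : ∃ ρ : ℝ, 0 < ρ ∧ ∀ P ∈ BK '' KK, ‖P - Pz‖ < ρ →
    ∃ t ∈ KK, BK t = P ∧ ‖t - tz‖ < ε := by
  obtain ⟨ρ, hρ, h⟩ := inj_near ε hε
  refine ⟨ρ, hρ, ?_⟩
  rintro P ⟨t, ht, rfl⟩ hlt
  rcases h t ht hlt with h' | h'
  · exact ⟨t, ht, rfl, h'⟩
  · refine ⟨-t, KK_neg ht, BK_neg t, ?_⟩
    rw [show -t - tz = -(t + tz) by abel, norm_neg]; exact h'

theorem near_Pz : ∃ ρ κ : ℝ, 0 < ρ ∧ 0 < κ ∧ ∀ P ∈ BK '' KK, ∀ Q ∈ BK '' KK, ‖P - Pz‖ < ρ → ‖Q - Pz‖ < ρ →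
      κ * ‖P - Q‖ ^ 2 ≤ Dd P Q := by
  obtain ⟨κ, hκ, h1⟩ := near_lb
  obtain ⟨M, hM, h2⟩ := BK_lip
  obtain ⟨ρ, hρ, h3⟩ := rep_near (1/100) (by norm_num)
  refine ⟨ρ, κ / M^2, hρ, by positivity, ?_⟩
  intro P hP Q hQ hp hq
  obtain ⟨t, ht, rfl, ht2⟩ := h3 P hP hp
  obtain ⟨t', ht', rfl, ht2'⟩ := h3 Q hQ hq
  refine le_trans ?_ (h1 t ht t' ht' ht2 ht2')
  have h4 := pow_le_pow_left₀ (norm_nonneg _) (h2 t ht t' ht') 2
  rw [div_mul_eq_mul_div, div_le_iff₀ (by positivity)]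
  rw [mul_pow] at h4
  calc κ * ‖BK t - BK t'‖^2 ≤ κ * (M^2 * ‖t - t'‖^2) := mul_le_mul_of_nonneg_left h4 hκ.le
    _ = _ := by ring

theorem hm_norm (P : M4) : ‖hm * P * hm‖ = ‖P‖ := by
  have key : ∀ P : M4, ‖hm * P * hm‖ ≤ ‖P‖ := by
    intro P
    rw [Matrix.norm_le_iff (norm_nonneg _)]
    intro i j
    simp only [hm, Matrix.mul_diagonal, Matrix.diagonal_mul]
    have h1 : ∀ k : Fin 4, |(![1, 1, -1, -1] : Fin 4 → ℝ) k| = 1 := by
      intro k; fin_cases k <;> simp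
    rw [Real.norm_eq_abs, abs_mul, abs_mul, h1, h1, one_mul, mul_one]
    exact Matrix.norm_entry_le_entrywise_sup_norm P
  apply le_antisymm (key P)
  have := key (hm * P * hm)
  rwa [hm_conj_conj] at this

theorem Dd_hm (P Q : M4) : Dd (hm * P * hm) (hm * Q * hm) = Dd P Q := by
  unfold Dd
  have : hm * P * hm * (hm * Q * hm) = hm * (P * Q) * hm := by
    calc hm * P * hm * (hm * Q * hm) = hm * P * (hm * hm) * Q * hm := by simp only [Matrix.mul_assoc]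
      _ = _ := by rw [hm_sq, Matrix.mul_one]; simp only [Matrix.mul_assoc]
  rw [this, Matrix.trace_mul_comm, ← Matrix.mul_assoc, hm_sq, Matrix.one_mul]

theorem hm_sub (P Q : M4) : hm * P * hm - hm * Q * hm = hm * (P - Q) * hm := by
  rw [Matrix.mul_sub, Matrix.sub_mul]

theorem hm_mem {P : M4} (h : P ∈ BK '' KK) : hm * P * hm ∈ BK '' KK := by
  obtain ⟨t, ⟨h1, h2⟩, rfl⟩ := h
  refine ⟨hv t, ⟨?_, ?_⟩, BK_hv t⟩
  · simp only [hv, Matrix.cons_val_zero, Matrix.cons_val_one, Matrix.cons_val, neg_sq]; exact h1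
  · simp only [hv, Matrix.cons_val_zero, Matrix.cons_val_one, Matrix.cons_val, neg_sq]; exact h2

theorem near_Po : ∃ ρ κ : ℝ, 0 < ρ ∧ 0 < κ ∧ ∀ P ∈ BK '' KK, ∀ Q ∈ BK '' KK, ‖P - Po‖ < ρ → ‖Q - Po‖ < ρ →
      κ * ‖P - Q‖ ^ 2 ≤ Dd P Q := by
  obtain ⟨ρ, κ, hρ, hκ, h⟩ := near_Pz
  refine ⟨ρ, κ, hρ, hκ, ?_⟩
  intro P hP Q hQ hp hq
  have e1 : ‖hm * P * hm - Pz‖ < ρ := by rwa [← Pz_eq, hm_sub, hm_norm]
  have e2 : ‖hm * Q * hm - Pz‖ < ρ := by rwa [← Pz_eq, hm_sub, hm_norm]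
  have := h _ (hm_mem hP) _ (hm_mem hQ) e1 e2
  rwa [hm_sub, hm_norm, Dd_hm] at this

/-- the perturbation theorem specialized to the lens -/
theorem perturb_lens : ∃ Cs : ℝ, 0 < Cs ∧ ∀ ρ : ℝ, 0 < ρ → ∃ r : ℝ, 0 < r ∧ ∀ G' : Set M4,
      (∀ P ∈ G', P * P = P ∧ P.trace = 2) →
      (∀ P ∈ G', P ∈ BK '' KK ∨ ‖P - Pz‖ < r) →
      (∀ P ∈ G', ∀ Q ∈ G', ‖P - Pz‖ < ρ → ‖Q - Pz‖ < ρ →
        Cs * ‖P - Pz‖ * ‖P - Q‖ ^ 2 ≤ Dd P Q ∧ (P ≠ Q → 0 < Dd P Q)) →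
      ∀ P ∈ G', ∃ N Q1 : M4, ∀ Q ∈ G', 0 ≤ ff N P Q ∧ (ff N P Q = 0 → Q = P ∨ Q = Q1) := by
  refine perturb (BK '' KK) (KK_compact.image_of_continuousOn BK_contOn) (fun P => hm * P * hm) Pz Po Nz
    ⟨tz, tz_KK, BK_tz⟩ ?_ Pz_ne_Po ?_ Po_eq Pz_eq ?_ near_Po ff_z1 ff_z2
  · rw [← Po_eq]; exact hm_mem ⟨tz, tz_KK, BK_tz⟩
  · rintro P ⟨t, ht, rfl⟩ Q ⟨t', ht', rfl⟩
    exact KK_main ht ht'
  · intro P _ h
    have : hm * Pz * hm = P := by
      rw [h]; exact hm_conj_conj P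
    rw [← this, Po_eq]

end H62.EC
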