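import Pool.Agent.H62.EC.Base2
import Pool.Agent.H62.EC.Crit

/-! The modified energy. -/

namespace H62.EC

open H62.GI

attribute [local instance] Matrix.normedAddCommGroup Matrix.normedSpace

noncomputable def En (κ c a R : ℝ) (e : X4) (v : Fr) : ℝ :=
  open Classical in
  if l0 v ≠ 0 ∧ ‖xc v‖ < R then Lens v * Real.exp (Zc phL κ c a e (xc v)) else Lens v

theorem LensV_cd : ContDiff ℝ 1 (fun x : X4 => Lens (V x)) := by
  rw [contDiff_iff_contDiffAt]
  intro x
  exact (Lens_isEnergy.diff.contDiffAt (LI_open.mem_nhds (V_LI x))).comp x V_cd.contDiffAt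

theorem phL_cd : ContDiff ℝ 1 phL :=
  (LensV_cd.log (fun x => (Lens_isEnergy.pos _ (V_LI x)).ne')).sub contDiff_const

theorem Zc_cd (κ c : ℝ) {a : ℝ} (ha : 0 < a) (e : X4) : ContDiff ℝ 1 (Zc phL κ c a e) := by
  have h1 : ContDiff ℝ 1 (fun x => sw phL κ c a e x) :=
    (contDiff_const.add (psi_contDiff κ c e)).sub phL_cd
  exact (mm_contDiff (show 0 < a/2 by linarith)).comp h1

theorem l0_cd : ContDiff ℝ 1 l0 := by
  have : l0 = fun v : Fr => L0 (pl (v 0) (v 1)) := funext l0_eq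
  rw [this]
  exact L0_cd.comp (contDiff_pi.2 pl_contDiff)

theorem ll_cd : ContDiff ℝ 1 ll := by
  have : ll = fun v : Fr => LL (pl (v 0) (v 1)) := funext ll_eq
  rw [this]
  exact LL_cd.comp (contDiff_pi.2 pl_contDiff)

theorem xc_cdAt {v : Fr} (h : l0 v ≠ 0) : ContDiffAt ℝ 1 xc v :=
  (l0_cd.contDiffAt.inv h).smul ll_cd.contDiffAt

theorem vol_contAt {v : Fr} (h : v ∈ LI) : ContinuousAt (vol : Fr → ℝ) v :=
  (vol_contDiffOn.contDiffAt (LI_open.mem_nhds h)).continuousAt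

theorem volV_cont : Continuous (fun x : X4 => vol (V x)) := by
  rw [continuous_iff_continuousAt]
  intro x
  exact (vol_contAt (V_LI x)).comp V_cd.continuous.continuousAt

theorem volV_bound (R : ℝ) : ∃ C : ℝ, ∀ x : X4, ‖x‖ < R → vol (V x) ≤ C := by
  obtain ⟨C, hC⟩ := (isCompact_closedBall (0 : X4) R).exists_bound_of_continuousOn volV_cont.continuousOn
  refine ⟨C, fun x hx => ?_⟩
  have := hC x (by rw [mem_closedBall_zero_iff]; exact hx.le)
  exact (le_abs_self _).trans this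

section
variable {L κ R c a : ℝ} {e : X4}
  (B : Base phL (Gv Lens) L κ R) (he : ‖e‖ = 1) (hc : 0 < c) (hc1 : c * R ≤ 1) (hc2 : c * R ≤ κ / 4)
  (ha : 0 < a) (haR : 6 * a / κ < R^2)

include B he hc hc1 hc2 ha haR

theorem Zc_off (x : X4) (hx : ‖x‖ < R) (h : 6 * a / κ ≤ ‖x‖^2) : Zc phL κ c a e x = 0 :=
  mm_zero (by linarith) (md_off B he hc hc1 hc2 ha x hx h)

theorem En_off {v : Fr} (hv : v ∈ LI) (h : ¬ (l0 v ≠ 0 ∧ ‖xc v‖ < R)) :
    ∀ᶠ w in nhds v, En κ c a R e w = Lens w := by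
  by_cases h0 : l0 v = 0
  · obtain ⟨C, hC⟩ := volV_bound R
    have h1 : ∀ᶠ w in nhds v, |l0 w| * (|C| + 1) < vol w := by
      have hcl : ContinuousAt (fun w => |l0 w| * (|C| + 1)) v :=
        (l0_cd.continuous.continuousAt.abs).mul continuousAt_const
      apply hcl.eventually_lt (vol_contAt hv)
      rw [h0, abs_zero, zero_mul]; exact (LI_iff_vol v).1 hv
    filter_upwards [h1] with w hw
    unfold En
    rw [if_neg]
    rintro ⟨hl, hx⟩
    obtain ⟨g, hg, hwg⟩ := exists_graph w hl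
    have hvol : vol w = |l0 w| * vol (V (xc w)) := by
      conv_lhs => rw [hwg]
      rw [vol_gact, hg]
    have h2 := hC _ hx
    have h3 : |l0 w| * vol (V (xc w)) ≤ |l0 w| * (|C| + 1) :=
      mul_le_mul_of_nonneg_left (by linarith [le_abs_self C]) (abs_nonneg _)
    linarith
  · have hR : R ≤ ‖xc v‖ := by
      by_contra hcon
      push Not at hcon
      exact h ⟨h0, hcon⟩
    have h1 : ∀ᶠ w in nhds v, 6 * a / κ < ‖xc w‖^2 := by
      have hcl : ContinuousAt (fun w => ‖xc w‖^2) v := ((xc_cdAt h0).continuousAt.norm).pow 2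
      apply hcl.eventually_const_lt
      have := pow_le_pow_left₀ B.hR.le hR 2
      linarith
    filter_upwards [h1] with w hw
    unfold En
    split_ifs with hh
    · rw [Zc_off B he hc hc1 hc2 ha haR _ hh.2 hw.le, Real.exp_zero, mul_one]
    · rfl

theorem En_on {v : Fr} (h : l0 v ≠ 0 ∧ ‖xc v‖ < R) :
    ∀ᶠ w in nhds v, En κ c a R e w = Lens w * Real.exp (Zc phL κ c a e (xc w)) := by
  have h1 : ∀ᶠ w in nhds v, l0 w ≠ 0 := l0_cd.continuous.continuousAt.eventually_ne h.1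
  have h2 : ∀ᶠ w in nhds v, ‖xc w‖ < R :=
    ((xc_cdAt h.1).continuousAt.norm).eventually_lt_const h.2
  filter_upwards [h1, h2] with w hw1 hw2
  unfold En
  rw [if_pos ⟨hw1, hw2⟩]

theorem En_isEnergy : IsEnergy (En κ c a R e) := by
  constructor
  · intro v hv
    unfold En
    have := Lens_isEnergy.pos v hv
    split_ifs
    · exact mul_pos this (Real.exp_pos _)
    · exact this
  · intro v hv g hg
    unfold En
    rw [l0_gact, xc_gact g hg, Lens_isEnergy.equiv v hv g hg]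
    by_cases h : l0 v ≠ 0 ∧ ‖xc v‖ < R
    · rw [if_pos ⟨mul_ne_zero hg h.1, h.2⟩, if_pos h]; ring
    · rw [if_neg h, if_neg]
      rintro ⟨h1, h2⟩
      exact h ⟨right_ne_zero_of_mul h1, h2⟩
  · intro v hv
    apply ContDiffAt.contDiffWithinAt
    have hL : ContDiffAt ℝ 1 Lens v := Lens_isEnergy.diff.contDiffAt (LI_open.mem_nhds hv)
    by_cases h : l0 v ≠ 0 ∧ ‖xc v‖ < R
    · refine ContDiffAt.congr_of_eventuallyEq ?_ (En_on B he hc hc1 hc2 ha haR h)
      have h1 : ContDiffAt ℝ 1 (fun w => Zc phL κ c a e (xc w)) v :=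
        (Zc_cd κ c ha e).contDiffAt.comp v (xc_cdAt h.1)
      exact hL.mul h1.exp
    · exact hL.congr_of_eventuallyEq (En_off B he hc hc1 hc2 ha haR hv h)

theorem Gv_En (x : X4) (hx : ‖x‖ < R) : Gv (En κ c a R e) x = Gn phL (Gv Lens) κ c a e x := by
  have h1 := logE_hasFDerivAt (En_isEnergy B he hc hc1 hc2 ha haR) x
  have h2 := (md_deriv B he hc hc1 hc2 ha x hx).const_add (Real.log (Lens (V 0)))
  have hev : ∀ᶠ y in nhds x, Real.log (En κ c a R e (V y)) =
      Real.log (Lens (V 0)) + (phL y + Zc phL κ c a e y) := by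
    have : Metric.ball (0 : X4) R ∈ nhds x :=
      Metric.isOpen_ball.mem_nhds (by rwa [mem_ball_zero_iff])
    filter_upwards [this] with y hy
    rw [mem_ball_zero_iff] at hy
    unfold En
    rw [l0_V, xc_V, if_pos ⟨one_ne_zero, hy⟩, Real.log_mul (Lens_isEnergy.pos _ (V_LI y)).ne' (Real.exp_pos _).ne',
      Real.log_exp, phL]
    ring
  have h3 := h2.congr_of_eventuallyEq hev
  have h4 := h1.unique h3
  apply ext_inner_right ℝ
  intro y
  have := congrArg (fun f : X4 →L[ℝ] ℝ => f y) h4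
  simpa using this

theorem Bm_En_on {v : Fr} (hv : v ∈ LI) (h : l0 v ≠ 0 ∧ ‖xc v‖ < R) :
    Bm (En κ c a R e) v = BB (xc v) (Gn phL (Gv Lens) κ c a e (xc v)) := by
  have hE := En_isEnergy B he hc hc1 hc2 ha haR
  obtain ⟨g, hg, hvg⟩ := exists_graph v h.1
  conv_lhs => rw [hvg]
  rw [Bm_gact hE (V_LI _) g (by rw [hg]; exact h.1), Bm_BB hE, Gv_En B he hc hc1 hc2 ha haR _ h.2]

theorem Bm_En_off {v : Fr} (hv : v ∈ LI) (h : ¬ (l0 v ≠ 0 ∧ ‖xc v‖ < R)) :
    Bm (En κ c a R e) v = BK (tn v) := by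
  rw [← Bm_Lens hv]
  have hev := En_off B he hc hc1 hc2 ha haR hv h
  have h1 : fderiv ℝ (En κ c a R e) v = fderiv ℝ Lens v := Filter.EventuallyEq.fderiv_eq hev
  have h2 : En κ c a R e v = Lens v := hev.self_of_nhds
  ext i j
  rw [Bm, Bm, h1, h2]

end

end H62.EC
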