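import Pool.Agent.H62.EC.AcEn

/-! The point `Pz` is not exposed. -/

namespace H62.EC

open H62.GI

/-- the distinguished direction -/
noncomputable def ez : X4 := !₂[3/5, 0, 0, 4/5]

theorem ez_norm : ‖ez‖ = 1 := by
  have h := norm4 ez
  simp [ez] at h
  have h0 := norm_nonneg ez
  have : ‖ez‖^2 = 1^2 := by
    rw [show ez = (!₂[3/5, 0, 0, 4/5] : X4) from rfl, h]; norm_num
  exact (pow_left_inj₀ h0 (by norm_num) two_ne_zero).1 this

/-! ### the block matrices -/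

noncomputable def mA1 : M4 := Matrix.of fun i j => ![12/169, 0, 0, -5/169] i * ![17, 0, 0, 7] j
noncomputable def mD1 : M4 := Matrix.of fun i j => ![-7/169, 0, 0, 17/169] i * ![5, 0, 0, 12] j
noncomputable def mF1 : M4 := Matrix.of fun i j => ![-7/169, 0, 0, 17/169] i * ![17, 0, 0, 7] j
noncomputable def mB1 : M4 := Matrix.of fun i j => ![12/169, 0, 0, -5/169] i * ![5, 0, 0, 12] j
noncomputable def mA2 : M4 := Matrix.of fun i j => ![0, 85/169, 84/169, 0] i * ![0, 1, 1, 0] j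
noncomputable def mD2 : M4 := Matrix.of fun i j => ![0, 1/169, -1/169, 0] i * ![0, 84, -85, 0] j
noncomputable def mF2 : M4 := Matrix.of fun i j => ![0, 1/169, -1/169, 0] i * ![0, 1, 1, 0] j
noncomputable def mB2 : M4 := Matrix.of fun i j => ![0, 85/169, 84/169, 0] i * ![0, 84, -85, 0] j

theorem Pz_dec : Pz = mA1 + mA2 := by
  ext i j
  fin_cases i <;> fin_cases j <;> simp [Pz, mA1, mA2] <;> norm_num

theorem Po_dec : Po = (57121/28561 : ℝ) • mA1 + (-28560/28561 : ℝ) • mD1 + (28680/28561 : ℝ) • mF1 +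
    (-56882/28561 : ℝ) • mB1 + (1/28561 : ℝ) • mA2 + (28560/28561 : ℝ) • mD2 + (14280/28561 : ℝ) • mF2 +
    (2/28561 : ℝ) • mB2 := by
  ext i j
  fin_cases i <;> fin_cases j <;> simp [Po, mA1, mA2, mD1, mD2, mF1, mF2, mB1, mB2] <;> norm_num

theorem BB_planar (x0 x3 g0 g3 : ℝ) : BB !₂[x0, 0, 0, x3] !₂[g0, 0, 0, g3] =
    (1 - x0 * g0) • mA1 + (g0 * x0) • mD1 + g0 • mF1 + ((1 - x0 * g0) * x0) • mB1 +
    (1 - x3 * g3) • mA2 + (g3 * x3) • mD2 + g3 • mF2 + ((1 - x3 * g3) * x3) • mB2 := by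
  ext i j
  fin_cases i <;> fin_cases j <;> simp [BB, z00, z11, mA1, mA2, mD1, mD2, mF1, mF2, mB1, mB2] <;> ring

theorem gpsi_planar (κ c x0 x3 N : ℝ) (hN : 0 ≤ N) (h : N^2 = x0^2 + x3^2) :
    gpsi κ c ez !₂[x0, 0, 0, x3] =
      !₂[κ * ((3 * x0 + 4 * x3)/5) * (3/5) + 3 * c * N * x0, 0, 0, κ * ((3 * x0 + 4 * x3)/5) * (4/5) + 3 * c * N * x3] := by
  have hn : ‖(!₂[x0, 0, 0, x3] : X4)‖ = N := by
    have h1 := norm4 (!₂[x0, 0, 0, x3] : X4)
    have h2 : ‖(!₂[x0, 0, 0, x3] : X4)‖^2 = N^2 := by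
      rw [h1, h]; simp
    exact (pow_left_inj₀ (norm_nonneg _) hN two_ne_zero).1 h2
  have hi : inner ℝ ez (!₂[x0, 0, 0, x3] : X4) = (3 * x0 + 4 * x3)/5 := by
    rw [inner4]; simp [ez]; ring
  unfold gpsi
  rw [hn, hi]
  ext i
  fin_cases i <;> simp [ez] <;> ring

theorem lim_nonneg {a δ K : ℝ} (hδ : 0 < δ) (hK : 0 ≤ K) (h : ∀ t, 0 < t → t < δ → 0 ≤ a + t * K) : 0 ≤ a := by
  by_contra hcon
  push Not at hcon
  have h1 : 0 < min (δ/2) (-a / (2 * (K + 1))) := lt_min (by linarith) (div_pos (by linarith) (by linarith))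
  have h2 : min (δ/2) (-a / (2 * (K + 1))) < δ := lt_of_le_of_lt (min_le_left _ _) (by linarith)
  have h3 := h _ h1 h2
  have h4 : min (δ/2) (-a / (2 * (K + 1))) ≤ -a / (2 * (K + 1)) := min_le_right _ _
  rw [le_div_iff₀ (by linarith)] at h4
  nlinarith

/-- sign of the low-order coefficients of a polynomial nonnegative near `0⁺` -/
theorem poly_sign {a b c d δ : ℝ} (hδ : 0 < δ)
    (h : ∀ t, 0 < t → t < δ → 0 ≤ a * t + b * t^2 + c * t^3 + d * t^4) : 0 ≤ a ∧ (a = 0 → 0 ≤ b) := by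
  have key : ∀ t, 0 < t → t < δ → 0 ≤ a + b * t + c * t^2 + d * t^3 := by
    intro t h0 h1
    have := h t h0 h1
    have e : a * t + b * t^2 + c * t^3 + d * t^4 = t * (a + b * t + c * t^2 + d * t^3) := by ring
    rw [e] at this
    exact nonneg_of_mul_nonneg_right this h0
  have hp : ∀ t : ℝ, 0 < t → t < 1 → t^2 ≤ t ∧ t^3 ≤ t := by
    intro t h0 h1
    constructor
    · nlinarith
    · nlinarith [mul_pos h0 h0, mul_pos (mul_pos h0 h0) h0]
  constructor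
  · apply lim_nonneg (δ := min δ 1) (K := |b| + |c| + |d|) (lt_min hδ one_pos) (by positivity)
    intro t h0 h1
    have k := key t h0 (lt_of_lt_of_le h1 (min_le_left _ _))
    obtain ⟨p2, p3⟩ := hp t h0 (lt_of_lt_of_le h1 (min_le_right _ _))
    have e1 : b * t ≤ |b| * t := mul_le_mul_of_nonneg_right (le_abs_self b) h0.le
    have e2 : c * t^2 ≤ |c| * t :=
      (mul_le_mul_of_nonneg_right (le_abs_self c) (by positivity)).trans (mul_le_mul_of_nonneg_left p2 (abs_nonneg _))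
    have e3 : d * t^3 ≤ |d| * t :=
      (mul_le_mul_of_nonneg_right (le_abs_self d) (by positivity)).trans (mul_le_mul_of_nonneg_left p3 (abs_nonneg _))
    linarith
  · intro ha
    apply lim_nonneg (δ := min δ 1) (K := |c| + |d|) (lt_min hδ one_pos) (by positivity)
    intro t h0 h1
    have k := key t h0 (lt_of_lt_of_le h1 (min_le_left _ _))
    obtain ⟨p2, p3⟩ := hp t h0 (lt_of_lt_of_le h1 (min_le_right _ _))
    rw [ha] at k
    have k2 : 0 ≤ b + c * t + d * t^2 := by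
      have e : 0 + b * t + c * t^2 + d * t^3 = t * (b + c * t + d * t^2) := by ring
      rw [e] at k
      exact nonneg_of_mul_nonneg_right k h0
    have e2 : c * t ≤ |c| * t := mul_le_mul_of_nonneg_right (le_abs_self c) h0.le
    have e3 : d * t^2 ≤ |d| * t :=
      (mul_le_mul_of_nonneg_right (le_abs_self d) (by positivity)).trans (mul_le_mul_of_nonneg_left p2 (abs_nonneg _))
    linarith

/-- the algebraic core : the conditions force all the coefficients to vanish -/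
theorem core {κ c n1 n2 γ1 γ2 β1 β2 : ℝ} (hκ : 0 < κ) (hc : 0 < c)
    (h1 : ∀ y0 y3 N : ℝ, 0 ≤ N → N^2 = y0^2 + y3^2 →
      0 ≤ κ * ((3*y0+4*y3)/5) * (γ1 * (3/5) + γ2 * (4/5)) + (β1 * y0 + β2 * y3) ∧
      (κ * ((3*y0+4*y3)/5) * (γ1 * (3/5) + γ2 * (4/5)) + (β1 * y0 + β2 * y3) = 0 →
        0 ≤ κ * ((3*y0+4*y3)/5) * (n1 * y0 * (3/5) + n2 * y3 * (4/5)) + 3 * c * N * (γ1 * y0 + γ2 * y3))) :
    β1 = 0 ∧ β2 = 0 ∧ γ1 = 0 ∧ γ2 = 0 ∧ n1 = n2 := by
  -- first order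
  have a1 := (h1 (3/5) (4/5) 1 (by norm_num) (by norm_num)).1
  have a2 := (h1 (-3/5) (-4/5) 1 (by norm_num) (by norm_num)).1
  have a3 := h1 (-4/5) (3/5) 1 (by norm_num) (by norm_num)
  have a4 := h1 (4/5) (-3/5) 1 (by norm_num) (by norm_num)
  have b1 : β1 * 3 + β2 * 4 = -5 * κ * (γ1 * (3/5) + γ2 * (4/5)) := by linarith
  have b2 : β1 * 4 = β2 * 3 := by linarith [a3.1, a4.1]
  have hz : ∀ y0 y3 : ℝ, κ * ((3*y0+4*y3)/5) * (γ1 * (3/5) + γ2 * (4/5)) + (β1 * y0 + β2 * y3) = 0 := by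
    intro y0 y3
    linear_combination (1/25) * (3 * y0 + 4 * y3) * b1 + (1/25) * (4 * y0 - 3 * y3) * b2
  -- second order in direction `± e⊥`
  have c3 := a3.2 (hz _ _)
  have c4 := a4.2 (hz _ _)
  have g1 : γ1 * 4 = γ2 * 3 := by
    have k1 : 0 ≤ 3 * c * (-(γ1 * 4) + γ2 * 3) / 5 := by
      have e : κ * ((3*(-4/5)+4*(3/5))/5) * (n1 * (-4/5) * (3/5) + n2 * (3/5) * (4/5)) + 3 * c * 1 * (γ1 * (-4/5) + γ2 * (3/5))
        = 3 * c * (-(γ1 * 4) + γ2 * 3) / 5 := by ring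
      rwa [e] at c3
    have k2 : 0 ≤ 3 * c * ((γ1 * 4) - γ2 * 3) / 5 := by
      have e : κ * ((3*(4/5)+4*(-3/5))/5) * (n1 * (4/5) * (3/5) + n2 * (-3/5) * (4/5)) + 3 * c * 1 * (γ1 * (4/5) + γ2 * (-3/5))
        = 3 * c * ((γ1 * 4) - γ2 * 3) / 5 := by ring
      rwa [e] at c4
    have k3 : 0 ≤ -(γ1 * 4) + γ2 * 3 := by
      by_contra hcon; push Not at hcon
      nlinarith
    have k4 : 0 ≤ (γ1 * 4) - γ2 * 3 := by
      by_contra hcon; push Not at hcon
      nlinarith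
    linarith
  -- γ = g • e
  obtain ⟨g, hg⟩ : ∃ g, g = (3 * γ1 + 4 * γ2) / 5 := ⟨_, rfl⟩
  have hγ1 : γ1 = g * (3/5) := by rw [hg]; linarith
  have hγ2 : γ2 = g * (4/5) := by rw [hg]; linarith
  -- general second order
  have gen : ∀ y0 y3 N : ℝ, 0 ≤ N → N^2 = y0^2 + y3^2 → 0 < 3*y0+4*y3 →
      3 * c * N * |g| ≤ κ * (n1 * y0 * (3/5) + n2 * y3 * (4/5)) := by
    intro y0 y3 N hN hNN hs
    have p1 := (h1 y0 y3 N hN hNN).2 (hz _ _)
    have p2 := (h1 (-y0) (-y3) N hN (by rw [hNN]; ring)).2 (hz _ _)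
    rw [hγ1, hγ2] at p1 p2
    have q1 : 0 ≤ ((3*y0+4*y3)/5) * (κ * (n1 * y0 * (3/5) + n2 * y3 * (4/5)) + 3 * c * N * g) := by
      have e : κ * ((3*y0+4*y3)/5) * (n1 * y0 * (3/5) + n2 * y3 * (4/5)) + 3 * c * N * (g * (3/5) * y0 + g * (4/5) * y3) =
        ((3*y0+4*y3)/5) * (κ * (n1 * y0 * (3/5) + n2 * y3 * (4/5)) + 3 * c * N * g) := by ring
      rwa [e] at p1
    have q2 : 0 ≤ ((3*y0+4*y3)/5) * (κ * (n1 * y0 * (3/5) + n2 * y3 * (4/5)) - 3 * c * N * g) := by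
      have e : κ * ((3*-y0+4*-y3)/5) * (n1 * -y0 * (3/5) + n2 * -y3 * (4/5)) + 3 * c * N * (g * (3/5) * -y0 + g * (4/5) * -y3) =
        ((3*y0+4*y3)/5) * (κ * (n1 * y0 * (3/5) + n2 * y3 * (4/5)) - 3 * c * N * g) := by ring
      rwa [e] at p2
    have hs' : 0 < (3*y0+4*y3)/5 := by linarith
    have q3 := nonneg_of_mul_nonneg_right q1 hs'
    have q4 := nonneg_of_mul_nonneg_right q2 hs'
    rcases abs_cases g with ⟨hh, _⟩ | ⟨hh, _⟩ <;> rw [hh] <;> linarith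
  -- limits
  have lim : ∀ σ : ℝ, σ^2 = 1 → 3 * c * |g| ≤ κ * (σ * ((12/25) * (n2 - n1))) := by
    intro σ hσ
    have : 0 ≤ κ * (σ * ((12/25) * (n2 - n1))) - 3 * c * |g| := by
      apply lim_nonneg (δ := 1) (K := |κ * (n1 * (9/25) + n2 * (16/25))|) one_pos (abs_nonneg _)
      intro η h0 h1
      have hN : √(1 + η^2)^2 = 1 + η^2 := Real.sq_sqrt (by positivity)
      have hN1 : 1 ≤ √(1 + η^2) := by
        apply Real.le_sqrt_of_sq_le; nlinarith
      have hg' := gen (σ * (-4/5) + η * (3/5)) (σ * (3/5) + η * (4/5)) (√(1 + η^2)) (Real.sqrt_nonneg _)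
        (by rw [hN]; linear_combination -hσ) (by linarith)
      have e1 : 3 * c * |g| ≤ 3 * c * √(1 + η^2) * |g| := by
        have : 0 ≤ 3 * c * |g| := by positivity
        nlinarith
      have e2 : κ * (n1 * (σ * (-4/5) + η * (3/5)) * (3/5) + n2 * (σ * (3/5) + η * (4/5)) * (4/5)) =
        κ * (σ * ((12/25) * (n2 - n1))) + η * (κ * (n1 * (9/25) + n2 * (16/25))) := by ring
      have e3 : η * (κ * (n1 * (9/25) + n2 * (16/25))) ≤ η * |κ * (n1 * (9/25) + n2 * (16/25))| :=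
        mul_le_mul_of_nonneg_left (le_abs_self _) h0.le
      linarith
    linarith
  have l1 := lim 1 (by norm_num)
  have l2 := lim (-1) (by norm_num)
  have hg0 : |g| = 0 := by
    have : 0 ≤ |g| := abs_nonneg g
    have h6 : 3 * c * |g| ≤ 0 := by linarith
    nlinarith
  have hg0' : g = 0 := abs_eq_zero.1 hg0
  rw [hg0'] at hγ1 hγ2
  have hn : n1 = n2 := by
    rw [hg0] at l1 l2
    have k1 : 0 ≤ κ * (n2 - n1) := by linarith
    have k2 : κ * (n2 - n1) ≤ 0 := by linarith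
    have k3 : κ * (n2 - n1) = 0 := le_antisymm k2 k1
    rcases mul_eq_zero.1 k3 with h | h
    · exact absurd h hκ.ne'
    · linarith
  have hγ1' : γ1 = 0 := by rw [hγ1]; ring
  have hγ2' : γ2 = 0 := by rw [hγ2]; ring
  rw [hγ1', hγ2'] at b1
  refine ⟨by linarith, by linarith, hγ1', hγ2', hn⟩

/-- a linear functional maximal at `Pz` among the nearby planar Gauss matrices is equal at `Po` -/
theorem functional_core {κ c r0 : ℝ} (hκ : 0 < κ) (hc : 0 < c) (hr0 : 0 < r0) (l : M4 →ₗ[ℝ] ℝ)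
    (h : ∀ x : X4, ‖x‖ < r0 → l (BB x (gpsi κ c ez x)) ≤ l Pz) : l Po = l Pz := by
  have hres := core (κ := κ) (c := c) (n1 := l mA1 - l mD1) (n2 := l mA2 - l mD2) (γ1 := -l mF1) (γ2 := -l mF2)
    (β1 := -l mB1) (β2 := -l mB2) hκ hc (by
      intro y0 y3 N hN hNN
      have hps := poly_sign (a := κ * ((3*y0+4*y3)/5) * (-l mF1 * (3/5) + -l mF2 * (4/5)) + (-l mB1 * y0 + -l mB2 * y3))
        (b := κ * ((3*y0+4*y3)/5) * ((l mA1 - l mD1) * y0 * (3/5) + (l mA2 - l mD2) * y3 * (4/5)) +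
          3 * c * N * (-l mF1 * y0 + -l mF2 * y3))
        (c := 3 * c * N * ((l mA1 - l mD1) * y0^2 + (l mA2 - l mD2) * y3^2) -
          κ * ((3*y0+4*y3)/5) * (-l mB1 * y0^2 * (3/5) + -l mB2 * y3^2 * (4/5)))
        (d := -(3 * c * N * (-l mB1 * y0^3 + -l mB2 * y3^3))) (δ := r0 / (N + 1)) (by positivity) (by
          intro t h0 h1
          have hx := h !₂[t * y0, 0, 0, t * y3] (by
            have h2 := norm4 (!₂[t * y0, 0, 0, t * y3] : X4)
            have h3 : ‖(!₂[t * y0, 0, 0, t * y3] : X4)‖^2 = (t * N)^2 := by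
              rw [h2, mul_pow t N, hNN]; simp; ring
            have h4 : ‖(!₂[t * y0, 0, 0, t * y3] : X4)‖ = t * N :=
              (pow_left_inj₀ (norm_nonneg _) (by positivity) two_ne_zero).1 h3
            rw [h4]
            rw [lt_div_iff₀ (by positivity)] at h1
            nlinarith)
          rw [gpsi_planar κ c (t * y0) (t * y3) (t * N) (by positivity) (by rw [mul_pow, hNN]; ring), BB_planar] at hx
          rw [Pz_dec] at hx
          simp only [map_add, map_smul, smul_eq_mul] at hx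
          linarith)
      exact hps)
  obtain ⟨hb1, hb2, hg1, hg2, hn⟩ := hres
  have f1 : l mF1 = 0 := by linarith
  have f2 : l mF2 = 0 := by linarith
  have b1 : l mB1 = 0 := by linarith
  have b2 : l mB2 = 0 := by linarith
  rw [Po_dec, Pz_dec]
  simp only [map_add, map_smul, smul_eq_mul, f1, f2, b1, b2]
  linarith

end H62.EC
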