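import Pool.Agent.H62.EC.Vertex

/-! The planar inequality for all cells. -/

namespace H62.EC

def sgb (b : Bool) : Int := if b then 1 else -1

/-- cells of the first sphere in the right half plane -/
def cp (i ez : Bool) : Cell := if i then c1 1 (sgb ez) else c0 1 (sgb ez)
/-- cells of the second sphere -/
def dq (j fx fz : Bool) : Cell := if j then d1 (sgb fx) (sgb fz) else d0 (sgb fx) (sgb fz)

def okNC (i j k ez l fx fz : Bool) : Bool :=
  chkFull 1 (cp i true) (dq j true true) (cp k ez) (dq l fx fz)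
  || ((k == i) && ez && chkP (cp i true) (dq j true true) (dq l fx fz))
  || ((l == j) && fx && fz && chkQ 1 (cp i true) (cp k ez) (dq j true true))
  || ((l == j) && !fx && !fz && chkQ (-1) (cp i true) (cp k ez) (dq j true true))
  || ((k == i) && ez && (l == j) && fx && fz && chkPQ (cp i true) (dq j true true))

theorem all_nc : ∀ i j k ez l fx fz : Bool, ((!ez && fx && !fz) || okNC i j k ez l fx fz) = true := by
  decide +kernel

theorem all_ct : ∀ i j k l : Bool,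
    chkFull (-1) (cp i true) (dq j true true) (cp k false) (dq l true false) = true := by
  decide +kernel

/-- real sign -/
noncomputable def sgr (b : Bool) : ℝ := if b then 1 else -1

theorem sgb_cast (b : Bool) : ((sgb b : Int) : ℝ) = sgr b := by
  cases b <;> simp [sgb, sgr]

def ArcP (i : Bool) (x z : ℝ) : Prop :=
  0 ≤ x ∧ 0 ≤ z ∧ x^2 + z^2 = 1 ∧ (i = true → 5/13 ≤ z) ∧ (i = false → z ≤ 5/13)
def ArcQ (i : Bool) (x z : ℝ) : Prop :=
  0 ≤ x ∧ 0 ≤ z ∧ x^2 + z^2 = 1 ∧ (i = true → 12/13 ≤ z) ∧ (i = false → z ≤ 12/13)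

theorem arcP_tri (i ez : Bool) (x z : ℝ) (h : ArcP i x (sgr ez * z)) : InTri (cp i ez) x z := by
  obtain ⟨hx, hz, hu, h1, h2⟩ := h
  have hx1 : x ≤ 1 := by nlinarith
  have hz1 : sgr ez * z ≤ 1 := by nlinarith
  have hzz : z = sgr ez * (sgr ez * z) := by cases ez <;> simp [sgr]
  generalize sgr ez * z = t at *
  cases i
  · have ht := h2 rfl
    refine ⟨13 - 12*x - 5*t, 25*x+5*t-25, 13*(1-x), ?_, ?_, by linarith, by ring, ?_, ?_⟩
    · nlinarith [sq_nonneg (x - 12/13), sq_nonneg (t - 5/13)]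
    · nlinarith [mul_nonneg hz (sub_nonneg.2 ht)]
    · simp [cp, c0]; ring
    · rw [hzz]; cases ez <;> simp [cp, c0, sgb, sgr] <;> ring
  · have ht := h1 rfl
    refine ⟨13*(1-t)/8, (12*x+18*t-18)/8, (13-12*x-5*t)/8, by linarith, ?_, ?_, by ring, ?_, ?_⟩
    · nlinarith [mul_nonneg (sub_nonneg.2 hz1) (sub_nonneg.2 ht)]
    · nlinarith [sq_nonneg (x - 12/13), sq_nonneg (t - 5/13)]
    · simp [cp, c1]; ring
    · rw [hzz]; cases ez <;> simp [cp, c1, sgb, sgr] <;> ring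

theorem arcQ_tri (j fx fz : Bool) (x z : ℝ) (h : ArcQ j (sgr fx * x) (sgr fz * z)) :
    InTri (dq j fx fz) x z := by
  obtain ⟨hx, hz, hu, h1, h2⟩ := h
  have hx1 : sgr fx * x ≤ 1 := by nlinarith
  have hz1 : sgr fz * z ≤ 1 := by nlinarith
  have hxx : x = sgr fx * (sgr fx * x) := by cases fx <;> simp [sgr]
  have hzz : z = sgr fz * (sgr fz * z) := by cases fz <;> simp [sgr]
  generalize sgr fz * z = t at *
  generalize sgr fx * x = s at *
  cases j
  · have ht := h2 rfl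
    refine ⟨(13 - 5*s - 12*t)/8, (18*s+12*t-18)/8, 13*(1-s)/8, ?_, ?_, by linarith, by ring, ?_, ?_⟩
    · nlinarith [sq_nonneg (s - 5/13), sq_nonneg (t - 12/13)]
    · nlinarith [mul_nonneg hz (sub_nonneg.2 ht)]
    · rw [hxx]; cases fx <;> simp [dq, d0, sgb, sgr] <;> ring
    · rw [hzz]; cases fz <;> simp [dq, d0, sgb, sgr] <;> ring
  · have ht := h1 rfl
    refine ⟨13*(1-t), 5*s+25*t-25, 13-5*s-12*t, by linarith, ?_, ?_, by ring, ?_, ?_⟩
    · nlinarith [mul_nonneg (sub_nonneg.2 hz1) (sub_nonneg.2 ht)]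
    · nlinarith [sq_nonneg (s - 5/13), sq_nonneg (t - 12/13)]
    · rw [hxx]; cases fx <;> simp [dq, d1, sgb, sgr] <;> ring
    · rw [hzz]; cases fz <;> simp [dq, d1, sgb, sgr] <;> ring

theorem dot_ge (c : Cell) (w : ℝ)
    (h : ∀ a ∈ c.vs, ∀ b ∈ c.vs, w ≤ ((a.1 : ℝ) / 195) * (b.1 / 195) + (a.2 / 195) * (b.2 / 195))
    (u v u' v' : ℝ) (hu : InTri c u v) (hu' : InTri c u' v') : w ≤ u * u' + v * v' := by
  have m0 : ∀ c : Cell, (c.x0, c.z0) ∈ c.vs := fun c => by simp [Cell.vs]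
  have m1 : ∀ c : Cell, (c.x1, c.z1) ∈ c.vs := fun c => by simp [Cell.vs]
  have m2 : ∀ c : Cell, (c.x2, c.z2) ∈ c.vs := fun c => by simp [Cell.vs]
  have s1 : ∀ a ∈ c.vs, 0 ≤ ((a.1 : ℝ) / 195) * u' + (a.2 / 195) * v' - w := by
    intro a ha
    exact tri_nonneg (fun x z => ((a.1 : ℝ) / 195) * x + (a.2 / 195) * z - w) ((a.1 : ℝ) / 195)
      (a.2 / 195) (by intro x z; ring) c u' v' hu'
      (sub_nonneg.2 (h a ha _ (m0 c))) (sub_nonneg.2 (h a ha _ (m1 c)))
      (sub_nonneg.2 (h a ha _ (m2 c)))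
  have := tri_nonneg (fun x z => x * u' + z * v' - w) u' v'
      (by intro x z; ring) c u v hu (s1 _ (m0 c)) (s1 _ (m1 c)) (s1 _ (m2 c))
  have h2 : 0 ≤ u * u' + v * v' - w := this
  linarith

theorem arcP_dot (i : Bool) (x z x' z' : ℝ) (h : ArcP i x z) (h' : ArcP i x' z') :
    (((cp i true).w : Int) : ℝ) / 38025 ≤ x * x' + z * z' ∧ x * x' + z * z' ≤ 1 := by
  have t := arcP_tri i true x z (by simpa [sgr] using h)
  have t' := arcP_tri i true x' z' (by simpa [sgr] using h')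
  constructor
  · refine dot_ge (cp i true) _ ?_ x z x' z' t t'
    cases i <;> norm_num [cp, c0, c1, sgb, Cell.vs]
  · obtain ⟨_, _, hu, _⟩ := h
    obtain ⟨_, _, hu', _⟩ := h'
    nlinarith [sq_nonneg (x - x'), sq_nonneg (z - z')]

theorem arcQ_dot (i : Bool) (x z x' z' : ℝ) (h : ArcQ i x z) (h' : ArcQ i x' z') :
    (((dq i true true).w : Int) : ℝ) / 38025 ≤ x * x' + z * z' ∧ x * x' + z * z' ≤ 1 := by
  have t := arcQ_tri i true true x z (by simpa [sgr] using h)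
  have t' := arcQ_tri i true true x' z' (by simpa [sgr] using h')
  constructor
  · refine dot_ge (dq i true true) _ ?_ x z x' z' t t'
    cases i <;> norm_num [dq, d0, d1, sgb, Cell.vs]
  · obtain ⟨_, _, hu, _⟩ := h
    obtain ⟨_, _, hu', _⟩ := h'
    nlinarith [sq_nonneg (x - x'), sq_nonneg (z - z')]

theorem arcP_alpha (i : Bool) (x z : ℝ) (h : ArcP i x z) :
    (((cp i true).mx : ℝ)*(cp i true).x0+(cp i true).mz*(cp i true).z0)/304200 ≤
      ((cp i true).mx : ℝ)/1560*x+((cp i true).mz : ℝ)/1560*z ∧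
    ((cp i true).mx : ℝ)/1560*x+((cp i true).mz : ℝ)/1560*z ≤
      (((cp i true).mx : ℝ)*(cp i true).x2+(cp i true).mz*(cp i true).z2)/304200 ∨
    (((cp i true).mx : ℝ)*(cp i true).x2+(cp i true).mz*(cp i true).z2)/304200 ≤
      ((cp i true).mx : ℝ)/1560*x+((cp i true).mz : ℝ)/1560*z ∧
    ((cp i true).mx : ℝ)/1560*x+((cp i true).mz : ℝ)/1560*z ≤
      (((cp i true).mx : ℝ)*(cp i true).x0+(cp i true).mz*(cp i true).z0)/304200 := by
  obtain ⟨hx, hz, hu, h1, h2⟩ := h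
  cases i
  · have ht := h2 rfl
    left
    have hx1 : x ≤ 1 := by nlinarith
    have hx2 : 12/13 ≤ x := by nlinarith
    constructor <;> norm_num [cp, c0, sgb] <;> linarith
  · have ht := h1 rfl
    left
    have hx1 : z ≤ 1 := by nlinarith
    constructor <;> norm_num [cp, c1, sgb] <;> linarith

theorem arcQ_alpha (i : Bool) (x z : ℝ) (h : ArcQ i x z) :
    (((dq i true true).mx : ℝ)*(dq i true true).x0+(dq i true true).mz*(dq i true true).z0)/304200 ≤
      ((dq i true true).mx : ℝ)/1560*x+((dq i true true).mz : ℝ)/1560*z ∧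
    ((dq i true true).mx : ℝ)/1560*x+((dq i true true).mz : ℝ)/1560*z ≤
      (((dq i true true).mx : ℝ)*(dq i true true).x2+(dq i true true).mz*(dq i true true).z2)/304200 ∨
    (((dq i true true).mx : ℝ)*(dq i true true).x2+(dq i true true).mz*(dq i true true).z2)/304200 ≤
      ((dq i true true).mx : ℝ)/1560*x+((dq i true true).mz : ℝ)/1560*z ∧
    ((dq i true true).mx : ℝ)/1560*x+((dq i true true).mz : ℝ)/1560*z ≤
      (((dq i true true).mx : ℝ)*(dq i true true).x0+(dq i true true).mz*(dq i true true).z0)/304200 := by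
  obtain ⟨hx, hz, hu, h1, h2⟩ := h
  cases i
  · have ht := h2 rfl
    right
    have hx1 : x ≤ 1 := by nlinarith
    have hx2 : 5/13 ≤ x := by nlinarith
    constructor <;> norm_num [dq, d0, sgb] <;> linarith
  · have ht := h1 rfl
    right
    have hx1 : z ≤ 1 := by nlinarith
    constructor <;> norm_num [dq, d1, sgb] <;> linarith

theorem Gp_eq (p q Q : Cell) (ax az bx bz cx cz dx dz : ℝ) :
    Gp p q Q (ax*cx+az*cz) ((p.mx : ℝ)/1560*ax+(p.mz : ℝ)/1560*az)
      ((p.mx : ℝ)/1560*cx+(p.mz : ℝ)/1560*cz) bx bz dx dz = Gf 1 p q p Q ax az bx bz cx cz dx dz := by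
  simp only [Gp, Gf, one_mul]

theorem Gq_eq (p P q : Cell) (ax az bx bz cx cz dx dz : ℝ) :
    Gq 1 p P q (bx*dx+bz*dz) ((q.mx : ℝ)/1560*bx+(q.mz : ℝ)/1560*bz)
      ((q.mx : ℝ)/1560*dx+(q.mz : ℝ)/1560*dz) ax az cx cz = Gf 1 p q P q ax az bx bz cx cz dx dz := by
  simp only [Gq, Gf, one_mul]

theorem Gq_eq' (p P q Q : Cell) (hA : Q.A = q.A) (hx : Q.mx = - q.mx) (hz : Q.mz = - q.mz)
    (ax az bx bz cx cz dx dz : ℝ) :
    Gq (-1) p P q (bx*(-dx)+bz*(-dz)) ((q.mx : ℝ)/1560*bx+(q.mz : ℝ)/1560*bz)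
      ((q.mx : ℝ)/1560*(-dx)+(q.mz : ℝ)/1560*(-dz)) ax az cx cz = Gf 1 p q P Q ax az bx bz cx cz dx dz := by
  simp only [Gq, Gf, one_mul, hA, hx, hz, Es]
  push_cast
  ring

theorem Gb_eq (p q : Cell) (ax az bx bz cx cz dx dz : ℝ) :
    Gb p q (ax*cx+az*cz) (bx*dx+bz*dz) ((p.mx : ℝ)/1560*ax+(p.mz : ℝ)/1560*az)
      ((p.mx : ℝ)/1560*cx+(p.mz : ℝ)/1560*cz) ((q.mx : ℝ)/1560*bx+(q.mz : ℝ)/1560*bz)
      ((q.mx : ℝ)/1560*dx+(q.mz : ℝ)/1560*dz) = Gf 1 p q p q ax az bx bz cx cz dx dz := by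
  simp only [Gb, Gf, one_mul]

theorem nc_Gf (i j k ez l fx fz : Bool) (hn : (!ez && fx && !fz) = false)
    (ax az bx bz cx cz dx dz : ℝ) (ha : ArcP i ax az) (hb : ArcQ j bx bz)
    (hc : ArcP k cx (sgr ez * cz)) (hd : ArcQ l (sgr fx * dx) (sgr fz * dz)) :
    0 ≤ Gf 1 (cp i true) (dq j true true) (cp k ez) (dq l fx fz) ax az bx bz cx cz dx dz := by
  have h := all_nc i j k ez l fx fz
  rw [hn, Bool.false_or] at h
  have ta := arcP_tri i true ax az (by simpa [sgr] using ha)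
  have tb := arcQ_tri j true true bx bz (by simpa [sgr] using hb)
  have tc := arcP_tri k ez cx cz hc
  have td := arcQ_tri l fx fz dx dz hd
  simp only [okNC, Bool.or_eq_true, Bool.and_eq_true, beq_iff_eq, Bool.not_eq_true'] at h
  rcases h with (((h | ⟨⟨rfl, rfl⟩, h⟩) | ⟨⟨⟨rfl, rfl⟩, rfl⟩, h⟩) | ⟨⟨⟨rfl, rfl⟩, rfl⟩, h⟩) |
    ⟨⟨⟨⟨⟨rfl, rfl⟩, rfl⟩, rfl⟩, rfl⟩, h⟩
  · have := full_of_chk 1 _ _ _ _ h ax az bx bz cx cz dx dz ta tb tc td
    simpa using this
  · have hc' : ArcP k cx cz := by simpa [sgr] using hc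
    rw [← Gp_eq]
    obtain ⟨d1, d2⟩ := arcP_dot k ax az cx cz ha hc'
    exact p_of_chk _ _ _ h _ _ _ _ _ _ _ d1 d2 (arcP_alpha k ax az ha) (arcP_alpha k cx cz hc') tb td
  · have hd' : ArcQ l dx dz := by simpa [sgr] using hd
    rw [← Gq_eq]
    obtain ⟨d1, d2⟩ := arcQ_dot l bx bz dx dz hb hd'
    have := q_of_chk 1 (by norm_num) _ _ _ h _ _ _ _ _ _ _ d1 d2 (arcQ_alpha l bx bz hb)
      (arcQ_alpha l dx dz hd') ta tc
    simpa using this
  · have hd' : ArcQ l (-dx) (-dz) := by simpa [sgr] using hd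
    have e1 : (dq l false false).A = (dq l true true).A := by cases l <;> rfl
    have e2 : (dq l false false).mx = - (dq l true true).mx := by cases l <;> rfl
    have e3 : (dq l false false).mz = - (dq l true true).mz := by cases l <;> rfl
    rw [← Gq_eq' _ _ _ _ e1 e2 e3]
    obtain ⟨d1, d2⟩ := arcQ_dot l bx bz (-dx) (-dz) hb hd'
    have := q_of_chk (-1) (by norm_num) _ _ _ h _ _ _ _ _ _ _ d1 d2 (arcQ_alpha l bx bz hb)
      (arcQ_alpha l (-dx) (-dz) hd') ta tc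
    simpa using this
  · have hc' : ArcP k cx cz := by simpa [sgr] using hc
    have hd' : ArcQ l dx dz := by simpa [sgr] using hd
    rw [← Gb_eq]
    obtain ⟨d1, d2⟩ := arcQ_dot l bx bz dx dz hb hd'
    obtain ⟨d3, d4⟩ := arcP_dot k ax az cx cz ha hc'
    exact b_of_chk _ _ h _ _ _ _ _ _ d3 d4 d1 d2 (arcP_alpha k ax az ha) (arcP_alpha k cx cz hc')
      (arcQ_alpha l bx bz hb) (arcQ_alpha l dx dz hd')

theorem ct_Gf (i j k l : Bool)
    (ax az bx bz cx cz dx dz : ℝ) (ha : ArcP i ax az) (hb : ArcQ j bx bz)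
    (hc : ArcP k cx (-cz)) (hd : ArcQ l dx (-dz)) :
    0 ≤ Gf (-1) (cp i true) (dq j true true) (cp k false) (dq l true false) ax az bx bz cx cz dx dz := by
  have h := all_ct i j k l
  have ta := arcP_tri i true ax az (by simpa [sgr] using ha)
  have tb := arcQ_tri j true true bx bz (by simpa [sgr] using hb)
  have tc := arcP_tri k false cx cz (by simpa [sgr] using hc)
  have td := arcQ_tri l true false dx dz (by simpa [sgr] using hd)
  have := full_of_chk (-1) _ _ _ _ h ax az bx bz cx cz dx dz ta tb tc td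
  simpa using this

end H62.EC
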