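import Pool.Agent.H62.EC.Planar

/-! From cells to the intrinsic data of the lens integrand, planar case. -/

namespace H62.EC

/-- clamp to `[-s, s]` -/
noncomputable def cl (s z : ℝ) : ℝ := max (-s) (min z s)

noncomputable def PaF (z : ℝ) : ℝ := -(17/26) / √(1 - cl (5/13) z ^ 2)
noncomputable def PmF (z : ℝ) : ℝ := (17/26) * cl (5/13) z / √(1 - cl (5/13) z ^ 2)
noncomputable def QaF (z : ℝ) : ℝ := (7/26) / √(1 - cl (12/13) z ^ 2)
noncomputable def QmF (z : ℝ) : ℝ := -(7/26) * cl (12/13) z / √(1 - cl (12/13) z ^ 2)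

noncomputable def Ev (C H z ζ z' ζ' : ℝ) : ℝ :=
  Es (1 + PaF z + QaF ζ) (1 + PaF z' + QaF ζ') C H
    (PmF z * z) (PmF z * z') (PmF z' * z) (PmF z' * z') (PmF z * PmF z')
    (QmF ζ * ζ) (QmF ζ * ζ') (QmF ζ' * ζ) (QmF ζ' * ζ') (QmF ζ * QmF ζ')

theorem cl_of_le {s z : ℝ} (h1 : -s ≤ z) (h2 : z ≤ s) : cl s z = z := by
  unfold cl; rw [min_eq_left h2, max_eq_right h1]
theorem cl_of_ge {s z : ℝ} (h1 : s ≤ z) (hs : 0 ≤ s) : cl s z = s := by
  unfold cl; rw [min_eq_right h1, max_eq_right (by linarith)]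
theorem cl_of_le_neg {s z : ℝ} (h1 : z ≤ -s) (hs : 0 ≤ s) : cl s z = -s := by
  unfold cl; rw [min_eq_left (by linarith), max_eq_left h1]

theorem sqrt_513 : √(1 - (5/13 : ℝ)^2) = 12/13 := by
  rw [show (1 - (5/13 : ℝ)^2) = (12/13)^2 by norm_num]
  exact Real.sqrt_sq (by norm_num)
theorem sqrt_1213 : √(1 - (12/13 : ℝ)^2) = 5/13 := by
  rw [show (1 - (12/13 : ℝ)^2) = (5/13)^2 by norm_num]
  exact Real.sqrt_sq (by norm_num)

/-- the data of the cell are the intrinsic data, shifted by `δ` -/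
def Rep (c : Cell) (A m δ x z : ℝ) : Prop :=
  (c.A : ℝ) / 1560 = A + δ ∧ (c.mx : ℝ) / 1560 = - δ * x ∧ (c.mz : ℝ) / 1560 = m - δ * z

theorem repP (i ez : Bool) (x z : ℝ) (h : ArcP i x (sgr ez * z)) :
    ∃ δ, Rep (cp i ez) (PaF z) (PmF z) δ x z := by
  obtain ⟨hx, hz, hu, h1, h2⟩ := h
  have hsg : sgr ez * sgr ez = 1 := by cases ez <;> simp [sgr]
  have hu' : x^2 + z^2 = 1 := by
    have : (sgr ez * z)^2 = z^2 := by
      rw [mul_pow, sq (sgr ez), hsg, one_mul]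
    rw [this] at hu; exact hu
  cases i
  · have ht := h2 rfl
    have hb : -(5/13) ≤ z ∧ z ≤ 5/13 := by
      cases ez
      · simp [sgr] at ht hz; constructor <;> linarith
      · simp [sgr] at ht hz; constructor <;> linarith
    have hcl : cl (5/13) z = z := cl_of_le hb.1 hb.2
    have hsq : √(1 - z^2) = x := by
      rw [show 1 - z^2 = x^2 by linarith]; exact Real.sqrt_sq hx
    have hxp : 0 < x := by nlinarith [hb.1, hb.2]
    refine ⟨(17/26)/x, ?_, ?_, ?_⟩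
    · simp only [PaF, hcl, hsq]; simp [cp, c0]; ring
    · simp [cp, c0]; field_simp; norm_num
    · simp only [PmF, hcl, hsq]; simp [cp, c0]; ring
  · have ht := h1 rfl
    refine ⟨0, ?_, ?_, ?_⟩
    · cases ez
      · simp [sgr] at ht
        have hcl : cl (5/13) z = -(5/13) := cl_of_le_neg (by linarith) (by norm_num)
        simp only [PaF, hcl, neg_sq, sqrt_513]; norm_num [cp, c1]
      · simp [sgr] at ht
        have hcl : cl (5/13) z = (5/13) := cl_of_ge (by linarith) (by norm_num)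
        simp only [PaF, hcl, sqrt_513]; norm_num [cp, c1]
    · simp [cp, c1]
    · cases ez
      · simp [sgr] at ht
        have hcl : cl (5/13) z = -(5/13) := cl_of_le_neg (by linarith) (by norm_num)
        simp only [PmF, hcl, neg_sq, sqrt_513]; norm_num [cp, c1, sgb]
      · simp [sgr] at ht
        have hcl : cl (5/13) z = (5/13) := cl_of_ge (by linarith) (by norm_num)
        simp only [PmF, hcl, sqrt_513]; norm_num [cp, c1, sgb]

theorem repQ (l fx fz : Bool) (x z : ℝ) (h : ArcQ l (sgr fx * x) (sgr fz * z)) :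
    ∃ δ, Rep (dq l fx fz) (QaF z) (QmF z) δ x z := by
  obtain ⟨hx, hz, hu, h1, h2⟩ := h
  have hsg : sgr fz * sgr fz = 1 := by cases fz <;> simp [sgr]
  have hsg' : sgr fx * sgr fx = 1 := by cases fx <;> simp [sgr]
  have hxx : x = sgr fx * (sgr fx * x) := by rw [← mul_assoc, hsg', one_mul]
  have hu' : (sgr fx * x)^2 + z^2 = 1 := by
    have : (sgr fz * z)^2 = z^2 := by
      rw [mul_pow, sq (sgr fz), hsg, one_mul]
    rw [this] at hu; exact hu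
  have hmx : ((dq l fx fz).mx : ℝ) / 1560 = if l then 0 else (7/26) * sgr fx := by
    cases l <;> simp [dq, d0, d1, sgb_cast]; ring
  generalize hs : sgr fx * x = s at *
  cases l
  · have ht := h2 rfl
    have hb : -(12/13) ≤ z ∧ z ≤ 12/13 := by
      cases fz
      · simp [sgr] at ht hz; constructor <;> linarith
      · simp [sgr] at ht hz; constructor <;> linarith
    have hcl : cl (12/13) z = z := cl_of_le hb.1 hb.2
    have hsq : √(1 - z^2) = s := by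
      rw [show 1 - z^2 = s^2 by linarith]; exact Real.sqrt_sq hx
    have hxp : 0 < s := by nlinarith [hb.1, hb.2]
    refine ⟨-((7/26)/s), ?_, ?_, ?_⟩
    · simp only [QaF, hcl, hsq]; simp [dq, d0]
    · rw [hmx, hxx]; simp; field_simp
    · simp only [QmF, hcl, hsq]; simp [dq, d0]; ring
  · have ht := h1 rfl
    refine ⟨0, ?_, ?_, ?_⟩
    · cases fz
      · simp [sgr] at ht
        have hcl : cl (12/13) z = -(12/13) := cl_of_le_neg (by linarith) (by norm_num)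
        simp only [QaF, hcl, neg_sq, sqrt_1213]; norm_num [dq, d1]
      · simp [sgr] at ht
        have hcl : cl (12/13) z = (12/13) := cl_of_ge (by linarith) (by norm_num)
        simp only [QaF, hcl, sqrt_1213]; norm_num [dq, d1]
    · rw [hmx]; simp
    · cases fz
      · simp [sgr] at ht
        have hcl : cl (12/13) z = -(12/13) := cl_of_le_neg (by linarith) (by norm_num)
        simp only [QmF, hcl, neg_sq, sqrt_1213]; norm_num [dq, d1, sgb]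
      · simp [sgr] at ht
        have hcl : cl (12/13) z = (12/13) := cl_of_ge (by linarith) (by norm_num)
        simp only [QmF, hcl, sqrt_1213]; norm_num [dq, d1, sgb]

theorem Gf_rep (s : ℝ) (p q P Q : Cell) (A m δ A2 m2 δ2 B n ε B2 n2 ε2 : ℝ)
    (ax az bx bz cx cz dx dz : ℝ)
    (hp : Rep p A m δ ax az) (hq : Rep q B n ε bx bz) (hP : Rep P A2 m2 δ2 cx cz)
    (hQ : Rep Q B2 n2 ε2 dx dz) (ha : ax^2 + az^2 = 1) (hb : bx^2 + bz^2 = 1)
    (hc : cx^2 + cz^2 = 1) (hd : dx^2 + dz^2 = 1) :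
    Gf s p q P Q ax az bx bz cx cz dx dz =
    160 * Es (1 + A + B) (1 + A2 + B2) (ax*cx+az*cz) (bx*dx+bz*dz)
      (m*az) (m*cz) (m2*az) (m2*cz) (m*m2) (n*bz) (n*dz) (n2*bz) (n2*dz) (n*n2)
      - (1 - (ax*cx+s*(az*cz))*(bx*dx+s*(bz*dz))) := by
  obtain ⟨p1, p2, p3⟩ := hp
  obtain ⟨q1, q2, q3⟩ := hq
  obtain ⟨P1, P2, P3⟩ := hP
  obtain ⟨Q1, Q2, Q3⟩ := hQ
  simp only [Gf, p1, p2, p3, q1, q2, q3, P1, P2, P3, Q1, Q2, Q3]
  have e1 : -δ * ax * ax + (m - δ * az) * az = m * az - δ := by linear_combination -δ * ha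
  have e2 : -δ2 * cx * cx + (m2 - δ2 * cz) * cz = m2 * cz - δ2 := by linear_combination -δ2 * hc
  have e3 : -ε * bx * bx + (n - ε * bz) * bz = n * bz - ε := by linear_combination -ε * hb
  have e4 : -ε2 * dx * dx + (n2 - ε2 * dz) * dz = n2 * dz - ε2 := by linear_combination -ε2 * hd
  rw [e1, e2, e3, e4]
  simp only [Es]
  ring

theorem exists_zoneP (x z : ℝ) (hx : 0 ≤ x) (hz : 0 ≤ z) (hu : x^2+z^2 = 1) : ∃ i, ArcP i x z := by
  rcases le_total z (5/13) with h | h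
  · exact ⟨false, hx, hz, hu, by simp, fun _ => h⟩
  · exact ⟨true, hx, hz, hu, fun _ => h, by simp⟩
theorem exists_zoneQ (x z : ℝ) (hx : 0 ≤ x) (hz : 0 ≤ z) (hu : x^2+z^2 = 1) : ∃ i, ArcQ i x z := by
  rcases le_total z (12/13) with h | h
  · exact ⟨false, hx, hz, hu, by simp, fun _ => h⟩
  · exact ⟨true, hx, hz, hu, fun _ => h, by simp⟩

theorem exists_sg (z : ℝ) : ∃ e, 0 ≤ sgr e * z := by
  rcases le_total 0 z with h | h
  · exact ⟨true, by simpa [sgr] using h⟩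
  · exact ⟨false, by simpa [sgr] using h⟩

theorem sgr_sq (e : Bool) (z : ℝ) : (sgr e * z)^2 = z^2 := by
  cases e <;> simp [sgr]

/-- planar inequality, contact configuration -/
theorem planar_ct (r z ρ ζ r' z' x' ζ' : ℝ) (hr : 0 ≤ r) (hz : 0 ≤ z) (hρ : 0 ≤ ρ) (hζ : 0 ≤ ζ)
    (hr' : 0 ≤ r') (hz' : z' ≤ 0) (hx' : 0 ≤ x') (hζ' : ζ' ≤ 0)
    (h1 : r^2+z^2 = 1) (h2 : ρ^2+ζ^2 = 1) (h3 : r'^2+z'^2 = 1) (h4 : x'^2+ζ'^2 = 1) :
    1 - (r*r'-z*z')*(ρ*x'-ζ*ζ') ≤ 160 * Ev (r*r'+z*z') (ρ*x'+ζ*ζ') z ζ z' ζ' := by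
  obtain ⟨i, hi⟩ := exists_zoneP r z hr hz h1
  obtain ⟨j, hj⟩ := exists_zoneQ ρ ζ hρ hζ h2
  obtain ⟨k, hk⟩ := exists_zoneP r' (-z') hr' (by linarith) (by nlinarith)
  obtain ⟨l, hl⟩ := exists_zoneQ x' (-ζ') hx' (by linarith) (by nlinarith)
  have main := ct_Gf i j k l r z ρ ζ r' z' x' ζ' hi hj hk hl
  obtain ⟨δ, hδ⟩ := repP i true r z (by simpa [sgr] using hi)
  obtain ⟨ε, hε⟩ := repQ j true true ρ ζ (by simpa [sgr] using hj)
  obtain ⟨δ2, hδ2⟩ := repP k false r' z' (by simpa [sgr] using hk)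
  obtain ⟨ε2, hε2⟩ := repQ l true false x' ζ' (by simpa [sgr] using hl)
  rw [Gf_rep (-1) _ _ _ _ _ _ _ _ _ _ _ _ _ _ _ _ _ _ _ _ _ _ _ _ hδ hε hδ2 hε2 h1 h2 h3 h4] at main
  unfold Ev
  have : (r * r' + -1 * (z * z')) * (ρ * x' + -1 * (ζ * ζ')) = (r*r'-z*z')*(ρ*x'-ζ*ζ') := by ring
  rw [this] at main
  linarith

theorem planar_nc (r z ρ ζ r' z' x' ζ' : ℝ) (hr : 0 ≤ r) (hz : 0 ≤ z) (hρ : 0 ≤ ρ) (hζ : 0 ≤ ζ)
    (hr' : 0 ≤ r') (hnc : 0 ≤ z' ∨ x' ≤ 0 ∨ 0 ≤ ζ')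
    (h1 : r^2+z^2 = 1) (h2 : ρ^2+ζ^2 = 1) (h3 : r'^2+z'^2 = 1) (h4 : x'^2+ζ'^2 = 1) :
    1 - (r*r'+z*z')*(ρ*x'+ζ*ζ') ≤ 160 * Ev (r*r'+z*z') (ρ*x'+ζ*ζ') z ζ z' ζ' := by
  have hsg : ∃ ez fx fz : Bool, 0 ≤ sgr ez * z' ∧ 0 ≤ sgr fx * x' ∧ 0 ≤ sgr fz * ζ' ∧
      (!ez && fx && !fz) = false := by
    obtain ⟨ez, hez⟩ := exists_sg z'
    obtain ⟨fx, hfx⟩ := exists_sg x'
    obtain ⟨fz, hfz⟩ := exists_sg ζ'
    rcases hnc with h | h | h
    · exact ⟨true, fx, fz, by simpa [sgr] using h, hfx, hfz, by simp⟩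
    · exact ⟨ez, false, fz, hez, by simpa [sgr] using h, hfz, by simp⟩
    · exact ⟨ez, fx, true, hez, hfx, by simpa [sgr] using h, by simp⟩
  obtain ⟨ez, fx, fz, hez, hfx, hfz, hn⟩ := hsg
  obtain ⟨i, hi⟩ := exists_zoneP r z hr hz h1
  obtain ⟨j, hj⟩ := exists_zoneQ ρ ζ hρ hζ h2
  obtain ⟨k, hk⟩ := exists_zoneP r' (sgr ez * z') hr' hez (by rw [sgr_sq]; exact h3)
  obtain ⟨l, hl⟩ := exists_zoneQ (sgr fx * x') (sgr fz * ζ') hfx hfz (by rw [sgr_sq, sgr_sq]; exact h4)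
  have main := nc_Gf i j k ez l fx fz hn r z ρ ζ r' z' x' ζ' hi hj hk hl
  obtain ⟨δ, hδ⟩ := repP i true r z (by simpa [sgr] using hi)
  obtain ⟨ε, hε⟩ := repQ j true true ρ ζ (by simpa [sgr] using hj)
  obtain ⟨δ2, hδ2⟩ := repP k ez r' z' hk
  obtain ⟨ε2, hε2⟩ := repQ l fx fz x' ζ' hl
  rw [Gf_rep 1 _ _ _ _ _ _ _ _ _ _ _ _ _ _ _ _ _ _ _ _ _ _ _ _ hδ hε hδ2 hε2 h1 h2 h3 h4] at main
  unfold Ev
  simp only [one_mul] at main
  linarith

end H62.EC
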