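import Pool.Agent.H62.EC.Red

/-! Reduction of the general inequality to planar configurations. -/

namespace H62.EC

theorem Ev_biaff (u a v b t s z ζ z' ζ' : ℝ) :
    Ev (u + t * a) (v + s * b) z ζ z' ζ' =
      (1+t)/2 * ((1+s)/2) * Ev (u + a) (v + b) z ζ z' ζ' +
      (1+t)/2 * ((1-s)/2) * Ev (u + a) (v - b) z ζ z' ζ' +
      (1-t)/2 * ((1+s)/2) * Ev (u - a) (v + b) z ζ z' ζ' +
      (1-t)/2 * ((1-s)/2) * Ev (u - a) (v - b) z ζ z' ζ' := by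
  simp only [Ev, Es]; ring

theorem cl_neg (s z : ℝ) (hs : 0 ≤ s) : cl s (-z) = - cl s z := by
  rcases le_total z s with h1 | h1
  · rcases le_total (-s) z with h2 | h2
    · rw [cl_of_le h2 h1, cl_of_le (by linarith) (by linarith)]
    · rw [cl_of_le_neg h2 hs, cl_of_ge (by linarith) hs]; ring
  · rw [cl_of_ge h1 hs, cl_of_le_neg (by linarith) hs]

theorem PaF_neg (z : ℝ) : PaF (-z) = PaF z := by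
  simp only [PaF, cl_neg _ _ (show (0:ℝ) ≤ 5/13 by norm_num), neg_sq]
theorem PmF_neg (z : ℝ) : PmF (-z) = -PmF z := by
  simp only [PmF, cl_neg _ _ (show (0:ℝ) ≤ 5/13 by norm_num), neg_sq]; ring
theorem QaF_neg (z : ℝ) : QaF (-z) = QaF z := by
  simp only [QaF, cl_neg _ _ (show (0:ℝ) ≤ 12/13 by norm_num), neg_sq]
theorem QmF_neg (z : ℝ) : QmF (-z) = -QmF z := by
  simp only [QmF, cl_neg _ _ (show (0:ℝ) ≤ 12/13 by norm_num), neg_sq]; ring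

theorem Ev_sym1 (C H z ζ z' ζ' : ℝ) : Ev C H (-z) ζ (-z') ζ' = Ev C H z ζ z' ζ' := by
  simp only [Ev, PaF_neg, PmF_neg, Es]; ring
theorem Ev_sym2 (C H z ζ z' ζ' : ℝ) : Ev C H z (-ζ) z' (-ζ') = Ev C H z ζ z' ζ' := by
  simp only [Ev, QaF_neg, QmF_neg, Es]; ring
theorem Ev_sym3 (C H z ζ z' ζ' : ℝ) : Ev (-C) (-H) z ζ (-z') (-ζ') = Ev C H z ζ z' ζ' := by
  simp only [Ev, QaF_neg, QmF_neg, PaF_neg, PmF_neg, Es]; ring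

theorem one_sub_mul_nonneg' {a b : ℝ} (ha : a^2 ≤ 1) (hb : b^2 ≤ 1) : 0 ≤ 1 - a * b := by
  nlinarith [sq_nonneg (a - b)]

theorem comb4 {w1 w2 w3 w4 a1 a2 a3 a4 b1 b2 b3 b4 : ℝ} (h1 : 0 ≤ w1) (h2 : 0 ≤ w2)
    (h3 : 0 ≤ w3) (h4 : 0 ≤ w4) (c1 : a1 ≤ 160 * b1) (c2 : a2 ≤ 160 * b2) (c3 : a3 ≤ 160 * b3)
    (c4 : a4 ≤ 160 * b4) :
    w1 * a1 + w2 * a2 + w3 * a3 + w4 * a4 ≤ 160 * (w1 * b1 + w2 * b2 + w3 * b3 + w4 * b4) := by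
  nlinarith [mul_le_mul_of_nonneg_left c1 h1, mul_le_mul_of_nonneg_left c2 h2,
        mul_le_mul_of_nonneg_left c3 h3, mul_le_mul_of_nonneg_left c4 h4]

set_option linter.unusedSectionVars false

section
variable (r z ρ ζ r' z' ρ' ζ' : ℝ) (hr : 0 ≤ r) (hz : 0 ≤ z) (hρ : 0 ≤ ρ) (hζ : 0 ≤ ζ)
    (hr' : 0 ≤ r') (hz' : 0 ≤ z') (hρ' : 0 ≤ ρ')
    (h1 : r^2+z^2 = 1) (h2 : ρ^2+ζ^2 = 1) (h3 : r'^2+z'^2 = 1) (h4 : ρ'^2+ζ'^2 = 1)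
include hr hz hρ hζ hr' hz' hρ' h1 h2 h3 h4

theorem corner_pp : 1 - (z*z'+r*r')*(ζ*ζ'+ρ*ρ') ≤ 160 * Ev (z*z'+r*r') (ζ*ζ'+ρ*ρ') z ζ z' ζ' := by
  have := planar_nc r z ρ ζ r' z' ρ' ζ' hr hz hρ hζ hr' (Or.inl hz') h1 h2 h3 h4
  rw [show r*r'+z*z' = z*z'+r*r' by ring, show ρ*ρ'+ζ*ζ' = ζ*ζ'+ρ*ρ' by ring] at this
  exact this

theorem corner_pm : 1 - (z*z'+r*r')*(ζ*ζ'-ρ*ρ') ≤ 160 * Ev (z*z'+r*r') (ζ*ζ'-ρ*ρ') z ζ z' ζ' := by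
  have := planar_nc r z ρ ζ r' z' (-ρ') ζ' hr hz hρ hζ hr' (Or.inl hz') h1 h2 h3 (by rw [neg_sq]; exact h4)
  rw [show r*r'+z*z' = z*z'+r*r' by ring, show ρ*(-ρ')+ζ*ζ' = ζ*ζ'-ρ*ρ' by ring] at this
  exact this

theorem corner_mp : 1 - (z*z'-r*r')*(ζ*ζ'+ρ*ρ') ≤ 160 * Ev (z*z'-r*r') (ζ*ζ'+ρ*ρ') z ζ z' ζ' := by
  have := planar_nc r z ρ ζ r' (-z') (-ρ') (-ζ') hr hz hρ hζ hr' (Or.inr (Or.inl (by linarith)))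
    h1 h2 (by rw [neg_sq]; exact h3) (by rw [neg_sq, neg_sq]; exact h4)
  rw [show r*r'+z*(-z') = -(z*z'-r*r') by ring, show ρ*(-ρ')+ζ*(-ζ') = -(ζ*ζ'+ρ*ρ') by ring,
    Ev_sym3] at this
  nlinarith [this]

theorem corner_mm_neg (hζ' : ζ' ≤ 0) :
    1 - (z*z'-r*r')*(ζ*ζ'-ρ*ρ') ≤ 160 * Ev (z*z'-r*r') (ζ*ζ'-ρ*ρ') z ζ z' ζ' := by
  have := planar_nc r z ρ ζ r' (-z') ρ' (-ζ') hr hz hρ hζ hr' (Or.inr (Or.inr (by linarith)))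
    h1 h2 (by rw [neg_sq]; exact h3) (by rw [neg_sq]; exact h4)
  rw [show r*r'+z*(-z') = -(z*z'-r*r') by ring, show ρ*ρ'+ζ*(-ζ') = -(ζ*ζ'-ρ*ρ') by ring,
    Ev_sym3] at this
  nlinarith [this]

theorem corner_mm_pos (hζ' : 0 ≤ ζ') :
    1 - (z*z'+r*r')*(ζ*ζ'+ρ*ρ') ≤ 160 * Ev (z*z'-r*r') (ζ*ζ'-ρ*ρ') z ζ z' ζ' := by
  have := planar_ct r z ρ ζ r' (-z') ρ' (-ζ') hr hz hρ hζ hr' (by linarith) hρ' (by linarith)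
    h1 h2 (by rw [neg_sq]; exact h3) (by rw [neg_sq]; exact h4)
  rw [show r*r'+z*(-z') = -(z*z'-r*r') by ring, show ρ*ρ'+ζ*(-ζ') = -(ζ*ζ'-ρ*ρ') by ring,
    Ev_sym3] at this
  nlinarith [this]

theorem T2a (t s : ℝ) (ht : -1 ≤ t) (ht' : t ≤ 1) (hs : -1 ≤ s) (hs' : s ≤ 1) :
    ∃ X : ℝ, 0 ≤ X ∧ (ζ' ≤ 0 → X = 1 - (z*z'-r*r')*(ζ*ζ'-ρ*ρ')) ∧
     (0 < ζ' → X = 1 - (z*z'+r*r')*(ζ*ζ'+ρ*ρ')) ∧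
     (1+t)/2 * ((1+s)/2) * (1 - (z*z'+r*r')*(ζ*ζ'+ρ*ρ')) +
     (1+t)/2 * ((1-s)/2) * (1 - (z*z'+r*r')*(ζ*ζ'-ρ*ρ')) +
     (1-t)/2 * ((1+s)/2) * (1 - (z*z'-r*r')*(ζ*ζ'+ρ*ρ')) +
     (1-t)/2 * ((1-s)/2) * X ≤ 160 * Ev (z*z' + t*(r*r')) (ζ*ζ' + s*(ρ*ρ')) z ζ z' ζ' := by
  have e := Ev_biaff (z*z') (r*r') (ζ*ζ') (ρ*ρ') t s z ζ z' ζ'
  have c1 := corner_pp r z ρ ζ r' z' ρ' ζ' hr hz hρ hζ hr' hz' hρ' h1 h2 h3 h4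
  have c2 := corner_pm r z ρ ζ r' z' ρ' ζ' hr hz hρ hζ hr' hz' hρ' h1 h2 h3 h4
  have c3 := corner_mp r z ρ ζ r' z' ρ' ζ' hr hz hρ hζ hr' hz' hρ' h1 h2 h3 h4
  have w1 : 0 ≤ (1+t)/2 * ((1+s)/2) := by
    apply mul_nonneg <;> linarith
  have w2 : 0 ≤ (1+t)/2 * ((1-s)/2) := by
    apply mul_nonneg <;> linarith
  have w3 : 0 ≤ (1-t)/2 * ((1+s)/2) := by
    apply mul_nonneg <;> linarith
  have w4 : 0 ≤ (1-t)/2 * ((1-s)/2) := by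
    apply mul_nonneg <;> linarith
  have hC : (z*z'+r*r')^2 ≤ 1 := by nlinarith [sq_nonneg (z*r'-r*z')]
  have hH : (ζ*ζ'+ρ*ρ')^2 ≤ 1 := by nlinarith [sq_nonneg (ζ*ρ'-ρ*ζ')]
  have hC' : (z*z'-r*r')^2 ≤ 1 := by nlinarith [sq_nonneg (z*r'+r*z')]
  have hH' : (ζ*ζ'-ρ*ρ')^2 ≤ 1 := by nlinarith [sq_nonneg (ζ*ρ'+ρ*ζ')]
  rcases le_or_gt ζ' 0 with h | h
  · refine ⟨1 - (z*z'-r*r')*(ζ*ζ'-ρ*ρ'), ?_, fun _ => rfl, fun h' => absurd h' (not_lt.2 h), ?_⟩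
    · exact one_sub_mul_nonneg' hC' hH'
    · have c4 := corner_mm_neg r z ρ ζ r' z' ρ' ζ' hr hz hρ hζ hr' hz' hρ' h1 h2 h3 h4 h
      rw [e]
      exact comb4 w1 w2 w3 w4 c1 c2 c3 c4
  · refine ⟨1 - (z*z'+r*r')*(ζ*ζ'+ρ*ρ'), ?_, fun h' => absurd h (not_lt.2 h'), fun _ => rfl, ?_⟩
    · exact one_sub_mul_nonneg' hC hH
    · have c4 := corner_mm_pos r z ρ ζ r' z' ρ' ζ' hr hz hρ hζ hr' hz' hρ' h1 h2 h3 h4 h.le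
      rw [e]
      exact comb4 w1 w2 w3 w4 c1 c2 c3 c4

end

end H62.EC
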