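import Mathlib

/-! Vertex method for the planar inequality of the lens integrand. -/

namespace H62.EC

/-- The numerator `F F' (2 - tr (P P'))` in terms of the affine data of the two zones. -/
def Es {R : Type*} [CommRing R] (A B C H a1 a2 a3 a4 a5 b1 b2 b3 b4 b5 : R) : R :=
  (A + a1 + b1) * (B + a4 + b4) - (A * C + a2 + b2) * (B * C + a3 + b3)
    + (A * B * C + A * a3 + B * a2 + a5 - b5) * (C - H)

/-- Integer version (data scaled by `1560`, points scaled by `195`). -/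
def EsI (A B C H a1 a2 a3 a4 a5 b1 b2 b3 b4 b5 : Int) : Int :=
  (A * 195 + a1 + b1) * (B * 195 + a4 + b4) * 38025
    - (A * C + a2 * 195 + b2 * 195) * (B * C + a3 * 195 + b3 * 195)
    + (A * B * C + A * a3 * 195 + B * a2 * 195 + (a5 - b5) * 38025) * (C - H)

theorem EsI_cast (A B C H a1 a2 a3 a4 a5 b1 b2 b3 b4 b5 : Int) :
    ((EsI A B C H a1 a2 a3 a4 a5 b1 b2 b3 b4 b5 : Int) : ℝ) = 2433600 * 1445900625 *
      Es ((A : ℝ) / 1560) ((B : ℝ) / 1560) ((C : ℝ) / 38025) ((H : ℝ) / 38025)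
        ((a1 : ℝ) / 304200) ((a2 : ℝ) / 304200) ((a3 : ℝ) / 304200) ((a4 : ℝ) / 304200)
        ((a5 : ℝ) / 2433600)
        ((b1 : ℝ) / 304200) ((b2 : ℝ) / 304200) ((b3 : ℝ) / 304200) ((b4 : ℝ) / 304200)
        ((b5 : ℝ) / 2433600) := by
  simp only [EsI, Es]
  push_cast
  ring

structure Cell where
  A : Int
  mx : Int
  mz : Int
  x0 : Int
  z0 : Int
  x1 : Int
  z1 : Int
  x2 : Int
  z2 : Int
  w : Int

/-- cells for the first sphere, zone 1 -/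
def c0 (ex ez : Int) : Cell := ⟨0, -1020*ex, 0, 195*ex, 0, 195*ex, 39*ez, 180*ex, 75*ez, 35100⟩
/-- cells for the first sphere, zone 2 -/
def c1 (ex ez : Int) : Cell := ⟨-1105, 0, 425*ez, 180*ex, 75*ez, 130*ex, 195*ez, 0, 195*ez, 14625⟩
/-- cells for the second sphere, zone 1 -/
def d0 (ex ez : Int) : Cell := ⟨0, 420*ex, 0, 195*ex, 0, 195*ex, 130*ez, 75*ex, 180*ez, 14625⟩
/-- cells for the second sphere, zone 2 -/
def d1 (ex ez : Int) : Cell := ⟨1092, 0, -1008*ez, 75*ex, 180*ez, 39*ex, 195*ez, 0, 195*ez, 35100⟩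

def Cell.vs (c : Cell) : List (Int × Int) := [(c.x0, c.z0), (c.x1, c.z1), (c.x2, c.z2)]
def Cell.es (c : Cell) : List (Int × Int) := [(c.x0, c.z0), (c.x2, c.z2)]

/-- all 81 vertices; `s = 1`: diagonal weight, `s = -1`: contact weight -/
def chkFull (s : Int) (p q P Q : Cell) : Bool :=
  p.vs.all fun a => q.vs.all fun b => P.vs.all fun c => Q.vs.all fun d =>
    decide (15210 * (1445900625 - (a.1*c.1+s*(a.2*c.2))*(b.1*d.1+s*(b.2*d.2))) ≤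
      EsI (1560 + p.A + q.A) (1560 + P.A + Q.A) (a.1*c.1+a.2*c.2) (b.1*d.1+b.2*d.2)
        (p.mx*a.1+p.mz*a.2) (p.mx*c.1+p.mz*c.2) (P.mx*a.1+P.mz*a.2) (P.mx*c.1+P.mz*c.2)
        (p.mx*P.mx+p.mz*P.mz)
        (q.mx*b.1+q.mz*b.2) (q.mx*d.1+q.mz*d.2) (Q.mx*b.1+Q.mz*b.2) (Q.mx*d.1+Q.mz*d.2)
        (q.mx*Q.mx+q.mz*Q.mz))

/-- same cell for the first sphere, relaxed -/
def chkP (p q Q : Cell) : Bool :=
  [p.w, 38025].all fun C => p.es.all fun a => p.es.all fun c => q.vs.all fun b => Q.vs.all fun d =>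
    decide (15210 * (1445900625 - C*(b.1*d.1+b.2*d.2)) ≤
      EsI (1560 + p.A + q.A) (1560 + p.A + Q.A) C (b.1*d.1+b.2*d.2)
        (p.mx*a.1+p.mz*a.2) (p.mx*c.1+p.mz*c.2) (p.mx*a.1+p.mz*a.2) (p.mx*c.1+p.mz*c.2)
        (p.mx*p.mx+p.mz*p.mz)
        (q.mx*b.1+q.mz*b.2) (q.mx*d.1+q.mz*d.2) (Q.mx*b.1+Q.mz*b.2) (Q.mx*d.1+Q.mz*d.2)
        (q.mx*Q.mx+q.mz*Q.mz))

/-- same (`s = 1`) or antipodal (`s = -1`) cell for the second sphere, relaxed -/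
def chkQ (s : Int) (p P q : Cell) : Bool :=
  [q.w, 38025].all fun H => q.es.all fun b => q.es.all fun d => p.vs.all fun a => P.vs.all fun c =>
    decide (15210 * (1445900625 - (a.1*c.1+a.2*c.2)*(s*H)) ≤
      EsI (1560 + p.A + q.A) (1560 + P.A + q.A) (a.1*c.1+a.2*c.2) (s*H)
        (p.mx*a.1+p.mz*a.2) (p.mx*c.1+p.mz*c.2) (P.mx*a.1+P.mz*a.2) (P.mx*c.1+P.mz*c.2)
        (p.mx*P.mx+p.mz*P.mz)
        (q.mx*b.1+q.mz*b.2) (s*(q.mx*d.1+q.mz*d.2)) (s*(q.mx*b.1+q.mz*b.2)) (q.mx*d.1+q.mz*d.2)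
        (s*(q.mx*q.mx+q.mz*q.mz)))

/-- same cells -/
def chkPQ (p q : Cell) : Bool :=
  [p.w, 38025].all fun C => [q.w, 38025].all fun H => p.es.all fun a => p.es.all fun c =>
    q.es.all fun b => q.es.all fun d =>
    decide (15210 * (1445900625 - C*H) ≤
      EsI (1560 + p.A + q.A) (1560 + p.A + q.A) C H
        (p.mx*a.1+p.mz*a.2) (p.mx*c.1+p.mz*c.2) (p.mx*a.1+p.mz*a.2) (p.mx*c.1+p.mz*c.2)
        (p.mx*p.mx+p.mz*p.mz)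
        (q.mx*b.1+q.mz*b.2) (q.mx*d.1+q.mz*d.2) (q.mx*b.1+q.mz*b.2) (q.mx*d.1+q.mz*d.2)
        (q.mx*q.mx+q.mz*q.mz))

/-- membership in the (closed) triangle of a cell -/
def InTri (c : Cell) (x z : ℝ) : Prop :=
  ∃ l0 l1 l2 : ℝ, 0 ≤ l0 ∧ 0 ≤ l1 ∧ 0 ≤ l2 ∧ l0 + l1 + l2 = 1 ∧
    x = l0 * (c.x0 / 195) + l1 * (c.x1 / 195) + l2 * (c.x2 / 195) ∧
    z = l0 * (c.z0 / 195) + l1 * (c.z1 / 195) + l2 * (c.z2 / 195)

theorem tri_nonneg (f : ℝ → ℝ → ℝ) (u v : ℝ)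
    (hf : ∀ x z, f x z = f 0 0 + x * u + z * v)
    (c : Cell) (x z : ℝ) (h : InTri c x z)
    (h0 : 0 ≤ f (c.x0 / 195) (c.z0 / 195)) (h1 : 0 ≤ f (c.x1 / 195) (c.z1 / 195))
    (h2 : 0 ≤ f (c.x2 / 195) (c.z2 / 195)) : 0 ≤ f x z := by
  obtain ⟨l0, l1, l2, p0, p1, p2, hs, hx, hz⟩ := h
  have : f x z = l0 * f (c.x0 / 195) (c.z0 / 195) + l1 * f (c.x1 / 195) (c.z1 / 195)
      + l2 * f (c.x2 / 195) (c.z2 / 195) := by
    rw [hf x z, hf (c.x0 / 195), hf (c.x1 / 195), hf (c.x2 / 195), hx, hz]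
    have e : f 0 0 = (l0 + l1 + l2) * f 0 0 := by rw [hs, one_mul]
    rw [e]
    simp only [hs, one_mul]
    have e2 : l2 = 1 - l0 - l1 := by linarith
    rw [e2]; ring
  rw [this]
  positivity

theorem seg_nonneg (f : ℝ → ℝ) (u : ℝ) (hf : ∀ x, f x = f 0 + x * u) (l r x : ℝ)
    (hl : l ≤ x) (hr : x ≤ r) (h0 : 0 ≤ f l) (h1 : 0 ≤ f r) : 0 ≤ f x := by
  rw [hf] at h0 h1 ⊢
  rcases le_total 0 u with hu | hu
  · nlinarith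
  · nlinarith

/-- real objective in the non-relaxed case -/
noncomputable def Gf (s : ℝ) (p q P Q : Cell) (ax az bx bz cx cz dx dz : ℝ) : ℝ :=
  160 * Es (1 + (p.A : ℝ) / 1560 + (q.A : ℝ) / 1560) (1 + (P.A : ℝ) / 1560 + (Q.A : ℝ) / 1560)
    (ax*cx+az*cz) (bx*dx+bz*dz)
    ((p.mx : ℝ)/1560*ax+(p.mz : ℝ)/1560*az) ((p.mx : ℝ)/1560*cx+(p.mz : ℝ)/1560*cz)
    ((P.mx : ℝ)/1560*ax+(P.mz : ℝ)/1560*az) ((P.mx : ℝ)/1560*cx+(P.mz : ℝ)/1560*cz)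
    ((p.mx : ℝ)/1560*((P.mx : ℝ)/1560)+(p.mz : ℝ)/1560*((P.mz : ℝ)/1560))
    ((q.mx : ℝ)/1560*bx+(q.mz : ℝ)/1560*bz) ((q.mx : ℝ)/1560*dx+(q.mz : ℝ)/1560*dz)
    ((Q.mx : ℝ)/1560*bx+(Q.mz : ℝ)/1560*bz) ((Q.mx : ℝ)/1560*dx+(Q.mz : ℝ)/1560*dz)
    ((q.mx : ℝ)/1560*((Q.mx : ℝ)/1560)+(q.mz : ℝ)/1560*((Q.mz : ℝ)/1560))
    - (1 - (ax*cx+s*(az*cz))*(bx*dx+s*(bz*dz)))

theorem Gf_vertex (s : Int) (p q P Q : Cell) (a b c d : Int × Int)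
    (h : 15210 * (1445900625 - (a.1*c.1+s*(a.2*c.2))*(b.1*d.1+s*(b.2*d.2))) ≤
      EsI (1560 + p.A + q.A) (1560 + P.A + Q.A) (a.1*c.1+a.2*c.2) (b.1*d.1+b.2*d.2)
        (p.mx*a.1+p.mz*a.2) (p.mx*c.1+p.mz*c.2) (P.mx*a.1+P.mz*a.2) (P.mx*c.1+P.mz*c.2)
        (p.mx*P.mx+p.mz*P.mz)
        (q.mx*b.1+q.mz*b.2) (q.mx*d.1+q.mz*d.2) (Q.mx*b.1+Q.mz*b.2) (Q.mx*d.1+Q.mz*d.2)
        (q.mx*Q.mx+q.mz*Q.mz)) :
    0 ≤ Gf s p q P Q (a.1/195) (a.2/195) (b.1/195) (b.2/195) (c.1/195) (c.2/195)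
      (d.1/195) (d.2/195) := by
  have h' : ((15210 * (1445900625 - (a.1*c.1+s*(a.2*c.2))*(b.1*d.1+s*(b.2*d.2))) : Int) : ℝ) ≤
    ((EsI (1560 + p.A + q.A) (1560 + P.A + Q.A) (a.1*c.1+a.2*c.2) (b.1*d.1+b.2*d.2)
        (p.mx*a.1+p.mz*a.2) (p.mx*c.1+p.mz*c.2) (P.mx*a.1+P.mz*a.2) (P.mx*c.1+P.mz*c.2)
        (p.mx*P.mx+p.mz*P.mz)
        (q.mx*b.1+q.mz*b.2) (q.mx*d.1+q.mz*d.2) (Q.mx*b.1+Q.mz*b.2) (Q.mx*d.1+Q.mz*d.2)
        (q.mx*Q.mx+q.mz*Q.mz) : Int) : ℝ) := by exact_mod_cast h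
  rw [EsI_cast] at h'
  unfold Gf
  push_cast at h'
  have e1 : (1 + (p.A : ℝ) / 1560 + (q.A : ℝ) / 1560) = (1560 + (p.A : ℝ) + q.A) / 1560 := by ring
  have e2 : (1 + (P.A : ℝ) / 1560 + (Q.A : ℝ) / 1560) = (1560 + (P.A : ℝ) + Q.A) / 1560 := by ring
  have e3 : ((a.1 : ℝ)/195*((c.1 : ℝ)/195)+(a.2 : ℝ)/195*((c.2 : ℝ)/195)) = ((a.1 : ℝ)*c.1+a.2*c.2)/38025 := by
    ring
  have e4 : ((b.1 : ℝ)/195*((d.1 : ℝ)/195)+(b.2 : ℝ)/195*((d.2 : ℝ)/195)) = ((b.1 : ℝ)*d.1+b.2*d.2)/38025 := by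
    ring
  have e5 : ∀ m n x y : ℝ, m/1560*(x/195)+n/1560*(y/195) = (m*x+n*y)/304200 := by intros; ring
  have e6 : ∀ m n x y : ℝ, m/1560*(x/1560)+n/1560*(y/1560) = (m*x+n*y)/2433600 := by intros; ring
  have e7 : ((a.1 : ℝ)/195*((c.1 : ℝ)/195)+s*((a.2 : ℝ)/195*((c.2 : ℝ)/195))) = ((a.1 : ℝ)*c.1+s*(a.2*c.2))/38025 := by
    ring
  have e8 : ((b.1 : ℝ)/195*((d.1 : ℝ)/195)+s*((b.2 : ℝ)/195*((d.2 : ℝ)/195))) = ((b.1 : ℝ)*d.1+s*(b.2*d.2))/38025 := by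
    ring
  rw [e1, e2, e3, e4, e7, e8]
  simp only [e5, e6]
  linarith

theorem Gf_aff1 (s : ℝ) (p q P Q : Cell) (ax az bx bz cx cz dx dz : ℝ) :
    Gf s p q P Q ax az bx bz cx cz dx dz = Gf s p q P Q 0 0 bx bz cx cz dx dz
      + ax * (Gf s p q P Q 1 0 bx bz cx cz dx dz - Gf s p q P Q 0 0 bx bz cx cz dx dz)
      + az * (Gf s p q P Q 0 1 bx bz cx cz dx dz - Gf s p q P Q 0 0 bx bz cx cz dx dz) := by
  simp only [Gf, Es]; ring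

theorem Gf_aff2 (s : ℝ) (p q P Q : Cell) (ax az bx bz cx cz dx dz : ℝ) :
    Gf s p q P Q ax az bx bz cx cz dx dz = Gf s p q P Q ax az 0 0 cx cz dx dz
      + bx * (Gf s p q P Q ax az 1 0 cx cz dx dz - Gf s p q P Q ax az 0 0 cx cz dx dz)
      + bz * (Gf s p q P Q ax az 0 1 cx cz dx dz - Gf s p q P Q ax az 0 0 cx cz dx dz) := by
  simp only [Gf, Es]; ring

theorem Gf_aff3 (s : ℝ) (p q P Q : Cell) (ax az bx bz cx cz dx dz : ℝ) :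
    Gf s p q P Q ax az bx bz cx cz dx dz = Gf s p q P Q ax az bx bz 0 0 dx dz
      + cx * (Gf s p q P Q ax az bx bz 1 0 dx dz - Gf s p q P Q ax az bx bz 0 0 dx dz)
      + cz * (Gf s p q P Q ax az bx bz 0 1 dx dz - Gf s p q P Q ax az bx bz 0 0 dx dz) := by
  simp only [Gf, Es]; ring

theorem Gf_aff4 (s : ℝ) (p q P Q : Cell) (ax az bx bz cx cz dx dz : ℝ) :
    Gf s p q P Q ax az bx bz cx cz dx dz = Gf s p q P Q ax az bx bz cx cz 0 0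
      + dx * (Gf s p q P Q ax az bx bz cx cz 1 0 - Gf s p q P Q ax az bx bz cx cz 0 0)
      + dz * (Gf s p q P Q ax az bx bz cx cz 0 1 - Gf s p q P Q ax az bx bz cx cz 0 0) := by
  simp only [Gf, Es]; ring

attribute [local irreducible] Gf

theorem full_of_chk (s : Int) (p q P Q : Cell) (h : chkFull s p q P Q = true)
    (ax az bx bz cx cz dx dz : ℝ) (ha : InTri p ax az) (hb : InTri q bx bz)
    (hc : InTri P cx cz) (hd : InTri Q dx dz) : 0 ≤ Gf s p q P Q ax az bx bz cx cz dx dz := by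
  have hv : ∀ a ∈ p.vs, ∀ b ∈ q.vs, ∀ c ∈ P.vs, ∀ d ∈ Q.vs,
      0 ≤ Gf s p q P Q (a.1/195) (a.2/195) (b.1/195) (b.2/195) (c.1/195) (c.2/195)
      (d.1/195) (d.2/195) := by
    simp only [chkFull, List.all_eq_true, decide_eq_true_eq] at h
    intro a ha b hb c hc d hd
    exact Gf_vertex s p q P Q a b c d (h a ha b hb c hc d hd)
  have m0 : ∀ c : Cell, (c.x0, c.z0) ∈ c.vs := fun c => by simp [Cell.vs]
  have m1 : ∀ c : Cell, (c.x1, c.z1) ∈ c.vs := fun c => by simp [Cell.vs]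
  have m2 : ∀ c : Cell, (c.x2, c.z2) ∈ c.vs := fun c => by simp [Cell.vs]
  have s4 : ∀ a ∈ p.vs, ∀ b ∈ q.vs, ∀ c ∈ P.vs,
      0 ≤ Gf s p q P Q (a.1/195) (a.2/195) (b.1/195) (b.2/195) (c.1/195) (c.2/195) dx dz := by
    intro a ha b hb c hc
    exact tri_nonneg (fun x z => Gf s p q P Q (a.1/195) (a.2/195) (b.1/195) (b.2/195) (c.1/195)
      (c.2/195) x z) _ _ (fun x z => Gf_aff4 s p q P Q _ _ _ _ _ _ x z) Q dx dz hd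
      (hv a ha b hb c hc _ (m0 Q)) (hv a ha b hb c hc _ (m1 Q)) (hv a ha b hb c hc _ (m2 Q))
  have s3 : ∀ a ∈ p.vs, ∀ b ∈ q.vs,
      0 ≤ Gf s p q P Q (a.1/195) (a.2/195) (b.1/195) (b.2/195) cx cz dx dz := by
    intro a ha b hb
    exact tri_nonneg (fun x z => Gf s p q P Q (a.1/195) (a.2/195) (b.1/195) (b.2/195) x z dx dz)
      _ _ (fun x z => Gf_aff3 s p q P Q _ _ _ _ x z _ _) P cx cz hc
      (s4 a ha b hb _ (m0 P)) (s4 a ha b hb _ (m1 P)) (s4 a ha b hb _ (m2 P))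
  have s2 : ∀ a ∈ p.vs, 0 ≤ Gf s p q P Q (a.1/195) (a.2/195) bx bz cx cz dx dz := by
    intro a ha
    exact tri_nonneg (fun x z => Gf s p q P Q (a.1/195) (a.2/195) x z cx cz dx dz)
      _ _ (fun x z => Gf_aff2 s p q P Q _ _ x z _ _ _ _) q bx bz hb
      (s3 a ha _ (m0 q)) (s3 a ha _ (m1 q)) (s3 a ha _ (m2 q))
  exact tri_nonneg (fun x z => Gf s p q P Q x z bx bz cx cz dx dz)
      _ _ (fun x z => Gf_aff1 s p q P Q x z _ _ _ _ _ _) p ax az ha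
      (s2 _ (m0 p)) (s2 _ (m1 p)) (s2 _ (m2 p))

/-- objective for the relaxed case of equal cells on the first sphere -/
noncomputable def Gp (p q Q : Cell) (C α β bx bz dx dz : ℝ) : ℝ :=
  160 * Es (1 + (p.A : ℝ) / 1560 + (q.A : ℝ) / 1560) (1 + (p.A : ℝ) / 1560 + (Q.A : ℝ) / 1560)
    C (bx*dx+bz*dz) α β α β
    ((p.mx : ℝ)/1560*((p.mx : ℝ)/1560)+(p.mz : ℝ)/1560*((p.mz : ℝ)/1560))
    ((q.mx : ℝ)/1560*bx+(q.mz : ℝ)/1560*bz) ((q.mx : ℝ)/1560*dx+(q.mz : ℝ)/1560*dz)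
    ((Q.mx : ℝ)/1560*bx+(Q.mz : ℝ)/1560*bz) ((Q.mx : ℝ)/1560*dx+(Q.mz : ℝ)/1560*dz)
    ((q.mx : ℝ)/1560*((Q.mx : ℝ)/1560)+(q.mz : ℝ)/1560*((Q.mz : ℝ)/1560))
    - (1 - C*(bx*dx+bz*dz))

theorem Gp_vertex (p q Q : Cell) (C : Int) (a b c d : Int × Int)
    (h : 15210 * (1445900625 - C*(b.1*d.1+b.2*d.2)) ≤
      EsI (1560 + p.A + q.A) (1560 + p.A + Q.A) C (b.1*d.1+b.2*d.2)
        (p.mx*a.1+p.mz*a.2) (p.mx*c.1+p.mz*c.2) (p.mx*a.1+p.mz*a.2) (p.mx*c.1+p.mz*c.2)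
        (p.mx*p.mx+p.mz*p.mz)
        (q.mx*b.1+q.mz*b.2) (q.mx*d.1+q.mz*d.2) (Q.mx*b.1+Q.mz*b.2) (Q.mx*d.1+Q.mz*d.2)
        (q.mx*Q.mx+q.mz*Q.mz)) :
    0 ≤ Gp p q Q (C/38025) ((p.mx*a.1+p.mz*a.2)/304200) ((p.mx*c.1+p.mz*c.2)/304200)
      (b.1/195) (b.2/195) (d.1/195) (d.2/195) := by
  have h' : ((15210 * (1445900625 - C*(b.1*d.1+b.2*d.2)) : Int) : ℝ) ≤
    ((EsI (1560 + p.A + q.A) (1560 + p.A + Q.A) C (b.1*d.1+b.2*d.2)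
        (p.mx*a.1+p.mz*a.2) (p.mx*c.1+p.mz*c.2) (p.mx*a.1+p.mz*a.2) (p.mx*c.1+p.mz*c.2)
        (p.mx*p.mx+p.mz*p.mz)
        (q.mx*b.1+q.mz*b.2) (q.mx*d.1+q.mz*d.2) (Q.mx*b.1+Q.mz*b.2) (Q.mx*d.1+Q.mz*d.2)
        (q.mx*Q.mx+q.mz*Q.mz) : Int) : ℝ) := by exact_mod_cast h
  rw [EsI_cast] at h'
  unfold Gp
  push_cast at h'
  have e1 : (1 + (p.A : ℝ) / 1560 + (q.A : ℝ) / 1560) = (1560 + (p.A : ℝ) + q.A) / 1560 := by ring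
  have e2 : (1 + (p.A : ℝ) / 1560 + (Q.A : ℝ) / 1560) = (1560 + (p.A : ℝ) + Q.A) / 1560 := by ring
  have e4 : ((b.1 : ℝ)/195*((d.1 : ℝ)/195)+(b.2 : ℝ)/195*((d.2 : ℝ)/195)) = ((b.1 : ℝ)*d.1+b.2*d.2)/38025 := by
    ring
  have e5 : ∀ m n x y : ℝ, m/1560*(x/195)+n/1560*(y/195) = (m*x+n*y)/304200 := by intros; ring
  have e6 : ∀ m n x y : ℝ, m/1560*(x/1560)+n/1560*(y/1560) = (m*x+n*y)/2433600 := by intros; ring
  rw [e1, e2, e4]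
  simp only [e5, e6]
  linarith


theorem Gp_aC (p q Q : Cell) (C α β bx bz dx dz : ℝ) : Gp p q Q C α β bx bz dx dz =
    Gp p q Q 0 α β bx bz dx dz + C * (Gp p q Q 1 α β bx bz dx dz - Gp p q Q 0 α β bx bz dx dz) := by
  simp only [Gp, Es]; ring

theorem Gp_aα (p q Q : Cell) (C α β bx bz dx dz : ℝ) : Gp p q Q C α β bx bz dx dz =
    Gp p q Q C 0 β bx bz dx dz + α * (Gp p q Q C 1 β bx bz dx dz - Gp p q Q C 0 β bx bz dx dz) := by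
  simp only [Gp, Es]; ring

theorem Gp_aβ (p q Q : Cell) (C α β bx bz dx dz : ℝ) : Gp p q Q C α β bx bz dx dz =
    Gp p q Q C α 0 bx bz dx dz + β * (Gp p q Q C α 1 bx bz dx dz - Gp p q Q C α 0 bx bz dx dz) := by
  simp only [Gp, Es]; ring

theorem Gp_ab (p q Q : Cell) (C α β bx bz dx dz : ℝ) : Gp p q Q C α β bx bz dx dz =
    Gp p q Q C α β 0 0 dx dz + bx * (Gp p q Q C α β 1 0 dx dz - Gp p q Q C α β 0 0 dx dz)
     + bz * (Gp p q Q C α β 0 1 dx dz - Gp p q Q C α β 0 0 dx dz) := by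
  simp only [Gp, Es]; ring

theorem Gp_ad (p q Q : Cell) (C α β bx bz dx dz : ℝ) : Gp p q Q C α β bx bz dx dz =
    Gp p q Q C α β bx bz 0 0 + dx * (Gp p q Q C α β bx bz 1 0 - Gp p q Q C α β bx bz 0 0)
     + dz * (Gp p q Q C α β bx bz 0 1 - Gp p q Q C α β bx bz 0 0) := by
  simp only [Gp, Es]; ring

attribute [local irreducible] Gp

theorem p_of_chk (p q Q : Cell) (h : chkP p q Q = true)
    (C α β bx bz dx dz : ℝ) (hC : (p.w : ℝ)/38025 ≤ C) (hC1 : C ≤ 1)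
    (hα : (p.mx*p.x0+p.mz*p.z0)/304200 ≤ α ∧ α ≤ (p.mx*p.x2+p.mz*p.z2)/304200 ∨
      (p.mx*p.x2+p.mz*p.z2)/304200 ≤ α ∧ α ≤ (p.mx*p.x0+p.mz*p.z0)/304200)
    (hβ : (p.mx*p.x0+p.mz*p.z0)/304200 ≤ β ∧ β ≤ (p.mx*p.x2+p.mz*p.z2)/304200 ∨
      (p.mx*p.x2+p.mz*p.z2)/304200 ≤ β ∧ β ≤ (p.mx*p.x0+p.mz*p.z0)/304200)
    (hb : InTri q bx bz) (hd : InTri Q dx dz) : 0 ≤ Gp p q Q C α β bx bz dx dz := by
  have hv : ∀ C ∈ [p.w, 38025], ∀ a ∈ p.es, ∀ c ∈ p.es, ∀ b ∈ q.vs, ∀ d ∈ Q.vs,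
      0 ≤ Gp p q Q (C/38025) ((p.mx*a.1+p.mz*a.2)/304200) ((p.mx*c.1+p.mz*c.2)/304200)
      (b.1/195) (b.2/195) (d.1/195) (d.2/195) := by
    simp only [chkP, List.all_eq_true, decide_eq_true_eq] at h
    intro C hC a ha c hc b hb d hd
    exact Gp_vertex p q Q C a b c d (h C hC a ha c hc b hb d hd)
  have m0 : ∀ c : Cell, (c.x0, c.z0) ∈ c.vs := fun c => by simp [Cell.vs]
  have m1 : ∀ c : Cell, (c.x1, c.z1) ∈ c.vs := fun c => by simp [Cell.vs]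
  have m2 : ∀ c : Cell, (c.x2, c.z2) ∈ c.vs := fun c => by simp [Cell.vs]
  have n0 : (p.x0, p.z0) ∈ p.es := by simp [Cell.es]
  have n2 : (p.x2, p.z2) ∈ p.es := by simp [Cell.es]
  have s5 : ∀ C ∈ [p.w, 38025], ∀ a ∈ p.es, ∀ c ∈ p.es, ∀ b ∈ q.vs,
      0 ≤ Gp p q Q (C/38025) ((p.mx*a.1+p.mz*a.2)/304200) ((p.mx*c.1+p.mz*c.2)/304200)
      (b.1/195) (b.2/195) dx dz := by
    intro C hC a ha c hc b hb
    exact tri_nonneg (fun x z => Gp p q Q (C/38025) ((p.mx*a.1+p.mz*a.2)/304200)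
      ((p.mx*c.1+p.mz*c.2)/304200) (b.1/195) (b.2/195) x z) _ _
      (fun x z => Gp_ad p q Q _ _ _ _ _ x z) Q dx dz hd
      (hv C hC a ha c hc b hb _ (m0 Q)) (hv C hC a ha c hc b hb _ (m1 Q))
      (hv C hC a ha c hc b hb _ (m2 Q))
  have s4 : ∀ C ∈ [p.w, 38025], ∀ a ∈ p.es, ∀ c ∈ p.es,
      0 ≤ Gp p q Q (C/38025) ((p.mx*a.1+p.mz*a.2)/304200) ((p.mx*c.1+p.mz*c.2)/304200)
      bx bz dx dz := by
    intro C hC a ha c hc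
    exact tri_nonneg (fun x z => Gp p q Q (C/38025) ((p.mx*a.1+p.mz*a.2)/304200)
      ((p.mx*c.1+p.mz*c.2)/304200) x z dx dz) _ _
      (fun x z => Gp_ab p q Q _ _ _ x z _ _) q bx bz hb
      (s5 C hC a ha c hc _ (m0 q)) (s5 C hC a ha c hc _ (m1 q))
      (s5 C hC a ha c hc _ (m2 q))
  have s3 : ∀ C ∈ [p.w, 38025], ∀ a ∈ p.es,
      0 ≤ Gp p q Q (C/38025) ((p.mx*a.1+p.mz*a.2)/304200) β bx bz dx dz := by
    intro C hC a ha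
    rcases hβ with hβ | hβ
    · exact seg_nonneg (fun x => Gp p q Q (C/38025) ((p.mx*a.1+p.mz*a.2)/304200) x bx bz dx dz)
        _ (fun x => Gp_aβ p q Q _ _ x _ _ _ _) _ _ β hβ.1 hβ.2
        (s4 C hC a ha _ n0) (s4 C hC a ha _ n2)
    · exact seg_nonneg (fun x => Gp p q Q (C/38025) ((p.mx*a.1+p.mz*a.2)/304200) x bx bz dx dz)
        _ (fun x => Gp_aβ p q Q _ _ x _ _ _ _) _ _ β hβ.1 hβ.2
        (s4 C hC a ha _ n2) (s4 C hC a ha _ n0)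
  have s2 : ∀ C ∈ [p.w, 38025], 0 ≤ Gp p q Q (C/38025) α β bx bz dx dz := by
    intro C hC
    rcases hα with hα | hα
    · exact seg_nonneg (fun x => Gp p q Q (C/38025) x β bx bz dx dz)
        _ (fun x => Gp_aα p q Q _ x _ _ _ _ _) _ _ α hα.1 hα.2 (s3 C hC _ n0) (s3 C hC _ n2)
    · exact seg_nonneg (fun x => Gp p q Q (C/38025) x β bx bz dx dz)
        _ (fun x => Gp_aα p q Q _ x _ _ _ _ _) _ _ α hα.1 hα.2 (s3 C hC _ n2) (s3 C hC _ n0)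
  have t1 := s2 p.w (by simp)
  have t2 := s2 38025 (by simp)
  have e : ((38025 : Int) : ℝ) / 38025 = 1 := by norm_num
  rw [e] at t2
  exact seg_nonneg (fun x => Gp p q Q x α β bx bz dx dz) _
    (fun x => Gp_aC p q Q x _ _ _ _ _ _) _ _ C hC hC1 t1 t2

/-- objective for the relaxed case of equal or antipodal cells on the second sphere -/
noncomputable def Gq (s : ℝ) (p P q : Cell) (H α β ax az cx cz : ℝ) : ℝ :=
  160 * Es (1 + (p.A : ℝ) / 1560 + (q.A : ℝ) / 1560) (1 + (P.A : ℝ) / 1560 + (q.A : ℝ) / 1560)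
    (ax*cx+az*cz) (s*H)
    ((p.mx : ℝ)/1560*ax+(p.mz : ℝ)/1560*az) ((p.mx : ℝ)/1560*cx+(p.mz : ℝ)/1560*cz)
    ((P.mx : ℝ)/1560*ax+(P.mz : ℝ)/1560*az) ((P.mx : ℝ)/1560*cx+(P.mz : ℝ)/1560*cz)
    ((p.mx : ℝ)/1560*((P.mx : ℝ)/1560)+(p.mz : ℝ)/1560*((P.mz : ℝ)/1560))
    α (s*β) (s*α) β
    (s*((q.mx : ℝ)/1560*((q.mx : ℝ)/1560)+(q.mz : ℝ)/1560*((q.mz : ℝ)/1560)))
    - (1 - (ax*cx+az*cz)*(s*H))

theorem Gq_vertex (s : Int) (p P q : Cell) (H : Int) (a b c d : Int × Int)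
    (h : 15210 * (1445900625 - (a.1*c.1+a.2*c.2)*(s*H)) ≤
      EsI (1560 + p.A + q.A) (1560 + P.A + q.A) (a.1*c.1+a.2*c.2) (s*H)
        (p.mx*a.1+p.mz*a.2) (p.mx*c.1+p.mz*c.2) (P.mx*a.1+P.mz*a.2) (P.mx*c.1+P.mz*c.2)
        (p.mx*P.mx+p.mz*P.mz)
        (q.mx*b.1+q.mz*b.2) (s*(q.mx*d.1+q.mz*d.2)) (s*(q.mx*b.1+q.mz*b.2)) (q.mx*d.1+q.mz*d.2)
        (s*(q.mx*q.mx+q.mz*q.mz))) :
    0 ≤ Gq s p P q (H/38025) ((q.mx*b.1+q.mz*b.2)/304200) ((q.mx*d.1+q.mz*d.2)/304200)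
      (a.1/195) (a.2/195) (c.1/195) (c.2/195) := by
  have h' : ((15210 * (1445900625 - (a.1*c.1+a.2*c.2)*(s*H)) : Int) : ℝ) ≤
    ((EsI (1560 + p.A + q.A) (1560 + P.A + q.A) (a.1*c.1+a.2*c.2) (s*H)
        (p.mx*a.1+p.mz*a.2) (p.mx*c.1+p.mz*c.2) (P.mx*a.1+P.mz*a.2) (P.mx*c.1+P.mz*c.2)
        (p.mx*P.mx+p.mz*P.mz)
        (q.mx*b.1+q.mz*b.2) (s*(q.mx*d.1+q.mz*d.2)) (s*(q.mx*b.1+q.mz*b.2)) (q.mx*d.1+q.mz*d.2)
        (s*(q.mx*q.mx+q.mz*q.mz)) : Int) : ℝ) := by exact_mod_cast h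
  rw [EsI_cast] at h'
  unfold Gq
  push_cast at h'
  have e1 : (1 + (p.A : ℝ) / 1560 + (q.A : ℝ) / 1560) = (1560 + (p.A : ℝ) + q.A) / 1560 := by ring
  have e2 : (1 + (P.A : ℝ) / 1560 + (q.A : ℝ) / 1560) = (1560 + (P.A : ℝ) + q.A) / 1560 := by ring
  have e4 : ((a.1 : ℝ)/195*((c.1 : ℝ)/195)+(a.2 : ℝ)/195*((c.2 : ℝ)/195)) = ((a.1 : ℝ)*c.1+a.2*c.2)/38025 := by
    ring
  have e5 : ∀ m n x y : ℝ, m/1560*(x/195)+n/1560*(y/195) = (m*x+n*y)/304200 := by intros; ring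
  have e6 : ∀ m n x y : ℝ, m/1560*(x/1560)+n/1560*(y/1560) = (m*x+n*y)/2433600 := by intros; ring
  rw [e1, e2, e4]
  simp only [e5, e6]
  have e9 : ∀ x c : ℝ, (s : ℝ) * (x / c) = s * x / c := by intros; ring
  simp only [e9]
  linarith

theorem Gq_aH (s : ℝ) (p P q : Cell) (H α β ax az cx cz : ℝ) : Gq s p P q H α β ax az cx cz =
    Gq s p P q 0 α β ax az cx cz + H * (Gq s p P q 1 α β ax az cx cz - Gq s p P q 0 α β ax az cx cz) := by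
  simp only [Gq, Es]; ring

theorem Gq_aα (s : ℝ) (hs : s * s = 1) (p P q : Cell) (H α β ax az cx cz : ℝ) : Gq s p P q H α β ax az cx cz =
    Gq s p P q H 0 β ax az cx cz + α * (Gq s p P q H 1 β ax az cx cz - Gq s p P q H 0 β ax az cx cz) := by
  simp only [Gq, Es]
  linear_combination 0 * hs

theorem Gq_aβ (s : ℝ) (hs : s * s = 1) (p P q : Cell) (H α β ax az cx cz : ℝ) : Gq s p P q H α β ax az cx cz =
    Gq s p P q H α 0 ax az cx cz + β * (Gq s p P q H α 1 ax az cx cz - Gq s p P q H α 0 ax az cx cz) := by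
  simp only [Gq, Es]
  linear_combination 0 * hs

theorem Gq_aa (s : ℝ) (p P q : Cell) (H α β ax az cx cz : ℝ) : Gq s p P q H α β ax az cx cz =
    Gq s p P q H α β 0 0 cx cz + ax * (Gq s p P q H α β 1 0 cx cz - Gq s p P q H α β 0 0 cx cz)
     + az * (Gq s p P q H α β 0 1 cx cz - Gq s p P q H α β 0 0 cx cz) := by
  simp only [Gq, Es]; ring

theorem Gq_ac (s : ℝ) (p P q : Cell) (H α β ax az cx cz : ℝ) : Gq s p P q H α β ax az cx cz =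
    Gq s p P q H α β ax az 0 0 + cx * (Gq s p P q H α β ax az 1 0 - Gq s p P q H α β ax az 0 0)
     + cz * (Gq s p P q H α β ax az 0 1 - Gq s p P q H α β ax az 0 0) := by
  simp only [Gq, Es]; ring

attribute [local irreducible] Gq

theorem q_of_chk (s : Int) (hs : (s : ℝ) * s = 1) (p P q : Cell) (h : chkQ s p P q = true)
    (H α β ax az cx cz : ℝ) (hC : (q.w : ℝ)/38025 ≤ H) (hC1 : H ≤ 1)
    (hα : (q.mx*q.x0+q.mz*q.z0)/304200 ≤ α ∧ α ≤ (q.mx*q.x2+q.mz*q.z2)/304200 ∨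
      (q.mx*q.x2+q.mz*q.z2)/304200 ≤ α ∧ α ≤ (q.mx*q.x0+q.mz*q.z0)/304200)
    (hβ : (q.mx*q.x0+q.mz*q.z0)/304200 ≤ β ∧ β ≤ (q.mx*q.x2+q.mz*q.z2)/304200 ∨
      (q.mx*q.x2+q.mz*q.z2)/304200 ≤ β ∧ β ≤ (q.mx*q.x0+q.mz*q.z0)/304200)
    (ha : InTri p ax az) (hc : InTri P cx cz) : 0 ≤ Gq s p P q H α β ax az cx cz := by
  have hv : ∀ H ∈ [q.w, 38025], ∀ b ∈ q.es, ∀ d ∈ q.es, ∀ a ∈ p.vs, ∀ c ∈ P.vs,
      0 ≤ Gq s p P q (H/38025) ((q.mx*b.1+q.mz*b.2)/304200) ((q.mx*d.1+q.mz*d.2)/304200)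
      (a.1/195) (a.2/195) (c.1/195) (c.2/195) := by
    simp only [chkQ, List.all_eq_true, decide_eq_true_eq] at h
    intro H hH b hb d hd a ha c hc
    exact Gq_vertex s p P q H a b c d (h H hH b hb d hd a ha c hc)
  have m0 : ∀ c : Cell, (c.x0, c.z0) ∈ c.vs := fun c => by simp [Cell.vs]
  have m1 : ∀ c : Cell, (c.x1, c.z1) ∈ c.vs := fun c => by simp [Cell.vs]
  have m2 : ∀ c : Cell, (c.x2, c.z2) ∈ c.vs := fun c => by simp [Cell.vs]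
  have n0 : (q.x0, q.z0) ∈ q.es := by simp [Cell.es]
  have n2 : (q.x2, q.z2) ∈ q.es := by simp [Cell.es]
  have s5 : ∀ H ∈ [q.w, 38025], ∀ b ∈ q.es, ∀ d ∈ q.es, ∀ a ∈ p.vs,
      0 ≤ Gq s p P q (H/38025) ((q.mx*b.1+q.mz*b.2)/304200) ((q.mx*d.1+q.mz*d.2)/304200)
      (a.1/195) (a.2/195) cx cz := by
    intro H hH b hb d hd a ha
    exact tri_nonneg (fun x z => Gq s p P q (H/38025) ((q.mx*b.1+q.mz*b.2)/304200)
      ((q.mx*d.1+q.mz*d.2)/304200) (a.1/195) (a.2/195) x z) _ _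
      (fun x z => Gq_ac s p P q _ _ _ _ _ x z) P cx cz hc
      (hv H hH b hb d hd a ha _ (m0 P)) (hv H hH b hb d hd a ha _ (m1 P))
      (hv H hH b hb d hd a ha _ (m2 P))
  have s4 : ∀ H ∈ [q.w, 38025], ∀ b ∈ q.es, ∀ d ∈ q.es,
      0 ≤ Gq s p P q (H/38025) ((q.mx*b.1+q.mz*b.2)/304200) ((q.mx*d.1+q.mz*d.2)/304200)
      ax az cx cz := by
    intro H hH b hb d hd
    exact tri_nonneg (fun x z => Gq s p P q (H/38025) ((q.mx*b.1+q.mz*b.2)/304200)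
      ((q.mx*d.1+q.mz*d.2)/304200) x z cx cz) _ _
      (fun x z => Gq_aa s p P q _ _ _ x z _ _) p ax az ha
      (s5 H hH b hb d hd _ (m0 p)) (s5 H hH b hb d hd _ (m1 p))
      (s5 H hH b hb d hd _ (m2 p))
  have s3 : ∀ H ∈ [q.w, 38025], ∀ b ∈ q.es,
      0 ≤ Gq s p P q (H/38025) ((q.mx*b.1+q.mz*b.2)/304200) β ax az cx cz := by
    intro H hH b hb
    rcases hβ with hβ | hβ
    · exact seg_nonneg (fun x => Gq s p P q (H/38025) ((q.mx*b.1+q.mz*b.2)/304200) x ax az cx cz)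
        _ (fun x => Gq_aβ s hs p P q _ _ x _ _ _ _) _ _ β hβ.1 hβ.2
        (s4 H hH b hb _ n0) (s4 H hH b hb _ n2)
    · exact seg_nonneg (fun x => Gq s p P q (H/38025) ((q.mx*b.1+q.mz*b.2)/304200) x ax az cx cz)
        _ (fun x => Gq_aβ s hs p P q _ _ x _ _ _ _) _ _ β hβ.1 hβ.2
        (s4 H hH b hb _ n2) (s4 H hH b hb _ n0)
  have s2 : ∀ H ∈ [q.w, 38025], 0 ≤ Gq s p P q (H/38025) α β ax az cx cz := by
    intro H hH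
    rcases hα with hα | hα
    · exact seg_nonneg (fun x => Gq s p P q (H/38025) x β ax az cx cz)
        _ (fun x => Gq_aα s hs p P q _ x _ _ _ _ _) _ _ α hα.1 hα.2 (s3 H hH _ n0) (s3 H hH _ n2)
    · exact seg_nonneg (fun x => Gq s p P q (H/38025) x β ax az cx cz)
        _ (fun x => Gq_aα s hs p P q _ x _ _ _ _ _) _ _ α hα.1 hα.2 (s3 H hH _ n2) (s3 H hH _ n0)
  have t1 := s2 q.w (by simp)
  have t2 := s2 38025 (by simp)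
  have e : ((38025 : Int) : ℝ) / 38025 = 1 := by norm_num
  rw [e] at t2
  exact seg_nonneg (fun x => Gq s p P q x α β ax az cx cz) _
    (fun x => Gq_aH s p P q x _ _ _ _ _ _) _ _ H hC hC1 t1 t2

/-- objective for equal cells on both spheres -/
noncomputable def Gb (p q : Cell) (C H α β γ δ : ℝ) : ℝ :=
  160 * Es (1 + (p.A : ℝ) / 1560 + (q.A : ℝ) / 1560) (1 + (p.A : ℝ) / 1560 + (q.A : ℝ) / 1560)
    C H α β α β ((p.mx : ℝ)/1560*((p.mx : ℝ)/1560)+(p.mz : ℝ)/1560*((p.mz : ℝ)/1560))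
    γ δ γ δ ((q.mx : ℝ)/1560*((q.mx : ℝ)/1560)+(q.mz : ℝ)/1560*((q.mz : ℝ)/1560))
    - (1 - C*H)

theorem Gb_vertex (p q : Cell) (C H : Int) (a b c d : Int × Int)
    (h : 15210 * (1445900625 - C*H) ≤
      EsI (1560 + p.A + q.A) (1560 + p.A + q.A) C H
        (p.mx*a.1+p.mz*a.2) (p.mx*c.1+p.mz*c.2) (p.mx*a.1+p.mz*a.2) (p.mx*c.1+p.mz*c.2)
        (p.mx*p.mx+p.mz*p.mz)
        (q.mx*b.1+q.mz*b.2) (q.mx*d.1+q.mz*d.2) (q.mx*b.1+q.mz*b.2) (q.mx*d.1+q.mz*d.2)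
        (q.mx*q.mx+q.mz*q.mz)) :
    0 ≤ Gb p q (C/38025) (H/38025) ((p.mx*a.1+p.mz*a.2)/304200) ((p.mx*c.1+p.mz*c.2)/304200)
     ((q.mx*b.1+q.mz*b.2)/304200) ((q.mx*d.1+q.mz*d.2)/304200) := by
  have h' : ((15210 * (1445900625 - C*H) : Int) : ℝ) ≤
    ((EsI (1560 + p.A + q.A) (1560 + p.A + q.A) C H
        (p.mx*a.1+p.mz*a.2) (p.mx*c.1+p.mz*c.2) (p.mx*a.1+p.mz*a.2) (p.mx*c.1+p.mz*c.2)
        (p.mx*p.mx+p.mz*p.mz)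
        (q.mx*b.1+q.mz*b.2) (q.mx*d.1+q.mz*d.2) (q.mx*b.1+q.mz*b.2) (q.mx*d.1+q.mz*d.2)
        (q.mx*q.mx+q.mz*q.mz) : Int) : ℝ) := by exact_mod_cast h
  rw [EsI_cast] at h'
  unfold Gb
  push_cast at h'
  have e1 : (1 + (p.A : ℝ) / 1560 + (q.A : ℝ) / 1560) = (1560 + (p.A : ℝ) + q.A) / 1560 := by ring
  have e6 : ∀ m n x y : ℝ, m/1560*(x/1560)+n/1560*(y/1560) = (m*x+n*y)/2433600 := by intros; ring
  rw [e1]
  simp only [e6]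
  linarith

theorem Gb_1 (p q : Cell) (C H α β γ δ : ℝ) : Gb p q C H α β γ δ =
    Gb p q 0 H α β γ δ + C * (Gb p q 1 H α β γ δ - Gb p q 0 H α β γ δ) := by
  simp only [Gb, Es]; ring
theorem Gb_2 (p q : Cell) (C H α β γ δ : ℝ) : Gb p q C H α β γ δ =
    Gb p q C 0 α β γ δ + H * (Gb p q C 1 α β γ δ - Gb p q C 0 α β γ δ) := by
  simp only [Gb, Es]; ring
theorem Gb_3 (p q : Cell) (C H α β γ δ : ℝ) : Gb p q C H α β γ δ =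
    Gb p q C H 0 β γ δ + α * (Gb p q C H 1 β γ δ - Gb p q C H 0 β γ δ) := by
  simp only [Gb, Es]; ring
theorem Gb_4 (p q : Cell) (C H α β γ δ : ℝ) : Gb p q C H α β γ δ =
    Gb p q C H α 0 γ δ + β * (Gb p q C H α 1 γ δ - Gb p q C H α 0 γ δ) := by
  simp only [Gb, Es]; ring
theorem Gb_5 (p q : Cell) (C H α β γ δ : ℝ) : Gb p q C H α β γ δ =
    Gb p q C H α β 0 δ + γ * (Gb p q C H α β 1 δ - Gb p q C H α β 0 δ) := by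
  simp only [Gb, Es]; ring
theorem Gb_6 (p q : Cell) (C H α β γ δ : ℝ) : Gb p q C H α β γ δ =
    Gb p q C H α β γ 0 + δ * (Gb p q C H α β γ 1 - Gb p q C H α β γ 0) := by
  simp only [Gb, Es]; ring

attribute [local irreducible] Gb

theorem b_of_chk (p q : Cell) (h : chkPQ p q = true)
    (C H α β γ δ : ℝ) (hC : (p.w : ℝ)/38025 ≤ C) (hC1 : C ≤ 1) (hH : (q.w : ℝ)/38025 ≤ H) (hH1 : H ≤ 1)
    (hα : (p.mx*p.x0+p.mz*p.z0)/304200 ≤ α ∧ α ≤ (p.mx*p.x2+p.mz*p.z2)/304200 ∨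
      (p.mx*p.x2+p.mz*p.z2)/304200 ≤ α ∧ α ≤ (p.mx*p.x0+p.mz*p.z0)/304200)
    (hβ : (p.mx*p.x0+p.mz*p.z0)/304200 ≤ β ∧ β ≤ (p.mx*p.x2+p.mz*p.z2)/304200 ∨
      (p.mx*p.x2+p.mz*p.z2)/304200 ≤ β ∧ β ≤ (p.mx*p.x0+p.mz*p.z0)/304200)
    (hγ : (q.mx*q.x0+q.mz*q.z0)/304200 ≤ γ ∧ γ ≤ (q.mx*q.x2+q.mz*q.z2)/304200 ∨
      (q.mx*q.x2+q.mz*q.z2)/304200 ≤ γ ∧ γ ≤ (q.mx*q.x0+q.mz*q.z0)/304200)
    (hδ : (q.mx*q.x0+q.mz*q.z0)/304200 ≤ δ ∧ δ ≤ (q.mx*q.x2+q.mz*q.z2)/304200 ∨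
      (q.mx*q.x2+q.mz*q.z2)/304200 ≤ δ ∧ δ ≤ (q.mx*q.x0+q.mz*q.z0)/304200) :
    0 ≤ Gb p q C H α β γ δ := by
  have hv : ∀ C ∈ [p.w, 38025], ∀ H ∈ [q.w, 38025], ∀ a ∈ p.es, ∀ c ∈ p.es, ∀ b ∈ q.es, ∀ d ∈ q.es,
      0 ≤ Gb p q (C/38025) (H/38025) ((p.mx*a.1+p.mz*a.2)/304200) ((p.mx*c.1+p.mz*c.2)/304200)
     ((q.mx*b.1+q.mz*b.2)/304200) ((q.mx*d.1+q.mz*d.2)/304200) := by
    simp only [chkPQ, List.all_eq_true, decide_eq_true_eq] at h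
    intro C hC H hH a ha c hc b hb d hd
    exact Gb_vertex p q C H a b c d (h C hC H hH a ha c hc b hb d hd)
  have n0 : (q.x0, q.z0) ∈ q.es := by simp [Cell.es]
  have n2 : (q.x2, q.z2) ∈ q.es := by simp [Cell.es]
  have o0 : (p.x0, p.z0) ∈ p.es := by simp [Cell.es]
  have o2 : (p.x2, p.z2) ∈ p.es := by simp [Cell.es]
  have s6 : ∀ C ∈ [p.w, 38025], ∀ H ∈ [q.w, 38025], ∀ a ∈ p.es, ∀ c ∈ p.es, ∀ b ∈ q.es,
      0 ≤ Gb p q (C/38025) (H/38025) ((p.mx*a.1+p.mz*a.2)/304200) ((p.mx*c.1+p.mz*c.2)/304200)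
     ((q.mx*b.1+q.mz*b.2)/304200) δ := by
    intro C hC H hH a ha c hc b hb
    rcases hδ with hδ | hδ
    · exact seg_nonneg (fun x => Gb p q (C/38025) (H/38025) ((p.mx*a.1+p.mz*a.2)/304200)
        ((p.mx*c.1+p.mz*c.2)/304200) ((q.mx*b.1+q.mz*b.2)/304200) x)
        _ (fun x => Gb_6 p q _ _ _ _ _ x) _ _ δ hδ.1 hδ.2
        (hv C hC H hH a ha c hc b hb _ n0) (hv C hC H hH a ha c hc b hb _ n2)
    · exact seg_nonneg (fun x => Gb p q (C/38025) (H/38025) ((p.mx*a.1+p.mz*a.2)/304200)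
        ((p.mx*c.1+p.mz*c.2)/304200) ((q.mx*b.1+q.mz*b.2)/304200) x)
        _ (fun x => Gb_6 p q _ _ _ _ _ x) _ _ δ hδ.1 hδ.2
        (hv C hC H hH a ha c hc b hb _ n2) (hv C hC H hH a ha c hc b hb _ n0)
  have s5 : ∀ C ∈ [p.w, 38025], ∀ H ∈ [q.w, 38025], ∀ a ∈ p.es, ∀ c ∈ p.es,
      0 ≤ Gb p q (C/38025) (H/38025) ((p.mx*a.1+p.mz*a.2)/304200) ((p.mx*c.1+p.mz*c.2)/304200) γ δ := by
    intro C hC H hH a ha c hc
    rcases hγ with hγ | hγ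
    · exact seg_nonneg (fun x => Gb p q (C/38025) (H/38025) ((p.mx*a.1+p.mz*a.2)/304200)
        ((p.mx*c.1+p.mz*c.2)/304200) x δ)
        _ (fun x => Gb_5 p q _ _ _ _ x _) _ _ γ hγ.1 hγ.2
        (s6 C hC H hH a ha c hc _ n0) (s6 C hC H hH a ha c hc _ n2)
    · exact seg_nonneg (fun x => Gb p q (C/38025) (H/38025) ((p.mx*a.1+p.mz*a.2)/304200)
        ((p.mx*c.1+p.mz*c.2)/304200) x δ)
        _ (fun x => Gb_5 p q _ _ _ _ x _) _ _ γ hγ.1 hγ.2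
        (s6 C hC H hH a ha c hc _ n2) (s6 C hC H hH a ha c hc _ n0)
  have s4 : ∀ C ∈ [p.w, 38025], ∀ H ∈ [q.w, 38025], ∀ a ∈ p.es,
      0 ≤ Gb p q (C/38025) (H/38025) ((p.mx*a.1+p.mz*a.2)/304200) β γ δ := by
    intro C hC H hH a ha
    rcases hβ with hβ | hβ
    · exact seg_nonneg (fun x => Gb p q (C/38025) (H/38025) ((p.mx*a.1+p.mz*a.2)/304200) x γ δ)
        _ (fun x => Gb_4 p q _ _ _ x _ _) _ _ β hβ.1 hβ.2
        (s5 C hC H hH a ha _ o0) (s5 C hC H hH a ha _ o2)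
    · exact seg_nonneg (fun x => Gb p q (C/38025) (H/38025) ((p.mx*a.1+p.mz*a.2)/304200) x γ δ)
        _ (fun x => Gb_4 p q _ _ _ x _ _) _ _ β hβ.1 hβ.2
        (s5 C hC H hH a ha _ o2) (s5 C hC H hH a ha _ o0)
  have s3 : ∀ C ∈ [p.w, 38025], ∀ H ∈ [q.w, 38025],
      0 ≤ Gb p q (C/38025) (H/38025) α β γ δ := by
    intro C hC H hH
    rcases hα with hα | hα
    · exact seg_nonneg (fun x => Gb p q (C/38025) (H/38025) x β γ δ)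
        _ (fun x => Gb_3 p q _ _ x _ _ _) _ _ α hα.1 hα.2
        (s4 C hC H hH _ o0) (s4 C hC H hH _ o2)
    · exact seg_nonneg (fun x => Gb p q (C/38025) (H/38025) x β γ δ)
        _ (fun x => Gb_3 p q _ _ x _ _ _) _ _ α hα.1 hα.2
        (s4 C hC H hH _ o2) (s4 C hC H hH _ o0)
  have e : ((38025 : Int) : ℝ) / 38025 = 1 := by norm_num
  have s2 : ∀ C ∈ [p.w, 38025], 0 ≤ Gb p q (C/38025) H α β γ δ := by
    intro C hC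
    have t1 := s3 C hC q.w (by simp)
    have t2 := s3 C hC 38025 (by simp)
    rw [e] at t2
    exact seg_nonneg (fun x => Gb p q (C/38025) x α β γ δ) _
      (fun x => Gb_2 p q _ x _ _ _ _) _ _ H hH hH1 t1 t2
  have t1 := s2 p.w (by simp)
  have t2 := s2 38025 (by simp)
  rw [e] at t2
  exact seg_nonneg (fun x => Gb p q x H α β γ δ) _
    (fun x => Gb_1 p q x _ _ _ _ _) _ _ C hC hC1 t1 t2

end H62.EC
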